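import Pool.Agent.H670R3.Stm

/-!
Assembly: correctness of the reduction, from the statements of the steps.
-/

namespace Pool.Agent.H670R3

open Pool.Agent.NPC Pool.Agent.H670R2 Pool.Agent.H670R2.Sl

theorem fgr_length (Λ : Lay) : (fgr Λ).length = nCore Λ.nb Λ.ng * 157 := adjLists_length _ _

theorem adj_symm {Λ : Lay} {a b : CV × ℕ} (h : Adj Λ a b) : Adj Λ b a := h.symm

theorem Adj.live {Λ : Lay} {a b : CV × ℕ} (h : Adj Λ a b) : Live Λ a ∧ Live Λ b :=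
  ⟨⟨_, h⟩, ⟨_, adj_symm h⟩⟩

/-- adjacency in the lists -/
theorem mem_fgr (hl : St_list) {Λ : Lay} (hΛ : Λ.Ok) {u v : ℕ} (hu : u < (fgr Λ).length) :
    v ∈ (fgr Λ).getD u [] ↔ ∃ a b, Adj Λ a b ∧ u = Λ.code a ∧ v = Λ.code b := by
  rw [fgr_length] at hu
  rw [fgr, mem_adjLists hu]
  constructor
  · rintro ⟨hv, h | h⟩
    · obtain ⟨a, b, hab, he⟩ := (hl.mem Λ hΛ _).1 h
      simp only [Prod.mk.injEq] at he
      exact ⟨a, b, Or.inl hab, he.1, he.2⟩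
    · obtain ⟨a, b, hab, he⟩ := (hl.mem Λ hΛ _).1 h
      simp only [Prod.mk.injEq] at he
      exact ⟨b, a, Or.inr hab, he.2, he.1⟩
  · rintro ⟨a, b, h, rfl, rfl⟩
    refine ⟨hl.lt Λ hΛ b h.live.2, ?_⟩
    rcases h with h | h
    · exact Or.inl ((hl.mem Λ hΛ _).2 ⟨a, b, h, rfl⟩)
    · exact Or.inr ((hl.mem Λ hΛ _).2 ⟨b, a, h, rfl⟩)

theorem isGraph_fgr (hl : St_list) {Λ : Lay} (hΛ : Λ.Ok) : IsGraph (fgr Λ) := by
  intro u v hu hv
  obtain ⟨a, b, h, rfl, rfl⟩ := (mem_fgr hl hΛ hu).1 hv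
  have hb : Λ.code b < (fgr Λ).length := by rw [fgr_length]; exact hl.lt Λ hΛ b h.live.2
  refine ⟨hb, ?_, ?_⟩
  · intro he
    exact hl.ne Λ hΛ a b h (hl.inj Λ hΛ a b h.live.1 h.live.2 he.symm)
  · exact (mem_fgr hl hΛ hb).2 ⟨b, a, adj_symm h, rfl, rfl⟩

/-- positions for the numbers, from positions of the vertices -/
theorem exists_pos (hl : St_list) {Λ : Lay} (hΛ : Λ.Ok) (P : CV × ℕ → ℝ × ℝ) :
    ∃ p : ℕ → ℝ × ℝ, ∀ a, Live Λ a → p (Λ.code a) = P a := by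
  classical
  refine ⟨fun n => if h : ∃ a, Live Λ a ∧ Λ.code a = n then P h.choose else 0, ?_⟩
  intro a ha
  have h : ∃ b, Live Λ b ∧ Λ.code b = Λ.code a := ⟨a, ha, rfl⟩
  dsimp only
  rw [dif_pos h, hl.inj Λ hΛ _ _ h.choose_spec.1 ha h.choose_spec.2]

theorem live_of_ne (hl : St_list) {Λ : Lay} (hΛ : Λ.Ok) {u : ℕ} (hu : u < (fgr Λ).length)
    (h : (fgr Λ).getD u [] ≠ []) : ∃ a, Live Λ a ∧ u = Λ.code a := by
  obtain ⟨v, hv⟩ := List.exists_mem_of_ne_nil _ h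
  obtain ⟨a, b, hab, h1, -⟩ := (mem_fgr hl hΛ hu).1 hv
  exact ⟨a, hab.live.1, h1⟩

/-- the graph has a drawing with large angles if there is a good product grid -/
theorem drawing_of_rel (hl : St_list) (hcv : St_conv) (hcg : St_corg) (hca : St_cora)
    (hg : St_gadget) (h1 : St_glue1) (h3 : St_glue3) {Λ : Lay} (hΛ : Λ.Ok) {X Y : ℕ → ℝ}
    (hR : Rel Λ X Y) : HasDrawing (Real.pi / (2 * (3 : ℕ))) (graphOf (fgr Λ) (isGraph_fgr hl hΛ)) := by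
  obtain ⟨hC, hA⟩ := hca hcg Λ X Y hΛ hR
  obtain ⟨e1, he1, H1⟩ := h1 Λ _ _ _ _ hΛ hC hg.a
  obtain ⟨e3, he3, H3⟩ := h3 Λ _ _ _ _ hΛ hC hg.a hg.aa (fun _ => rfl) hA
  have hm : 0 < min e1 e3 := lt_min he1 he3
  obtain ⟨H1a, H1b⟩ := H1 (min e1 e3 / 2) (by linarith)
    (by linarith [min_le_left e1 e3])
  have H3' := H3 (min e1 e3 / 2) (by linarith) (by linarith [min_le_right e1 e3])
  obtain ⟨p, hp⟩ := exists_pos hl hΛ (place Λ (qc Λ X Y) (mA Λ X Y) (mB' Λ X Y)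
    (fun x => rv (gA x)) (min e1 e3 / 2))
  refine hcv.wd _ _ p ?_ ?_ ?_
  · intro u hu v hv hun hvn huv
    obtain ⟨a, ha, rfl⟩ := live_of_ne hl hΛ hu hun
    obtain ⟨b, hb, rfl⟩ := live_of_ne hl hΛ hv hvn
    rw [hp a ha, hp b hb] at huv
    rw [H1a a b ha hb huv]
  · intro u hu v hv w hw hwn hwu hwv
    obtain ⟨a, b, hab, rfl, rfl⟩ := (mem_fgr hl hΛ hu).1 hv
    obtain ⟨c, hc, rfl⟩ := live_of_ne hl hΛ hw hwn
    rw [hp a hab.live.1, hp b hab.live.2, hp c hc]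
    exact H1b a b c hab hc (by rintro rfl; exact hwu rfl) (by rintro rfl; exact hwv rfl)
  · intro v hv u hu w hw huw
    obtain ⟨a, b, hab, rfl, rfl⟩ := (mem_fgr hl hΛ hv).1 hu
    obtain ⟨a', c, hac, h4, rfl⟩ := (mem_fgr hl hΛ hv).1 hw
    have := hl.inj Λ hΛ a a' hab.live.1 hac.live.1 h4
    subst this
    rw [hp a hab.live.1, hp b hab.live.2, hp c hac.live.2]
    exact H3' a b c hab hac (by rintro rfl; exact huw rfl)

/-- the graph is planar -/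
theorem planar_fgr (hl : St_list) (hcv : St_conv) (hcg : St_corg)
    (hg : St_gadget) (h1 : St_glue1) (h2 : St_glue2) {Λ : Lay} (hΛ : Λ.Ok) :
    IsPlanar (graphOf (fgr Λ) (isGraph_fgr hl hΛ)) := by
  have hmono : StrictMono (fun n : ℕ => (n : ℝ)) := Nat.strictMono_cast
  obtain ⟨hC, hX⟩ := hcg Λ _ _ hΛ hmono hmono
  obtain ⟨e1, he1, H1⟩ := h1 Λ _ _ _ _ hΛ hC hg.b
  obtain ⟨e2, he2, H2⟩ := h2 Λ _ _ _ _ hΛ hC hX hg.b hg.bb
  have hm : 0 < min e1 e2 := lt_min he1 he2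
  obtain ⟨H1a, H1b⟩ := H1 (min e1 e2 / 2) (by linarith)
    (by linarith [min_le_left e1 e2])
  have H2' := H2 (min e1 e2 / 2) (by linarith) (by linarith [min_le_right e1 e2])
  obtain ⟨p, hp⟩ := exists_pos hl hΛ (place Λ (qc Λ (fun n : ℕ => (n : ℝ)) fun n : ℕ => (n : ℝ))
    (mA Λ (fun n : ℕ => (n : ℝ)) fun n : ℕ => (n : ℝ))
    (mB Λ (fun n : ℕ => (n : ℝ)) fun n : ℕ => (n : ℝ)) (fun x => rv (gB x)) (min e1 e2 / 2))
  refine hcv.pl _ _ p ?_ ?_ ?_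
  · intro u hu v hv hun hvn huv
    obtain ⟨a, ha, rfl⟩ := live_of_ne hl hΛ hu hun
    obtain ⟨b, hb, rfl⟩ := live_of_ne hl hΛ hv hvn
    rw [hp a ha, hp b hb] at huv
    rw [H1a a b ha hb huv]
  · intro u hu v hv w hw hwn hwu hwv
    obtain ⟨a, b, hab, rfl, rfl⟩ := (mem_fgr hl hΛ hu).1 hv
    obtain ⟨c, hc, rfl⟩ := live_of_ne hl hΛ hw hwn
    rw [hp a hab.live.1, hp b hab.live.2, hp c hc]
    exact H1b a b c hab hc (by rintro rfl; exact hwu rfl) (by rintro rfl; exact hwv rfl)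
  · intro u hu v hv u' hu' v' hv' n1 n2 n3 n4
    obtain ⟨a, b, hab, rfl, rfl⟩ := (mem_fgr hl hΛ hu).1 hv
    obtain ⟨c, d, hcd, rfl, rfl⟩ := (mem_fgr hl hΛ hu').1 hv'
    rw [hp a hab.live.1, hp b hab.live.2, hp c hcd.live.1, hp d hcd.live.2]
    exact H2' a b c d hab hcd (by rintro rfl; exact n1 rfl) (by rintro rfl; exact n2 rfl)
      (by rintro rfl; exact n3 rfl) (by rintro rfl; exact n4 rfl)

/-- a drawing with large angles gives coordinates of the grid -/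
theorem grd_of_drawing (hl : St_list) (hcv : St_conv) (hgs : St_gsound) (hco : St_core)
    (hgr : St_grid) {Λ : Lay} (hΛ : Λ.Ok)
    (h : HasDrawing (Real.pi / (2 * (3 : ℕ))) (graphOf (fgr Λ) (isGraph_fgr hl hΛ))) :
    ∃ x y, Grd Λ x y := by
  obtain ⟨p, hp1, hp2⟩ := hcv.dw _ _ h
  have hlt : ∀ a, Live Λ a → Λ.code a < (fgr Λ).length := by
    intro a ha
    rw [fgr_length]; exact hl.lt Λ hΛ a ha
  have hD : Dw Λ fun a => p (Λ.code a) := by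
    constructor
    · intro a b hab he
      have h1 := hp1 _ (hlt a hab.live.1) _ (hlt b hab.live.2) he
      exact hl.ne Λ hΛ a b hab (hl.inj Λ hΛ a b hab.live.1 hab.live.2 h1)
    · intro a b c hab hac hbc
      refine hp2 _ (hlt a hab.live.1) _ ?_ _ ?_ ?_
      · exact (mem_fgr hl hΛ (hlt a hab.live.1)).2 ⟨a, b, hab, rfl, rfl⟩
      · exact (mem_fgr hl hΛ (hlt a hab.live.1)).2 ⟨a, c, hac, rfl, rfl⟩
      · intro he
        exact hbc (hl.inj Λ hΛ b c hab.live.2 hac.live.2 he)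
  exact hgr Λ _ hΛ (hco hgs Λ _ hΛ hD)

end Pool.Agent.H670R3
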