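import Pool.Agent.H670R3.Stm
import Pool.Agent.H670R2.PolyRed
import Pool.Agent.H670R2.SlPoly

/-!
# Statements of the steps, continued: complexity
-/

namespace Pool.Agent.H670R3

open Pool.Agent.NPC Pool.Agent.NPC.ER Pool.Agent.H670R2 Pool.Agent.H670R2.Sl

/-- the graph is computable in polynomial time -/
def St_poly1 : Prop := ∀ (α : Type) (_ : TEnc α) (I : α → Sy), UPoly (fun a => (I a).1) →
  Poly I → Poly (fun a => fgr (lay (I a)))

/-- the system is computable in polynomial time -/
def St_poly2 : Prop := ∀ (α : Type) (_ : TEnc α) (W : α → ℕ) (cs : α → List Pc), UPoly W →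
  Poly cs → UPoly (fun a => (syOf (W a) (cs a)).1) ∧ Poly (fun a => syOf (W a) (cs a))

/-- membership -/
def St_mem : Prop := InER PLANARAR

end Pool.Agent.H670R3
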