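import Pool.Agent.H670R3.Asm
import Pool.Agent.H670R3.Stm2

/-!
Assembly: hardness.
-/

namespace Pool.Agent.H670R3

open Pool.Agent.NPC Pool.Agent.NPC.ER Pool.Agent.H670R2 Pool.Agent.H670R2.Sl

/-- all the steps -/
structure AllSteps : Prop where
  list : St_list
  conv : St_conv
  gsound : St_gsound
  core : St_core
  grid : St_grid
  layok : St_layok
  sat : St_sat
  xy : St_xy
  corg : St_corg
  cora : St_cora
  gad : St_gadget
  g1 : St_glue1
  g2 : St_glue2
  g3 : St_glue3
  ar : St_arith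
  p1 : St_poly1
  p2 : St_poly2

/-- the graph for positive constraints -/
def grOf (W : ℕ) (cs : List Pc) : List (List ℕ) := fgr (lay (syOf W cs))

theorem grOf_correct (H : AllSteps) {W : ℕ} {cs : List Pc} (hW : 0 < W)
    (hc : ∀ c ∈ cs, c.below W) : ∃ h : IsGraph (grOf W cs), IsPlanar (graphOf _ h) ∧
      ((∃ x : ℕ → ℝ, (∀ i < W, 0 < x i) ∧ x 0 = 1 ∧ ∀ c ∈ cs, c.holds x) ↔
        HasDrawing (Real.pi / (2 * (3 : ℕ))) (graphOf _ h)) := by
  have hI := H.ar.ok W cs hW hc
  have hΛ := H.layok _ hI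
  refine ⟨isGraph_fgr H.list hΛ, planar_fgr H.list H.conv H.corg H.gad H.g1 H.g2 hΛ, ?_, ?_⟩
  · rintro ⟨x, hx, hx0, hx1⟩
    obtain ⟨v, hv, hs, hg⟩ := H.ar.sat W cs hW hc x hx hx0 hx1
    obtain ⟨X, Y, hR⟩ := H.xy _ hI v hv hs hg
    exact drawing_of_rel H.list H.conv H.corg H.cora H.gad H.g1 H.g3 hΛ hR
  · intro h
    obtain ⟨x, y, hG⟩ := grd_of_drawing H.list H.conv H.gsound H.core H.grid hΛ h
    obtain ⟨v, hv⟩ := H.sat _ hI x y hG
    exact H.ar.sol W cs hW hc v hv

/-- the reduction from systems of equations -/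
def redG (m : ℕ) (es : List EC) : List (List ℕ) := grOf (posW m es) (posS m es)

theorem redG_correct (H : AllSteps) {m : ℕ} {es : List EC} (hb : ∀ e ∈ es, e.below m) :
    ∃ h : IsGraph (redG m es), IsPlanar (graphOf _ h) ∧
      ((∃ x : ℕ → ℝ, ∀ e ∈ es, e.holds x) ↔
        HasDrawing (Real.pi / (2 * (3 : ℕ))) (graphOf _ h)) := by
  obtain ⟨h, h1, h2⟩ := grOf_correct H (W := posW m es) (cs := posS m es)
    (by unfold posW; omega) (posS_below hb)
  exact ⟨h, h1, (posS_correct hb).trans h2⟩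

end Pool.Agent.H670R3

namespace Pool.Agent.NPC.H670R2

open Pool.Agent.NPC Pool.Agent.NPC.ER Pool.Agent.H670R2 Pool.Agent.H670R2.Sl Pool.Agent.H670R3

variable {α : Type} [TEnc α]

theorem poly_redG (H : AllSteps) {m : α → ℕ} {es : α → List EC} (hm : UPoly m) (he : Poly es) :
    Poly (fun a => redG (m a) (es a)) := by
  have h1 := H.p2 α inferInstance (fun a => posW (m a) (es a)) (fun a => posS (m a) (es a))
    (upoly_posW hm he) (poly_posS hm he)
  exact H.p1 α inferInstance _ h1.1 h1.2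

theorem planar_hard (H : AllSteps) : ERHard PLANARAR := by
  refine ERHard.of_sys (P := fun x : List (List ℕ) × ℕ => ∃ h : IsGraph x.1, 2 ≤ x.2 ∧
    IsPlanar (graphOf x.1 h) ∧ HasDrawing (Real.pi / (2 * x.2)) (graphOf x.1 h))
    (f := fun S => (redG (occ S).length (norm S), 3))
    (Poly.pair (poly_redG H (UPoly.length (poly_occ Poly.id)) (poly_norm Poly.id))
      (Poly.const 3)) ?_
  intro S
  obtain ⟨h, h1, h2⟩ := redG_correct H (norm_below S)
  rw [norm_sat, h2]
  constructor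
  · intro h3
    exact ⟨h, by norm_num, h1, h3⟩
  · rintro ⟨_, _, _, h3⟩
    exact h3

theorem pi_six : Real.pi / (2 * (3 : ℕ)) = Real.pi / 6 := by
  push_cast
  norm_num

/-- every problem of the class reduces to planar graphs with the fixed threshold `π / 6` -/
theorem planar_hard6 (H : AllSteps) (L : Set (List Bool)) (hL : InER L) :
    ∃ f : List Bool → List (List ℕ), PolyTime (fun w => bits (f w)) ∧
      ∀ w, ∃ h : IsGraph (f w), IsPlanar (graphOf (f w) h) ∧
        (w ∈ L ↔ HasDrawing (Real.pi / 6) (graphOf (f w) h)) := by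
  obtain ⟨g, hg, hL⟩ := hL
  obtain ⟨F, hF⟩ : ∃ F : List Con → List (List ℕ),
      F = fun S => redG (occ S).length (norm S) := ⟨_, rfl⟩
  have h1 : PC (id : List Bool → List Bool) (bits : Fm → List Bool) g :=
    Pool.Agent.H642R2.TMSim.polyTime_toPC hg
  have hp : Pool.Agent.NPC.Poly F := by
    rw [hF]
    exact poly_redG H (UPoly.length (poly_occ Poly.id)) (poly_norm Poly.id)
  have h2 : Pool.Agent.NPC.Poly (fun φ : Fm => F (sysOf φ)) :=
    Pool.Agent.NPC.Poly.comp hp (poly_sysOf Pool.Agent.NPC.Poly.id)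
  have h3 : PC (id : List Bool → List Bool) (bits : List (List ℕ) → List Bool)
      (fun x => F (sysOf (g x))) :=
    PC.comp (g := fun φ : Fm => F (sysOf φ)) (eb := (bits : Fm → List Bool)) h2 h1
  have h4 : PC (id : List Bool → List Bool) (id : List Bool → List Bool)
      (fun x => bits (F (sysOf (g x)))) := h3
  refine ⟨fun x => F (sysOf (g x)), PC.toPolyTime h4, fun x => ?_⟩
  have hFx : F (sysOf (g x)) = redG (occ (sysOf (g x))).length (norm (sysOf (g x))) := by rw [hF]
  dsimp only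
  rw [hFx]
  obtain ⟨h, h5, h6⟩ := redG_correct H (norm_below (sysOf (g x)))
  refine ⟨h, h5, ?_⟩
  rw [hL, ← sat_sysOf, norm_sat, h6, pi_six]

end Pool.Agent.NPC.H670R2
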