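import Pool.Agent.H670R3.Lay

/-!
Two drawings of the gadget with integer coordinates: `gA` (all angles at least thirty degrees in the
metric `x ^ 2 + 3 y ^ 2`) and `gB` (without crossings).
-/

namespace Pool.Agent.H670R3

def gAl : List (ℤ × ℤ) :=
  [(0, 0), (272, 0), (332, 0), (362, 30), (332, 60), (272, 60), (242, 30), (362, -30),
    (332, -60), (272, -60), (242, -30), (57, 19), (215, 19), (294, 98), (215, 177), (57, 177),
    (-22, 98), (294, -60), (215, -139), (57, -139), (-22, -60), (389, 19), (48, 22), (56, 19),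
    (227, 23), (51, -17), (221, -17), (306, 68), (221, 153), (51, 153), (-34, 68), (306, -102),
    (221, -187), (51, -187), (-34, -102), (383, -17), (48, -18), (47, -17), (224, -18), (338, 0),
    (0, 162), (0, 280), (-177, 339), (-354, 280), (-354, 162), (-177, 103), (177, 339),
    (354, 280), (354, 162), (177, 103), (-36, 36), (-36, 126), (-171, 171), (-306, 126),
    (-306, 36), (-171, -9), (99, 171), (234, 126), (234, 36), (99, -9), (-36, 316), (-57, 15),
    (-36, 33), (-45, 135), (12, 12), (12, 150), (-195, 219), (-402, 150), (-402, 12),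
    (-195, -57), (219, 219), (426, 150), (426, 12), (219, -57), (12, 292), (30, -6), (12, 10),
    (15, 153), (0, 286), (-290, 0), (-374, 0), (-416, -42), (-374, -84), (-290, -84),
    (-248, -42), (-416, 42), (-374, 84), (-290, 84), (-248, 42), (-108, -36), (-182, -36),
    (-219, -73), (-182, -110), (-108, -110), (-71, -73), (-219, 1), (-182, 38), (-108, 38),
    (-71, 1), (-482, -36), (-96, -40), (-107, -36), (-188, -38), (-93, 31), (-197, 31),
    (-249, -21), (-197, -73), (-93, -73), (-41, -21), (-249, 83), (-197, 135), (-93, 135),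
    (-41, 83), (-467, 31), (-81, 35), (-91, 31), (-221, 39), (-376, 0), (0, -286), (0, -352),
    (99, -385), (198, -352), (198, -286), (99, -253), (-99, -385), (-198, -352), (-198, -286),
    (-99, -253), (111, -111), (111, -175), (207, -207), (303, -175), (303, -111), (207, -79),
    (15, -207), (-81, -175), (-81, -111), (15, -79), (111, -463), (123, -99), (111, -106),
    (126, -190), (-105, -105), (-105, -181), (9, -219), (123, -181), (123, -105), (9, -67),
    (-219, -219), (-333, -181), (-333, -105), (-219, -67), (-105, -457), (-111, -99),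
    (-105, -100), (-111, -187), (0, -356)]

def gBl : List (ℤ × ℤ) :=
  [(0, 0), (70, 0), (90, 0), (80, 1), (80, 2), (80, 3), (80, 4), (80, -1), (80, -2), (80, -3),
    (80, -4), (30, 10), (40, 10), (35, 11), (35, 12), (35, 13), (35, 14), (35, 9), (35, 8),
    (35, 7), (35, 6), (120, 10), (27, 13), (30, 13), (40, 13), (30, -10), (40, -10), (35, -9),
    (35, -8), (35, -7), (35, -6), (35, -11), (35, -12), (35, -13), (35, -14), (120, -10),
    (27, -13), (30, -13), (40, -13), (95, 0), (0, 70), (0, 90), (-3, 80), (-6, 80), (-9, 80),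
    (-12, 80), (3, 80), (6, 80), (9, 80), (12, 80), (-30, 30), (-30, 40), (-33, 35), (-36, 35),
    (-39, 35), (-42, 35), (-27, 35), (-24, 35), (-21, 35), (-18, 35), (-30, 120), (-39, 27),
    (-39, 30), (-39, 40), (30, 30), (30, 40), (27, 35), (24, 35), (21, 35), (18, 35), (33, 35),
    (36, 35), (39, 35), (42, 35), (30, 120), (39, 27), (39, 30), (39, 40), (0, 95), (-70, 0),
    (-90, 0), (-80, -1), (-80, -2), (-80, -3), (-80, -4), (-80, 1), (-80, 2), (-80, 3), (-80, 4),
    (-30, -10), (-40, -10), (-35, -11), (-35, -12), (-35, -13), (-35, -14), (-35, -9), (-35, -8),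
    (-35, -7), (-35, -6), (-120, -10), (-27, -13), (-30, -13), (-40, -13), (-30, 10), (-40, 10),
    (-35, 9), (-35, 8), (-35, 7), (-35, 6), (-35, 11), (-35, 12), (-35, 13), (-35, 14),
    (-120, 10), (-27, 13), (-30, 13), (-40, 13), (-95, 0), (0, -70), (0, -90), (3, -80),
    (6, -80), (9, -80), (12, -80), (-3, -80), (-6, -80), (-9, -80), (-12, -80), (30, -30),
    (30, -40), (33, -35), (36, -35), (39, -35), (42, -35), (27, -35), (24, -35), (21, -35),
    (18, -35), (30, -120), (39, -27), (39, -30), (39, -40), (-30, -30), (-30, -40), (-27, -35),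
    (-24, -35), (-21, -35), (-18, -35), (-33, -35), (-36, -35), (-39, -35), (-42, -35),
    (-30, -120), (-39, -27), (-39, -30), (-39, -40), (0, -95)]

def gA (x : ℕ) : ℤ × ℤ := gAl.getD x (0, 0)

def gB (x : ℕ) : ℤ × ℤ := gBl.getD x (0, 0)

end Pool.Agent.H670R3
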