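import Pool.Agent.H670R2.SlDir

/-!
Planar geometry: inner product, quarter turn, frames of twelve directions.
-/

namespace Pool.Agent.H670R3

open Pool.Agent.H670R2.Sl

/-- inner product -/
def dt (a b : ℝ × ℝ) : ℝ := a.1 * b.1 + a.2 * b.2

/-- quarter turn -/
def J (v : ℝ × ℝ) : ℝ × ℝ := (-v.2, v.1)

/-- `a` and `b` (nonzero) make an angle of at least thirty degrees -/
def Ang (a b : ℝ × ℝ) : Prop := dt a b ≤ 0 ∨ 4 * dt a b ^ 2 ≤ 3 * (dt a a * dt b b)

/-- `b` is a positive multiple of `a` -/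
def Pp (a b : ℝ × ℝ) : Prop := ∃ s : ℝ, 0 < s ∧ b = s • a

/-- cosine of `z` times thirty degrees -/
noncomputable def cs (z : ZMod (2 * 6)) : ℝ := Real.cos (z.val * (Real.pi / 6))

/-- sine of `z` times thirty degrees -/
noncomputable def sn (z : ZMod (2 * 6)) : ℝ := Real.sin (z.val * (Real.pi / 6))

/-- `f` turned by `z` times thirty degrees -/
noncomputable def fe (f : ℝ × ℝ) (z : ZMod (2 * 6)) : ℝ × ℝ := cs z • f + sn z • J f

end Pool.Agent.H670R3
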