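import Pool.Agent.H670R3.Geo

/-!
# The graphs of the reduction

* A *layout* consists of `nb` times `ng` blocks of six times six unit cells of a grid; a block of
  type `t ≠ 0` has a rectangular hole.
* The *core graph* (vertices `CV`, edges with port numbers `CE`) is the grid without the interiors
  of the holes, together with one vertex `hub i j` in each hole that is joined to four vertices on
  the boundary of the hole (the *plain* vertices).  All other vertices are *hubs*.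
* In the final graph (vertices `CV × ℕ`, edges `FE`) each hub is replaced by a copy of a gadget
  with 157 vertices and four ports.
-/

namespace Pool.Agent.H670R3

/-! ### Holes

types of blocks: `0` no hole, `1` rows 1–3, columns 1–3; `2` rows 1–3, columns 3–5; `3` rows 1–3,
columns 1–5; `4` rows 3–5, columns 1–3; `5` rows 1–5, columns 1–5.  The four plain vertices are
`A = (r0, c0)`, `B = (r0, cB)`, `C = (rC, c1)`, `D = (r1, c0)`. -/

def hr0 (t : ℕ) : ℕ := if t = 4 then 3 else 1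
def hrC (t : ℕ) : ℕ := if t = 4 then 5 else 3
def hr1 (t : ℕ) : ℕ := if t = 4 then 5 else if t = 5 then 5 else 3
def hc0 (t : ℕ) : ℕ := if t = 2 then 3 else 1
def hcB (t : ℕ) : ℕ := if t = 2 then 5 else if t = 3 then 5 else 3
def hc1 (t : ℕ) : ℕ := if t = 2 then 5 else if t = 3 then 5 else if t = 5 then 5 else 3

/-- the edge from `(ρ, γ)` to `(ρ, γ + 1)` is missing -/
def hAbs (t ρ γ : ℕ) : Bool := decide (t ≠ 0 ∧ hr0 t < ρ ∧ ρ < hr1 t ∧ hc0 t ≤ γ ∧ γ < hc1 t)

/-- the edge from `(ρ, γ)` to `(ρ + 1, γ)` is missing -/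
def vAbs (t ρ γ : ℕ) : Bool := decide (t ≠ 0 ∧ hc0 t < γ ∧ γ < hc1 t ∧ hr0 t ≤ ρ ∧ ρ < hr1 t)

/-- plain vertices -/
def isPl (t ρ γ : ℕ) : Bool := decide (t ≠ 0 ∧ ((ρ = hr0 t ∧ γ = hc0 t) ∨ (ρ = hr0 t ∧ γ = hcB t) ∨
  (ρ = hrC t ∧ γ = hc1 t) ∨ (ρ = hr1 t ∧ γ = hc0 t)))

/-- points in the interior of the hole -/
def isIn (t ρ γ : ℕ) : Bool := decide (t ≠ 0 ∧ hr0 t < ρ ∧ ρ < hr1 t ∧ hc0 t < γ ∧ γ < hc1 t)

/-- hubs of the grid -/
def isHb (t ρ γ : ℕ) : Bool := !isPl t ρ γ && !isIn t ρ γ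

/-! ### Layouts and the core graph -/

/-- A layout: `nb` bands of rows, `ng` groups of columns, types of the blocks. -/
structure Lay where
  nb : ℕ
  ng : ℕ
  T : ℕ → ℕ → ℕ

/-- All types are at most `5`, and there are no holes outside. -/
structure Lay.Ok (Λ : Lay) : Prop where
  nb : 0 < Λ.nb
  ng : 0 < Λ.ng
  le : ∀ i j, Λ.T i j ≤ 5
  out : ∀ i j, Λ.nb ≤ i ∨ Λ.ng ≤ j → Λ.T i j = 0

/-- the vertices of the core graph: `pos r c` is the grid point in row `r` and column `c`, `hub i j`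
the vertex in the hole of the block `(i, j)` -/
inductive CV : Type
  | pos (r c : ℕ)
  | hub (i j : ℕ)
  deriving DecidableEq

variable (Λ : Lay)

/-- type of the block that contains the grid point `(r, c)` -/
def Lay.ty (r c : ℕ) : ℕ := Λ.T (r / 6) (c / 6)

/-- the hubs -/
def Lay.isHub : CV → Bool
  | .pos r c => decide (r ≤ 6 * Λ.nb) && (decide (c ≤ 6 * Λ.ng) && isHb (Λ.ty r c) (r % 6) (c % 6))
  | .hub i j => decide (i < Λ.nb) && (decide (j < Λ.ng) && decide (Λ.T i j ≠ 0))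

/-- the vertices that are used -/
def Lay.Val : CV → Prop
  | .pos r c => r ≤ 6 * Λ.nb ∧ c ≤ 6 * Λ.ng ∧ isIn (Λ.ty r c) (r % 6) (c % 6) = false
  | .hub i j => i < Λ.nb ∧ j < Λ.ng ∧ Λ.T i j ≠ 0

/-- the edges of the core graph, with the numbers of the ports at both ends (`4` at a plain end);
the ports `0, 1, 2, 3` are in counterclockwise order (rows are numbered upwards) -/
inductive CE : CV → ℕ → CV → ℕ → Prop
  | h (r c : ℕ) (hr : r ≤ 6 * Λ.nb) (hc : c < 6 * Λ.ng)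
      (ha : hAbs (Λ.ty r c) (r % 6) (c % 6) = false) : CE (.pos r c) 0 (.pos r (c + 1)) 2
  | v (r c : ℕ) (hr : r < 6 * Λ.nb) (hc : c ≤ 6 * Λ.ng)
      (ha : vAbs (Λ.ty r c) (r % 6) (c % 6) = false) : CE (.pos r c) 1 (.pos (r + 1) c) 3
  | d0 (i j : ℕ) (hi : i < Λ.nb) (hj : j < Λ.ng) (ht : Λ.T i j ≠ 0) :
      CE (.hub i j) 0 (.pos (6 * i + hrC (Λ.T i j)) (6 * j + hc1 (Λ.T i j))) 4
  | d1 (i j : ℕ) (hi : i < Λ.nb) (hj : j < Λ.ng) (ht : Λ.T i j ≠ 0) :
      CE (.hub i j) 1 (.pos (6 * i + hr1 (Λ.T i j)) (6 * j + hc0 (Λ.T i j))) 4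
  | d2 (i j : ℕ) (hi : i < Λ.nb) (hj : j < Λ.ng) (ht : Λ.T i j ≠ 0) :
      CE (.hub i j) 2 (.pos (6 * i + hr0 (Λ.T i j)) (6 * j + hc0 (Λ.T i j))) 4
  | d3 (i j : ℕ) (hi : i < Λ.nb) (hj : j < Λ.ng) (ht : Λ.T i j ≠ 0) :
      CE (.hub i j) 3 (.pos (6 * i + hr0 (Λ.T i j)) (6 * j + hcB (Λ.T i j))) 4

/-- core adjacency: `κ'` is the neighbour of `κ` at the port `a` of `κ` -/
def CAdj (κ : CV) (a : ℕ) (κ' : CV) : Prop := ∃ b, CE Λ κ a κ' b ∨ CE Λ κ' b κ a

/-! ### The gadget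

The vertex `0` is the center.  The `j`-th pointer (`j < 4`) consists of the vertices
`bs j, …, bs j + 38`, where `b = bs j = 1 + 39 j`:

* `b` (called `V`) and `b + 1` (called `Y`, the port) are adjacent and have the common neighbours
  `b + 2, …, b + 9`; `V` is adjacent to the center;
* for `s = 0, 1` and `o = b + 10 + 14 s`: `o` (called `u`) and `o + 1` (called `Z`) are adjacent and
  have the common neighbours `o + 2, …, o + 9`; `u` is adjacent to the center, `Z` to `V`; the vertex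
  `o + 10` (called `R`) is adjacent to `Z` and `Y`; `o + 11`, `o + 12` are leaves at `u`, `o + 13` is a
  leaf at `Z`;
* `b + 38` is a leaf at the port `Y` if the port is not used (and is isolated otherwise). -/

def bs (j : ℕ) : ℕ := 1 + 39 * j

/-- the port -/
def pt (j : ℕ) : ℕ := bs j + 1

/-- the leaf at the port -/
def lf (j : ℕ) : ℕ := bs j + 38

/-- the edges of a pair of adjacent vertices `o`, `o + 1` with eight common neighbours -/
def eBook (o : ℕ) : List (ℕ × ℕ) :=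
  (o, o + 1) :: (List.range 8).flatMap fun i => [(o, o + 2 + i), (o + 1, o + 2 + i)]

/-- the edges of an ear -/
def eEar (b o : ℕ) : List (ℕ × ℕ) :=
  [(0, o), (o + 1, b), (o + 1, o + 10), (o + 10, b + 1), (o, o + 11), (o, o + 12), (o + 1, o + 13)] ++
    eBook o

/-- the edges of a pointer -/
def ePtr (b : ℕ) : List (ℕ × ℕ) :=
  (0, b) :: (eBook b ++ (eEar b (b + 10) ++ eEar b (b + 24)))

/-- the edges of the gadget -/
def gE : List (ℕ × ℕ) := ePtr (bs 0) ++ (ePtr (bs 1) ++ (ePtr (bs 2) ++ ePtr (bs 3)))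

/-- the leaves at the ports -/
def lE : List (ℕ × ℕ) := [(pt 0, lf 0), (pt 1, lf 1), (pt 2, lf 2), (pt 3, lf 3)]

/-! ### The final graph -/

/-- the end of a core edge at the vertex `κ`, at the port `a` -/
def Lay.en (κ : CV) (a : ℕ) : ℕ := if Λ.isHub κ = true then pt a else 0

/-- the edges of the final graph -/
inductive FE : CV × ℕ → CV × ℕ → Prop
  | g (κ : CV) (x y : ℕ) (h : Λ.isHub κ = true) (hxy : (x, y) ∈ gE) : FE (κ, x) (κ, y)
  | l (κ : CV) (j : ℕ) (h : Λ.isHub κ = true) (hj : j < 4) (hu : ∀ κ', ¬ CAdj Λ κ j κ') :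
      FE (κ, pt j) (κ, lf j)
  | c (κ κ' : CV) (a a' : ℕ) (h : CE Λ κ a κ' a') : FE (κ, Λ.en κ a) (κ', Λ.en κ' a')

/-- adjacency in the final graph -/
def Adj (a b : CV × ℕ) : Prop := FE Λ a b ∨ FE Λ b a

/-- not isolated -/
def Live (a : CV × ℕ) : Prop := ∃ b, Adj Λ a b

/-! ### The final graph as a list of edges -/

/-- the number of a grid point -/
def cpos (ng r c : ℕ) : ℕ := r * (6 * ng + 1) + c

/-- the number of the vertex in a hole -/
def chub (nb ng i j : ℕ) : ℕ := (6 * nb + 1) * (6 * ng + 1) + (i * ng + j)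

/-- the number of a core vertex -/
def Lay.cv : CV → ℕ
  | .pos r c => cpos Λ.ng r c
  | .hub i j => chub Λ.nb Λ.ng i j

/-- the number of a vertex -/
def Lay.code (a : CV × ℕ) : ℕ := Λ.cv a.1 * 157 + a.2

/-- number of the core vertices -/
def nCore (nb ng : ℕ) : ℕ := (6 * nb + 1) * (6 * ng + 1) + nb * ng

/-- is the port `a` of the grid point `(r, c)` used? -/
def usedB (Λ : Lay) (r c a : ℕ) : Bool :=
  if a = 0 then decide (c < 6 * Λ.ng) && !hAbs (Λ.ty r c) (r % 6) (c % 6)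
  else if a = 1 then decide (r < 6 * Λ.nb) && !vAbs (Λ.ty r c) (r % 6) (c % 6)
  else if a = 2 then decide (0 < c) && !hAbs (Λ.ty r (c - 1)) (r % 6) ((c - 1) % 6)
  else decide (0 < r) && !vAbs (Λ.ty (r - 1) c) ((r - 1) % 6) (c % 6)

/-- the number of the end at the port `a` of the grid point `(r, c)` -/
def ePt (Λ : Lay) (r c a : ℕ) : ℕ :=
  cpos Λ.ng r c * 157 + if Λ.isHub (.pos r c) = true then pt a else 0

/-- the edges at a grid point -/
def eGrid (Λ : Lay) (r c : ℕ) : List (ℕ × ℕ) :=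
  (if Λ.isHub (.pos r c) = true then
    gE.map (fun e => (cpos Λ.ng r c * 157 + e.1, cpos Λ.ng r c * 157 + e.2)) ++
    (List.range 4).flatMap fun a => if usedB Λ r c a = true then [] else
      [(cpos Λ.ng r c * 157 + pt a, cpos Λ.ng r c * 157 + lf a)] else []) ++
  ((if usedB Λ r c 0 = true then [(ePt Λ r c 0, ePt Λ r (c + 1) 2)] else []) ++
    if usedB Λ r c 1 = true then [(ePt Λ r c 1, ePt Λ (r + 1) c 3)] else [])

/-- the edges at the vertex in a hole -/
def eHole (Λ : Lay) (i j : ℕ) : List (ℕ × ℕ) :=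
  if Λ.T i j ≠ 0 then
    gE.map (fun e => (chub Λ.nb Λ.ng i j * 157 + e.1, chub Λ.nb Λ.ng i j * 157 + e.2)) ++
    [(chub Λ.nb Λ.ng i j * 157 + pt 0,
        ePt Λ (6 * i + hrC (Λ.T i j)) (6 * j + hc1 (Λ.T i j)) 4),
      (chub Λ.nb Λ.ng i j * 157 + pt 1,
        ePt Λ (6 * i + hr1 (Λ.T i j)) (6 * j + hc0 (Λ.T i j)) 4),
      (chub Λ.nb Λ.ng i j * 157 + pt 2,
        ePt Λ (6 * i + hr0 (Λ.T i j)) (6 * j + hc0 (Λ.T i j)) 4),
      (chub Λ.nb Λ.ng i j * 157 + pt 3,
        ePt Λ (6 * i + hr0 (Λ.T i j)) (6 * j + hcB (Λ.T i j)) 4)]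
  else []

/-- all edges -/
def eList (Λ : Lay) : List (ℕ × ℕ) :=
  ((List.range (6 * Λ.nb + 1)).flatMap fun r => (List.range (6 * Λ.ng + 1)).flatMap fun c =>
    eGrid Λ r c) ++
  (List.range Λ.nb).flatMap fun i => (List.range Λ.ng).flatMap fun j => eHole Λ i j

end Pool.Agent.H670R3
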