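import Pool.Agent.H670R3.Stm

/-!
# Arithmetic (task AR, helper439)
-/

set_option autoImplicit false

namespace Pool.Agent.H670R3

open Pool.Agent.NPC Pool.Agent.H670R2 Pool.Agent.H670R2.Sl

namespace AR

theorem mem_m {W : ℕ} {cs : List Pc} {c : ℕ × ℕ × ℕ × ℕ} : c ∈ (syOf W cs).2.1 ↔
    ∃ n p, cs[n]? = some p ∧ c ∈ syM (W + 32 * n) p := by
  simp only [syOf, List.mem_flatMap]
  constructor
  · rintro ⟨⟨p, n⟩, hp, hc⟩
    rw [List.mem_zipIdx_iff_getElem?] at hp
    exact ⟨n, p, hp, hc⟩
  · rintro ⟨n, p, hp, hc⟩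
    exact ⟨(p, n), by rw [List.mem_zipIdx_iff_getElem?]; exact hp, hc⟩

theorem mem_s {W : ℕ} {cs : List Pc} {c : ℕ × ℕ × ℕ} : c ∈ (syOf W cs).2.2.1 ↔
    ∃ n p, cs[n]? = some p ∧ c ∈ syS (W + 32 * n) p := by
  simp only [syOf, List.mem_flatMap]
  constructor
  · rintro ⟨⟨p, n⟩, hp, hc⟩
    rw [List.mem_zipIdx_iff_getElem?] at hp
    exact ⟨n, p, hp, hc⟩
  · rintro ⟨n, p, hp, hc⟩
    exact ⟨(p, n), by rw [List.mem_zipIdx_iff_getElem?]; exact hp, hc⟩

theorem mem_e {W : ℕ} {cs : List Pc} {c : ℕ × ℕ} : c ∈ (syOf W cs).2.2.2 ↔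
    c = (W + 32 * cs.length, W + 32 * cs.length + 1) ∨
    ∃ n p, cs[n]? = some p ∧ c ∈ syE (W + 32 * n) p := by
  simp only [syOf, List.mem_cons, List.mem_flatMap]
  apply or_congr Iff.rfl
  constructor
  · rintro ⟨⟨p, n⟩, hp, hc⟩
    rw [List.mem_zipIdx_iff_getElem?] at hp
    exact ⟨n, p, hp, hc⟩
  · rintro ⟨n, p, hp, hc⟩
    exact ⟨(p, n), by rw [List.mem_zipIdx_iff_getElem?]; exact hp, hc⟩

theorem lt_of_some {cs : List Pc} {n : ℕ} {p : Pc} (h : cs[n]? = some p) :
    n < cs.length ∧ p ∈ cs := by
  obtain ⟨hn, hen⟩ := List.getElem?_eq_some_iff.1 h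
  exact ⟨hn, by rw [← hen]; exact List.getElem_mem hn⟩

theorem ok {W : ℕ} {cs : List Pc} (hW : 0 < W) (hb : ∀ c ∈ cs, c.below W) : (syOf W cs).Ok := by
  have h1 : (syOf W cs).1 = W + 32 * cs.length + 2 := rfl
  constructor
  · intro c hc
    obtain ⟨n, p, hp, hc⟩ := mem_m.1 hc
    obtain ⟨hn, _⟩ := lt_of_some hp
    rw [h1]
    unfold syM at hc
    split_ifs at hc
    · simp at hc
    · simp only [List.mem_cons, List.not_mem_nil, or_false] at hc
      rcases hc with rfl | rfl | rfl | rfl <;> dsimp only <;> omega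
  · intro c hc
    obtain ⟨n, p, hp, hc⟩ := mem_s.1 hc
    obtain ⟨hn, _⟩ := lt_of_some hp
    rw [h1]
    unfold syS at hc
    split_ifs at hc
    · simp only [List.mem_cons, List.not_mem_nil, or_false] at hc
      subst hc
      dsimp only
      omega
    · simp only [List.mem_cons, List.not_mem_nil, or_false] at hc
      rcases hc with rfl | rfl | rfl | rfl | rfl | rfl | rfl | rfl | rfl | rfl | rfl | rfl | rfl |
        rfl | rfl | rfl | rfl | rfl | rfl | rfl <;> dsimp only <;> omega
  · intro c hc
    rw [h1]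
    rcases mem_e.1 hc with rfl | ⟨n, p, hp, hc⟩
    · dsimp only
      omega
    · obtain ⟨hn, hpm⟩ := lt_of_some hp
      have hbp := hb p hpm
      unfold Pc.below at hbp
      unfold syE at hc
      split_ifs at hc
      · simp only [List.mem_cons, List.not_mem_nil, or_false] at hc
        rcases hc with rfl | rfl | rfl <;> dsimp only <;> omega
      · simp only [List.mem_cons, List.not_mem_nil, or_false] at hc
        rcases hc with rfl | rfl | rfl | rfl | rfl | rfl | rfl | rfl | rfl <;> dsimp only <;> omega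
  · rw [h1]
    omega
  · intro h
    have : ((W + 32 * cs.length, W + 32 * cs.length + 1) : ℕ × ℕ) ∈ (syOf W cs).2.2.2 :=
      mem_e.2 (Or.inl rfl)
    rw [h] at this
    simp at this

theorem sol {W : ℕ} {cs : List Pc} (hW : 0 < W) (_ : ∀ c ∈ cs, c.below W) {v : ℕ → ℝ}
    (hv : (syOf W cs).Sat v) :
    ∃ x : ℕ → ℝ, (∀ i < W, 0 < x i) ∧ x 0 = 1 ∧ ∀ c ∈ cs, c.holds x := by
  have h1 : (syOf W cs).1 = W + 32 * cs.length + 2 := rfl
  have h0 : 0 < v 0 := hv.pos 0 (by rw [h1]; omega)
  refine ⟨fun i => v i / v 0, fun i hi => div_pos (hv.pos i (by rw [h1]; omega)) h0,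
    div_self h0.ne', ?_⟩
  intro c hc
  obtain ⟨n, hn, hcn⟩ := List.getElem_of_mem hc
  have hcn' : cs[n]? = some c := by rw [List.getElem?_eq_getElem hn, hcn]
  have hm : ∀ r ∈ syM (W + 32 * n) c, v r.1 * (v r.1 + v r.2.1) = v r.2.2.1 * (v r.2.2.1 + v r.2.2.2) :=
    fun r hr => hv.m r (mem_m.2 ⟨n, c, hcn', hr⟩)
  have hs : ∀ r ∈ syS (W + 32 * n) c, v r.1 + v r.2.1 = v r.2.2 :=
    fun r hr => hv.s r (mem_s.2 ⟨n, c, hcn', hr⟩)
  have he : ∀ r ∈ syE (W + 32 * n) c, v r.1 = v r.2 :=
    fun r hr => hv.e r (mem_e.2 (Or.inr ⟨n, c, hcn', hr⟩))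
  generalize W + 32 * n = B at hm hs he
  unfold Pc.holds
  by_cases h : c.1 = 0
  · simp only [syS, syE, h, if_true, List.mem_cons, List.not_mem_nil, or_false, forall_eq_or_imp,
      forall_eq] at hs he
    obtain ⟨e1, e2, e3⟩ := he
    rw [if_pos h]
    dsimp only
    rw [e1, e2, e3, ← add_div, hs]
  · simp only [syM, syS, syE, if_neg h, List.mem_cons, List.not_mem_nil, or_false,
      forall_eq_or_imp, forall_eq] at hm hs he
    obtain ⟨m1, m2, m3, m4⟩ := hm
    obtain ⟨s1, s2, s3, s4, s5, s6, s7, s8, s9, s10, s11, s12, s13, s14, s15, s16, s17, s18, s19,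
      s20⟩ := hs
    obtain ⟨e1, e2, e3, e4, e5, e6, e7, e8, e9⟩ := he
    have f6 : v (B + 6) = 2 * v B := by linarith
    have f7 : v (B + 7) = v B + v (B + 1) := by linarith
    have f8 : v (B + 8) = 2 * v (B + 2) := by linarith
    have f9 : v (B + 9) = v (B + 2) + v (B + 3) := by linarith
    have f15 : v (B + 15) = v (B + 14) + v B := by linarith
    have f18 : v (B + 18) = 3 * v B + v (B + 16) := by linarith
    have f21 : v (B + 21) = 3 * v B + v (B + 1) + v (B + 20) := by linarith
    have f22 : v (B + 22) = v (B + 14) + v (B + 2) := by linarith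
    have f25 : v (B + 25) = 3 * v (B + 2) + v (B + 24) := by linarith
    have f28 : v (B + 28) = 3 * v (B + 2) + v (B + 3) + v (B + 27) := by linarith
    rw [f18, f15] at m1
    rw [f21, f15, f7] at m2
    rw [f25, f22] at m3
    rw [f28, f22, f9] at m4
    have g1 : v (B + 20) = v (B + 16) + v (B + 29) := by linarith
    have g2 : v (B + 27) = v (B + 24) + v (B + 29) := by linarith
    rw [g1] at m2
    rw [g2] at m4
    have key : v B * v (B + 1) = v (B + 2) * v (B + 3) := by
      linear_combination m1 - m2 - m3 + m4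
    rw [if_neg h]
    dsimp only
    rw [e1, e2, e4]
    rw [← e3] at key
    field_simp
    linarith

/-- the values in the block of a multiplication -/
def bl (X y z u eA eB eC eD e : ℝ) : List ℝ :=
  [X, y, 1, z, X, 1, 2 * X, X + y, 2, 1 + z, 2 * X + y, 2 + z, 2 * X + y + (2 + z),
    2 * X + y + (2 + z), u, u + X, eA, 3 * X, 3 * X + eA, 3 * X + y, eB, 3 * X + y + eB, u + 1, 3,
    eC, 3 + eC, 3 + z, eD, 3 + z + eD, e, eA + e, eC + e]

theorem getD_pos (l : List ℝ) (h : ∀ a ∈ l, 0 < a) (j : ℕ) : 0 < l.getD j 1 := by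
  by_cases hj : j < l.length
  · rw [List.getD_eq_getElem _ _ hj]
    exact h _ (List.getElem_mem hj)
  · rw [List.getD_eq_default _ _ (by omega)]
    exact one_pos

theorem sat {W : ℕ} {cs : List Pc} (hW : 0 < W) (hb : ∀ c ∈ cs, c.below W) {x : ℕ → ℝ}
    (hx : ∀ i < W, 0 < x i) (hx0 : x 0 = 1) (hc : ∀ c ∈ cs, c.holds x) :
    ∃ v : ℕ → ℝ, (∀ i, 0 < v i) ∧ (syOf W cs).Sat v ∧ (syOf W cs).Good v := by
  have hloc : ∀ n : ℕ, ∃ Y : ℕ → ℝ, (∀ j, 0 < Y j) ∧ (cs.length ≤ n → ∀ j, Y j = 1) ∧
      ∀ c : Pc, cs[n]? = some c →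
        (c.1 = 0 → Y 0 = x c.2.1 ∧ Y 1 = x c.2.2.1 ∧ Y 3 = x c.2.1 + x c.2.2.1 ∧
          x c.2.1 + x c.2.2.1 = x c.2.2.2) ∧
        (c.1 ≠ 0 → ∃ u eA eB eC eD e : ℝ, 0 < u ∧ 0 < eA ∧ 0 < eB ∧ 0 < eC ∧ 0 < eD ∧ 0 < e ∧
          u = 2 * (2 * x c.2.1 + x c.2.2.1 + (2 + x c.2.2.2)) ∧
          u * eA = 2 * x c.2.1 ^ 2 ∧ u * eB = x c.2.1 * (2 * x c.2.1 + x c.2.2.1) ∧
          u * eC = 2 ∧ u * eD = 2 + x c.2.2.2 ∧ u * e = x c.2.2.2 ∧
          eA + e = eB ∧ eC + e = eD ∧ x c.2.1 * x c.2.2.1 = x c.2.2.2 ∧
          Y = fun j => (bl (x c.2.1) (x c.2.2.1) (x c.2.2.2) u eA eB eC eD e).getD j 1) := by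
    intro n
    cases he : cs[n]? with
    | none =>
        exact ⟨fun _ => 1, fun _ => one_pos, fun _ _ => rfl, fun c hcc => by simp at hcc⟩
    | some c =>
        obtain ⟨hn, hcm⟩ := lt_of_some he
        have hcx := hc c hcm
        have hbc := hb c hcm
        unfold Pc.below at hbc
        unfold Pc.holds at hcx
        have pX := hx _ hbc.1
        have pY := hx _ hbc.2.1
        have pZ := hx _ hbc.2.2
        by_cases h : c.1 = 0
        · rw [if_pos h] at hcx
          refine ⟨fun j => if j = 0 then x c.2.1 else if j = 1 then x c.2.2.1 else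
            if j = 3 then x c.2.1 + x c.2.2.1 else 1, ?_, fun h2 => absurd hn (not_lt.2 h2), ?_⟩
          · intro j
            dsimp only
            split_ifs
            · exact pX
            · exact pY
            · exact add_pos pX pY
            · exact one_pos
          · intro c' hc'
            simp only [Option.some.injEq] at hc'
            subst hc'
            exact ⟨fun _ => ⟨by simp, by simp, by simp, hcx⟩, fun h' => absurd h h'⟩
        · rw [if_neg h] at hcx
          set X := x c.2.1 with hX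
          set y := x c.2.2.1 with hy
          set z := x c.2.2.2 with hz
          have pu : 0 < 2 * (2 * X + y + (2 + z)) := by positivity
          set u := 2 * (2 * X + y + (2 + z)) with hu
          refine ⟨fun j => (bl X y z u (2 * X ^ 2 / u) (X * (2 * X + y) / u) (2 / u) ((2 + z) / u)
            (z / u)).getD j 1, ?_, fun h2 => absurd hn (not_lt.2 h2), ?_⟩
          · intro j
            apply getD_pos
            intro a ha
            simp only [bl, List.mem_cons, List.not_mem_nil, or_false] at ha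
            rcases ha with rfl | rfl | rfl | rfl | rfl | rfl | rfl | rfl | rfl | rfl | rfl | rfl |
              rfl | rfl | rfl | rfl | rfl | rfl | rfl | rfl | rfl | rfl | rfl | rfl | rfl | rfl |
              rfl | rfl | rfl | rfl | rfl | rfl <;> positivity
          · intro c' hc'
            simp only [Option.some.injEq] at hc'
            subst hc'
            refine ⟨fun h' => absurd h' h, fun _ => ⟨u, 2 * X ^ 2 / u, X * (2 * X + y) / u, 2 / u,
              (2 + z) / u, z / u, pu, by positivity, by positivity, by positivity, by positivity,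
              by positivity, hu, ?_, ?_, ?_, ?_, ?_, ?_, ?_, hcx, rfl⟩⟩
            · show u * (2 * X ^ 2 / u) = 2 * X ^ 2
              field_simp
            · show u * (X * (2 * X + y) / u) = X * (2 * X + y)
              field_simp
            · field_simp
            · show u * ((2 + z) / u) = 2 + z
              field_simp
            · show u * (z / u) = z
              field_simp
            · show 2 * X ^ 2 / u + z / u = X * (2 * X + y) / u
              rw [← hcx]
              field_simp
            · show 2 / u + z / u = (2 + z) / u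
              rw [← add_div]
  choose Y hY1 hY2 hY3 using hloc
  set v : ℕ → ℝ := fun s => if s < W then x s else Y ((s - W) / 32) ((s - W) % 32) with hvdef
  have vW : ∀ i < W, v i = x i := by
    intro i hi
    simp only [hvdef]
    rw [if_pos hi]
  have vY : ∀ n j, j < 32 → v (W + 32 * n + j) = Y n j := by
    intro n j hj
    simp only [hvdef]
    rw [if_neg (by omega)]
    congr 1
    · congr 1; omega
    · omega
  have vY0 : ∀ n, v (W + 32 * n) = Y n 0 := by
    intro n
    have := vY n 0 (by norm_num)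
    rwa [add_zero] at this
  have v0 : v 0 = 1 := by rw [vW 0 hW, hx0]
  refine ⟨v, ?_, ?_, ?_⟩
  · intro i
    simp only [hvdef]
    split_ifs with h
    · exact hx i h
    · exact hY1 _ _
  · constructor
    · intro i _
      simp only [hvdef]
      split_ifs with h
      · exact hx i h
      · exact hY1 _ _
    · intro r hr
      obtain ⟨n, c, hcn, hr⟩ := mem_m.1 hr
      unfold syM at hr
      split_ifs at hr with h
      · simp at hr
      · obtain ⟨u, eA, eB, eC, eD, e, pu, pA, pB, pC, pD, pe, hu, hA, hB, hC, hD, hE, r1, r2, hz,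
          hYn⟩ := (hY3 n c hcn).2 h
        have vn : ∀ j < 32, v (W + 32 * n + j) =
            (bl (x c.2.1) (x c.2.2.1) (x c.2.2.2) u eA eB eC eD e).getD j 1 := by
          intro j hj
          rw [vY n j hj, hYn]
        have g0 : v (W + 32 * n) = x c.2.1 := by
          rw [vY0, hYn]
          rfl
        have g2 : v (W + 32 * n + 2) = 1 := vn 2 (by norm_num)
        have g7 : v (W + 32 * n + 7) = x c.2.1 + x c.2.2.1 := vn 7 (by norm_num)
        have g9 : v (W + 32 * n + 9) = 1 + x c.2.2.2 := vn 9 (by norm_num)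
        have g14 : v (W + 32 * n + 14) = u := vn 14 (by norm_num)
        have g15 : v (W + 32 * n + 15) = u + x c.2.1 := vn 15 (by norm_num)
        have g18 : v (W + 32 * n + 18) = 3 * x c.2.1 + eA := vn 18 (by norm_num)
        have g21 : v (W + 32 * n + 21) = 3 * x c.2.1 + x c.2.2.1 + eB := vn 21 (by norm_num)
        have g22 : v (W + 32 * n + 22) = u + 1 := vn 22 (by norm_num)
        have g25 : v (W + 32 * n + 25) = 3 + eC := vn 25 (by norm_num)
        have g28 : v (W + 32 * n + 28) = 3 + x c.2.2.2 + eD := vn 28 (by norm_num)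
        simp only [List.mem_cons, List.not_mem_nil, or_false] at hr
        rcases hr with rfl | rfl | rfl | rfl
        · dsimp only
          rw [g14, g18, g15, g0]
          linear_combination hA
        · dsimp only
          rw [g14, g21, g15, g7]
          linear_combination hB
        · dsimp only
          rw [g14, g25, g22, g2]
          linear_combination hC
        · dsimp only
          rw [g14, g28, g22, g9]
          linear_combination hD
    · intro r hr
      obtain ⟨n, c, hcn, hr⟩ := mem_s.1 hr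
      unfold syS at hr
      split_ifs at hr with h
      · obtain ⟨e0, e1, e3, _⟩ := (hY3 n c hcn).1 h
        simp only [List.mem_cons, List.not_mem_nil, or_false] at hr
        subst hr
        dsimp only
        rw [vY0, vY n 1 (by norm_num), vY n 3 (by norm_num), e0, e1, e3]
      · obtain ⟨u, eA, eB, eC, eD, e, pu, pA, pB, pC, pD, pe, hu, hA, hB, hC, hD, hE, r1, r2, hz,
          hYn⟩ := (hY3 n c hcn).2 h
        have vn : ∀ j < 32, v (W + 32 * n + j) =
            (bl (x c.2.1) (x c.2.2.1) (x c.2.2.2) u eA eB eC eD e).getD j 1 := by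
          intro j hj
          rw [vY n j hj, hYn]
        have g0 : v (W + 32 * n) = x c.2.1 := by
          rw [vY0, hYn]
          rfl
        have g1 : v (W + 32 * n + 1) = x c.2.2.1 := vn 1 (by norm_num)
        have g2 : v (W + 32 * n + 2) = 1 := vn 2 (by norm_num)
        have g3 : v (W + 32 * n + 3) = x c.2.2.2 := vn 3 (by norm_num)
        have g4 : v (W + 32 * n + 4) = x c.2.1 := vn 4 (by norm_num)
        have g5 : v (W + 32 * n + 5) = 1 := vn 5 (by norm_num)
        have g6 : v (W + 32 * n + 6) = 2 * x c.2.1 := vn 6 (by norm_num)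
        have g7 : v (W + 32 * n + 7) = x c.2.1 + x c.2.2.1 := vn 7 (by norm_num)
        have g8 : v (W + 32 * n + 8) = 2 := vn 8 (by norm_num)
        have g9 : v (W + 32 * n + 9) = 1 + x c.2.2.2 := vn 9 (by norm_num)
        have g10 : v (W + 32 * n + 10) = 2 * x c.2.1 + x c.2.2.1 := vn 10 (by norm_num)
        have g11 : v (W + 32 * n + 11) = 2 + x c.2.2.2 := vn 11 (by norm_num)
        have g12 : v (W + 32 * n + 12) = 2 * x c.2.1 + x c.2.2.1 + (2 + x c.2.2.2) :=
          vn 12 (by norm_num)
        have g13 : v (W + 32 * n + 13) = 2 * x c.2.1 + x c.2.2.1 + (2 + x c.2.2.2) :=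
          vn 13 (by norm_num)
        have g14 : v (W + 32 * n + 14) = u := vn 14 (by norm_num)
        have g15 : v (W + 32 * n + 15) = u + x c.2.1 := vn 15 (by norm_num)
        have g16 : v (W + 32 * n + 16) = eA := vn 16 (by norm_num)
        have g17 : v (W + 32 * n + 17) = 3 * x c.2.1 := vn 17 (by norm_num)
        have g18 : v (W + 32 * n + 18) = 3 * x c.2.1 + eA := vn 18 (by norm_num)
        have g19 : v (W + 32 * n + 19) = 3 * x c.2.1 + x c.2.2.1 := vn 19 (by norm_num)
        have g20 : v (W + 32 * n + 20) = eB := vn 20 (by norm_num)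
        have g21 : v (W + 32 * n + 21) = 3 * x c.2.1 + x c.2.2.1 + eB := vn 21 (by norm_num)
        have g22 : v (W + 32 * n + 22) = u + 1 := vn 22 (by norm_num)
        have g23 : v (W + 32 * n + 23) = 3 := vn 23 (by norm_num)
        have g24 : v (W + 32 * n + 24) = eC := vn 24 (by norm_num)
        have g25 : v (W + 32 * n + 25) = 3 + eC := vn 25 (by norm_num)
        have g26 : v (W + 32 * n + 26) = 3 + x c.2.2.2 := vn 26 (by norm_num)
        have g27 : v (W + 32 * n + 27) = eD := vn 27 (by norm_num)
        have g28 : v (W + 32 * n + 28) = 3 + x c.2.2.2 + eD := vn 28 (by norm_num)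
        have g29 : v (W + 32 * n + 29) = e := vn 29 (by norm_num)
        have g30 : v (W + 32 * n + 30) = eA + e := vn 30 (by norm_num)
        have g31 : v (W + 32 * n + 31) = eC + e := vn 31 (by norm_num)
        simp only [List.mem_cons, List.not_mem_nil, or_false] at hr
        rcases hr with rfl | rfl | rfl | rfl | rfl | rfl | rfl | rfl | rfl | rfl | rfl | rfl | rfl |
          rfl | rfl | rfl | rfl | rfl | rfl | rfl <;> dsimp only <;> linarith
    · intro r hr
      rcases mem_e.1 hr with rfl | ⟨n, c, hcn, hr⟩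
      · dsimp only
        rw [vY0, vY _ 1 (by norm_num), hY2 _ le_rfl, hY2 _ le_rfl]
      · obtain ⟨hn, hcm⟩ := lt_of_some hcn
        have hbc := hb c hcm
        unfold Pc.below at hbc
        have ga := vW _ hbc.1
        have gb := vW _ hbc.2.1
        have gc := vW _ hbc.2.2
        unfold syE at hr
        split_ifs at hr with h
        · obtain ⟨e0, e1, e3, hz⟩ := (hY3 n c hcn).1 h
          simp only [List.mem_cons, List.not_mem_nil, or_false] at hr
          rcases hr with rfl | rfl | rfl
          · dsimp only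
            rw [vY0, e0, ga]
          · dsimp only
            rw [vY n 1 (by norm_num), e1, gb]
          · dsimp only
            rw [vY n 3 (by norm_num), e3, gc, hz]
        · obtain ⟨u, eA, eB, eC, eD, e, pu, pA, pB, pC, pD, pe, hu, hA, hB, hC, hD, hE, r1, r2, hz,
            hYn⟩ := (hY3 n c hcn).2 h
          have vn : ∀ j < 32, v (W + 32 * n + j) =
              (bl (x c.2.1) (x c.2.2.1) (x c.2.2.2) u eA eB eC eD e).getD j 1 := by
            intro j hj
            rw [vY n j hj, hYn]
          have g0 : v (W + 32 * n) = x c.2.1 := by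
            rw [vY0, hYn]
            rfl
          have g1 : v (W + 32 * n + 1) = x c.2.2.1 := vn 1 (by norm_num)
          have g2 : v (W + 32 * n + 2) = 1 := vn 2 (by norm_num)
          have g3 : v (W + 32 * n + 3) = x c.2.2.2 := vn 3 (by norm_num)
          have g4 : v (W + 32 * n + 4) = x c.2.1 := vn 4 (by norm_num)
          have g5 : v (W + 32 * n + 5) = 1 := vn 5 (by norm_num)
          have g12 : v (W + 32 * n + 12) = 2 * x c.2.1 + x c.2.2.1 + (2 + x c.2.2.2) :=
            vn 12 (by norm_num)
          have g13 : v (W + 32 * n + 13) = 2 * x c.2.1 + x c.2.2.1 + (2 + x c.2.2.2) :=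
            vn 13 (by norm_num)
          have g20 : v (W + 32 * n + 20) = eB := vn 20 (by norm_num)
          have g27 : v (W + 32 * n + 27) = eD := vn 27 (by norm_num)
          have g30 : v (W + 32 * n + 30) = eA + e := vn 30 (by norm_num)
          have g31 : v (W + 32 * n + 31) = eC + e := vn 31 (by norm_num)
          simp only [List.mem_cons, List.not_mem_nil, or_false] at hr
          rcases hr with rfl | rfl | rfl | rfl | rfl | rfl | rfl | rfl | rfl <;> dsimp only <;>
            linarith
  · intro r hr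
    obtain ⟨n, c, hcn, hr⟩ := mem_m.1 hr
    obtain ⟨hn, hcm⟩ := lt_of_some hcn
    have hbc := hb c hcm
    unfold Pc.below at hbc
    have pX := hx _ hbc.1
    have pY := hx _ hbc.2.1
    have pZ := hx _ hbc.2.2
    unfold syM at hr
    split_ifs at hr with h
    · simp at hr
    · obtain ⟨u, eA, eB, eC, eD, e, pu, pA, pB, pC, pD, pe, hu, hA, hB, hC, hD, hE, r1, r2, hz,
        hYn⟩ := (hY3 n c hcn).2 h
      have vn : ∀ j < 32, v (W + 32 * n + j) =
          (bl (x c.2.1) (x c.2.2.1) (x c.2.2.2) u eA eB eC eD e).getD j 1 := by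
        intro j hj
        rw [vY n j hj, hYn]
      have g14 : v (W + 32 * n + 14) = u := vn 14 (by norm_num)
      have g15 : v (W + 32 * n + 15) = u + x c.2.1 := vn 15 (by norm_num)
      have g18 : v (W + 32 * n + 18) = 3 * x c.2.1 + eA := vn 18 (by norm_num)
      have g21 : v (W + 32 * n + 21) = 3 * x c.2.1 + x c.2.2.1 + eB := vn 21 (by norm_num)
      have g22 : v (W + 32 * n + 22) = u + 1 := vn 22 (by norm_num)
      have g25 : v (W + 32 * n + 25) = 3 + eC := vn 25 (by norm_num)
      have g28 : v (W + 32 * n + 28) = 3 + x c.2.2.2 + eD := vn 28 (by norm_num)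
      have bA : eA ≤ x c.2.1 / 2 := by
        by_contra hcon
        push Not at hcon
        nlinarith
      have bB : eB ≤ x c.2.1 / 2 := by
        by_contra hcon
        push Not at hcon
        nlinarith
      have bC : eC ≤ 1 / 2 := by
        by_contra hcon
        push Not at hcon
        nlinarith
      have bD : eD ≤ 1 / 2 := by
        by_contra hcon
        push Not at hcon
        nlinarith
      simp only [List.mem_cons, List.not_mem_nil, or_false] at hr
      rcases hr with rfl | rfl | rfl | rfl <;> dsimp only <;> constructor <;> linarith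

end AR

theorem arith_ok : St_arith where
  ok := fun _ _ hW hb => AR.ok hW hb
  sat := fun _ _ hW hb _ hx hx0 hc => AR.sat hW hb hx hx0 hc
  sol := fun _ _ hW hb _ hv => AR.sol hW hb hv

end Pool.Agent.H670R3
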