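import Pool.Agent.H670R3.Stm

/-!
Two lemmas on directions: `St_book`, `St_cell`.
-/

namespace Pool.Agent.H670R3

open Pool.Agent.H670R2.Sl

namespace BK

theorem posn (d : DS 6) {z x : ZMod (2 * 6)} (h : 0 < cr (d.e z) (d.e x)) :
    ∃ n : ℕ, 0 < n ∧ n < 6 ∧ x = z + n := by
  rcases DS.cases (k := 6) (by norm_num) z x with ⟨n, hn, hx⟩ | ⟨n, hn, hx⟩
  · refine ⟨n, ?_, hn, hx⟩
    rcases Nat.eq_zero_or_pos n with rfl | h0
    · rw [hx] at h
      simp [cr_self] at h
    · exact h0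
  · exfalso
    have h1 : z + ((6 : ℕ) : ZMod (2 * 6)) + n = z + n + ((6 : ℕ) : ZMod (2 * 6)) := by ring
    rw [hx, h1, d.per, cr_neg_right] at h
    have := d.cr_nonneg z hn.le
    linarith

theorem negn (d : DS 6) {z x : ZMod (2 * 6)} (h : cr (d.e z) (d.e x) < 0) :
    ∃ n : ℕ, 0 < n ∧ n < 6 ∧ z = x + n := by
  apply posn d
  rw [cr_comm]
  linarith

theorem eq_mod {a b : ℕ} (ha : a < 12) (hb : b < 12)
    (h : ((a : ℕ) : ZMod (2 * 6)) = ((b : ℕ) : ZMod (2 * 6))) : a = b := by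
  by_contra hne
  exact cast_ne (k := 6) (by omega) (by omega) hne h

theorem six_six : ((6 : ℕ) : ZMod (2 * 6)) + ((6 : ℕ) : ZMod (2 * 6)) = 0 := by decide

theorem card_T (y : ZMod (2 * 6)) :
    ((Finset.univ : Finset (ZMod (2 * 6))) \ {y, y + 5, y + 6, y + 7}).card = 8 := by
  revert y
  decide

theorem half {V : Type} (d : DS 6) (adj : V → V → Prop) (p : V → ℝ × ℝ) (a b : V) (C : Finset V)
    (y : ZMod (2 * 6))
    (ha1 : ∀ w, adj a w → ∃ z, Dr d p a w z) (hb1 : ∀ w, adj b w → ∃ z, Dr d p b w z)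
    (ha2 : ∀ v w z, adj a v → adj a w → Dr d p a v z → Dr d p a w z → v = w)
    (hb2 : ∀ v w z, adj b v → adj b w → Dr d p b v z → Dr d p b w z → v = w)
    (hab : adj a b) (hba : adj b a) (hy : Dr d p a b y) (haC : a ∉ C) (hbC : b ∉ C)
    (hC : C.card = 8) (hac : ∀ c ∈ C, adj a c) (hbc : ∀ c ∈ C, adj b c) :
    ∀ w z, adj a w → w ∉ C → w ≠ b → Dr d p a w z → z = y + 5 ∨ z = y + 6 ∨ z = y + 7 := by
  classical
  have hex : ∀ c : V, ∃ z, c ∈ C → Dr d p a c z := by
    intro c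
    by_cases hc : c ∈ C
    · obtain ⟨z, hz⟩ := ha1 c (hac c hc)
      exact ⟨z, fun _ => hz⟩
    · exact ⟨0, fun h => absurd h hc⟩
  choose α hα using hex
  obtain ⟨ν, hν, hv⟩ := hy
  have hyD : Dr d p a b y := ⟨ν, hν, hv⟩
  have hnot : ∀ c ∈ C, α c ∉ ({y, y + 5, y + 6, y + 7} : Finset (ZMod (2 * 6))) := by
    intro c hc hmem
    have hDa := hα c hc
    obtain ⟨β, hβ⟩ := hb1 c (hbc c hc)
    have hDb := hβ
    obtain ⟨l, hl, e1⟩ := hα c hc
    obtain ⟨m, hm, e2⟩ := hβ
    have hvec : ν • d.e y = l • d.e (α c) - m • d.e β := by rw [← e1, ← e2, ← hv]; abel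
    have r1 : ν * cr (d.e y) (d.e (α c)) = m * cr (d.e (α c)) (d.e β) := by
      rw [← cr_smul_left, hvec, cr_sub_left, cr_smul_left, cr_smul_left, cr_self,
        cr_comm (d.e β) (d.e (α c))]
      ring
    have r2 : ν * cr (d.e y) (d.e β) = l * cr (d.e (α c)) (d.e β) := by
      rw [← cr_smul_left, hvec, cr_sub_left, cr_smul_left, cr_smul_left, cr_self]
      ring
    simp only [Finset.mem_insert, Finset.mem_singleton] at hmem
    rcases hmem with h | h | h | h
    · rw [h] at hDa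
      exact hbC (ha2 c b y (hac c hc) hab hDa hyD ▸ hc)
    · -- α = y + 5
      have h5 : α c = y + ((5 : ℕ) : ZMod (2 * 6)) := by rw [h]; norm_num
      have p1 : 0 < cr (d.e y) (d.e (α c)) := by
        rw [h5]; exact d.pos y 5 (by norm_num) (by norm_num)
      have p2 : 0 < cr (d.e (α c)) (d.e β) := by
        have : 0 < m * cr (d.e (α c)) (d.e β) := by rw [← r1]; positivity
        exact (pos_iff_pos_of_mul_pos this).1 hm
      have p3 : 0 < cr (d.e y) (d.e β) := by
        have : 0 < ν * cr (d.e y) (d.e β) := by rw [r2]; positivity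
        exact (pos_iff_pos_of_mul_pos this).1 hν
      obtain ⟨n, hn0, hn, hβ1⟩ := posn d p3
      obtain ⟨n', hn0', hn', hβ2⟩ := posn d p2
      have h6 : ((n : ℕ) : ZMod (2 * 6)) = ((5 + n' : ℕ) : ZMod (2 * 6)) := by
        rw [hβ1, h5] at hβ2
        push_cast at hβ2 ⊢
        linear_combination hβ2
      have := eq_mod (by omega) (by omega) h6
      omega
    · -- α = y + 6
      have h6 : α c = y + ((6 : ℕ) : ZMod (2 * 6)) := by rw [h]; norm_num
      have hvec2 : m • d.e β = (ν + l) • d.e (y + ((6 : ℕ) : ZMod (2 * 6))) := by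
        have e3 : d.e (α c) = - d.e y := by rw [h6, d.per]
        rw [e3] at hvec
        rw [d.per, smul_neg, add_smul]
        have : m • d.e β = l • (- d.e y) - ν • d.e y := by rw [hvec]; abel
        rw [this, smul_neg]
        abel
      have h7 : β = y + ((6 : ℕ) : ZMod (2 * 6)) := d.dir_unique (by norm_num) hm (by linarith) hvec2
      have h8 : Dr d p b a (y + ((6 : ℕ) : ZMod (2 * 6))) := hyD.symm
      rw [h7] at hDb
      exact haC (hb2 c a _ (hbc c hc) hba hDb h8 ▸ hc)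
    · -- α = y + 7
      have h7 : α c = y + ((1 : ℕ) : ZMod (2 * 6)) + ((6 : ℕ) : ZMod (2 * 6)) := by
        rw [h]; push_cast; ring
      have p1 : cr (d.e y) (d.e (α c)) < 0 := by
        rw [h7, d.per, cr_neg_right]
        have := d.pos y 1 (by norm_num) (by norm_num)
        linarith
      have p2 : cr (d.e (α c)) (d.e β) < 0 := by
        by_contra hcon
        have h8 := mul_nonneg hm.le (not_lt.1 hcon)
        rw [← r1] at h8
        have := mul_neg_of_pos_of_neg hν p1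
        linarith
      have p3 : cr (d.e y) (d.e β) < 0 := by
        by_contra hcon
        have h8 := mul_nonneg hν.le (not_lt.1 hcon)
        rw [r2] at h8
        have := mul_neg_of_pos_of_neg hl p2
        linarith
      obtain ⟨n, hn0, hn, hβ1⟩ := negn d p3
      obtain ⟨n', hn0', hn', hβ2⟩ := negn d p2
      have e12 : (12 : ZMod (2 * 6)) = 0 := by decide
      have h8 : ((n : ℕ) : ZMod (2 * 6)) = ((n' + 5 : ℕ) : ZMod (2 * 6)) := by
        rw [h7, hβ1] at hβ2
        push_cast at hβ2 ⊢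
        linear_combination hβ2 - e12
      have := eq_mod (by omega) (by omega) h8
      omega
  have hinj : Set.InjOn α C := by
    intro c hc c' hc' h
    have h1 := hα c hc
    have h2 := hα c' hc'
    rw [← h] at h2
    exact ha2 c c' _ (hac c hc) (hac c' hc') h1 h2
  have himg : C.image α = Finset.univ \ {y, y + 5, y + 6, y + 7} := by
    apply Finset.eq_of_subset_of_card_le
    · intro z hz
      obtain ⟨c, hc, rfl⟩ := Finset.mem_image.1 hz
      exact Finset.mem_sdiff.2 ⟨Finset.mem_univ _, hnot c hc⟩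
    · rw [card_T, Finset.card_image_of_injOn hinj, hC]
  intro w z hw hwC hwb hD
  by_contra hcon
  push Not at hcon
  obtain ⟨c1, c2, c3⟩ := hcon
  by_cases hzy : z = y
  · rw [hzy] at hD
    exact hwb (ha2 w b y hw hab hD hyD)
  · have hz : z ∈ C.image α := by
      rw [himg]
      simp [hzy, c1, c2, c3]
    obtain ⟨c, hc, hcz⟩ := Finset.mem_image.1 hz
    have h1 := hα c hc
    rw [hcz] at h1
    exact hwC (ha2 w c z hw (hac c hc) hD h1 ▸ hc)

theorem comb (d : DS 6) {r0 r1 r2 r3 : ℝ} {d0 d1 d2 x : ZMod (2 * 6)}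
    (hS : r3 • d.e x = r0 • d.e d0 + r1 • d.e d1 + r2 • d.e d2) (z : ZMod (2 * 6)) :
    r3 * cr (d.e z) (d.e x) = r0 * cr (d.e z) (d.e d0) + r1 * cr (d.e z) (d.e d1) +
      r2 * cr (d.e z) (d.e d2) := by
  rw [← cr_smul_right, hS, cr_add_right, cr_add_right, cr_smul_right, cr_smul_right,
    cr_smul_right]

end BK

open BK

theorem book_ok : St_book := by
  intro V d adj p a b C y h1 h2 hab hba hy haC hbC hC hac hbc
  constructor
  · exact half d adj p a b C y (h1 a (by simp)) (h1 b (by simp)) (h2 a (by simp)) (h2 b (by simp))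
      hab hba hy haC hbC hC hac hbc
  · intro w z hw hwC hwa hD
    have hy' : Dr d p b a (y + ((6 : ℕ) : ZMod (2 * 6))) := hy.symm
    have := half d adj p b a C (y + ((6 : ℕ) : ZMod (2 * 6))) (h1 b (by simp)) (h1 a (by simp))
      (h2 b (by simp)) (h2 a (by simp)) hba hab hy' hbC haC hC hbc hac w z hw hwC hwa hD
    have e12 : (12 : ZMod (2 * 6)) = 0 := by decide
    rcases this with h | h | h
    · left
      rw [h]; push_cast; linear_combination e12
    · right; left
      rw [h]; push_cast; linear_combination e12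
    · right; right
      rw [h]; push_cast; linear_combination e12

theorem cell_ok : St_cell := by
  intro d P v Y R d0 d1 d2 x h0 h1 h2 h3 hd0 hd2 hx0 hx2
  obtain ⟨r0, hr0, e0⟩ := h0
  obtain ⟨r1, hr1, e1⟩ := h1
  obtain ⟨r2, hr2, e2⟩ := h2
  obtain ⟨r3, hr3, e3⟩ := h3
  have hS : r3 • d.e x = r0 • d.e d0 + r1 • d.e d1 + r2 • d.e d2 := by
    rw [← e0, ← e1, ← e2, ← e3]; abel
  have key := comb d hS
  have c01 : 0 < cr (d.e d1) (d.e (d1 + 1)) := by
    have := d.pos d1 1 (by norm_num) (by norm_num)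
    simpa using this
  have c10 : 0 < cr (d.e (d1 - 1)) (d.e d1) := by
    have := d.pos (d1 - 1) 1 (by norm_num) (by norm_num)
    simpa using this
  have c11 : 0 < cr (d.e (d1 - 1)) (d.e (d1 + 1)) := by
    have := d.pos (d1 - 1) 2 (by norm_num) (by norm_num)
    have e : d1 - 1 + ((2 : ℕ) : ZMod (2 * 6)) = d1 + 1 := by push_cast; ring
    rwa [e] at this
  have s1 : ∀ z : ZMod (2 * 6), cr (d.e z) (d.e z) = 0 := fun z => cr_self _
  have comm01 : cr (d.e (d1 + 1)) (d.e d1) = - cr (d.e d1) (d.e (d1 + 1)) := cr_comm _ _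
  have comm10 : cr (d.e d1) (d.e (d1 - 1)) = - cr (d.e (d1 - 1)) (d.e d1) := cr_comm _ _
  have comm11 : cr (d.e (d1 + 1)) (d.e (d1 - 1)) = - cr (d.e (d1 - 1)) (d.e (d1 + 1)) := cr_comm _ _
  -- x strictly between d1 and d1 + 1 is impossible
  have imp1 : ¬ (0 < cr (d.e d1) (d.e x) ∧ cr (d.e (d1 + 1)) (d.e x) < 0) := by
    rintro ⟨a1, a2⟩
    obtain ⟨n, hn0, hn, hx1⟩ := posn d a1
    obtain ⟨m, hm0, hm, hx3⟩ := negn d a2
    have : ((1 : ℕ) : ZMod (2 * 6)) = ((n + m : ℕ) : ZMod (2 * 6)) := by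
      rw [hx1] at hx3
      push_cast at hx3 ⊢
      linear_combination hx3
    have := eq_mod (by omega) (by omega) this
    omega
  have imp2 : ¬ (0 < cr (d.e (d1 - 1)) (d.e x) ∧ cr (d.e d1) (d.e x) < 0) := by
    rintro ⟨a1, a2⟩
    obtain ⟨n, hn0, hn, hx1⟩ := posn d a1
    obtain ⟨m, hm0, hm, hx3⟩ := negn d a2
    have : ((1 : ℕ) : ZMod (2 * 6)) = ((n + m : ℕ) : ZMod (2 * 6)) := by
      rw [hx1] at hx3
      push_cast at hx3 ⊢
      linear_combination hx3
    have := eq_mod (by omega) (by omega) this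
    omega
  have imp3 : 0 < cr (d.e (d1 - 1)) (d.e x) → cr (d.e (d1 + 1)) (d.e x) < 0 → x = d1 := by
    intro a1 a2
    obtain ⟨n, hn0, hn, hx1⟩ := posn d a1
    obtain ⟨m, hm0, hm, hx3⟩ := negn d a2
    have h : ((2 : ℕ) : ZMod (2 * 6)) = ((n + m : ℕ) : ZMod (2 * 6)) := by
      rw [hx1] at hx3
      push_cast at hx3 ⊢
      linear_combination hx3
    have := eq_mod (by omega) (by omega) h
    have hn1 : n = 1 := by omega
    rw [hx1, hn1]; push_cast; ring
  have pos_of : ∀ z : ZMod (2 * 6), 0 < r3 * cr (d.e z) (d.e x) → 0 < cr (d.e z) (d.e x) :=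
    fun z h => (pos_iff_pos_of_mul_pos h).1 hr3
  have neg_of : ∀ z : ZMod (2 * 6), r3 * cr (d.e z) (d.e x) < 0 → cr (d.e z) (d.e x) < 0 := by
    intro z h
    by_contra hcon
    have := mul_nonneg hr3.le (not_lt.1 hcon)
    linarith
  have k1 := key d1
  have k2 := key (d1 + 1)
  have k3 := key (d1 - 1)
  have m1 := mul_pos hr0 c01
  have m2 := mul_pos hr1 c01
  have m3 := mul_pos hr2 c01
  have m4 := mul_pos hr0 c10
  have m5 := mul_pos hr1 c10
  have m6 := mul_pos hr2 c10
  have m7 := mul_pos hr0 c11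
  have m8 := mul_pos hr2 c11
  rcases hd0 with rfl | rfl | rfl <;> rcases hd2 with rfl | rfl | rfl
  · exact absurd ⟨pos_of _ (by rw [k3, s1]; linarith), neg_of _ (by rw [k1, s1, comm10]; linarith)⟩
      imp2
  · exact absurd ⟨pos_of _ (by rw [k3, s1]; linarith), neg_of _ (by rw [k1, s1, comm10]; linarith)⟩
      imp2
  · exact ⟨imp3 (pos_of _ (by rw [k3, s1]; linarith))
      (neg_of _ (by rw [k2, s1, comm01, comm11]; linarith)), Or.inl ⟨rfl, rfl⟩⟩
  · exact absurd ⟨pos_of _ (by rw [k3, s1]; linarith), neg_of _ (by rw [k1, s1, comm10]; linarith)⟩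
      imp2
  · exfalso
    apply hx0
    have : r3 • d.e x = (r0 + r1 + r2) • d.e d2 := by rw [hS]; simp only [add_smul]
    exact (d.dir_unique (by norm_num) hr3 (by linarith) this).symm
  · exact absurd ⟨pos_of _ (by rw [k1, s1]; linarith), neg_of _ (by rw [k2, s1, comm01]; linarith)⟩
      imp1
  · exact ⟨imp3 (pos_of _ (by rw [k3, s1]; linarith))
      (neg_of _ (by rw [k2, s1, comm01, comm11]; linarith)), Or.inr ⟨rfl, rfl⟩⟩
  · exact absurd ⟨pos_of _ (by rw [k1, s1]; linarith), neg_of _ (by rw [k2, s1, comm01]; linarith)⟩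
      imp1
  · exact absurd ⟨pos_of _ (by rw [k1, s1]; linarith), neg_of _ (by rw [k2, s1, comm01]; linarith)⟩
      imp1

end Pool.Agent.H670R3
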