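import Pool.Agent.H670R3.Stm

/-!
# CA: angles in the core drawing
-/

namespace Pool.Agent.H670R3

open Pool.Agent.NPC Pool.Agent.H670R2 Pool.Agent.H670R2.Sl

namespace CA

/-- the direction makes an angle of at least thirty degrees with both axes -/
def bnd (w : ℝ × ℝ) : Prop := w.1 ^ 2 ≤ 3 * w.2 ^ 2 ∧ w.2 ^ 2 ≤ 3 * w.1 ^ 2

theorem bnd_smul {w : ℝ × ℝ} (h : bnd w) (s : ℝ) : bnd (s • w) := by
  unfold bnd at *
  simp only [Prod.smul_fst, Prod.smul_snd, smul_eq_mul]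
  constructor <;> nlinarith [sq_nonneg s, mul_le_mul_of_nonneg_left h.1 (sq_nonneg s),
    mul_le_mul_of_nonneg_left h.2 (sq_nonneg s)]

theorem bnd_J {w : ℝ × ℝ} (h : bnd w) : bnd (J w) := by
  unfold bnd at *
  simp only [J, neg_sq]
  exact ⟨h.2, h.1⟩

theorem ang_h (u : ℝ) {w : ℝ × ℝ} (h : bnd w) : Ang (u, 0) w := by
  right
  unfold dt
  simp only [zero_mul, add_zero, mul_zero]
  nlinarith [mul_le_mul_of_nonneg_left h.1 (sq_nonneg u)]

theorem ang_h' (u : ℝ) {w : ℝ × ℝ} (h : bnd w) : Ang w (u, 0) := by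
  right
  unfold dt
  simp only [zero_mul, add_zero, mul_zero]
  nlinarith [mul_le_mul_of_nonneg_left h.1 (sq_nonneg u)]

theorem ang_v (u : ℝ) {w : ℝ × ℝ} (h : bnd w) : Ang (0, u) w := by
  right
  unfold dt
  simp only [zero_mul, zero_add, mul_zero]
  nlinarith [mul_le_mul_of_nonneg_left h.2 (sq_nonneg u)]

theorem ang_v' (u : ℝ) {w : ℝ × ℝ} (h : bnd w) : Ang w (0, u) := by
  right
  unfold dt
  simp only [zero_mul, zero_add, mul_zero]
  nlinarith [mul_le_mul_of_nonneg_left h.2 (sq_nonneg u)]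

theorem hr_lt (t : ℕ) : hr0 t < hrC t := by
  unfold hr0 hrC
  split_ifs <;> norm_num

theorem hc_lt (t : ℕ) : hc0 t < hcB t := by
  unfold hc0 hcB
  split_ifs <;> norm_num

/-- in a drawing with the relations, the second map is a multiple of the quarter turn of the
first -/
theorem mB_eq {Λ : Lay} {X Y : ℕ → ℝ} (hR : Rel Λ X Y) {κ : CV} (hκ : Λ.isHub κ = true) :
    ∃ s : ℝ, 0 < s ∧ mB Λ X Y κ = s • J (mA Λ X Y κ) := by
  cases κ with
  | pos r c =>
    refine ⟨1, one_pos, ?_⟩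
    simp [mA, mB, J]
  | hub i j =>
    simp only [Lay.isHub, Bool.and_eq_true, decide_eq_true_eq] at hκ
    obtain ⟨hi, hj, ht⟩ := hκ
    have he := hR.eq i j (Λ.T i j) rfl ht
    set t := Λ.T i j with htdef
    have hb : 0 < X (6 * j + hcB t) - X (6 * j + hc0 t) := by
      have := hR.mx (show 6 * j + hc0 t < 6 * j + hcB t by have := hc_lt t; omega)
      linarith
    have hc : 0 < Y (6 * i + hrC t) - Y (6 * i + hr0 t) := by
      have := hR.my (show 6 * i + hr0 t < 6 * i + hrC t by have := hr_lt t; omega)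
      linarith
    refine ⟨(X (6 * j + hcB t) - X (6 * j + hc0 t)) / (Y (6 * i + hrC t) - Y (6 * i + hr0 t)),
      div_pos hb hc, ?_⟩
    simp only [mA, mB, J, ← htdef]
    ext
    · simp only [Prod.smul_fst, smul_eq_mul]
      field_simp
    · simp only [Prod.smul_snd, smul_eq_mul]
      rw [div_mul_eq_mul_div, eq_div_iff hc.ne']
      linear_combination -he

theorem mA_bnd {Λ : Lay} {X Y : ℕ → ℝ} (hR : Rel Λ X Y) {i j : ℕ}
    (hκ : Λ.isHub (.hub i j) = true) : bnd (mA Λ X Y (.hub i j)) := by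
  simp only [Lay.isHub, Bool.and_eq_true, decide_eq_true_eq] at hκ
  exact hR.ang i j (Λ.T i j) rfl hκ.2.2

theorem lin_ax (A B : ℝ × ℝ) {a : ℕ} (ha : a < 4) :
    lin A B (ax a) = if a = 0 then A else if a = 1 then B else if a = 2 then -A else -B := by
  unfold lin ax
  interval_cases a <;> simp

/-- neighbours of a grid point -/
theorem nbr {Λ : Lay} {X Y : ℕ → ℝ} (hR : Rel Λ X Y)
    (hC : Cor Λ (qc Λ X Y) (mA Λ X Y) (mB Λ X Y)) {r c a : ℕ} {κ' : CV}
    (h : CAdj Λ (.pos r c) a κ') :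
    κ' = .pos r (c + 1) ∨ (∃ c0, c = c0 + 1 ∧ κ' = .pos r c0) ∨ κ' = .pos (r + 1) c ∨
      (∃ r0, r = r0 + 1 ∧ κ' = .pos r0 c) ∨
      (κ' = .hub (r / 6) (c / 6) ∧ bnd (qc Λ X Y κ' - qc Λ X Y (.pos r c))) := by
  have key : ∀ (i j a' b' : ℕ) , i < Λ.nb → j < Λ.ng → Λ.T i j ≠ 0 →
      CE Λ (.hub i j) a' (.pos r c) b' → bnd (qc Λ X Y (.hub i j) - qc Λ X Y (.pos r c)) := by
    intro i j a' b' hi hj ht hce
    have hh : Λ.isHub (.hub i j) = true := by
      simp only [Lay.isHub, Bool.and_eq_true, decide_eq_true_eq]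
      exact ⟨hi, hj, ht⟩
    obtain ⟨ha', s, hs, heq⟩ := hC.dir (.hub i j) a' (.pos r c) hh ⟨b', Or.inl hce⟩
    have h1 : qc Λ X Y (.hub i j) - qc Λ X Y (.pos r c) =
        (-s) • lin (mA Λ X Y (.hub i j)) (mB Λ X Y (.hub i j)) (ax a') := by
      rw [neg_smul, ← heq, neg_sub]
    rw [h1]
    apply bnd_smul
    have hA := mA_bnd hR hh
    obtain ⟨s', hs', hB⟩ := mB_eq hR hh
    rw [lin_ax _ _ ha']
    have hB' : bnd (mB Λ X Y (.hub i j)) := by
      rw [hB]
      exact bnd_smul (bnd_J hA) _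
    have hneg : ∀ w : ℝ × ℝ, bnd w → bnd (-w) := by
      intro w hw
      have := bnd_smul hw (-1)
      rwa [neg_one_smul] at this
    split_ifs
    · exact hA
    · exact hB'
    · exact hneg _ hA
    · exact hneg _ hB'
  obtain ⟨b, h | h⟩ := h
  · cases h with
    | h r c hr hc ha => exact Or.inl rfl
    | v r c hr hc ha => exact Or.inr (Or.inr (Or.inl rfl))
  · cases h with
    | h r c hr hc ha => exact Or.inr (Or.inl ⟨_, rfl, rfl⟩)
    | v r c hr hc ha => exact Or.inr (Or.inr (Or.inr (Or.inl ⟨_, rfl, rfl⟩)))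
    | d0 i j hi hj ht =>
      have e1 : (6 * i + hrC (Λ.T i j)) / 6 = i := by
        have : hrC (Λ.T i j) < 6 := by unfold hrC; split_ifs <;> norm_num
        omega
      have e2 : (6 * j + hc1 (Λ.T i j)) / 6 = j := by
        have : hc1 (Λ.T i j) < 6 := by unfold hc1; split_ifs <;> norm_num
        omega
      refine Or.inr (Or.inr (Or.inr (Or.inr ⟨by rw [e1, e2], ?_⟩)))
      exact key i j 0 4 hi hj ht (CE.d0 i j hi hj ht)
    | d1 i j hi hj ht =>
      have e1 : (6 * i + hr1 (Λ.T i j)) / 6 = i := by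
        have : hr1 (Λ.T i j) < 6 := by unfold hr1; split_ifs <;> norm_num
        omega
      have e2 : (6 * j + hc0 (Λ.T i j)) / 6 = j := by
        have : hc0 (Λ.T i j) < 6 := by unfold hc0; split_ifs <;> norm_num
        omega
      refine Or.inr (Or.inr (Or.inr (Or.inr ⟨by rw [e1, e2], ?_⟩)))
      exact key i j 1 4 hi hj ht (CE.d1 i j hi hj ht)
    | d2 i j hi hj ht =>
      have e1 : (6 * i + hr0 (Λ.T i j)) / 6 = i := by
        have : hr0 (Λ.T i j) < 6 := by unfold hr0; split_ifs <;> norm_num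
        omega
      have e2 : (6 * j + hc0 (Λ.T i j)) / 6 = j := by
        have : hc0 (Λ.T i j) < 6 := by unfold hc0; split_ifs <;> norm_num
        omega
      refine Or.inr (Or.inr (Or.inr (Or.inr ⟨by rw [e1, e2], ?_⟩)))
      exact key i j 2 4 hi hj ht (CE.d2 i j hi hj ht)
    | d3 i j hi hj ht =>
      have e1 : (6 * i + hr0 (Λ.T i j)) / 6 = i := by
        have : hr0 (Λ.T i j) < 6 := by unfold hr0; split_ifs <;> norm_num
        omega
      have e2 : (6 * j + hcB (Λ.T i j)) / 6 = j := by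
        have : hcB (Λ.T i j) < 6 := by unfold hcB; split_ifs <;> norm_num
        omega
      refine Or.inr (Or.inr (Or.inr (Or.inr ⟨by rw [e1, e2], ?_⟩)))
      exact key i j 3 4 hi hj ht (CE.d3 i j hi hj ht)

/-- the direction of a neighbour of a grid point -/
theorem nbr' {Λ : Lay} {X Y : ℕ → ℝ} (hR : Rel Λ X Y)
    (hC : Cor Λ (qc Λ X Y) (mA Λ X Y) (mB Λ X Y)) {r c a : ℕ} {κ' : CV}
    (h : CAdj Λ (.pos r c) a κ') :
    (κ' = .pos r (c + 1) ∧ ∃ u : ℝ, 0 < u ∧ qc Λ X Y κ' - qc Λ X Y (.pos r c) = (u, 0)) ∨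
    (κ' = .pos r (c - 1) ∧ ∃ u : ℝ, 0 < u ∧ qc Λ X Y κ' - qc Λ X Y (.pos r c) = (-u, 0)) ∨
    (κ' = .pos (r + 1) c ∧ ∃ u : ℝ, 0 < u ∧ qc Λ X Y κ' - qc Λ X Y (.pos r c) = (0, u)) ∨
    (κ' = .pos (r - 1) c ∧ ∃ u : ℝ, 0 < u ∧ qc Λ X Y κ' - qc Λ X Y (.pos r c) = (0, -u)) ∨
    (κ' = .hub (r / 6) (c / 6) ∧ bnd (qc Λ X Y κ' - qc Λ X Y (.pos r c))) := by
  rcases nbr hR hC h with h1 | ⟨c0, h0, h1⟩ | h1 | ⟨r0, h0, h1⟩ | h1
  · refine Or.inl ⟨h1, X (c + 1) - X c, ?_, ?_⟩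
    · linarith [hR.mx (Nat.lt_succ_self c)]
    · rw [h1]
      simp [qc]
  · refine Or.inr (Or.inl ⟨by rw [h1, h0]; simp, X c - X c0, ?_, ?_⟩)
    · linarith [hR.mx (show c0 < c by omega)]
    · rw [h1]
      simp [qc]
  · refine Or.inr (Or.inr (Or.inl ⟨h1, Y (r + 1) - Y r, ?_, ?_⟩))
    · linarith [hR.my (Nat.lt_succ_self r)]
    · rw [h1]
      simp [qc]
  · refine Or.inr (Or.inr (Or.inr (Or.inl ⟨by rw [h1, h0]; simp, Y r - Y r0, ?_, ?_⟩)))
    · linarith [hR.my (show r0 < r by omega)]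
    · rw [h1]
      simp [qc]
  · exact Or.inr (Or.inr (Or.inr (Or.inr h1)))

end CA

theorem cora_ok : St_cora := by
  intro hcorg Λ X Y hΛ hR
  have hC := (hcorg Λ X Y hΛ hR.mx hR.my).1
  have h3 : (0 : ℝ) < √3 := Real.sqrt_pos.2 (by norm_num)
  refine ⟨⟨hC.inj, hC.seg, ?_, ?_⟩, ?_⟩
  · intro κ hκ
    have hd := hC.det κ hκ
    have hA : mA Λ X Y κ ≠ 0 := by
      intro h0
      rw [h0, cr_zero_left] at hd
      exact hd rfl
    unfold mB'
    rw [cr_smul_right]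
    apply mul_ne_zero h3.ne'
    intro h0
    apply hA
    simp only [cr, J] at h0
    have e1 : (mA Λ X Y κ).1 = 0 := by nlinarith [sq_nonneg (mA Λ X Y κ).1, sq_nonneg (mA Λ X Y κ).2]
    have e2 : (mA Λ X Y κ).2 = 0 := by nlinarith [sq_nonneg (mA Λ X Y κ).1, sq_nonneg (mA Λ X Y κ).2]
    exact Prod.ext e1 e2
  · intro κ a κ' hκ hadj
    obtain ⟨ha, s, hs, heq⟩ := hC.dir κ a κ' hκ hadj
    refine ⟨ha, ?_⟩
    obtain ⟨s', hs', hB⟩ := CA.mB_eq hR hκ
    have hB' : mB Λ X Y κ = (s' / √3) • mB' Λ X Y κ := by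
      unfold mB'
      rw [hB, smul_smul, div_mul_cancel₀ _ h3.ne']
    rw [heq, CA.lin_ax _ _ ha, CA.lin_ax _ _ ha]
    split_ifs
    · exact ⟨s, hs, rfl⟩
    · refine ⟨s * (s' / √3), by positivity, ?_⟩
      rw [hB', smul_smul]
    · exact ⟨s, hs, rfl⟩
    · refine ⟨s * (s' / √3), by positivity, ?_⟩
      rw [hB', ← smul_neg, smul_smul]
  · intro κ a κ1 b κ2 hκ h1 h2 hne
    cases κ with
    | hub i j =>
      exfalso
      have : Λ.isHub (.hub i j) = true := by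
        obtain ⟨b', h1 | h1⟩ := h1
        · cases h1 with
          | d0 i j hi hj ht => simp [Lay.isHub, hi, hj, ht]
          | d1 i j hi hj ht => simp [Lay.isHub, hi, hj, ht]
          | d2 i j hi hj ht => simp [Lay.isHub, hi, hj, ht]
          | d3 i j hi hj ht => simp [Lay.isHub, hi, hj, ht]
        · cases h1
      rw [this] at hκ
      exact Bool.noConfusion hκ
    | pos r c =>
      rcases CA.nbr' hR hC h1 with ⟨e1, u, hu, eu⟩ | ⟨e1, u, hu, eu⟩ | ⟨e1, u, hu, eu⟩ |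
        ⟨e1, u, hu, eu⟩ | ⟨e1, eu⟩ <;>
      rcases CA.nbr' hR hC h2 with ⟨e2, v, hv, ev⟩ | ⟨e2, v, hv, ev⟩ | ⟨e2, v, hv, ev⟩ |
        ⟨e2, v, hv, ev⟩ | ⟨e2, ev⟩
      · exact absurd (e1.trans e2.symm) hne
      · rw [eu, ev]; left; simp only [dt]; nlinarith [mul_pos hu hv]
      · rw [eu, ev]; left; simp only [dt]; nlinarith [mul_pos hu hv]
      · rw [eu, ev]; left; simp only [dt]; nlinarith [mul_pos hu hv]
      · rw [eu]; exact CA.ang_h _ ev
      · rw [eu, ev]; left; simp only [dt]; nlinarith [mul_pos hu hv]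
      · exact absurd (e1.trans e2.symm) hne
      · rw [eu, ev]; left; simp only [dt]; nlinarith [mul_pos hu hv]
      · rw [eu, ev]; left; simp only [dt]; nlinarith [mul_pos hu hv]
      · rw [eu]; exact CA.ang_h _ ev
      · rw [eu, ev]; left; simp only [dt]; nlinarith [mul_pos hu hv]
      · rw [eu, ev]; left; simp only [dt]; nlinarith [mul_pos hu hv]
      · exact absurd (e1.trans e2.symm) hne
      · rw [eu, ev]; left; simp only [dt]; nlinarith [mul_pos hu hv]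
      · rw [eu]; exact CA.ang_v _ ev
      · rw [eu, ev]; left; simp only [dt]; nlinarith [mul_pos hu hv]
      · rw [eu, ev]; left; simp only [dt]; nlinarith [mul_pos hu hv]
      · rw [eu, ev]; left; simp only [dt]; nlinarith [mul_pos hu hv]
      · exact absurd (e1.trans e2.symm) hne
      · rw [eu]; exact CA.ang_v _ ev
      · rw [ev]; exact CA.ang_h' _ eu
      · rw [ev]; exact CA.ang_h' _ eu
      · rw [ev]; exact CA.ang_v' _ eu
      · rw [ev]; exact CA.ang_v' _ eu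
      · exact absurd (e1.trans e2.symm) hne

end Pool.Agent.H670R3
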