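import Pool.Agent.H670R3.Stm

/-!
# The core drawing
-/

namespace Pool.Agent.H670R3

open Pool.Agent.NPC Pool.Agent.H670R2 Pool.Agent.H670R2.Sl

namespace CG

theorem hf (t : ℕ) : 1 ≤ hc0 t ∧ hc0 t < hcB t ∧ hcB t ≤ hc1 t ∧ hc1 t ≤ 5 ∧ 1 ≤ hr0 t ∧
    hr0 t < hrC t ∧ hrC t ≤ hr1 t ∧ hr1 t ≤ 5 := by
  unfold hc0 hcB hc1 hr0 hrC hr1
  split_ifs <;> omega

variable {Λ : Lay} {X Y : ℕ → ℝ}

/-- the open rectangle of the hole in the block `(i, j)` -/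
def InR (Λ : Lay) (X Y : ℕ → ℝ) (i j : ℕ) (p : ℝ × ℝ) : Prop :=
  X (6 * j + hc0 (Λ.T i j)) < p.1 ∧ p.1 < X (6 * j + hc1 (Λ.T i j)) ∧
  Y (6 * i + hr0 (Λ.T i j)) < p.2 ∧ p.2 < Y (6 * i + hr1 (Λ.T i j))

/-- the closed rectangle of the hole in the block `(i, j)` -/
def ClR (Λ : Lay) (X Y : ℕ → ℝ) (i j : ℕ) (p : ℝ × ℝ) : Prop :=
  X (6 * j + hc0 (Λ.T i j)) ≤ p.1 ∧ p.1 ≤ X (6 * j + hc1 (Λ.T i j)) ∧
  Y (6 * i + hr0 (Λ.T i j)) ≤ p.2 ∧ p.2 ≤ Y (6 * i + hr1 (Λ.T i j))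

theorem InR.cl {i j : ℕ} {p : ℝ × ℝ} (h : InR Λ X Y i j p) : ClR Λ X Y i j p :=
  ⟨h.1.le, h.2.1.le, h.2.2.1.le, h.2.2.2.le⟩

/-- the ends of the diagonal edges -/
def IsK (Λ : Lay) (i j r c : ℕ) : Prop :=
  (r = 6 * i + hrC (Λ.T i j) ∧ c = 6 * j + hc1 (Λ.T i j)) ∨
  (r = 6 * i + hr1 (Λ.T i j) ∧ c = 6 * j + hc0 (Λ.T i j)) ∨
  (r = 6 * i + hr0 (Λ.T i j) ∧ c = 6 * j + hc0 (Λ.T i j)) ∨
  (r = 6 * i + hr0 (Λ.T i j) ∧ c = 6 * j + hcB (Λ.T i j))

theorem IsK.cl (hX : StrictMono X) (hY : StrictMono Y) {i j r c : ℕ} (h : IsK Λ i j r c) :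
    ClR Λ X Y i j (X c, Y r) := by
  obtain ⟨h1, h2, h3, h4, h5, h6, h7, h8⟩ := hf (Λ.T i j)
  rcases h with ⟨rfl, rfl⟩ | ⟨rfl, rfl⟩ | ⟨rfl, rfl⟩ | ⟨rfl, rfl⟩ <;>
    refine ⟨hX.monotone ?_, hX.monotone ?_, hY.monotone ?_, hY.monotone ?_⟩ <;> omega

theorem pos4 (hX : StrictMono X) (hY : StrictMono Y) (Λ : Lay) (i j : ℕ) :
    0 < X (6 * j + hc1 (Λ.T i j)) - X (6 * j + hc0 (Λ.T i j)) ∧
    0 < X (6 * j + hcB (Λ.T i j)) - X (6 * j + hc0 (Λ.T i j)) ∧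
    0 < Y (6 * i + hrC (Λ.T i j)) - Y (6 * i + hr0 (Λ.T i j)) ∧
    0 < Y (6 * i + hr1 (Λ.T i j)) - Y (6 * i + hr0 (Λ.T i j)) ∧
    X (6 * j + hcB (Λ.T i j)) - X (6 * j + hc0 (Λ.T i j)) ≤
      X (6 * j + hc1 (Λ.T i j)) - X (6 * j + hc0 (Λ.T i j)) ∧
    Y (6 * i + hrC (Λ.T i j)) - Y (6 * i + hr0 (Λ.T i j)) ≤
      Y (6 * i + hr1 (Λ.T i j)) - Y (6 * i + hr0 (Λ.T i j)) := by
  obtain ⟨h1, h2, h3, h4, h5, h6, h7, h8⟩ := hf (Λ.T i j)
  have e1 := hX.monotone (show 6 * j + hcB (Λ.T i j) ≤ 6 * j + hc1 (Λ.T i j) by omega)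
  have e2 := hX (show 6 * j + hc0 (Λ.T i j) < 6 * j + hcB (Λ.T i j) by omega)
  have e3 := hY.monotone (show 6 * i + hrC (Λ.T i j) ≤ 6 * i + hr1 (Λ.T i j) by omega)
  have e4 := hY (show 6 * i + hr0 (Λ.T i j) < 6 * i + hrC (Λ.T i j) by omega)
  refine ⟨?_, ?_, ?_, ?_, ?_, ?_⟩ <;> linarith

theorem hub_in (hX : StrictMono X) (hY : StrictMono Y) (i j : ℕ) :
    InR Λ X Y i j (qc Λ X Y (.hub i j)) := by
  obtain ⟨ha, hb, hc, hd, hba, hcd⟩ := pos4 hX hY Λ i j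
  simp only [qc, InR]
  set a := X (6 * j + hc1 (Λ.T i j)) - X (6 * j + hc0 (Λ.T i j)) with hae
  set b := X (6 * j + hcB (Λ.T i j)) - X (6 * j + hc0 (Λ.T i j)) with hbe
  set c := Y (6 * i + hrC (Λ.T i j)) - Y (6 * i + hr0 (Λ.T i j)) with hce
  set d := Y (6 * i + hr1 (Λ.T i j)) - Y (6 * i + hr0 (Λ.T i j)) with hde
  have hD : 0 < a * d + b * c := by positivity
  have hl0 : 0 < b * d / (a * d + b * c) := by positivity
  have hl1 : b * d / (a * d + b * c) < 1 := by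
    rw [div_lt_one hD]
    have h1 := mul_le_mul_of_nonneg_right hba hd.le
    have h2 : 0 < b * c := by positivity
    linarith
  have e1 : 0 < b * d / (a * d + b * c) * a := by positivity
  have e2 : b * d / (a * d + b * c) * a < a := by
    have := mul_lt_mul_of_pos_right hl1 ha
    linarith
  have e3 : 0 < b * d / (a * d + b * c) * c := by positivity
  have e4 : b * d / (a * d + b * c) * c < c := by
    have := mul_lt_mul_of_pos_right hl1 hc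
    linarith
  refine ⟨?_, ?_, ?_, ?_⟩ <;> linarith

/-- a point of a segment from a point of the open rectangle to a point of the closed rectangle -/
theorem seg_in {i j : ℕ} {h k p : ℝ × ℝ} (hh : InR Λ X Y i j h) (hk : ClR Λ X Y i j k)
    (hp : p ∈ segment ℝ h k) : p = k ∨ InR Λ X Y i j p := by
  obtain ⟨s, u, hs, hu, hsu, rfl⟩ := hp
  rcases hs.eq_or_lt with rfl | hs
  · left
    have : u = 1 := by linarith
    subst this
    simp
  · right
    obtain ⟨a1, a2, a3, a4⟩ := hh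
    obtain ⟨b1, b2, b3, b4⟩ := hk
    have hu' : u = 1 - s := by linarith
    subst hu'
    have c1 := mul_lt_mul_of_pos_left a1 hs
    have c2 := mul_lt_mul_of_pos_left a2 hs
    have c3 := mul_lt_mul_of_pos_left a3 hs
    have c4 := mul_lt_mul_of_pos_left a4 hs
    have d1 := mul_le_mul_of_nonneg_left b1 hu
    have d2 := mul_le_mul_of_nonneg_left b2 hu
    have d3 := mul_le_mul_of_nonneg_left b3 hu
    have d4 := mul_le_mul_of_nonneg_left b4 hu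
    simp only [InR, Prod.fst_add, Prod.snd_add, Prod.smul_fst, Prod.smul_snd, smul_eq_mul]
    refine ⟨?_, ?_, ?_, ?_⟩ <;> linarith

theorem cl_blk (hX : StrictMono X) (hY : StrictMono Y) {i j : ℕ} {p : ℝ × ℝ}
    (h : ClR Λ X Y i j p) : X (6 * j) < p.1 ∧ p.1 < X (6 * j + 6) ∧ Y (6 * i) < p.2 ∧
      p.2 < Y (6 * i + 6) := by
  obtain ⟨h1, h2, h3, h4, h5, h6, h7, h8⟩ := hf (Λ.T i j)
  obtain ⟨a1, a2, a3, a4⟩ := h
  have e1 := hX (show 6 * j < 6 * j + hc0 (Λ.T i j) by omega)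
  have e2 := hX (show 6 * j + hc1 (Λ.T i j) < 6 * j + 6 by omega)
  have e3 := hY (show 6 * i < 6 * i + hr0 (Λ.T i j) by omega)
  have e4 := hY (show 6 * i + hr1 (Λ.T i j) < 6 * i + 6 by omega)
  refine ⟨?_, ?_, ?_, ?_⟩ <;> linarith

theorem blk_eq (hX : StrictMono X) (hY : StrictMono Y) {i j i' j' : ℕ} {p : ℝ × ℝ}
    (h : ClR Λ X Y i j p) (h' : ClR Λ X Y i' j' p) : i = i' ∧ j = j' := by
  obtain ⟨a1, a2, a3, a4⟩ := cl_blk hX hY h
  obtain ⟨b1, b2, b3, b4⟩ := cl_blk hX hY h'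
  have e1 := hX.lt_iff_lt.mp (a1.trans b2)
  have e2 := hX.lt_iff_lt.mp (b1.trans a2)
  have e3 := hY.lt_iff_lt.mp (a3.trans b4)
  have e4 := hY.lt_iff_lt.mp (b3.trans a4)
  omega

/-- a grid point in the open rectangle is not used -/
theorem isIn_of (hX : StrictMono X) (hY : StrictMono Y) {i j r c : ℕ} (ht : Λ.T i j ≠ 0)
    (h : InR Λ X Y i j (X c, Y r)) : isIn (Λ.ty r c) (r % 6) (c % 6) = true := by
  obtain ⟨h1, h2, h3, h4, h5, h6, h7, h8⟩ := hf (Λ.T i j)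
  obtain ⟨a1, a2, a3, a4⟩ := h
  replace a1 := hX.lt_iff_lt.mp a1
  replace a2 := hX.lt_iff_lt.mp a2
  replace a3 := hY.lt_iff_lt.mp a3
  replace a4 := hY.lt_iff_lt.mp a4
  have e1 : r / 6 = i := by omega
  have e2 : c / 6 = j := by omega
  simp only [isIn, Lay.ty, e1, e2, decide_eq_true_eq]
  refine ⟨ht, ?_, ?_, ?_, ?_⟩ <;> omega

/-- a point of the open rectangle is not on a horizontal edge -/
theorem hAbs_of (hX : StrictMono X) (hY : StrictMono Y) {i j r c : ℕ} {p : ℝ × ℝ}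
    (ht : Λ.T i j ≠ 0) (h : InR Λ X Y i j p) (h2 : p.2 = Y r) (h3 : X c ≤ p.1)
    (h4 : p.1 ≤ X (c + 1)) : hAbs (Λ.ty r c) (r % 6) (c % 6) = true := by
  obtain ⟨f1, f2, f3, f4, f5, f6, f7, f8⟩ := hf (Λ.T i j)
  obtain ⟨a1, a2, a3, a4⟩ := h
  rw [h2] at a3 a4
  replace a1 := hX.lt_iff_lt.mp (a1.trans_le h4)
  replace a2 := hX.lt_iff_lt.mp (h3.trans_lt a2)
  replace a3 := hY.lt_iff_lt.mp a3
  replace a4 := hY.lt_iff_lt.mp a4
  have e1 : r / 6 = i := by omega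
  have e2 : c / 6 = j := by omega
  simp only [hAbs, Lay.ty, e1, e2, decide_eq_true_eq]
  refine ⟨ht, ?_, ?_, ?_, ?_⟩ <;> omega

/-- a point of the open rectangle is not on a vertical edge -/
theorem vAbs_of (hX : StrictMono X) (hY : StrictMono Y) {i j r c : ℕ} {p : ℝ × ℝ}
    (ht : Λ.T i j ≠ 0) (h : InR Λ X Y i j p) (h2 : p.1 = X c) (h3 : Y r ≤ p.2)
    (h4 : p.2 ≤ Y (r + 1)) : vAbs (Λ.ty r c) (r % 6) (c % 6) = true := by
  obtain ⟨f1, f2, f3, f4, f5, f6, f7, f8⟩ := hf (Λ.T i j)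
  obtain ⟨a1, a2, a3, a4⟩ := h
  rw [h2] at a1 a2
  replace a1 := hX.lt_iff_lt.mp a1
  replace a2 := hX.lt_iff_lt.mp a2
  replace a3 := hY.lt_iff_lt.mp (a3.trans_le h4)
  replace a4 := hY.lt_iff_lt.mp (h3.trans_lt a4)
  have e1 : r / 6 = i := by omega
  have e2 : c / 6 = j := by omega
  simp only [vAbs, Lay.ty, e1, e2, decide_eq_true_eq]
  refine ⟨ht, ?_, ?_, ?_, ?_⟩ <;> omega

theorem seg_h {r c : ℕ} {p : ℝ × ℝ} (hX : StrictMono X)
    (hp : p ∈ segment ℝ ((X c, Y r) : ℝ × ℝ) (X (c + 1), Y r)) :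
    p.2 = Y r ∧ X c ≤ p.1 ∧ p.1 ≤ X (c + 1) := by
  obtain ⟨s, u, hs, hu, hsu, rfl⟩ := hp
  have hx := (hX (Nat.lt_succ_self c)).le
  have hu' : s = 1 - u := by linarith
  subst hu'
  simp only [Prod.fst_add, Prod.snd_add, Prod.smul_fst, Prod.smul_snd, smul_eq_mul]
  have h1 := mul_le_mul_of_nonneg_left hx hu
  have h2 := mul_le_mul_of_nonneg_left hx hs
  refine ⟨by ring, ?_, ?_⟩ <;> linarith

theorem seg_v {r c : ℕ} {p : ℝ × ℝ} (hY : StrictMono Y)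
    (hp : p ∈ segment ℝ ((X c, Y r) : ℝ × ℝ) (X c, Y (r + 1))) :
    p.1 = X c ∧ Y r ≤ p.2 ∧ p.2 ≤ Y (r + 1) := by
  obtain ⟨s, u, hs, hu, hsu, rfl⟩ := hp
  have hx := (hY (Nat.lt_succ_self r)).le
  have hu' : s = 1 - u := by linarith
  subst hu'
  simp only [Prod.fst_add, Prod.snd_add, Prod.smul_fst, Prod.smul_snd, smul_eq_mul]
  have h1 := mul_le_mul_of_nonneg_left hx hu
  have h2 := mul_le_mul_of_nonneg_left hx hs
  refine ⟨by ring, ?_, ?_⟩ <;> linarith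

/-- the three kinds of edges -/
theorem ce_cases {κ κ' : CV} {a a' : ℕ} (h : CE Λ κ a κ' a') :
    (∃ r c, κ = .pos r c ∧ κ' = .pos r (c + 1) ∧ hAbs (Λ.ty r c) (r % 6) (c % 6) = false) ∨
    (∃ r c, κ = .pos r c ∧ κ' = .pos (r + 1) c ∧ vAbs (Λ.ty r c) (r % 6) (c % 6) = false) ∨
    (∃ i j r c, κ = .hub i j ∧ κ' = .pos r c ∧ i < Λ.nb ∧ j < Λ.ng ∧ Λ.T i j ≠ 0 ∧
      IsK Λ i j r c) := by
  cases h with
  | h r c hr hc ha => exact Or.inl ⟨r, c, rfl, rfl, ha⟩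
  | v r c hr hc ha => exact Or.inr (Or.inl ⟨r, c, rfl, rfl, ha⟩)
  | d0 i j hi hj ht => exact Or.inr (Or.inr ⟨i, j, _, _, rfl, rfl, hi, hj, ht, Or.inl ⟨rfl, rfl⟩⟩)
  | d1 i j hi hj ht =>
    exact Or.inr (Or.inr ⟨i, j, _, _, rfl, rfl, hi, hj, ht, Or.inr (Or.inl ⟨rfl, rfl⟩)⟩)
  | d2 i j hi hj ht =>
    exact Or.inr (Or.inr ⟨i, j, _, _, rfl, rfl, hi, hj, ht, Or.inr (Or.inr (Or.inl ⟨rfl, rfl⟩))⟩)
  | d3 i j hi hj ht =>
    exact Or.inr (Or.inr ⟨i, j, _, _, rfl, rfl, hi, hj, ht, Or.inr (Or.inr (Or.inr ⟨rfl, rfl⟩))⟩)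

/-- the ends of the diagonal edges are used -/
theorem IsK.val {i j r c : ℕ} (hi : i < Λ.nb) (hj : j < Λ.ng) (h : IsK Λ i j r c) :
    Λ.Val (.pos r c) := by
  obtain ⟨h1, h2, h3, h4, h5, h6, h7, h8⟩ := hf (Λ.T i j)
  have e1 : r / 6 = i := by
    rcases h with ⟨rfl, rfl⟩ | ⟨rfl, rfl⟩ | ⟨rfl, rfl⟩ | ⟨rfl, rfl⟩ <;> omega
  have e2 : c / 6 = j := by
    rcases h with ⟨rfl, rfl⟩ | ⟨rfl, rfl⟩ | ⟨rfl, rfl⟩ | ⟨rfl, rfl⟩ <;> omega
  refine ⟨?_, ?_, ?_⟩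
  · rcases h with ⟨rfl, rfl⟩ | ⟨rfl, rfl⟩ | ⟨rfl, rfl⟩ | ⟨rfl, rfl⟩ <;> omega
  · rcases h with ⟨rfl, rfl⟩ | ⟨rfl, rfl⟩ | ⟨rfl, rfl⟩ | ⟨rfl, rfl⟩ <;> omega
  · simp only [isIn, Lay.ty, e1, e2, decide_eq_false_iff_not]
    rintro ⟨_, a1, a2, a3, a4⟩
    rcases h with ⟨rfl, rfl⟩ | ⟨rfl, rfl⟩ | ⟨rfl, rfl⟩ | ⟨rfl, rfl⟩ <;> omega

/-- the ends of the diagonal edges are plain -/
theorem IsK.plain {i j r c : ℕ} (ht : Λ.T i j ≠ 0) (h : IsK Λ i j r c) :
    Λ.isHub (.pos r c) = false := by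
  obtain ⟨h1, h2, h3, h4, h5, h6, h7, h8⟩ := hf (Λ.T i j)
  have e1 : r / 6 = i := by
    rcases h with ⟨rfl, rfl⟩ | ⟨rfl, rfl⟩ | ⟨rfl, rfl⟩ | ⟨rfl, rfl⟩ <;> omega
  have e2 : c / 6 = j := by
    rcases h with ⟨rfl, rfl⟩ | ⟨rfl, rfl⟩ | ⟨rfl, rfl⟩ | ⟨rfl, rfl⟩ <;> omega
  have : isPl (Λ.ty r c) (r % 6) (c % 6) = true := by
    simp only [isPl, Lay.ty, e1, e2, decide_eq_true_eq]
    refine ⟨ht, ?_⟩
    rcases h with ⟨rfl, rfl⟩ | ⟨rfl, rfl⟩ | ⟨rfl, rfl⟩ | ⟨rfl, rfl⟩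
    · exact Or.inr (Or.inr (Or.inl ⟨by omega, by omega⟩))
    · exact Or.inr (Or.inr (Or.inr ⟨by omega, by omega⟩))
    · exact Or.inl ⟨by omega, by omega⟩
    · exact Or.inr (Or.inl ⟨by omega, by omega⟩)
  simp [Lay.isHub, isHb, this]

/-- a used vertex on an edge is an end of the edge -/
theorem seg_ok (hX : StrictMono X) (hY : StrictMono Y) {κ κ' κ'' : CV} {a a' : ℕ}
    (h : CE Λ κ a κ' a') (hv : Λ.Val κ'') (h1 : κ'' ≠ κ) (h2 : κ'' ≠ κ') :
    qc Λ X Y κ'' ∉ segment ℝ (qc Λ X Y κ) (qc Λ X Y κ') := by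
  intro hp
  rcases ce_cases h with ⟨r, c, rfl, rfl, hA⟩ | ⟨r, c, rfl, rfl, hA⟩ |
    ⟨i, j, r, c, rfl, rfl, hi, hj, ht, hK⟩
  · obtain ⟨p1, p2, p3⟩ := seg_h hX hp
    cases κ'' with
    | pos r' c' =>
      simp only [qc] at p1 p2 p3
      have e1 := hY.injective p1
      have e2 := hX.le_iff_le.mp p2
      have e3 := hX.le_iff_le.mp p3
      subst e1
      rcases (by omega : c' = c ∨ c' = c + 1) with rfl | rfl
      · exact h1 rfl
      · exact h2 rfl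
    | hub i j =>
      rw [hAbs_of hX hY hv.2.2 (hub_in hX hY i j) p1 p2 p3] at hA
      exact Bool.noConfusion hA
  · obtain ⟨p1, p2, p3⟩ := seg_v hY hp
    cases κ'' with
    | pos r' c' =>
      simp only [qc] at p1 p2 p3
      have e1 := hX.injective p1
      have e2 := hY.le_iff_le.mp p2
      have e3 := hY.le_iff_le.mp p3
      subst e1
      rcases (by omega : r' = r ∨ r' = r + 1) with rfl | rfl
      · exact h1 rfl
      · exact h2 rfl
    | hub i j =>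
      rw [vAbs_of hX hY hv.2.2 (hub_in hX hY i j) p1 p2 p3] at hA
      exact Bool.noConfusion hA
  · have hK' := hK.cl hX hY (Λ := Λ)
    cases κ'' with
    | pos r' c' =>
      rcases seg_in (hub_in hX hY i j) hK' hp with h' | h'
      · simp only [qc, Prod.mk.injEq] at h'
        have e1 := hX.injective h'.1
        have e2 := hY.injective h'.2
        subst e1 e2
        exact h2 rfl
      · have := isIn_of hX hY ht h'
        rw [hv.2.2] at this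
        exact Bool.noConfusion this
    | hub i' j' =>
      have h3 : ClR Λ X Y i j (qc Λ X Y (.hub i' j')) := by
        rcases seg_in (hub_in hX hY i j) hK' hp with h' | h'
        · rw [h']; exact hK'
        · exact h'.cl
      obtain ⟨rfl, rfl⟩ := blk_eq hX hY h3 (hub_in hX hY i' j').cl
      exact h1 rfl

theorem inj_ok (hX : StrictMono X) (hY : StrictMono Y) {κ κ' : CV} (hv : Λ.Val κ)
    (hv' : Λ.Val κ') (h : qc Λ X Y κ = qc Λ X Y κ') : κ = κ' := by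
  cases κ with
  | pos r c =>
    cases κ' with
    | pos r' c' =>
      simp only [qc, Prod.mk.injEq] at h
      rw [hX.injective h.1, hY.injective h.2]
    | hub i j =>
      have h' := hub_in (Λ := Λ) hX hY i j
      rw [← h] at h'
      have := isIn_of hX hY hv'.2.2 h'
      rw [hv.2.2] at this
      exact Bool.noConfusion this
  | hub i j =>
    cases κ' with
    | pos r' c' =>
      have h' := hub_in (Λ := Λ) hX hY i j
      rw [h] at h'
      have := isIn_of hX hY hv.2.2 h'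
      rw [hv'.2.2] at this
      exact Bool.noConfusion this
    | hub i' j' =>
      have h' := hub_in (Λ := Λ) hX hY i j
      rw [h] at h'
      obtain ⟨rfl, rfl⟩ := blk_eq hX hY h'.cl (hub_in hX hY i' j').cl
      rfl

/-- a grid edge and a diagonal edge -/
theorem cross_gd (hX : StrictMono X) (hY : StrictMono Y) {κ κ' : CV} {a a' i j r c : ℕ}
    {p : ℝ × ℝ} (h : CE Λ κ a κ' a')
    (hg : ∀ p ∈ segment ℝ (qc Λ X Y κ) (qc Λ X Y κ'), ¬ InR Λ X Y i j p)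
    (hi : i < Λ.nb) (hj : j < Λ.ng) (hK : IsK Λ i j r c)
    (h1 : CV.pos r c ≠ κ) (h2 : CV.pos r c ≠ κ')
    (hp : p ∈ segment ℝ (qc Λ X Y κ) (qc Λ X Y κ'))
    (hp' : p ∈ segment ℝ (qc Λ X Y (.hub i j)) (qc Λ X Y (.pos r c))) : False := by
  rcases seg_in (hub_in hX hY i j) (hK.cl hX hY) hp' with h' | h'
  · subst h'
    exact seg_ok hX hY h (hK.val hi hj) h1 h2 hp
  · exact hg p hp h'

theorem cross_ok (hX : StrictMono X) (hY : StrictMono Y) : CCross Λ (qc Λ X Y) := by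
  intro κ a κ' a' μ b μ' b' h h' n1 n2 n3 n4
  rw [Set.disjoint_left]
  intro p hp hp'
  rcases ce_cases h with ⟨r, c, rfl, rfl, hA⟩ | ⟨r, c, rfl, rfl, hA⟩ |
    ⟨i, j, r, c, rfl, rfl, hi, hj, ht, hK⟩
  · obtain ⟨p1, p2, p3⟩ := seg_h hX hp
    rcases ce_cases h' with ⟨r', c', rfl, rfl, hA'⟩ | ⟨r', c', rfl, rfl, hA'⟩ |
      ⟨i', j', r', c', rfl, rfl, hi', hj', ht', hK'⟩
    · obtain ⟨q1, q2, q3⟩ := seg_h hX hp'
      have e1 := hY.injective (p1.symm.trans q1)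
      have e2 := hX.le_iff_le.mp (p2.trans q3)
      have e3 := hX.le_iff_le.mp (q2.trans p3)
      subst e1
      rcases (by omega : c = c' ∨ c = c' + 1 ∨ c + 1 = c') with rfl | rfl | rfl
      · exact n1 rfl
      · exact n2 rfl
      · exact n3 rfl
    · obtain ⟨q1, q2, q3⟩ := seg_v hY hp'
      rw [q1] at p2 p3
      rw [p1] at q2 q3
      have e1 := hX.le_iff_le.mp p2
      have e2 := hX.le_iff_le.mp p3
      have e3 := hY.le_iff_le.mp q2
      have e4 := hY.le_iff_le.mp q3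
      rcases (by omega : c' = c ∨ c' = c + 1) with rfl | rfl <;>
        rcases (by omega : r = r' ∨ r = r' + 1) with rfl | rfl
      · exact n1 rfl
      · exact n2 rfl
      · exact n3 rfl
      · exact n4 rfl
    · refine cross_gd hX hY h ?_ hi' hj' hK' n2.symm n4.symm hp hp'
      intro p hp hI
      obtain ⟨p1, p2, p3⟩ := seg_h hX hp
      rw [hAbs_of hX hY ht' hI p1 p2 p3] at hA
      exact Bool.noConfusion hA
  · obtain ⟨p1, p2, p3⟩ := seg_v hY hp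
    rcases ce_cases h' with ⟨r', c', rfl, rfl, hA'⟩ | ⟨r', c', rfl, rfl, hA'⟩ |
      ⟨i', j', r', c', rfl, rfl, hi', hj', ht', hK'⟩
    · obtain ⟨q1, q2, q3⟩ := seg_h hX hp'
      rw [q1] at p2 p3
      rw [p1] at q2 q3
      have e1 := hY.le_iff_le.mp p2
      have e2 := hY.le_iff_le.mp p3
      have e3 := hX.le_iff_le.mp q2
      have e4 := hX.le_iff_le.mp q3
      rcases (by omega : c = c' ∨ c = c' + 1) with rfl | rfl <;>
        rcases (by omega : r' = r ∨ r' = r + 1) with rfl | rfl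
      · exact n1 rfl
      · exact n3 rfl
      · exact n2 rfl
      · exact n4 rfl
    · obtain ⟨q1, q2, q3⟩ := seg_v hY hp'
      have e1 := hX.injective (p1.symm.trans q1)
      have e2 := hY.le_iff_le.mp (p2.trans q3)
      have e3 := hY.le_iff_le.mp (q2.trans p3)
      subst e1
      rcases (by omega : r = r' ∨ r = r' + 1 ∨ r + 1 = r') with rfl | rfl | rfl
      · exact n1 rfl
      · exact n2 rfl
      · exact n3 rfl
    · refine cross_gd hX hY h ?_ hi' hj' hK' n2.symm n4.symm hp hp'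
      intro p hp hI
      obtain ⟨p1, p2, p3⟩ := seg_v hY hp
      rw [vAbs_of hX hY ht' hI p1 p2 p3] at hA
      exact Bool.noConfusion hA
  · rcases ce_cases h' with ⟨r', c', rfl, rfl, hA'⟩ | ⟨r', c', rfl, rfl, hA'⟩ |
      ⟨i', j', r', c', rfl, rfl, hi', hj', ht', hK'⟩
    · refine cross_gd hX hY h' ?_ hi hj hK n3 n4 hp' hp
      intro p hp hI
      obtain ⟨p1, p2, p3⟩ := seg_h hX hp
      rw [hAbs_of hX hY ht hI p1 p2 p3] at hA'
      exact Bool.noConfusion hA'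
    · refine cross_gd hX hY h' ?_ hi hj hK n3 n4 hp' hp
      intro p hp hI
      obtain ⟨p1, p2, p3⟩ := seg_v hY hp
      rw [vAbs_of hX hY ht hI p1 p2 p3] at hA'
      exact Bool.noConfusion hA'
    · have c1 : ClR Λ X Y i j p := by
        rcases seg_in (hub_in hX hY i j) (hK.cl hX hY) hp with h | h
        · rw [h]; exact hK.cl hX hY
        · exact h.cl
      have c2 : ClR Λ X Y i' j' p := by
        rcases seg_in (hub_in hX hY i' j') (hK'.cl hX hY) hp' with h | h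
        · rw [h]; exact hK'.cl hX hY
        · exact h.cl
      obtain ⟨rfl, rfl⟩ := blk_eq hX hY c1 c2
      exact n1 rfl

theorem det_ok (hX : StrictMono X) (hY : StrictMono Y) (κ : CV) :
    cr (mA Λ X Y κ) (mB Λ X Y κ) ≠ 0 := by
  cases κ with
  | pos r c => simp [mA, mB, cr]
  | hub i j =>
    obtain ⟨ha, hb, hc, hd, hba, hcd⟩ := pos4 hX hY Λ i j
    simp only [mA, mB, cr]
    have h1 := mul_pos ha hd
    have h2 := mul_pos hb hc
    apply ne_of_gt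
    linarith

theorem dir_ok (hX : StrictMono X) (hY : StrictMono Y) {κ κ' : CV} {a : ℕ}
    (hh : Λ.isHub κ = true) (h : CAdj Λ κ a κ') : a < 4 ∧
      Pp (lin (mA Λ X Y κ) (mB Λ X Y κ) (ax a)) (qc Λ X Y κ' - qc Λ X Y κ) := by
  obtain ⟨b, h | h⟩ := h
  · cases h with
    | h r c hr hc hA =>
      refine ⟨by norm_num, X (c + 1) - X c, sub_pos.mpr (hX (Nat.lt_succ_self c)), ?_⟩
      ext <;> simp [qc, lin, mA, mB, ax]
    | v r c hr hc hA =>
      refine ⟨by norm_num, Y (r + 1) - Y r, sub_pos.mpr (hY (Nat.lt_succ_self r)), ?_⟩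
      ext <;> simp [qc, lin, mA, mB, ax]
    | d0 i j hi hj ht =>
      obtain ⟨ha, hb, hc, hd, hba, hcd⟩ := pos4 hX hY Λ i j
      refine ⟨by norm_num, ?_⟩
      have h1 := mul_pos ha hd
      have h2 := mul_pos hb hc
      have h3 := mul_pos hb hd
      have h4 := (mul_le_mul_of_nonneg_right hba hd.le).trans_lt (lt_add_of_pos_right _ h2)
      refine ⟨1 - _ / _, sub_pos.mpr ((div_lt_one (add_pos h1 h2)).mpr h4), ?_⟩
      ext
      · simp [qc, lin, mA, mB, ax]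
        ring
      · simp [qc, lin, mA, mB, ax]
        ring
    | d1 i j hi hj ht =>
      obtain ⟨ha, hb, hc, hd, hba, hcd⟩ := pos4 hX hY Λ i j
      refine ⟨by norm_num, ?_⟩
      have h1 := mul_pos ha hd
      have h2 := mul_pos hb hc
      refine ⟨_ / _, div_pos h1 (add_pos h1 h2), ?_⟩
      have h5 := (add_pos h1 h2).ne'
      ext
      · simp [qc, lin, mA, mB, ax]
        field_simp
        ring
      · simp [qc, lin, mA, mB, ax]
        field_simp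
        ring
    | d2 i j hi hj ht =>
      obtain ⟨ha, hb, hc, hd, hba, hcd⟩ := pos4 hX hY Λ i j
      refine ⟨by norm_num, ?_⟩
      have h1 := mul_pos ha hd
      have h2 := mul_pos hb hc
      have h3 := mul_pos hb hd
      refine ⟨_ / _, div_pos h3 (add_pos h1 h2), ?_⟩
      ext
      · simp [qc, lin, mA, mB, ax]
        ring
      · simp [qc, lin, mA, mB, ax]
        ring
    | d3 i j hi hj ht =>
      obtain ⟨ha, hb, hc, hd, hba, hcd⟩ := pos4 hX hY Λ i j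
      refine ⟨by norm_num, ?_⟩
      have h1 := mul_pos ha hd
      have h2 := mul_pos hb hc
      refine ⟨_ / _, div_pos h2 (add_pos h1 h2), ?_⟩
      have h5 := (add_pos h1 h2).ne'
      ext
      · simp [qc, lin, mA, mB, ax]
        field_simp
        ring
      · simp [qc, lin, mA, mB, ax]
        field_simp
        ring
  · cases h with
    | h r c hr hc hA =>
      refine ⟨by norm_num, X (c + 1) - X c, sub_pos.mpr (hX (Nat.lt_succ_self c)), ?_⟩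
      ext <;> simp [qc, lin, mA, mB, ax]
    | v r c hr hc hA =>
      refine ⟨by norm_num, Y (r + 1) - Y r, sub_pos.mpr (hY (Nat.lt_succ_self r)), ?_⟩
      ext <;> simp [qc, lin, mA, mB, ax]
    | d0 i j hi hj ht =>
      have := IsK.plain (Λ := Λ) ht (Or.inl ⟨rfl, rfl⟩)
      rw [hh] at this
      exact Bool.noConfusion this
    | d1 i j hi hj ht =>
      have := IsK.plain (Λ := Λ) ht (Or.inr (Or.inl ⟨rfl, rfl⟩))
      rw [hh] at this
      exact Bool.noConfusion this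
    | d2 i j hi hj ht =>
      have := IsK.plain (Λ := Λ) ht (Or.inr (Or.inr (Or.inl ⟨rfl, rfl⟩)))
      rw [hh] at this
      exact Bool.noConfusion this
    | d3 i j hi hj ht =>
      have := IsK.plain (Λ := Λ) ht (Or.inr (Or.inr (Or.inr ⟨rfl, rfl⟩)))
      rw [hh] at this
      exact Bool.noConfusion this

end CG

theorem corg_ok : St_corg := fun _ _ _ _ hX hY =>
  ⟨⟨fun _ _ hv hv' h => CG.inj_ok hX hY hv hv' h,
    fun _ _ _ _ _ h hv h1 h2 => CG.seg_ok hX hY h hv h1 h2,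
    fun κ _ => CG.det_ok hX hY κ,
    fun _ _ _ hh h => CG.dir_ok hX hY hh h⟩, CG.cross_ok hX hY⟩

end Pool.Agent.H670R3
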