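import Pool.Agent.H670R3.Stm

/-!
Task CO (helper55): from a drawing of the final graph to a drawing of the core graph.
-/

namespace Pool.Agent.H670R3

namespace TCO

/-! ### vectors -/

theorem dt_self_pos {f : ℝ × ℝ} (hf : f ≠ 0) : 0 < dt f f := by
  have h : f.1 ≠ 0 ∨ f.2 ≠ 0 := by
    by_contra h
    push Not at h
    exact hf (Prod.ext h.1 h.2)
  unfold dt
  rcases h with h | h
  · have := mul_self_pos.mpr h
    nlinarith [mul_self_nonneg f.2]
  · have := mul_self_pos.mpr h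
    nlinarith [mul_self_nonneg f.1]

theorem J_ne {f : ℝ × ℝ} (hf : f ≠ 0) : J f ≠ 0 := by
  intro h
  apply hf
  have h1 := congrArg Prod.fst h
  have h2 := congrArg Prod.snd h
  simp only [J, Prod.fst_zero, Prod.snd_zero] at h1 h2
  exact Prod.ext h2 (neg_eq_zero.mp h1)

theorem Jn_ne {f : ℝ × ℝ} (hf : f ≠ 0) (m : ℕ) : J^[m] f ≠ 0 := by
  induction m with
  | zero => exact hf
  | succ m ih => rw [Function.iterate_succ_apply']; exact J_ne ih

theorem Pp.ne {a b : ℝ × ℝ} (h : Pp a b) (ha : a ≠ 0) : b ≠ 0 := by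
  obtain ⟨s, hs, rfl⟩ := h
  exact smul_ne_zero hs.ne' ha

theorem J_sep {f : ℝ × ℝ} (hf : f ≠ 0) {m n : ℕ} (hm : m < 4) (hn : n < 4) {t : ℝ} (ht : 0 < t)
    (h : J^[n] f = t • J^[m] f) : m = n := by
  have hpos := dt_self_pos hf
  unfold dt at hpos
  have h1 := congrArg Prod.fst h
  have h2 := congrArg Prod.snd h
  have key : 0 < t * (f.1 * f.1 + f.2 * f.2) := mul_pos ht hpos
  interval_cases m <;> interval_cases n <;>
    simp only [Function.iterate_succ, Function.iterate_zero, Function.comp_apply, id_eq, J,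
      Prod.smul_fst, Prod.smul_snd, smul_eq_mul] at h1 h2 <;>
    first
      | rfl
      | (exfalso; nlinarith [mul_self_nonneg f.1, mul_self_nonneg f.2])

theorem not_ang {v : ℝ × ℝ} (hv : v ≠ 0) {t : ℝ} (ht : 0 < t) : ¬ Ang v (t • v) := by
  have hpos := dt_self_pos hv
  have h1 : dt v (t • v) = t * dt v v := by
    simp only [dt, Prod.smul_fst, Prod.smul_snd, smul_eq_mul]; ring
  have h2 : dt (t • v) (t • v) = t ^ 2 * dt v v := by
    simp only [dt, Prod.smul_fst, Prod.smul_snd, smul_eq_mul]; ring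
  rintro (h | h)
  · rw [h1] at h
    have := mul_pos ht hpos
    linarith
  · rw [h1, h2] at h
    have h3 : 0 < t ^ 2 * dt v v ^ 2 := by positivity
    nlinarith

/-! ### the core graph -/

theorem lt6 (t : ℕ) : hr0 t < 6 ∧ hrC t < 6 ∧ hr1 t < 6 ∧ hc0 t < 6 ∧ hcB t < 6 ∧ hc1 t < 6 := by
  unfold hr0 hrC hr1 hc0 hcB hc1
  refine ⟨?_, ?_, ?_, ?_, ?_, ?_⟩ <;> split_ifs <;> omega

theorem plain_not_hub {Λ : Lay} {i j ρ γ : ℕ} (hρ : ρ < 6) (hγ : γ < 6)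
    (h : isPl (Λ.T i j) ρ γ = true) : Λ.isHub (.pos (6 * i + ρ) (6 * j + γ)) = false := by
  have e1 : (6 * i + ρ) / 6 = i := by omega
  have e2 : (6 * i + ρ) % 6 = ρ := by omega
  have e3 : (6 * j + γ) / 6 = j := by omega
  have e4 : (6 * j + γ) % 6 = γ := by omega
  simp [Lay.isHub, Lay.ty, e1, e2, e3, e4, isHb, h]

theorem hub_hub {Λ : Lay} {i j : ℕ} (hi : i < Λ.nb) (hj : j < Λ.ng) (ht : Λ.T i j ≠ 0) :
    Λ.isHub (.hub i j) = true := by
  simp [Lay.isHub, hi, hj, ht]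

theorem ce_port {Λ : Lay} {κ κ' : CV} {a b : ℕ} (h : CE Λ κ a κ' b) :
    a < 4 ∧ (Λ.isHub κ' = true → b < 4) := by
  cases h with
  | h r c hr hc ha => exact ⟨by norm_num, fun _ => by norm_num⟩
  | v r c hr hc ha => exact ⟨by norm_num, fun _ => by norm_num⟩
  | d0 i j hi hj ht =>
    refine ⟨by norm_num, fun h => ?_⟩
    rw [plain_not_hub (lt6 _).2.1 (lt6 _).2.2.2.2.2 (by simp [isPl, ht])] at h
    exact absurd h (by simp)
  | d1 i j hi hj ht =>
    refine ⟨by norm_num, fun h => ?_⟩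
    rw [plain_not_hub (lt6 _).2.2.1 (lt6 _).2.2.2.1 (by simp [isPl, ht])] at h
    exact absurd h (by simp)
  | d2 i j hi hj ht =>
    refine ⟨by norm_num, fun h => ?_⟩
    rw [plain_not_hub (lt6 _).1 (lt6 _).2.2.2.1 (by simp [isPl, ht])] at h
    exact absurd h (by simp)
  | d3 i j hi hj ht =>
    refine ⟨by norm_num, fun h => ?_⟩
    rw [plain_not_hub (lt6 _).1 (lt6 _).2.2.2.2.1 (by simp [isPl, ht])] at h
    exact absurd h (by simp)

theorem chkh : ∀ t < 6, ∀ ρ < 6, ∀ γ < 5, hAbs t ρ γ = false →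
    isHb t ρ γ = true ∨ isHb t ρ (γ + 1) = true := by decide

theorem chkh0 : ∀ t < 6, ∀ ρ < 6, isHb t ρ 0 = true := by decide

theorem chkv : ∀ t < 6, ∀ ρ < 5, ∀ γ < 6, vAbs t ρ γ = false →
    isHb t ρ γ = true ∨ isHb t (ρ + 1) γ = true := by decide

theorem chkv0 : ∀ t < 6, ∀ γ < 6, isHb t 0 γ = true := by decide

theorem ce_hub {Λ : Lay} (hΛ : Λ.Ok) {κ κ' : CV} {a b : ℕ} (h : CE Λ κ a κ' b) :
    Λ.isHub κ = true ∨ Λ.isHub κ' = true := by
  cases h with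
  | h r c hr hc ha =>
    have hT : ∀ x y, Λ.ty x y < 6 := fun x y => Nat.lt_succ_of_le (hΛ.le _ _)
    have hr6 : r % 6 < 6 := Nat.mod_lt _ (by norm_num)
    by_cases h5 : c % 6 = 5
    · right
      have e : (c + 1) % 6 = 0 := by omega
      simp only [Lay.isHub, Bool.and_eq_true, decide_eq_true_eq]
      refine ⟨hr, by omega, ?_⟩
      rw [e]
      exact chkh0 _ (hT _ _) _ hr6
    · have e1 : (c + 1) % 6 = c % 6 + 1 := by omega
      have e2 : (c + 1) / 6 = c / 6 := by omega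
      have e3 : Λ.ty r (c + 1) = Λ.ty r c := by unfold Lay.ty; rw [e2]
      rcases chkh _ (hT r c) _ hr6 (c % 6) (by omega) ha with h1 | h1
      · left
        simp only [Lay.isHub, Bool.and_eq_true, decide_eq_true_eq]
        exact ⟨hr, by omega, h1⟩
      · right
        simp only [Lay.isHub, Bool.and_eq_true, decide_eq_true_eq]
        refine ⟨hr, by omega, ?_⟩
        rw [e1, e3]; exact h1
  | v r c hr hc ha =>
    have hT : ∀ x y, Λ.ty x y < 6 := fun x y => Nat.lt_succ_of_le (hΛ.le _ _)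
    have hc6 : c % 6 < 6 := Nat.mod_lt _ (by norm_num)
    by_cases h5 : r % 6 = 5
    · right
      have e : (r + 1) % 6 = 0 := by omega
      simp only [Lay.isHub, Bool.and_eq_true, decide_eq_true_eq]
      refine ⟨by omega, hc, ?_⟩
      rw [e]
      exact chkv0 _ (hT _ _) _ hc6
    · have e1 : (r + 1) % 6 = r % 6 + 1 := by omega
      have e2 : (r + 1) / 6 = r / 6 := by omega
      have e3 : Λ.ty (r + 1) c = Λ.ty r c := by unfold Lay.ty; rw [e2]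
      rcases chkv _ (hT r c) (r % 6) (by omega) _ hc6 ha with h1 | h1
      · left
        simp only [Lay.isHub, Bool.and_eq_true, decide_eq_true_eq]
        exact ⟨by omega, hc, h1⟩
      · right
        simp only [Lay.isHub, Bool.and_eq_true, decide_eq_true_eq]
        refine ⟨by omega, hc, ?_⟩
        rw [e1, e3]; exact h1
  | d0 i j hi hj ht => exact Or.inl (hub_hub hi hj ht)
  | d1 i j hi hj ht => exact Or.inl (hub_hub hi hj ht)
  | d2 i j hi hj ht => exact Or.inl (hub_hub hi hj ht)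
  | d3 i j hi hj ht => exact Or.inl (hub_hub hi hj ht)

theorem ce_ne {Λ : Lay} {κ κ' : CV} {a b : ℕ} (h : CE Λ κ a κ' b) : κ ≠ κ' := by
  cases h <;> simp

theorem ce_not44 {Λ : Lay} {κ κ' : CV} {a b : ℕ} (h : CE Λ κ a κ' b) : a < 2 ∨ b = 4 := by
  cases h <;> simp

/-- unordered version: `E κ a κ' b`, with all facts symmetric -/
def E (Λ : Lay) (κ : CV) (a : ℕ) (κ' : CV) (b : ℕ) : Prop := CE Λ κ a κ' b ∨ CE Λ κ' b κ a

theorem E.symm {Λ : Lay} {κ κ' : CV} {a b : ℕ} (h : E Λ κ a κ' b) : E Λ κ' b κ a := Or.symm h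

theorem E.lt {Λ : Lay} {κ κ' : CV} {a b : ℕ} (h : E Λ κ a κ' b) (hk : Λ.isHub κ = true) :
    a < 4 := by
  rcases h with h | h
  · exact (ce_port h).1
  · exact (ce_port h).2 hk

theorem E.ne {Λ : Lay} {κ κ' : CV} {a b : ℕ} (h : E Λ κ a κ' b) : κ ≠ κ' := by
  rcases h with h | h
  · exact ce_ne h
  · exact (ce_ne h).symm

theorem E.hub {Λ : Lay} (hΛ : Λ.Ok) {κ κ' : CV} {a b : ℕ} (h : E Λ κ a κ' b) :
    Λ.isHub κ = true ∨ Λ.isHub κ' = true := by
  rcases h with h | h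
  · exact ce_hub hΛ h
  · exact (ce_hub hΛ h).symm

theorem E.adj {Λ : Lay} {κ κ' : CV} {a b : ℕ} (h : E Λ κ a κ' b) :
    Adj Λ (κ, Λ.en κ a) (κ', Λ.en κ' b) := by
  rcases h with h | h
  · exact Or.inl (FE.c _ _ _ _ h)
  · exact Or.inr (FE.c _ _ _ _ h)

theorem ce_inv {Λ : Lay} {κ κ' : CV} {a b : ℕ} (h : CE Λ κ a κ' b) :
    (∃ r c, κ = .pos r c ∧ a = 0 ∧ κ' = .pos r (c + 1) ∧ b = 2) ∨
    (∃ r c, κ = .pos r c ∧ a = 1 ∧ κ' = .pos (r + 1) c ∧ b = 3) ∨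
    (∃ i j x y, κ = .hub i j ∧ b = 4 ∧ κ' = .pos x y ∧
      ((a = 0 ∧ x = 6 * i + hrC (Λ.T i j) ∧ y = 6 * j + hc1 (Λ.T i j)) ∨
      (a = 1 ∧ x = 6 * i + hr1 (Λ.T i j) ∧ y = 6 * j + hc0 (Λ.T i j)) ∨
      (a = 2 ∧ x = 6 * i + hr0 (Λ.T i j) ∧ y = 6 * j + hc0 (Λ.T i j)) ∨
      (a = 3 ∧ x = 6 * i + hr0 (Λ.T i j) ∧ y = 6 * j + hcB (Λ.T i j)))) := by
  cases h with
  | h r c hr hc ha => exact Or.inl ⟨r, c, rfl, rfl, rfl, rfl⟩
  | v r c hr hc ha => exact Or.inr (Or.inl ⟨r, c, rfl, rfl, rfl, rfl⟩)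
  | d0 i j hi hj ht =>
    exact Or.inr (Or.inr ⟨i, j, _, _, rfl, rfl, rfl, Or.inl ⟨rfl, rfl, rfl⟩⟩)
  | d1 i j hi hj ht =>
    exact Or.inr (Or.inr ⟨i, j, _, _, rfl, rfl, rfl, Or.inr (Or.inl ⟨rfl, rfl, rfl⟩)⟩)
  | d2 i j hi hj ht =>
    exact Or.inr (Or.inr ⟨i, j, _, _, rfl, rfl, rfl, Or.inr (Or.inr (Or.inl ⟨rfl, rfl, rfl⟩))⟩)
  | d3 i j hi hj ht =>
    exact Or.inr (Or.inr ⟨i, j, _, _, rfl, rfl, rfl, Or.inr (Or.inr (Or.inr ⟨rfl, rfl, rfl⟩))⟩)

/-- at most one neighbour at a port -/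
theorem E.uniq {Λ : Lay} {κ κ1 κ2 : CV} {a b1 b2 : ℕ} (ha : a < 4) (h1 : E Λ κ a κ1 b1)
    (h2 : E Λ κ a κ2 b2) : κ1 = κ2 := by
  rcases h1 with h1 | h1 <;> rcases h2 with h2 | h2 <;>
    rcases ce_inv h1 with ⟨r, c, e1, e2, e3, e4⟩ | ⟨r, c, e1, e2, e3, e4⟩ |
      ⟨i, j, x, y, e1, e2, e3, e4⟩ <;>
    rcases ce_inv h2 with ⟨r', c', g1, g2, g3, g4⟩ | ⟨r', c', g1, g2, g3, g4⟩ |
      ⟨i', j', x', y', g1, g2, g3, g4⟩ <;>
    first
      | (exfalso; omega)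
      | (rw [e1] at g1; rw [e3, g3]; injection g1 with q1 q2; subst q1 q2; rfl)
      | (rw [e1] at g1; rw [e3, g3]; injection g1 with q1 q2; subst q1 q2
         obtain ⟨q3, q4⟩ : x = x' ∧ y = y' := by omega
         rw [q3, q4])
      | (rw [e3] at g3; rw [e1, g1]; injection g3 with q1 q2
         obtain ⟨q3, q4⟩ : r = r' ∧ c = c' := by omega
         rw [q3, q4])
      | (exfalso; rw [e1] at g1; injection g1)
      | (exfalso; rw [e1] at g3; injection g3)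
      | (exfalso; rw [e3] at g1; injection g1)

theorem cadj {Λ : Lay} {κ κ' : CV} {a : ℕ} (h : CAdj Λ κ a κ') : ∃ b, E Λ κ a κ' b := h

/-- the computation at a hub -/
theorem hub_step (hg : St_gsound) {Λ : Lay} {P : CV × ℕ → ℝ × ℝ} (hP : Dw Λ P) {κ : CV}
    (hκ : Λ.isHub κ = true) {f : ℝ × ℝ} {σ : ℕ → ℕ}
    (hj : ∀ j < 4, Pp (J^[σ j] f) (P (κ, pt j) - P (κ, 0)) ∧
      ∀ b, Out Λ κ j b → Pp (J^[σ j] f) (P b - P (κ, pt j)))
    {a : ℕ} {κ' : CV} {b : ℕ} (h : E Λ κ a κ' b) :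
    Pp (J^[σ a] f) (P (κ', 0) - P (κ, 0)) := by
  have ha := h.lt hκ
  have hen : Λ.en κ a = pt a := by simp [Lay.en, hκ]
  have hadj := h.adj
  rw [hen] at hadj
  obtain ⟨⟨s0, hs0, e0⟩, hout⟩ := hj a ha
  obtain ⟨s1, hs1, e1⟩ := hout (κ', Λ.en κ' b) ⟨hadj, Or.inl (fun e => h.ne e.symm)⟩
  by_cases hk : Λ.isHub κ' = true
  · have hb := h.symm.lt hk
    have hen' : Λ.en κ' b = pt b := by simp [Lay.en, hk]
    obtain ⟨f', σ', hf', hσ', hinj', hj'⟩ := hg Λ P hP κ' hk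
    obtain ⟨⟨s3, hs3, e3⟩, hout'⟩ := hj' b hb
    have hadj' := h.symm.adj
    rw [hen'] at hadj'
    obtain ⟨s2, hs2, e2⟩ := hout' (κ, Λ.en κ a) ⟨hadj', Or.inl h.ne⟩
    rw [hen] at e2
    rw [hen'] at e1
    refine ⟨s3 * s1 / s2 + s1 + s0, by positivity, ?_⟩
    have h1 := congrArg Prod.fst e0
    have h2 := congrArg Prod.snd e0
    have h3 := congrArg Prod.fst e1
    have h4 := congrArg Prod.snd e1
    have h5 := congrArg Prod.fst e2
    have h6 := congrArg Prod.snd e2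
    have h7 := congrArg Prod.fst e3
    have h8 := congrArg Prod.snd e3
    simp only [Prod.fst_sub, Prod.snd_sub, Prod.smul_fst, Prod.smul_snd, smul_eq_mul] at *
    apply Prod.ext
    · simp only [Prod.fst_sub, Prod.smul_fst, smul_eq_mul]
      have h9 : (J^[σ' b] f').1 = -(s1 / s2) * (J^[σ a] f).1 := by
        field_simp
        linarith
      rw [h9] at h7
      have h10 : (s3 * s1 / s2 + s1 + s0) * (J^[σ a] f).1 =
          -(s3 * (-(s1 / s2) * (J^[σ a] f).1)) + s1 * (J^[σ a] f).1 + s0 * (J^[σ a] f).1 := by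
        ring
      rw [h10]
      linarith
    · simp only [Prod.snd_sub, Prod.smul_snd, smul_eq_mul]
      have h9 : (J^[σ' b] f').2 = -(s1 / s2) * (J^[σ a] f).2 := by
        field_simp
        linarith
      rw [h9] at h8
      have h10 : (s3 * s1 / s2 + s1 + s0) * (J^[σ a] f).2 =
          -(s3 * (-(s1 / s2) * (J^[σ a] f).2)) + s1 * (J^[σ a] f).2 + s0 * (J^[σ a] f).2 := by
        ring
      rw [h10]
      linarith
  · have hen' : Λ.en κ' b = 0 := by simp [Lay.en, hk]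
    rw [hen'] at e1
    refine ⟨s1 + s0, by positivity, ?_⟩
    rw [add_smul, ← e1, ← e0]
    abel

end TCO

open TCO in
theorem co_ok : St_core := by
  intro hg Λ P hΛ hP
  have hub : ∀ κ, Λ.isHub κ = true → ∃ (f : ℝ × ℝ) (σ : ℕ → ℕ), f ≠ 0 ∧
      (∀ i < 4, ∀ j < 4, σ i = σ j → i = j) ∧ (∀ j < 4, σ j < 4) ∧
      ∀ a κ', CAdj Λ κ a κ' → Pp (J^[σ a] f) (P (κ', 0) - P (κ, 0)) := by
    intro κ hκ
    obtain ⟨f, σ, hf, hσ, hinj, hj⟩ := hg Λ P hP κ hκ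
    refine ⟨f, σ, hf, hinj, hσ, fun a κ' h => ?_⟩
    obtain ⟨b, h⟩ := cadj h
    exact hub_step hg hP hκ hj h
  refine ⟨hub, ?_, ?_⟩
  · intro κ a κ' h
    obtain ⟨b, h⟩ := cadj h
    rcases h.hub hΛ with hk | hk
    · obtain ⟨f, σ, hf, -, -, hj⟩ := hub κ hk
      have h1 := Pp.ne (hj a κ' ⟨b, h⟩) (Jn_ne hf _)
      exact sub_ne_zero.mp h1
    · obtain ⟨f, σ, hf, -, -, hj⟩ := hub κ' hk
      have h1 := Pp.ne (hj b κ ⟨a, h.symm⟩) (Jn_ne hf _)
      exact (sub_ne_zero.mp h1).symm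
  · intro κ a κ1 b κ2 h1 h2 hne hpp
    obtain ⟨b1, h1⟩ := cadj h1
    obtain ⟨b2, h2⟩ := cadj h2
    by_cases hk : Λ.isHub κ = true
    · obtain ⟨f, σ, hf, hinj, hσ, hj⟩ := hub κ hk
      have ha := h1.lt hk
      have hb := h2.lt hk
      obtain ⟨s, hs, es⟩ := hj a κ1 ⟨b1, h1⟩
      obtain ⟨t, ht, et⟩ := hj b κ2 ⟨b2, h2⟩
      obtain ⟨r, hr, er⟩ := hpp
      rw [es, et, smul_smul] at er
      have h3 : J^[σ b] f = (t⁻¹ * (r * s)) • J^[σ a] f := by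
        rw [mul_smul, ← er, smul_smul, inv_mul_cancel₀ ht.ne', one_smul]
      have h4 := J_sep hf (hσ a ha) (hσ b hb) (by positivity) h3
      have h5 := hinj a ha b hb h4
      subst h5
      exact hne (E.uniq ha h1 h2)
    · have hk1 : Λ.isHub κ1 = true := (h1.hub hΛ).resolve_left hk
      have hk2 : Λ.isHub κ2 = true := (h2.hub hΛ).resolve_left hk
      have side : ∀ (κ' : CV) (a' b' : ℕ), Λ.isHub κ' = true → E Λ κ a' κ' b' →
          Adj Λ (κ, 0) (κ', pt b') ∧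
          ∃ s : ℝ, 0 < s ∧ P (κ', pt b') - P (κ, 0) = s • (P (κ', 0) - P (κ, 0)) ∧
            P (κ', pt b') - P (κ, 0) ≠ 0 := by
        intro κ' a' b' hk' h'
        have hen : Λ.en κ a' = 0 := by simp [Lay.en, hk]
        have hen' : Λ.en κ' b' = pt b' := by simp [Lay.en, hk']
        obtain ⟨f', σ', hf', hσ', hinj', hj'⟩ := hg Λ P hP κ' hk'
        obtain ⟨⟨s3, hs3, e3⟩, hout'⟩ := hj' b' (h'.symm.lt hk')
        have hadj' := h'.symm.adj
        rw [hen', hen] at hadj'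
        obtain ⟨s2, hs2, e2⟩ := hout' (κ, 0) ⟨hadj', Or.inl h'.ne⟩
        have hadj := h'.adj
        rw [hen', hen] at hadj
        refine ⟨hadj, s2 / (s2 + s3), by positivity, ?_, ?_⟩
        · have e4 : P (κ', 0) - P (κ, 0) = -((s2 + s3) • J^[σ' b'] f') := by
            rw [add_smul, ← e2, ← e3]; abel
          rw [e4, smul_neg, smul_smul, div_mul_cancel₀ _ (by positivity), ← e2]
          abel
        · rw [← neg_sub, e2, neg_ne_zero]
          exact smul_ne_zero hs2.ne' (Jn_ne hf' _)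
      obtain ⟨adj1, s, hs, es, ns⟩ := side κ1 a b1 hk1 h1
      obtain ⟨adj2, t, ht, et, nt⟩ := side κ2 b b2 hk2 h2
      have hang := hP.ang (κ, 0) (κ1, pt b1) (κ2, pt b2) adj1 adj2
        (fun e => hne (congrArg Prod.fst e))
      obtain ⟨r, hr, er⟩ := hpp
      have e5 : P (κ2, pt b2) - P (κ, 0) = (t * (r * s⁻¹)) • (P (κ1, pt b1) - P (κ, 0)) := by
        rw [et, er, es, mul_smul, mul_smul, smul_smul s⁻¹ s, inv_mul_cancel₀ hs.ne', one_smul]
      rw [e5] at hang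
      exact not_ang ns (by positivity) hang

end Pool.Agent.H670R3
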