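import Pool.Agent.H670R3.Stm

/-!
# Conversions between drawings in the Euclidean plane and in coordinates (helper25)
-/

set_option autoImplicit false

namespace Pool.Agent.H670R3

open Pool.Agent.NPC Pool.Agent.H670R2

namespace CV

/-- coordinates -/
def T (x : Plane) : ℝ × ℝ := (x 0, x 1)

/-- the point with given coordinates -/
noncomputable def S (a : ℝ × ℝ) : Plane := !₂[a.1, a.2]

theorem T_S (a : ℝ × ℝ) : T (S a) = a := by
  simp [T, S]

theorem T_sub (x y : Plane) : T (x - y) = T x - T y := rfl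

theorem T_inj {x y : Plane} (h : T x = T y) : x = y := by
  have h0 : x 0 = y 0 := congrArg Prod.fst h
  have h1 : x 1 = y 1 := congrArg Prod.snd h
  ext i
  fin_cases i
  · exact h0
  · exact h1

theorem S_T (x : Plane) : S (T x) = x := T_inj (T_S _)

theorem dt_T (x y : Plane) : dt (T x) (T y) = inner ℝ x y := by
  unfold dt T
  rw [PiLp.inner_apply, Fin.sum_univ_two]
  simp
  ring

theorem dt_self (x : Plane) : dt (T x) (T x) = ‖x‖ ^ 2 := by
  rw [dt_T, real_inner_self_eq_norm_sq]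

theorem angle_iff (x y : Plane) :
    Real.pi / (2 * (3 : ℕ)) ≤ InnerProductGeometry.angle x y ↔ Ang (T x) (T y) := by
  have h6 : Real.pi / (2 * (3 : ℕ)) = Real.pi / 6 := by norm_num
  rw [h6]
  unfold Ang
  rw [dt_self, dt_self, dt_T]
  have hpi := Real.pi_pos
  by_cases hx : x = 0
  · subst hx
    simp
    linarith
  by_cases hy : y = 0
  · subst hy
    simp
    linarith
  have hp : 0 < ‖x‖ * ‖y‖ := mul_pos (norm_pos_iff.2 hx) (norm_pos_iff.2 hy)
  have h0 := InnerProductGeometry.angle_nonneg x y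
  have h1 := InnerProductGeometry.angle_le_pi x y
  have h2 := Real.strictAntiOn_cos.le_iff_ge (a := InnerProductGeometry.angle x y)
    (b := Real.pi / 6) ⟨h0, h1⟩ ⟨by positivity, by linarith⟩
  rw [← h2, InnerProductGeometry.cos_angle, Real.cos_pi_div_six, div_le_iff₀ hp]
  set I : ℝ := inner ℝ x y with hI
  have h3 : (Real.sqrt 3 / 2 * (‖x‖ * ‖y‖)) ^ 2 = 3 / 4 * (‖x‖ ^ 2 * ‖y‖ ^ 2) := by
    rw [mul_pow, div_pow, Real.sq_sqrt (by norm_num)]
    ring
  have h4 : 0 ≤ Real.sqrt 3 / 2 * (‖x‖ * ‖y‖) := by positivity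
  constructor
  · intro h
    by_cases hI0 : I ≤ 0
    · exact Or.inl hI0
    · right
      push Not at hI0
      have h5 : I ^ 2 ≤ (Real.sqrt 3 / 2 * (‖x‖ * ‖y‖)) ^ 2 := pow_le_pow_left₀ hI0.le h 2
      linarith
  · rintro (h | h)
    · linarith
    · by_contra hcon
      push Not at hcon
      have h5 : (Real.sqrt 3 / 2 * (‖x‖ * ‖y‖)) ^ 2 < I ^ 2 :=
        pow_lt_pow_left₀ hcon h4 (by norm_num)
      linarith

theorem le_angRes {V : Type} {α : ℝ} {G : SimpleGraph V} {p : V → Plane} :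
    (α : EReal) ≤ angRes G p ↔ ∀ v u w, G.Adj v u → G.Adj v w → u ≠ w →
      α ≤ EuclideanGeometry.angle (p u) (p v) (p w) := by
  unfold angRes
  simp only [le_iInf_iff, EReal.coe_le_coe_iff]

theorem seg_iff (x y z : Plane) : z ∈ segment ℝ x y ↔ T z ∈ segment ℝ (T x) (T y) := by
  constructor
  · rintro ⟨a, b, ha, hb, hab, rfl⟩
    exact ⟨a, b, ha, hb, hab, rfl⟩
  · rintro ⟨a, b, ha, hb, hab, h⟩
    exact ⟨a, b, ha, hb, hab, T_inj (by rw [← h]; rfl)⟩

theorem disj (x y x' y' : Plane)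
    (h : Disjoint (segment ℝ (T x) (T y)) (segment ℝ (T x') (T y'))) :
    Disjoint (segment ℝ x y) (segment ℝ x' y') := by
  rw [Set.disjoint_left] at h ⊢
  intro z hz hz'
  exact h ((seg_iff x y z).1 hz) ((seg_iff x' y' z).1 hz')

section place

variable (L : List (List ℕ)) (p : ℕ → ℝ × ℝ)

/-- a bound for the first coordinates -/
noncomputable def M : ℝ := ∑ u ∈ Finset.range L.length, |(p u).1|

theorem le_M (u : ℕ) (hu : u < L.length) : (p u).1 ≤ M L p :=
  (le_abs_self _).trans (Finset.single_le_sum (f := fun u => |(p u).1|)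
    (fun _ _ => abs_nonneg _) (Finset.mem_range.2 hu))

open Classical in
/-- the isolated vertices are moved away -/
noncomputable def P (v : ℕ) : ℝ × ℝ := if L.getD v [] ≠ [] then p v else (M L p + 1 + v, 0)

theorem P_of (v : ℕ) (hv : L.getD v [] ≠ []) : P L p v = p v := if_pos hv

theorem P_not (v : ℕ) (hv : ¬ L.getD v [] ≠ []) : P L p v = (M L p + 1 + v, 0) := if_neg hv

theorem ne_nil {u v : ℕ} (h : v ∈ L.getD u []) : L.getD u [] ≠ [] := by
  intro h'
  rw [h'] at h
  exact absurd h (by simp)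

theorem isDrawing (h : IsGraph L)
    (hinj : ∀ u < L.length, ∀ v < L.length, L.getD u [] ≠ [] → L.getD v [] ≠ [] →
      p u = p v → u = v)
    (hed : ∀ u < L.length, ∀ v ∈ L.getD u [], ∀ w < L.length, L.getD w [] ≠ [] → w ≠ u → w ≠ v →
      p w ∉ segment ℝ (p u) (p v)) :
    IsDrawing (graphOf L h) (fun v => S (P L p v.1)) := by
  constructor
  · intro u v huv
    have huv' : P L p u.1 = P L p v.1 := by
      have := congrArg T huv
      simpa only [T_S] using this
    by_cases hu : L.getD u.1 [] ≠ []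
    · by_cases hv : L.getD v.1 [] ≠ []
      · rw [P_of L p _ hu, P_of L p _ hv] at huv'
        exact Fin.ext (hinj u.1 u.2 v.1 v.2 hu hv huv')
      · exfalso
        rw [P_of L p _ hu, P_not L p _ hv] at huv'
        have h1 := le_M L p u.1 u.2
        rw [huv'] at h1
        have : (0 : ℝ) ≤ (v.1 : ℝ) := Nat.cast_nonneg _
        simp only at h1
        linarith
    · by_cases hv : L.getD v.1 [] ≠ []
      · exfalso
        rw [P_not L p _ hu, P_of L p _ hv] at huv'
        have h1 := le_M L p v.1 v.2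
        rw [← huv'] at h1
        have : (0 : ℝ) ≤ (u.1 : ℝ) := Nat.cast_nonneg _
        simp only at h1
        linarith
      · rw [P_not L p _ hu, P_not L p _ hv] at huv'
        have h1 := congrArg Prod.fst huv'
        simp only at h1
        have h2 : (u.1 : ℝ) = (v.1 : ℝ) := by linarith
        exact Fin.ext (by exact_mod_cast h2)
  · intro u v w huv hwu hwv
    have h1 : v.1 ∈ L.getD u.1 [] := huv
    have h2 := ne_nil L h1
    have h3 : L.getD v.1 [] ≠ [] := ne_nil L (h u.1 v.1 u.2 h1).2.2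
    rw [seg_iff, T_S, T_S, T_S, P_of L p _ h2, P_of L p _ h3]
    by_cases hw : L.getD w.1 [] ≠ []
    · rw [P_of L p _ hw]
      exact hed u.1 u.2 v.1 h1 w.1 w.2 hw (fun h => hwu (Fin.ext h)) (fun h => hwv (Fin.ext h))
    · rw [P_not L p _ hw]
      rintro ⟨a, b, ha, hb, hab, he⟩
      have h4 := congrArg Prod.fst he
      simp only [Prod.fst_add, Prod.smul_fst, smul_eq_mul] at h4
      have h5 := le_M L p u.1 u.2
      have h6 := le_M L p v.1 v.2
      have h7 : a * (p u.1).1 + b * (p v.1).1 ≤ a * M L p + b * M L p :=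
        add_le_add (mul_le_mul_of_nonneg_left h5 ha) (mul_le_mul_of_nonneg_left h6 hb)
      have h8 : a * M L p + b * M L p = M L p := by rw [← add_mul, hab, one_mul]
      have : (0 : ℝ) ≤ (w.1 : ℝ) := Nat.cast_nonneg _
      linarith

end place

end CV

open CV

theorem conv_ok : St_conv where
  dw := by
    rintro L h ⟨q, hq, ha⟩
    rw [le_angRes] at ha
    refine ⟨fun u => if hu : u < L.length then T (q ⟨u, hu⟩) else 0, ?_, ?_⟩
    · intro u hu v hv huv
      simp only [dif_pos hu, dif_pos hv] at huv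
      exact congrArg Fin.val (hq.inj (T_inj huv))
    · intro v hv u hu w hw huw
      have h1 := (h v u hv hu).1
      have h2 := (h v w hv hw).1
      simp only [dif_pos hv, dif_pos h1, dif_pos h2]
      have h3 := ha ⟨v, hv⟩ ⟨u, h1⟩ ⟨w, h2⟩ hu hw (fun h => huw (congrArg Fin.val h))
      unfold EuclideanGeometry.angle at h3
      rw [angle_iff] at h3
      exact h3
  wd := by
    intro L h p hinj hed hang
    refine ⟨fun v => S (P L p v.1), isDrawing L p h hinj hed, ?_⟩
    rw [le_angRes]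
    intro v u w hvu hvw huw
    have h1 : u.1 ∈ L.getD v.1 [] := hvu
    have h2 : w.1 ∈ L.getD v.1 [] := hvw
    have h3 := ne_nil L h1
    have h4 : L.getD u.1 [] ≠ [] := ne_nil L (h v.1 u.1 v.2 h1).2.2
    have h5 : L.getD w.1 [] ≠ [] := ne_nil L (h v.1 w.1 v.2 h2).2.2
    unfold EuclideanGeometry.angle
    rw [angle_iff]
    have h6 := hang v.1 v.2 u.1 h1 w.1 h2 (fun h => huw (Fin.ext h))
    show Ang (T (S (P L p u.1)) - T (S (P L p v.1))) (T (S (P L p w.1)) - T (S (P L p v.1)))
    rw [T_S, T_S, T_S, P_of L p _ h3, P_of L p _ h4, P_of L p _ h5]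
    exact h6
  pl := by
    intro L h p hinj hed hdis
    refine ⟨fun v => S (P L p v.1), isDrawing L p h hinj hed, ?_⟩
    intro u v u' v' huv huv' h1 h2 h3 h4
    have e1 : v.1 ∈ L.getD u.1 [] := huv
    have e2 : v'.1 ∈ L.getD u'.1 [] := huv'
    have n1 := ne_nil L e1
    have n2 := ne_nil L e2
    have n3 : L.getD v.1 [] ≠ [] := ne_nil L (h u.1 v.1 u.2 e1).2.2
    have n4 : L.getD v'.1 [] ≠ [] := ne_nil L (h u'.1 v'.1 u'.2 e2).2.2
    apply disj
    rw [T_S, T_S, T_S, T_S, P_of L p _ n1, P_of L p _ n2, P_of L p _ n3, P_of L p _ n4]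
    exact hdis u.1 u.2 v.1 e1 u'.1 u'.2 v'.1 e2 (fun h => h1 (Fin.ext h))
      (fun h => h2 (Fin.ext h)) (fun h => h3 (Fin.ext h)) (fun h => h4 (Fin.ext h))

end Pool.Agent.H670R3
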