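import Pool.Agent.H670R3.Stm

/-!
Task FE: frames.
-/

set_option autoImplicit false

namespace Pool.Agent.H670R3

open Pool.Agent.H670R2.Sl

namespace FEAux

theorem val_add_eq (a b : ZMod (2 * 6)) :
    ∃ k : ℕ, ((a.val : ℝ) + b.val) * (Real.pi / 6) =
      (a + b).val * (Real.pi / 6) + k * (2 * Real.pi) := by
  refine ⟨(a.val + b.val) / (2 * 6), ?_⟩
  have h1 := Nat.mod_add_div (a.val + b.val) (2 * 6)
  rw [← ZMod.val_add] at h1
  have h2 : ((a.val : ℝ) + b.val) = (a + b).val + 2 * 6 * ((a.val + b.val) / (2 * 6) : ℕ) := by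
    exact_mod_cast h1.symm
  rw [h2]
  ring

theorem cs_add (a b : ZMod (2 * 6)) : cs (a + b) = cs a * cs b - sn a * sn b := by
  obtain ⟨k, hk⟩ := val_add_eq a b
  unfold cs sn
  rw [← Real.cos_add, ← add_mul, hk, Real.cos_add_nat_mul_two_pi]

theorem sn_add (a b : ZMod (2 * 6)) : sn (a + b) = sn a * cs b + cs a * sn b := by
  obtain ⟨k, hk⟩ := val_add_eq a b
  unfold cs sn
  rw [← Real.sin_add, ← add_mul, hk, Real.sin_add_nat_mul_two_pi]

theorem cs_sq_add (a : ZMod (2 * 6)) : cs a ^ 2 + sn a ^ 2 = 1 := by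
  unfold cs sn
  exact Real.cos_sq_add_sin_sq _

theorem val_nat {n : ℕ} (hn : n < 12) : ((n : ℕ) : ZMod (2 * 6)).val = n :=
  ZMod.val_cast_of_lt hn

theorem cs_nat {n : ℕ} (hn : n < 12) : cs (n : ZMod (2 * 6)) = Real.cos (n * (Real.pi / 6)) := by
  unfold cs
  rw [val_nat hn]

theorem sn_nat {n : ℕ} (hn : n < 12) : sn (n : ZMod (2 * 6)) = Real.sin (n * (Real.pi / 6)) := by
  unfold sn
  rw [val_nat hn]

theorem cs_six : cs ((6 : ℕ) : ZMod (2 * 6)) = -1 := by
  rw [cs_nat (by norm_num)]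
  have : ((6 : ℕ) : ℝ) * (Real.pi / 6) = Real.pi := by push_cast; ring
  rw [this, Real.cos_pi]

theorem sn_six : sn ((6 : ℕ) : ZMod (2 * 6)) = 0 := by
  rw [sn_nat (by norm_num)]
  have : ((6 : ℕ) : ℝ) * (Real.pi / 6) = Real.pi := by push_cast; ring
  rw [this, Real.sin_pi]

theorem cs_three : cs ((3 : ℕ) : ZMod (2 * 6)) = 0 := by
  rw [cs_nat (by norm_num)]
  have : ((3 : ℕ) : ℝ) * (Real.pi / 6) = Real.pi / 2 := by push_cast; ring
  rw [this, Real.cos_pi_div_two]

theorem sn_three : sn ((3 : ℕ) : ZMod (2 * 6)) = 1 := by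
  rw [sn_nat (by norm_num)]
  have : ((3 : ℕ) : ℝ) * (Real.pi / 6) = Real.pi / 2 := by push_cast; ring
  rw [this, Real.sin_pi_div_two]

theorem fe_fst (f : ℝ × ℝ) (z : ZMod (2 * 6)) : (fe f z).1 = cs z * f.1 - sn z * f.2 := by
  simp only [fe, J, Prod.fst_add, Prod.smul_fst, smul_eq_mul]
  ring

theorem fe_snd (f : ℝ × ℝ) (z : ZMod (2 * 6)) : (fe f z).2 = cs z * f.2 + sn z * f.1 := by
  simp only [fe, J, Prod.snd_add, Prod.smul_snd, smul_eq_mul]

theorem dt_pos {f : ℝ × ℝ} (hf : f ≠ 0) : 0 < dt f f := by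
  unfold dt
  rcases eq_or_ne f.1 0 with h1 | h1
  · rcases eq_or_ne f.2 0 with h2 | h2
    · exact absurd (Prod.ext h1 h2) hf
    · have := mul_self_pos.mpr h2
      nlinarith [mul_self_nonneg f.1]
  · have := mul_self_pos.mpr h1
    nlinarith [mul_self_nonneg f.2]

theorem fe_ne (f : ℝ × ℝ) (hf : f ≠ 0) (z : ZMod (2 * 6)) : fe f z ≠ 0 := by
  intro h
  have h1 : (fe f z).1 = 0 := by rw [h]; rfl
  have h2 : (fe f z).2 = 0 := by rw [h]; rfl
  rw [fe_fst] at h1
  rw [fe_snd] at h2
  have h3 := dt_pos hf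
  have h4 : dt f f = (cs z * f.1 - sn z * f.2) ^ 2 + (cs z * f.2 + sn z * f.1) ^ 2 := by
    have := cs_sq_add z
    unfold dt
    linear_combination (-(f.1 * f.1) - f.2 * f.2) * this
  rw [h1, h2] at h4
  norm_num at h4
  linarith

theorem fe_add (f : ℝ × ℝ) (a b : ZMod (2 * 6)) : fe (fe f a) b = fe f (a + b) := by
  ext
  · rw [fe_fst, fe_fst, fe_snd, fe_fst, cs_add, sn_add]
    ring
  · rw [fe_snd, fe_snd, fe_fst, fe_snd, cs_add, sn_add]
    ring

theorem fe_smul (t : ℝ) (f : ℝ × ℝ) (z : ZMod (2 * 6)) : fe (t • f) z = t • fe f z := by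
  ext
  · rw [fe_fst, Prod.smul_fst, Prod.smul_fst, Prod.smul_snd, fe_fst]
    simp only [smul_eq_mul]
    ring
  · rw [fe_snd, Prod.smul_snd, Prod.smul_fst, Prod.smul_snd, fe_snd]
    simp only [smul_eq_mul]
    ring

/-- twelve numbers -/
theorem comb (x : Fin 12 → ℝ) (h0 : ∀ i, 0 ≤ x i) (h12 : ∀ i, x i < 12) (hx0 : x 0 = 0)
    (hl : ∀ i j, i ≠ j → 1 ≤ |x i - x j|) (hu : ∀ i j, i ≠ j → |x i - x j| ≤ 11) :
    ∀ i, ∃ m : ℕ, m < 12 ∧ x i = m := by
  have hfl : ∀ i, ⌊x i⌋₊ < 12 := fun i => (Nat.floor_lt (h0 i)).mpr (by exact_mod_cast h12 i)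
  have hle : ∀ i, (⌊x i⌋₊ : ℝ) ≤ x i := fun i => Nat.floor_le (h0 i)
  have hlt : ∀ i, x i < ⌊x i⌋₊ + 1 := fun i => Nat.lt_floor_add_one _
  let F : Fin 12 → Fin 12 := fun i => ⟨⌊x i⌋₊, hfl i⟩
  have hinj : Function.Injective F := by
    intro i j hij
    by_contra hne
    have h1 : ⌊x i⌋₊ = ⌊x j⌋₊ := congrArg Fin.val hij
    have h2 := hl i j hne
    have h3 := hle i
    have h4 := hlt i
    have h5 := hle j
    have h6 := hlt j
    rw [h1] at h3 h4
    rcases abs_cases (x i - x j) with ⟨h, _⟩ | ⟨h, _⟩ <;> rw [h] at h2 <;> linarith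
  have hsurj : Function.Surjective F := Finite.injective_iff_surjective.mp hinj
  have key : ∀ k : ℕ, k ≤ 11 → ∀ i, ⌊x i⌋₊ = 11 - k → x i ≤ ((11 - k : ℕ) : ℝ) := by
    intro k
    induction k with
    | zero =>
      intro _ i hi
      have hne : i ≠ 0 := by
        rintro rfl
        rw [hx0] at hi
        norm_num at hi
      have h1 := hu i 0 hne
      rw [hx0, sub_zero, abs_of_nonneg (h0 i)] at h1
      simpa using h1
    | succ k ih =>
      intro hk i hi
      obtain ⟨j, hj⟩ := hsurj ⟨11 - k, by omega⟩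
      have hj' : ⌊x j⌋₊ = 11 - k := congrArg Fin.val hj
      have h1 := ih (by omega) j hj'
      have hne : i ≠ j := by
        rintro rfl
        rw [hi] at hj'
        omega
      have h2 := hlt i
      have h3 := hle j
      rw [hi] at h2
      rw [hj'] at h3
      have h4 : ((11 - k : ℕ) : ℝ) = ((11 - (k + 1) : ℕ) : ℝ) + 1 := by
        have : 11 - k = 11 - (k + 1) + 1 := by omega
        rw [this]
        push_cast
        ring
      have h5 := hl i j hne
      rw [abs_sub_comm, abs_of_nonneg (by linarith)] at h5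
      linarith
  intro i
  refine ⟨⌊x i⌋₊, hfl i, ?_⟩
  have h1 := key (11 - ⌊x i⌋₊) (by omega) i (by have := hfl i; omega)
  have h2 : 11 - (11 - ⌊x i⌋₊) = ⌊x i⌋₊ := by have := hfl i; omega
  rw [h2] at h1
  exact le_antisymm h1 (hle i)

/-- polar coordinates with respect to `f` -/
theorem polar {f v : ℝ × ℝ} (hf : f ≠ 0) (hv : v ≠ 0) : ∃ φ s : ℝ, 0 ≤ φ ∧ φ < 2 * Real.pi ∧
    0 < s ∧ v = s • (Real.cos φ • f + Real.sin φ • J f) := by
  set c : ℂ := ⟨dt f v, cr f v⟩ with hc
  have hff := dt_pos hf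
  have hvv := dt_pos hv
  have hcn : 0 < ‖c‖ := by
    rw [norm_pos_iff]
    intro h
    have h1 : dt f v = 0 := congrArg Complex.re h
    have h2 : cr f v = 0 := congrArg Complex.im h
    have h3 : dt f f * dt v v = dt f v ^ 2 + cr f v ^ 2 := by
      simp only [dt, cr]
      ring
    rw [h1, h2] at h3
    have := mul_pos hff hvv
    norm_num at h3
    rcases h3 with h3 | h3 <;> linarith
  have hre : ‖c‖ * Real.cos (Complex.arg c) = dt f v := Complex.norm_mul_cos_arg c
  have him : ‖c‖ * Real.sin (Complex.arg c) = cr f v := Complex.norm_mul_sin_arg c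
  have hang : ∃ φ, 0 ≤ φ ∧ φ < 2 * Real.pi ∧ Real.cos φ = Real.cos (Complex.arg c) ∧
      Real.sin φ = Real.sin (Complex.arg c) := by
    have hpi := Real.pi_pos
    rcases le_or_gt 0 (Complex.arg c) with h | h
    · exact ⟨Complex.arg c, h, by have := Complex.arg_le_pi c; linarith, rfl, rfl⟩
    · refine ⟨Complex.arg c + 2 * Real.pi, ?_, by linarith, Real.cos_add_two_pi _,
        Real.sin_add_two_pi _⟩
      have := Complex.neg_pi_lt_arg c
      linarith
  obtain ⟨φ, h0, h1, hcos, hsin⟩ := hang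
  refine ⟨φ, ‖c‖ / dt f f, h0, h1, by positivity, ?_⟩
  have e1 : ‖c‖ / dt f f * Real.cos φ = dt f v / dt f f := by
    rw [hcos, div_mul_eq_mul_div, hre]
  have e2 : ‖c‖ / dt f f * Real.sin φ = cr f v / dt f f := by
    rw [hsin, div_mul_eq_mul_div, him]
  rw [smul_add, smul_smul, smul_smul, e1, e2]
  have hff' : f.1 * f.1 + f.2 * f.2 ≠ 0 := hff.ne'
  ext
  · simp only [Prod.fst_add, Prod.smul_fst, smul_eq_mul, J, dt, cr]
    rw [div_mul_eq_mul_div, div_mul_eq_mul_div, ← add_div, eq_div_iff hff']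
    ring
  · simp only [Prod.snd_add, Prod.smul_snd, smul_eq_mul, J, dt, cr]
    rw [div_mul_eq_mul_div, div_mul_eq_mul_div, ← add_div, eq_div_iff hff']
    ring

theorem dt_polar (f : ℝ × ℝ) (a b s t : ℝ) :
    dt (s • (Real.cos a • f + Real.sin a • J f)) (t • (Real.cos b • f + Real.sin b • J f)) =
      s * t * dt f f * Real.cos (a - b) := by
  rw [Real.cos_sub]
  simp only [dt, J, Prod.smul_fst, Prod.smul_snd, Prod.fst_add, Prod.snd_add, smul_eq_mul]
  ring

/-- the angle between two vectors -/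
theorem ang_polar {f : ℝ × ℝ} (hf : f ≠ 0) {a b s t : ℝ} (hs : 0 < s) (ht : 0 < t)
    (h : Ang (s • (Real.cos a • f + Real.sin a • J f)) (t • (Real.cos b • f + Real.sin b • J f))) :
    Real.cos (a - b) ≤ Real.cos (Real.pi / 6) := by
  have hff := dt_pos hf
  have hst : 0 < s * t * dt f f := by positivity
  rw [Real.cos_pi_div_six]
  have h3 : (0 : ℝ) ≤ Real.sqrt 3 := Real.sqrt_nonneg 3
  rcases h with h | h
  · rw [dt_polar] at h
    have : Real.cos (a - b) ≤ 0 := by
      by_contra hc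
      push Not at hc
      have := mul_pos hst hc
      linarith
    linarith
  · rw [dt_polar, dt_polar, dt_polar, sub_self, sub_self, Real.cos_zero] at h
    have h4 : 4 * (s * t * dt f f) ^ 2 * Real.cos (a - b) ^ 2 ≤ 3 * (s * t * dt f f) ^ 2 := by
      nlinarith
    have h5 : Real.cos (a - b) ^ 2 ≤ 3 / 4 := by
      have h6 : 0 < (s * t * dt f f) ^ 2 := by positivity
      by_contra hc
      push Not at hc
      nlinarith
    have h7 : (Real.sqrt 3 / 2) ^ 2 = 3 / 4 := by
      rw [div_pow, Real.sq_sqrt (by norm_num)]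
      norm_num
    rw [← h7] at h5
    exact (abs_le_of_sq_le_sq' h5 (by positivity)).2

theorem cos_bound {δ : ℝ} (h0 : 0 ≤ δ) (h2 : δ < 2 * Real.pi)
    (h : Real.cos δ ≤ Real.cos (Real.pi / 6)) : Real.pi / 6 ≤ δ ∧ δ ≤ 11 * (Real.pi / 6) := by
  have hpi := Real.pi_pos
  constructor
  · by_contra hc
    push Not at hc
    have := Real.cos_lt_cos_of_nonneg_of_le_pi h0 (by linarith) hc
    linarith
  · by_contra hc
    push Not at hc
    have h3 : Real.cos (2 * Real.pi - δ) = Real.cos δ := Real.cos_two_pi_sub δ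
    have := Real.cos_lt_cos_of_nonneg_of_le_pi (x := 2 * Real.pi - δ) (y := Real.pi / 6)
      (by linarith) (by linarith) (by linarith)
    linarith

end FEAux

open FEAux

theorem fe_ok : St_fe where
  ne := fe_ne
  ds := by
    intro f hf
    have hadd : ∀ z w, fe f (z + w) = fe (fe f z) w := fun z w => (fe_add f z w).symm
    refine ⟨⟨fe f, ?_, ?_⟩, fun z => rfl⟩
    · intro z
      rw [hadd]
      ext
      · rw [fe_fst, cs_six, sn_six, Prod.fst_neg]
        ring
      · rw [fe_snd, cs_six, sn_six, Prod.snd_neg]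
        ring
    · intro z n hn0 hn6
      rw [hadd]
      have h1 : cr (fe f z) (fe (fe f z) (n : ZMod (2 * 6))) =
          sn (n : ZMod (2 * 6)) * dt (fe f z) (fe f z) := by
        simp only [cr, dt]
        rw [fe_fst (fe f z), fe_snd (fe f z)]
        ring
      rw [h1]
      refine mul_pos ?_ (dt_pos (fe_ne f hf z))
      rw [sn_nat (by omega)]
      have hpi := Real.pi_pos
      have hn0' : (0 : ℝ) < n := by exact_mod_cast hn0
      have hn6' : (n : ℝ) < 6 := by exact_mod_cast hn6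
      apply Real.sin_pos_of_pos_of_lt_pi
      · positivity
      · nlinarith
  add := fe_add
  three := by
    intro f z
    have h3 : (3 : ZMod (2 * 6)) = ((3 : ℕ) : ZMod (2 * 6)) := by norm_num
    rw [← fe_add, h3]
    ext
    · rw [fe_fst, cs_three, sn_three]
      simp [J]
    · rw [fe_snd, cs_three, sn_three]
      simp [J]
  same := by
    rintro f f' hf hf' a b v ⟨s, hs, hv⟩ ⟨s', hs', hv'⟩
    refine ⟨s / s', by positivity, fun z => ?_⟩
    have h1 : fe f' b = (s / s') • fe f a := by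
      rw [div_eq_inv_mul, mul_smul, ← hv, hv', smul_smul, inv_mul_cancel₀ hs'.ne', one_smul]
    have h2 : fe f' z = fe (fe f' b) (z - b) := by
      rw [fe_add]
      congr 1
      ring
    rw [h2, h1, fe_smul, fe_add]
    congr 2
    ring
  ang := by
    rintro v w ⟨s, hs, rfl⟩
    by_cases hv : v = 0
    · exact Or.inr hv
    · left
      have hvv := dt_pos hv
      have e1 : dt v (s • v) = s * dt v v := by
        simp only [dt, Prod.smul_fst, Prod.smul_snd, smul_eq_mul]
        ring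
      have e2 : dt (s • v) (s • v) = s ^ 2 * dt v v := by
        simp only [dt, Prod.smul_fst, Prod.smul_snd, smul_eq_mul]
        ring
      rintro (h | h)
      · rw [e1] at h
        have := mul_pos hs hvv
        linarith
      · rw [e1, e2] at h
        have := mul_pos hs hvv
        nlinarith

theorem frame_ok : St_frame := by
  intro n hn hang
  refine ⟨n 0, hn 0, ?_⟩
  have hf := hn 0
  have hpol := fun i => polar hf (hn i)
  choose φ s hφ0 hφ2 hs hns using hpol
  have hpi := Real.pi_pos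
  -- the angle of `n 0` is zero
  have hz : φ 0 = 0 := by
    have h1 := hns 0
    have hff := dt_pos hf
    -- cross product of f with itself
    have h2 : cr (n 0) (s 0 • (Real.cos (φ 0) • n 0 + Real.sin (φ 0) • J (n 0))) =
        s 0 * Real.sin (φ 0) * dt (n 0) (n 0) := by
      simp only [cr, dt, J, Prod.smul_fst, Prod.smul_snd, Prod.fst_add, Prod.snd_add, smul_eq_mul]
      ring
    have h3 : dt (n 0) (s 0 • (Real.cos (φ 0) • n 0 + Real.sin (φ 0) • J (n 0))) =
        s 0 * Real.cos (φ 0) * dt (n 0) (n 0) := by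
      simp only [dt, J, Prod.smul_fst, Prod.smul_snd, Prod.fst_add, Prod.snd_add, smul_eq_mul]
      ring
    rw [← h1] at h2 h3
    rw [cr_self] at h2
    have hsin : Real.sin (φ 0) = 0 := by
      have : s 0 * dt (n 0) (n 0) ≠ 0 := mul_ne_zero (hs 0).ne' hff.ne'
      have h4 : (s 0 * dt (n 0) (n 0)) * Real.sin (φ 0) = 0 := by linarith
      exact (mul_eq_zero.mp h4).resolve_left this
    have hcos : 0 < Real.cos (φ 0) := by
      by_contra hc
      push Not at hc
      have : s 0 * Real.cos (φ 0) * dt (n 0) (n 0) ≤ 0 :=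
        mul_nonpos_of_nonpos_of_nonneg (mul_nonpos_of_nonneg_of_nonpos (hs 0).le hc) hff.le
      linarith
    by_contra hne
    have hpos : 0 < φ 0 := lt_of_le_of_ne (hφ0 0) (Ne.symm hne)
    rcases lt_trichotomy (φ 0) Real.pi with h | h | h
    · have := Real.sin_pos_of_pos_of_lt_pi hpos h
      linarith
    · rw [h, Real.cos_pi] at hcos
      linarith
    · have h5 : Real.sin (φ 0 - 2 * Real.pi) = Real.sin (φ 0) := Real.sin_sub_two_pi _
      have h6 := Real.sin_neg_of_neg_of_neg_pi_lt (x := φ 0 - 2 * Real.pi)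
        (by linarith [hφ2 0]) (by linarith)
      linarith
  have hbd : ∀ i j, i ≠ j → Real.pi / 6 ≤ |φ i - φ j| ∧ |φ i - φ j| ≤ 11 * (Real.pi / 6) := by
    intro i j hij
    have h1 := hang i j hij
    rw [hns i, hns j] at h1
    have h2 := ang_polar hf (hs i) (hs j) h1
    rw [← Real.cos_abs] at h2
    refine cos_bound (abs_nonneg _) ?_ h2
    rw [abs_lt]
    constructor <;> linarith [hφ0 i, hφ0 j, hφ2 i, hφ2 j]
  have hmul := comb (fun i => φ i * (6 / Real.pi)) (fun i => by
      have := hφ0 i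
      positivity) (fun i => by
      have := hφ2 i
      rw [mul_div_assoc', div_lt_iff₀ hpi]
      linarith) (by simp [hz]) (fun i j hij => by
      have h := (hbd i j hij).1
      rw [← sub_mul, abs_mul, abs_of_pos (by positivity : (0 : ℝ) < 6 / Real.pi), mul_div_assoc',
        le_div_iff₀ hpi]
      linarith) (fun i j hij => by
      have h := (hbd i j hij).2
      rw [← sub_mul, abs_mul, abs_of_pos (by positivity : (0 : ℝ) < 6 / Real.pi), mul_div_assoc',
        div_le_iff₀ hpi]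
      linarith)
  intro i
  obtain ⟨m, hm, hxi⟩ := hmul i
  have hφ : φ i = m * (Real.pi / 6) := by
    have : φ i = (φ i * (6 / Real.pi)) * (Real.pi / 6) := by field_simp
    rw [this, hxi]
  refine ⟨(m : ZMod (2 * 6)), s i, hs i, ?_⟩
  rw [fe, cs_nat hm, sn_nat hm, ← hφ]
  exact hns i

end Pool.Agent.H670R3
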