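import Pool.Agent.H670R3.Stm

/-!
# Gluing 1

Small copies of the gadget at the hubs of a good core drawing: the vertices are distinct points and
no vertex lies on an edge that does not contain it.
-/

namespace Pool.Agent.H670R3.G1

open Pool.Agent.H670R3 Pool.Agent.H670R2 Pool.Agent.H670R2.Sl
open Filter Topology

/-! ### Topology -/

/-- being outside a segment is an open condition -/
theorem open_seg (P Q R : ℝ → ℝ × ℝ) (hP : Continuous P) (hQ : Continuous Q) (hR : Continuous R)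
    (h : P 0 ∉ segment ℝ (Q 0) (R 0)) : ∀ᶠ e in 𝓝 (0 : ℝ), P e ∉ segment ℝ (Q e) (R e) := by
  have key : ∀ᶠ e in 𝓝 (0 : ℝ), ∀ t ∈ Set.Icc (0 : ℝ) 1, P e ≠ Q e + t • (R e - Q e) := by
    apply IsCompact.eventually_forall_of_forall_eventually isCompact_Icc
      (P := fun e t => P e ≠ Q e + t • (R e - Q e))
    intro t ht
    have hcont : Continuous fun z : ℝ × ℝ => P z.1 - (Q z.1 + z.2 • (R z.1 - Q z.1)) := by
      fun_prop
    have h0 : P 0 - (Q 0 + t • (R 0 - Q 0)) ≠ 0 := by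
      intro h0
      apply h
      rw [segment_eq_image']
      exact ⟨t, ht, (sub_eq_zero.1 h0).symm⟩
    have := hcont.continuousAt.eventually_ne (x := ((0 : ℝ), t)) h0
    filter_upwards [this] with z hz
    intro h'
    exact hz (sub_eq_zero.2 h')
  filter_upwards [key] with e he hs
  rw [segment_eq_image'] at hs
  obtain ⟨t, ht, h'⟩ := hs
  exact he t ht h'.symm

theorem open_ne (P Q : ℝ → ℝ × ℝ) (hP : Continuous P) (hQ : Continuous Q)
    (h : P 0 ≠ Q 0) : ∀ᶠ e in 𝓝 (0 : ℝ), P e ≠ Q e := by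
  have hc : Continuous fun e => P e - Q e := hP.sub hQ
  have := hc.continuousAt.eventually_ne (x := (0 : ℝ)) (sub_ne_zero.2 h)
  filter_upwards [this] with z hz
  exact sub_ne_zero.1 hz

/-! ### The linear maps -/

theorem lin_add (A B v w : ℝ × ℝ) : lin A B (v + w) = lin A B v + lin A B w := by
  simp only [lin, Prod.fst_add, Prod.snd_add, add_smul]
  abel

theorem lin_smul (A B v : ℝ × ℝ) (s : ℝ) : lin A B (s • v) = s • lin A B v := by
  simp only [lin, Prod.smul_fst, Prod.smul_snd, smul_eq_mul, smul_add, mul_smul]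

theorem lin_sub (A B v w : ℝ × ℝ) : lin A B (v - w) = lin A B v - lin A B w := by
  simp only [lin, Prod.fst_sub, Prod.snd_sub, sub_smul]
  abel

theorem lin_inj {A B : ℝ × ℝ} (h : cr A B ≠ 0) {v w : ℝ × ℝ} (hvw : lin A B v = lin A B w) :
    v = w := by
  have h0 : lin A B (v - w) = 0 := by rw [lin_sub, hvw, sub_self]
  simp only [lin] at h0
  have h1 : cr ((v - w).1 • A + (v - w).2 • B) B = 0 := by rw [h0, cr_zero_left]
  have h2 : cr A ((v - w).1 • A + (v - w).2 • B) = 0 := by rw [h0, cr_zero_right]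
  rw [cr_add_left, cr_smul_left, cr_smul_left, cr_self, mul_zero, add_zero] at h1
  rw [cr_add_right, cr_smul_right, cr_smul_right, cr_self, mul_zero, zero_add] at h2
  have h3 := (mul_eq_zero.1 h1).resolve_right h
  have h4 := (mul_eq_zero.1 h2).resolve_right h
  have : v - w = 0 := Prod.ext h3 h4
  exact sub_eq_zero.1 this

/-- the affine maps preserve segments -/
theorem seg_of_lin {A B q : ℝ × ℝ} (h : cr A B ≠ 0) {ε : ℝ} (hε : 0 < ε) {u v w : ℝ × ℝ}
    (hs : q + ε • lin A B w ∈ segment ℝ (q + ε • lin A B u) (q + ε • lin A B v)) :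
    w ∈ segment ℝ u v := by
  rw [segment_eq_image'] at hs ⊢
  obtain ⟨t, ht, h'⟩ := hs
  refine ⟨t, ht, ?_⟩
  have h1 : ε • lin A B (u + t • (v - u)) = ε • lin A B w := by
    rw [lin_add, lin_smul, lin_sub]
    have h2 : q + ε • lin A B u + t • (q + ε • lin A B v - (q + ε • lin A B u)) =
      q + ε • (lin A B u + t • (lin A B v - lin A B u)) := by
      module
    simp only at h'
    rw [h2] at h'
    exact add_left_cancel h'
  have h2 := smul_right_injective (ℝ × ℝ) hε.ne' h1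
  exact lin_inj h h2

/-! ### The gadget -/

theorem gE_lt : ∀ e ∈ gE, e.1 < 157 ∧ e.2 < 157 := by decide +kernel

theorem lE_lt : ∀ e ∈ lE, e.1 < 157 ∧ e.2 < 157 := by decide +kernel

theorem gE_lf : ∀ e ∈ gE, ∀ j < 4, e.1 ≠ lf j ∧ e.2 ≠ lf j := by decide +kernel

theorem lE_mem : ∀ j < 4, (pt j, lf j) ∈ lE := by decide +kernel

theorem pt_lt : ∀ j < 4, pt j < 157 := by decide +kernel

theorem lf_lt : ∀ j < 4, lf j < 157 := by decide +kernel

theorem pt_ne_lf : ∀ i < 4, ∀ j < 4, pt i ≠ lf j := by decide +kernel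

theorem lf_inj : ∀ i < 4, ∀ j < 4, lf i = lf j → i = j := by decide +kernel

/-! ### Valid vertices -/

variable {Λ : Lay}

theorem val_of_hub {κ : CV} (h : Λ.isHub κ = true) : Λ.Val κ := by
  cases κ with
  | pos r c =>
    simp only [Lay.isHub, Bool.and_eq_true, decide_eq_true_eq, isHb, Bool.not_eq_true'] at h
    exact ⟨h.1, h.2.1, h.2.2.2⟩
  | hub i j =>
    simp only [Lay.isHub, Bool.and_eq_true, decide_eq_true_eq] at h
    exact ⟨h.1, h.2.1, h.2.2⟩

theorem val_finite (Λ : Lay) : {κ : CV | Λ.Val κ}.Finite := by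
  have h1 : ((fun p : ℕ × ℕ => CV.pos p.1 p.2) '' (Set.Iic (6 * Λ.nb) ×ˢ Set.Iic (6 * Λ.ng)) ∪
      (fun p : ℕ × ℕ => CV.hub p.1 p.2) '' (Set.Iio Λ.nb ×ˢ Set.Iio Λ.ng)).Finite := by
    apply Set.Finite.union
    · exact ((Set.finite_Iic _).prod (Set.finite_Iic _)).image _
    · exact ((Set.finite_Iio _).prod (Set.finite_Iio _)).image _
  apply h1.subset
  intro κ hκ
  cases κ with
  | pos r c =>
    left
    exact ⟨(r, c), ⟨hκ.1, hκ.2.1⟩, rfl⟩
  | hub i j =>
    right
    exact ⟨(i, j), ⟨hκ.1, hκ.2.1⟩, rfl⟩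

/-- the types of the holes -/
theorem hole_aux {t : ℕ} (ht : t ≤ 5) :
    hr0 t ≤ 5 ∧ hrC t ≤ 5 ∧ hr1 t ≤ 5 ∧ hc0 t ≤ 5 ∧ hcB t ≤ 5 ∧ hc1 t ≤ 5 ∧ 1 ≤ hr0 t ∧
      1 ≤ hc0 t := by
  interval_cases t <;> decide

theorem ne_of_CE {κ κ' : CV} {a a' : ℕ} (h : CE Λ κ a κ' a') : κ ≠ κ' := by
  cases h with
  | h r c => intro h; injection h; omega
  | v r c => intro h; injection h; omega
  | d0 i j => intro h; cases h
  | d1 i j => intro h; cases h
  | d2 i j => intro h; cases h
  | d3 i j => intro h; cases h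

theorem val_pos_of_block {i j ρ γ : ℕ} (hi : i < Λ.nb) (hj : j < Λ.ng)
    (hρ : ρ ≤ 5) (hγ : γ ≤ 5) (h : isIn (Λ.T i j) ρ γ = false) :
    Λ.Val (.pos (6 * i + ρ) (6 * j + γ)) := by
  have e1 : (6 * i + ρ) / 6 = i := by omega
  have e2 : (6 * j + γ) / 6 = j := by omega
  have e3 : (6 * i + ρ) % 6 = ρ := by omega
  have e4 : (6 * j + γ) % 6 = γ := by omega
  refine ⟨by omega, by omega, ?_⟩
  simp only [Lay.ty, e1, e2, e3, e4]
  exact h

theorem val_of_CE (hΛ : Λ.Ok) {κ κ' : CV} {a a' : ℕ} (h : CE Λ κ a κ' a') :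
    Λ.Val κ ∧ Λ.Val κ' := by
  cases h with
  | h r c hr hc ha =>
    simp only [hAbs, decide_eq_false_iff_not] at ha
    have hT := hole_aux (hΛ.le (r / 6) (c / 6))
    have hle := hole_aux (hΛ.le (r / 6) ((c + 1) / 6))
    refine ⟨⟨hr, by omega, ?_⟩, ⟨hr, by omega, ?_⟩⟩
    · simp only [isIn, decide_eq_false_iff_not]
      intro h
      apply ha
      exact ⟨h.1, h.2.1, h.2.2.1, h.2.2.2.1.le, h.2.2.2.2⟩
    · simp only [Lay.ty] at ha
      simp only [isIn, Lay.ty]
      apply decide_eq_false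
      intro h
      by_cases h5 : c % 6 = 5
      · omega
      · have e1 : (c + 1) / 6 = c / 6 := by omega
        have e2 : (c + 1) % 6 = c % 6 + 1 := by omega
        rw [e1, e2] at h
        apply ha
        exact ⟨h.1, h.2.1, h.2.2.1, by omega, by omega⟩
  | v r c hr hc ha =>
    simp only [vAbs, decide_eq_false_iff_not] at ha
    have hT := hole_aux (hΛ.le (r / 6) (c / 6))
    have hle := hole_aux (hΛ.le ((r + 1) / 6) (c / 6))
    refine ⟨⟨by omega, hc, ?_⟩, ⟨by omega, hc, ?_⟩⟩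
    · simp only [isIn, decide_eq_false_iff_not]
      intro h
      apply ha
      exact ⟨h.1, h.2.2.2.1, h.2.2.2.2, h.2.1.le, h.2.2.1⟩
    · simp only [Lay.ty] at ha
      simp only [isIn, Lay.ty]
      apply decide_eq_false
      intro h
      by_cases h5 : r % 6 = 5
      · omega
      · have e1 : (r + 1) / 6 = r / 6 := by omega
        have e2 : (r + 1) % 6 = r % 6 + 1 := by omega
        rw [e1, e2] at h
        apply ha
        exact ⟨h.1, h.2.2.2.1, h.2.2.2.2, by omega, by omega⟩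
  | d0 i j hi hj ht =>
    have hT := hole_aux (hΛ.le i j)
    refine ⟨⟨hi, hj, ht⟩, val_pos_of_block hi hj hT.2.1 hT.2.2.2.2.2.1 ?_⟩
    simp [isIn]
  | d1 i j hi hj ht =>
    have hT := hole_aux (hΛ.le i j)
    refine ⟨⟨hi, hj, ht⟩, val_pos_of_block hi hj hT.2.2.1 hT.2.2.2.1 ?_⟩
    simp [isIn]
  | d2 i j hi hj ht =>
    have hT := hole_aux (hΛ.le i j)
    refine ⟨⟨hi, hj, ht⟩, val_pos_of_block hi hj hT.1 hT.2.2.2.1 ?_⟩
    simp [isIn]
  | d3 i j hi hj ht =>
    have hT := hole_aux (hΛ.le i j)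
    refine ⟨⟨hi, hj, ht⟩, val_pos_of_block hi hj hT.1 hT.2.2.2.2.1 ?_⟩
    simp [isIn]

/-- The live vertices are vertices of gadgets or plain vertices. -/
def Vx (Λ : Lay) (a : CV × ℕ) : Prop :=
  Λ.Val a.1 ∧ ((Λ.isHub a.1 = true ∧ a.2 < 157) ∨ (Λ.isHub a.1 = false ∧ a.2 = 0))

theorem vx_finite (Λ : Lay) : {a : CV × ℕ | Vx Λ a}.Finite := by
  have h1 : (({κ : CV | Λ.Val κ}) ×ˢ (Set.Iio 157 : Set ℕ)).Finite :=
    (val_finite Λ).prod (Set.finite_Iio _)
  apply h1.subset
  rintro ⟨κ, x⟩ ⟨h1, h2⟩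
  refine ⟨h1, ?_⟩
  rcases h2 with h2 | h2
  · exact h2.2
  · have h3 : x = 0 := h2.2
    subst h3
    exact (by norm_num : (0 : ℕ) < 157)

variable {q A B : CV → ℝ × ℝ}

theorem vx_en (hΛ : Λ.Ok) (hC : Cor Λ q A B) {κ κ' : CV} {a : ℕ} (h : CAdj Λ κ a κ') :
    Vx Λ (κ, Λ.en κ a) := by
  have hv : Λ.Val κ := by
    obtain ⟨b, h1 | h1⟩ := h
    · exact (val_of_CE hΛ h1).1
    · exact (val_of_CE hΛ h1).2
  refine ⟨hv, ?_⟩
  by_cases hh : Λ.isHub κ = true
  · left
    refine ⟨hh, ?_⟩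
    simp only [Lay.en, hh, if_true]
    exact pt_lt a (hC.dir κ a κ' hh h).1
  · right
    have h2 : Λ.isHub κ = false := by simpa using hh
    refine ⟨h2, ?_⟩
    simp [Lay.en, h2]

theorem vx_of_FE (hΛ : Λ.Ok) (hC : Cor Λ q A B) {a b : CV × ℕ} (h : FE Λ a b) :
    Vx Λ a ∧ Vx Λ b := by
  cases h with
  | g κ x y h hxy =>
    have h1 := gE_lt _ hxy
    exact ⟨⟨val_of_hub h, Or.inl ⟨h, h1.1⟩⟩, ⟨val_of_hub h, Or.inl ⟨h, h1.2⟩⟩⟩
  | l κ j h hj hu =>
    exact ⟨⟨val_of_hub h, Or.inl ⟨h, pt_lt j hj⟩⟩, ⟨val_of_hub h, Or.inl ⟨h, lf_lt j hj⟩⟩⟩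
  | c κ κ' a a' h =>
    exact ⟨vx_en hΛ hC ⟨a', Or.inl h⟩, vx_en hΛ hC ⟨a, Or.inr h⟩⟩

theorem vx_of_live (hΛ : Λ.Ok) (hC : Cor Λ q A B) {a : CV × ℕ} (h : Live Λ a) : Vx Λ a := by
  obtain ⟨b, h | h⟩ := h
  · exact (vx_of_FE hΛ hC h).1
  · exact (vx_of_FE hΛ hC h).2

/-- a leaf at a port that is used is not live -/
theorem not_live_lf (hC : Cor Λ q A B) {κ κ' : CV} {a : ℕ} (hh : Λ.isHub κ = true)
    (h : CAdj Λ κ a κ') : ¬ Live Λ (κ, lf a) := by
  have ha : a < 4 := (hC.dir κ a κ' hh h).1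
  have key : ∀ z b : CV × ℕ, FE Λ z b → z ≠ (κ, lf a) ∧ b ≠ (κ, lf a) := by
    intro z b hzb
    cases hzb with
    | g k x y h1 hxy =>
      have h2 := gE_lf _ hxy a ha
      constructor
      · intro h3
        exact h2.1 (congrArg Prod.snd h3)
      · intro h3
        exact h2.2 (congrArg Prod.snd h3)
    | l k j h1 hj hu =>
      constructor
      · intro h3
        exact pt_ne_lf j hj a ha (congrArg Prod.snd h3)
      · intro h3
        have h4 : k = κ := congrArg Prod.fst h3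
        have h5 : j = a := lf_inj j hj a ha (congrArg Prod.snd h3)
        subst h4 h5
        exact hu κ' h
    | c k k' b b' hce =>
      constructor
      · intro h3
        have h4 : k = κ := congrArg Prod.fst h3
        have h5 : Λ.en k b = lf a := congrArg Prod.snd h3
        subst h4
        simp only [Lay.en, hh, if_true] at h5
        exact pt_ne_lf b (hC.dir k b k' hh ⟨b', Or.inl hce⟩).1 a ha h5
      · intro h3
        have h4 : k' = κ := congrArg Prod.fst h3
        have h5 : Λ.en k' b' = lf a := congrArg Prod.snd h3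
        subst h4
        simp only [Lay.en, hh, if_true] at h5
        exact pt_ne_lf b' (hC.dir k' b' k hh ⟨b, Or.inr hce⟩).1 a ha h5
  rintro ⟨b, h1 | h1⟩
  · exact (key _ _ h1).1 rfl
  · exact (key _ _ h1).2 rfl

/-! ### Placement -/

variable {g : ℕ → ℝ × ℝ}

theorem place_cont (a : CV × ℕ) : Continuous fun ε => place Λ q A B g ε a := by
  unfold place
  by_cases h : Λ.isHub a.1 = true
  · simp only [h, if_true]
    fun_prop
  · simp only [h]
    exact continuous_const

theorem place_zero (a : CV × ℕ) : place Λ q A B g 0 a = q a.1 := by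
  unfold place
  by_cases h : Λ.isHub a.1 = true
  · simp only [h, if_true, zero_smul, add_zero]
  · simp only [h]
    rfl

theorem place_hub {κ : CV} (h : Λ.isHub κ = true) (x : ℕ) (ε : ℝ) :
    place Λ q A B g ε (κ, x) = q κ + ε • lin (A κ) (B κ) (g x) := by
  simp [place, h]

theorem place_plain {κ : CV} (h : Λ.isHub κ = false) (x : ℕ) (ε : ℝ) :
    place Λ q A B g ε (κ, x) = q κ := by
  simp [place, h]

/-- The end of a core edge, seen from the other end, lies on the core edge. -/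
theorem end_pos (hC : Cor Λ q A B) (hg : GOk g) {κ κ' : CV} {a' : ℕ}
    (h' : CAdj Λ κ' a' κ) : ∃ r : ℝ, 0 ≤ r ∧ ∀ ε : ℝ,
      place Λ q A B g ε (κ', Λ.en κ' a') = q κ' + (ε * r) • (q κ - q κ') := by
  by_cases hh : Λ.isHub κ' = true
  · obtain ⟨ha, t, ht, hd⟩ := hC.dir κ' a' κ hh h'
    obtain ⟨s, hs, hgs⟩ := hg.port a' ha
    refine ⟨s / t, by positivity, fun ε => ?_⟩
    rw [place_hub hh]
    simp only [Lay.en, hh, if_true]
    rw [hgs, lin_smul, hd, smul_smul, smul_smul]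
    congr 2
    field_simp
  · refine ⟨0, le_refl _, fun ε => ?_⟩
    have h2 : Λ.isHub κ' = false := by simpa using hh
    rw [place_plain h2]
    simp

/-- vertices of the gadget of an end of a core edge -/
theorem seg_same (hC : Cor Λ q A B) (hg : GOk g) {κ κ' : CV} {a a' : ℕ}
    (hh : Λ.isHub κ = true) (h : CAdj Λ κ a κ') (h' : CAdj Λ κ' a' κ) {w : ℕ}
    (hw : w < 157) (hw1 : w ≠ pt a) (hw2 : w ≠ lf a) : ∀ᶠ ε in 𝓝[>] (0 : ℝ),
      place Λ q A B g ε (κ, w) ∉ segment ℝ (place Λ q A B g ε (κ, Λ.en κ a))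
        (place Λ q A B g ε (κ', Λ.en κ' a')) := by
  obtain ⟨ha, t, ht, hd⟩ := hC.dir κ a κ' hh h
  obtain ⟨s, hs, hgs⟩ := hg.port a ha
  obtain ⟨r, hr, hend⟩ := end_pos hC hg h'
  -- `ε s ≤ t (1 - ε r)` for small `ε`
  have hsmall : ∀ᶠ ε in 𝓝[>] (0 : ℝ), ε * s < t * (1 - ε * r) := by
    have hc1 : Continuous fun ε : ℝ => t * (1 - ε * r) - ε * s := by fun_prop
    have h1 : ∀ᶠ ε in 𝓝 (0 : ℝ), 0 < t * (1 - ε * r) - ε * s :=
      hc1.continuousAt.tendsto.eventually (lt_mem_nhds (by simpa using ht))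
    have h2 := h1.filter_mono (nhdsWithin_le_nhds (s := Set.Ioi (0 : ℝ)))
    filter_upwards [h2] with ε hε
    linarith
  filter_upwards [hsmall, self_mem_nhdsWithin] with ε h1 hε hseg
  have hε0 : (0 : ℝ) < ε := hε
  rw [segment_eq_image'] at hseg
  obtain ⟨y, hy, hyy⟩ := hseg
  simp only at hyy
  set L := lin (A κ) (B κ) (ax a) with hL
  have e1 : place Λ q A B g ε (κ, Λ.en κ a) = q κ + (ε * s) • L := by
    rw [place_hub hh]
    simp only [Lay.en, hh, if_true]
    rw [hgs, lin_smul, smul_smul]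
  have e2 : place Λ q A B g ε (κ', Λ.en κ' a') = q κ + (t * (1 - ε * r)) • L := by
    rw [hend]
    have h3 : q κ' = q κ + t • L := by rw [← hd]; abel
    rw [h3]
    module
  rw [e1, e2, place_hub hh] at hyy
  have e3 : ε • lin (A κ) (B κ) (g w) = (ε * s + y * (t * (1 - ε * r) - ε * s)) • L := by
    have h4 : q κ + (ε * s) • L + y • (q κ + (t * (1 - ε * r)) • L - (q κ + (ε * s) • L)) =
      q κ + (ε * s + y * (t * (1 - ε * r) - ε * s)) • L := by module
    rw [h4] at hyy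
    exact (add_left_cancel hyy).symm
  have e4 : lin (A κ) (B κ) (g w) = lin (A κ) (B κ)
      (g (pt a) + (y * (t * (1 - ε * r) - ε * s) / ε) • ax a) := by
    rw [hgs, ← add_smul, lin_smul, ← hL]
    have h5 : lin (A κ) (B κ) (g w) = ε⁻¹ • (ε • lin (A κ) (B κ) (g w)) := by
      rw [smul_smul, inv_mul_cancel₀ hε0.ne', one_smul]
    rw [h5, e3, smul_smul]
    congr 1
    field_simp
  have e5 := lin_inj (hC.det κ hh) e4
  refine hg.ray a ha w hw hw1 hw2 _ ?_ e5
  have : 0 ≤ y := hy.1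
  have : 0 ≤ t * (1 - ε * r) - ε * s := by linarith
  positivity

/-- all vertices, core edges -/
theorem seg_core (hΛ : Λ.Ok) (hC : Cor Λ q A B) (hg : GOk g) {κ κ' : CV} {a a' : ℕ}
    (h : CE Λ κ a κ' a') {c : CV × ℕ} (hc : Live Λ c) (h1 : c ≠ (κ, Λ.en κ a))
    (h2 : c ≠ (κ', Λ.en κ' a')) : ∀ᶠ ε in 𝓝[>] (0 : ℝ),
      place Λ q A B g ε c ∉ segment ℝ (place Λ q A B g ε (κ, Λ.en κ a))
        (place Λ q A B g ε (κ', Λ.en κ' a')) := by
  obtain ⟨k, w⟩ := c
  have hv := vx_of_live hΛ hC hc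
  have hadj : CAdj Λ κ a κ' := ⟨a', Or.inl h⟩
  have hadj' : CAdj Λ κ' a' κ := ⟨a, Or.inr h⟩
  by_cases hk : k = κ
  · subst hk
    rcases hv.2 with hv2 | hv2
    · have hh : Λ.isHub k = true := hv2.1
      refine seg_same hC hg hh hadj hadj' hv2.2 ?_ ?_
      · intro h3
        apply h1
        simp [Lay.en, hh, h3]
      · intro h3
        subst h3
        exact not_live_lf hC hh hadj hc
    · exfalso
      apply h1
      have h3 : Λ.isHub k = false := hv2.1
      have h4 : w = 0 := hv2.2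
      simp [Lay.en, h3, h4]
  · by_cases hk' : k = κ'
    · subst hk'
      rcases hv.2 with hv2 | hv2
      · have hh : Λ.isHub k = true := hv2.1
        have := seg_same (q := q) (A := A) (B := B) (g := g) hC hg hh hadj' hadj (w := w)
          hv2.2 ?_ ?_
        · filter_upwards [this] with ε hε
          rw [segment_symm]
          exact hε
        · intro h3
          apply h2
          simp [Lay.en, hh, h3]
        · intro h3
          subst h3
          exact not_live_lf hC hh hadj' hc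
      · exfalso
        apply h2
        have h3 : Λ.isHub k = false := hv2.1
        have h4 : w = 0 := hv2.2
        simp [Lay.en, h3, h4]
    · have h3 := hC.seg κ a κ' a' k h hv.1 hk hk'
      have h4 := open_seg (fun ε => place Λ q A B g ε (k, w))
        (fun ε => place Λ q A B g ε (κ, Λ.en κ a)) (fun ε => place Λ q A B g ε (κ', Λ.en κ' a'))
        (place_cont _) (place_cont _) (place_cont _) (by
          simp only [place_zero]
          exact h3)
      exact h4.filter_mono nhdsWithin_le_nhds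

/-- all vertices, edges of the gadgets -/
theorem seg_gad (hC : Cor Λ q A B) (hg : GOk g) {κ : CV} {x y : ℕ}
    (hh : Λ.isHub κ = true) (hxy : (x, y) ∈ gE ++ lE) {c : CV × ℕ} (hc : Vx Λ c)
    (h1 : c ≠ (κ, x)) (h2 : c ≠ (κ, y)) : ∀ᶠ ε in 𝓝[>] (0 : ℝ),
      place Λ q A B g ε c ∉ segment ℝ (place Λ q A B g ε (κ, x))
        (place Λ q A B g ε (κ, y)) := by
  obtain ⟨k, w⟩ := c
  by_cases hk : k = κ
  · subst hk
    have hw : w < 157 := by
      rcases hc.2 with hv2 | hv2
      · exact hv2.2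
      · have h3 : Λ.isHub k = false := hv2.1
        rw [hh] at h3
        exact absurd h3 (by simp)
    filter_upwards [self_mem_nhdsWithin] with ε hε hseg
    have hε0 : (0 : ℝ) < ε := hε
    rw [place_hub hh, place_hub hh, place_hub hh] at hseg
    refine hg.seg (x, y) hxy w hw ?_ ?_ (seg_of_lin (hC.det k hh) hε0 hseg)
    · intro h3
      apply h1
      simp only at h3
      rw [h3]
    · intro h3
      apply h2
      simp only at h3
      rw [h3]
  · have h3 : q k ∉ segment ℝ (q κ) (q κ) := by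
      rw [segment_same]
      intro h3
      exact hk (hC.inj k κ hc.1 (val_of_hub hh) h3)
    have h4 := open_seg (fun ε => place Λ q A B g ε (k, w))
      (fun ε => place Λ q A B g ε (κ, x)) (fun ε => place Λ q A B g ε (κ, y))
      (place_cont _) (place_cont _) (place_cont _) (by
        simp only [place_zero]
        exact h3)
    exact h4.filter_mono nhdsWithin_le_nhds

theorem seg_FE (hΛ : Λ.Ok) (hC : Cor Λ q A B) (hg : GOk g) {a b c : CV × ℕ}
    (h : FE Λ a b) (hc : Live Λ c) (h1 : c ≠ a) (h2 : c ≠ b) : ∀ᶠ ε in 𝓝[>] (0 : ℝ),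
      place Λ q A B g ε c ∉ segment ℝ (place Λ q A B g ε a) (place Λ q A B g ε b) := by
  cases h with
  | g κ x y h hxy =>
    exact seg_gad hC hg h (List.mem_append_left _ hxy) (vx_of_live hΛ hC hc) h1 h2
  | l κ j h hj hu =>
    exact seg_gad hC hg h (List.mem_append_right _ (lE_mem j hj)) (vx_of_live hΛ hC hc) h1 h2
  | c κ κ' a a' h => exact seg_core hΛ hC hg h hc h1 h2

theorem seg_Adj (hΛ : Λ.Ok) (hC : Cor Λ q A B) (hg : GOk g) {a b c : CV × ℕ}
    (h : Adj Λ a b) (hc : Live Λ c) (h1 : c ≠ a) (h2 : c ≠ b) : ∀ᶠ ε in 𝓝[>] (0 : ℝ),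
      place Λ q A B g ε c ∉ segment ℝ (place Λ q A B g ε a) (place Λ q A B g ε b) := by
  rcases h with h | h
  · exact seg_FE hΛ hC hg h hc h1 h2
  · filter_upwards [seg_FE hΛ hC hg h hc h2 h1] with ε hε
    rw [segment_symm]
    exact hε

theorem inj_ev (hC : Cor Λ q A B) (hg : GOk g) {a b : CV × ℕ}
    (ha : Vx Λ a) (hb : Vx Λ b) (hab : a ≠ b) : ∀ᶠ ε in 𝓝[>] (0 : ℝ),
      place Λ q A B g ε a ≠ place Λ q A B g ε b := by
  obtain ⟨k, x⟩ := a
  obtain ⟨m, y⟩ := b
  by_cases hk : k = m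
  · subst hk
    rcases ha.2 with ha2 | ha2
    · have hh : Λ.isHub k = true := ha2.1
      have hy : y < 157 := by
        rcases hb.2 with hv2 | hv2
        · exact hv2.2
        · have h3 : Λ.isHub k = false := hv2.1
          rw [hh] at h3
          exact absurd h3 (by simp)
      filter_upwards [self_mem_nhdsWithin] with ε hε heq
      have hε0 : (0 : ℝ) < ε := hε
      rw [place_hub hh, place_hub hh] at heq
      have h1 := smul_right_injective (ℝ × ℝ) hε0.ne' (add_left_cancel heq)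
      have h2 := hg.inj x ha2.2 y hy (lin_inj (hC.det k hh) h1)
      exact hab (by rw [h2])
    · exfalso
      have hh : Λ.isHub k = false := ha2.1
      have hx : x = 0 := ha2.2
      have hy : y = 0 := by
        rcases hb.2 with hv2 | hv2
        · have h3 : Λ.isHub k = true := hv2.1
          rw [hh] at h3
          exact absurd h3 (by simp)
        · exact hv2.2
      exact hab (by rw [hx, hy])
  · have h4 := open_ne (fun ε => place Λ q A B g ε (k, x)) (fun ε => place Λ q A B g ε (m, y))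
      (place_cont _) (place_cont _) (by
        simp only [place_zero]
        intro h3
        exact hk (hC.inj k m ha.1 hb.1 h3))
    exact h4.filter_mono nhdsWithin_le_nhds

end Pool.Agent.H670R3.G1

namespace Pool.Agent.H670R3

open G1 Filter Topology

theorem glue1_ok : St_glue1 := by
  intro Λ q A B g hΛ hC hg
  have hfin := vx_finite Λ
  have h1 : ∀ᶠ ε in 𝓝[>] (0 : ℝ), ∀ a ∈ {a : CV × ℕ | Vx Λ a}, ∀ b ∈ {a : CV × ℕ | Vx Λ a},
      a ≠ b → place Λ q A B g ε a ≠ place Λ q A B g ε b := by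
    refine (eventually_all_finite hfin).2 fun a ha => (eventually_all_finite hfin).2 fun b hb => ?_
    by_cases hab : a = b
    · exact Eventually.of_forall fun _ h => absurd hab h
    · filter_upwards [inj_ev hC hg ha hb hab] with ε hε _
      exact hε
  have h2 : ∀ᶠ ε in 𝓝[>] (0 : ℝ), ∀ a ∈ {a : CV × ℕ | Vx Λ a}, ∀ b ∈ {a : CV × ℕ | Vx Λ a},
      ∀ c ∈ {a : CV × ℕ | Vx Λ a}, Adj Λ a b → Live Λ c → c ≠ a → c ≠ b →
      place Λ q A B g ε c ∉ segment ℝ (place Λ q A B g ε a) (place Λ q A B g ε b) := by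
    refine (eventually_all_finite hfin).2 fun a ha => (eventually_all_finite hfin).2 fun b hb =>
      (eventually_all_finite hfin).2 fun c hc => ?_
    by_cases hP : Adj Λ a b ∧ Live Λ c ∧ c ≠ a ∧ c ≠ b
    · filter_upwards [seg_Adj hΛ hC hg hP.1 hP.2.1 hP.2.2.1 hP.2.2.2] with ε hε _ _ _ _
      exact hε
    · exact Eventually.of_forall fun _ h3 h4 h5 h6 => absurd ⟨h3, h4, h5, h6⟩ hP
  obtain ⟨u, hu, hsub⟩ := mem_nhdsGT_iff_exists_Ioo_subset.1 (h1.and h2)
  refine ⟨u, hu, fun ε h0 hlt => ?_⟩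
  obtain ⟨g1, g2⟩ := hsub ⟨h0, hlt⟩
  constructor
  · intro a b ha hb hab
    by_contra hne
    exact g1 a (vx_of_live hΛ hC ha) b (vx_of_live hΛ hC hb) hne hab
  · intro a b c hab hc hca hcb
    have hla : Live Λ a := ⟨b, hab⟩
    have hlb : Live Λ b := ⟨a, hab.symm⟩
    exact g2 a (vx_of_live hΛ hC hla) b (vx_of_live hΛ hC hlb) c (vx_of_live hΛ hC hc)
      hab hc hca hcb

end Pool.Agent.H670R3
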