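import Pool.Agent.H670R3.Stm

/-!
Gluing 2: small copies of a gadget drawing without crossings at the hubs of a core drawing without
crossings give a drawing without crossings.
-/

namespace Pool.Agent.H670R3

open Pool.Agent.NPC Pool.Agent.H670R2 Pool.Agent.H670R2.Sl Filter Topology Set

private theorem g2_add (A B u v : ℝ × ℝ) : lin A B (u + v) = lin A B u + lin A B v := by
  unfold lin; ext <;> simp <;> ring

private theorem g2_smul (A B : ℝ × ℝ) (s : ℝ) (v : ℝ × ℝ) :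
    lin A B (s • v) = s • lin A B v := by
  unfold lin; ext <;> simp <;> ring

private theorem g2_inj (A B : ℝ × ℝ) (h : cr A B ≠ 0) {u v : ℝ × ℝ}
    (e : lin A B u = lin A B v) : u = v := by
  have e1 := congrArg Prod.fst e
  have e2 := congrArg Prod.snd e
  simp only [lin, Prod.fst_add, Prod.snd_add, Prod.smul_fst, Prod.smul_snd, smul_eq_mul] at e1 e2
  unfold cr at h
  ext
  · have : (A.1 * B.2 - A.2 * B.1) * (u.1 - v.1) = 0 := by linear_combination B.2 * e1 - B.1 * e2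
    rcases mul_eq_zero.1 this with h' | h'
    · exact absurd h' h
    · linarith
  · have : (A.1 * B.2 - A.2 * B.1) * (u.2 - v.2) = 0 := by linear_combination A.1 * e2 - A.2 * e1
    rcases mul_eq_zero.1 this with h' | h'
    · exact absurd h' h
    · linarith

/-- parametrisation of a segment -/
private theorem g2_seg {a b z : ℝ × ℝ} : z ∈ segment ℝ a b ↔
    ∃ s : ℝ, 0 ≤ s ∧ s ≤ 1 ∧ z = a + s • (b - a) := by
  rw [segment_eq_image']
  constructor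
  · rintro ⟨s, ⟨h0, h1⟩, rfl⟩
    exact ⟨s, h0, h1, rfl⟩
  · rintro ⟨s, h0, h1, rfl⟩
    exact ⟨s, ⟨h0, h1⟩, rfl⟩

/-- segments with converging ends stay disjoint -/
private theorem g2_open (a b c d : ℝ → ℝ × ℝ) (ha : Continuous a) (hb : Continuous b)
    (hc : Continuous c) (hd : Continuous d)
    (h : Disjoint (segment ℝ (a 0) (b 0)) (segment ℝ (c 0) (d 0))) :
    ∀ᶠ ε in 𝓝 (0 : ℝ), Disjoint (segment ℝ (a ε) (b ε)) (segment ℝ (c ε) (d ε)) := by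
  have hK : IsCompact (Icc (0 : ℝ) 1 ×ˢ Icc (0 : ℝ) 1) := isCompact_Icc.prod isCompact_Icc
  have key : ∀ᶠ ε in 𝓝 (0 : ℝ), ∀ y ∈ Icc (0 : ℝ) 1 ×ˢ Icc (0 : ℝ) 1,
      a ε + y.1 • (b ε - a ε) ≠ c ε + y.2 • (d ε - c ε) := by
    refine hK.eventually_forall_of_forall_eventually fun y hy => ?_
    have h1 : Continuous fun z : ℝ × (ℝ × ℝ) => a z.1 + z.2.1 • (b z.1 - a z.1) := by fun_prop
    have h2 : Continuous fun z : ℝ × (ℝ × ℝ) => c z.1 + z.2.2 • (d z.1 - c z.1) := by fun_prop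
    have h3 : IsOpen {z : ℝ × (ℝ × ℝ) | a z.1 + z.2.1 • (b z.1 - a z.1) ≠
        c z.1 + z.2.2 • (d z.1 - c z.1)} := isOpen_ne_fun h1 h2
    refine h3.mem_nhds ?_
    intro he
    refine Set.disjoint_left.1 h (g2_seg.2 ⟨y.1, hy.1.1, hy.1.2, rfl⟩) ?_
    exact g2_seg.2 ⟨y.2, hy.2.1, hy.2.2, he⟩
  filter_upwards [key] with ε hε
  rw [Set.disjoint_left]
  intro z hz1 hz2
  obtain ⟨s, s0, s1, rfl⟩ := g2_seg.1 hz1
  obtain ⟨t, t0, t1, ht⟩ := g2_seg.1 hz2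
  exact hε (s, t) ⟨⟨s0, s1⟩, ⟨t0, t1⟩⟩ ht

variable {Λ : Lay} {q A B : CV → ℝ × ℝ} {g : ℕ → ℝ × ℝ}

private theorem g2_place_hub {κ : CV} (h : Λ.isHub κ = true) (ε : ℝ) (x : ℕ) :
    place Λ q A B g ε (κ, x) = q κ + ε • lin (A κ) (B κ) (g x) := by
  simp only [place, h, if_true]

private theorem g2_place_plain {κ : CV} (h : Λ.isHub κ = false) (ε : ℝ) (x : ℕ) :
    place Λ q A B g ε (κ, x) = q κ := by
  simp only [place, h, Bool.false_eq_true, if_false]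

private theorem g2_place_cont (a : CV × ℕ) : Continuous fun ε => place Λ q A B g ε a := by
  obtain ⟨κ, x⟩ := a
  rcases h : Λ.isHub κ with _ | _
  · simp only [g2_place_plain h]
    exact continuous_const
  · simp only [g2_place_hub h]
    fun_prop

private theorem g2_place_zero (a : CV × ℕ) : place Λ q A B g 0 a = q a.1 := by
  obtain ⟨κ, x⟩ := a
  rcases h : Λ.isHub κ with _ | _
  · simp only [g2_place_plain h]
  · simp only [g2_place_hub h]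
    simp

/-- symmetric core edges -/
private def CEs (Λ : Lay) (κ : CV) (a : ℕ) (κ' : CV) (a' : ℕ) : Prop :=
  CE Λ κ a κ' a' ∨ CE Λ κ' a' κ a

private theorem g2_hub_par (hC : Cor Λ q A B) (hG : GOk g) {κ κ' : CV} {a a' : ℕ}
    (h : CEs Λ κ a κ' a') (hk : Λ.isHub κ = true) : a < 4 ∧ ∃ σ s₀ : ℝ, 0 < σ ∧ 0 < s₀ ∧
      q κ' - q κ = σ • lin (A κ) (B κ) (ax a) ∧ g (pt a) = s₀ • ax a ∧
      ∀ ε, place Λ q A B g ε (κ, Λ.en κ a) = q κ + (ε * (s₀ / σ)) • (q κ' - q κ) := by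
  obtain ⟨h4, σ, hσ, e⟩ := hC.dir κ a κ' hk ⟨a', h⟩
  obtain ⟨s₀, hs, e2⟩ := hG.port a h4
  refine ⟨h4, σ, s₀, hσ, hs, e, e2, fun ε => ?_⟩
  have : Λ.en κ a = pt a := by simp [Lay.en, hk]
  rw [this, g2_place_hub hk, e2, g2_smul, e, smul_smul, smul_smul]
  congr 2
  field_simp

/-- the final edge as a part of the core edge -/
private theorem g2_par (hC : Cor Λ q A B) (hG : GOk g) {κ κ' : CV} {a a' : ℕ}
    (h : CEs Λ κ a κ' a') : ∃ τ τ' : ℝ, 0 ≤ τ ∧ 0 ≤ τ' ∧ (Λ.isHub κ = true → 0 < τ) ∧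
      ∀ ε, place Λ q A B g ε (κ, Λ.en κ a) = q κ + (ε * τ) • (q κ' - q κ) ∧
        place Λ q A B g ε (κ', Λ.en κ' a') = q κ + (1 - ε * τ') • (q κ' - q κ) := by
  have h1 : ∃ τ : ℝ, 0 ≤ τ ∧ (Λ.isHub κ = true → 0 < τ) ∧
      ∀ ε, place Λ q A B g ε (κ, Λ.en κ a) = q κ + (ε * τ) • (q κ' - q κ) := by
    rcases hk : Λ.isHub κ with _ | _
    · refine ⟨0, le_refl _, fun h => absurd h (by simp), fun ε => ?_⟩
      rw [g2_place_plain hk]
      simp
    · obtain ⟨-, σ, s₀, hσ, hs, -, -, e⟩ := g2_hub_par hC hG h hk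
      exact ⟨s₀ / σ, by positivity, fun _ => by positivity, e⟩
  have h2 : ∃ τ : ℝ, 0 ≤ τ ∧
      ∀ ε, place Λ q A B g ε (κ', Λ.en κ' a') = q κ' + (ε * τ) • (q κ - q κ') := by
    rcases hk : Λ.isHub κ' with _ | _
    · refine ⟨0, le_refl _, fun ε => ?_⟩
      rw [g2_place_plain hk]
      simp
    · obtain ⟨-, σ, s₀, hσ, hs, -, -, e⟩ := g2_hub_par hC hG (Or.symm h) hk
      exact ⟨s₀ / σ, by positivity, e⟩
  obtain ⟨τ, hτ, hp, e⟩ := h1
  obtain ⟨τ', hτ', e'⟩ := h2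
  refine ⟨τ, τ', hτ, hτ', hp, fun ε => ⟨e ε, ?_⟩⟩
  rw [e' ε]
  ext <;> simp <;> ring

/-- points of a final core edge -/
private theorem g2_pts (hC : Cor Λ q A B) (hG : GOk g) {κ κ' : CV} {a a' : ℕ}
    (h : CEs Λ κ a κ' a') : ∀ᶠ ε in 𝓝[>] (0 : ℝ),
      ∀ z ∈ segment ℝ (place Λ q A B g ε (κ, Λ.en κ a)) (place Λ q A B g ε (κ', Λ.en κ' a')),
        z ∈ segment ℝ (q κ) (q κ') ∧ (Λ.isHub κ = true →
          ∃ s : ℝ, 0 ≤ s ∧ z = q κ + ε • lin (A κ) (B κ) (g (pt a) + s • ax a)) := by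
  obtain ⟨τ, τ', hτ, hτ', hp, e⟩ := g2_par (g := g) hC hG h
  have h1 : ∀ᶠ ε in 𝓝 (0 : ℝ), ε * τ + ε * τ' < 1 := by
    have : Continuous fun ε : ℝ => ε * τ + ε * τ' := by fun_prop
    refine this.continuousAt.eventually (gt_mem_nhds ?_)
    simp
  filter_upwards [nhdsWithin_le_nhds h1, self_mem_nhdsWithin] with ε hε (hε0 : 0 < ε)
  intro z hz
  rw [(e ε).1, (e ε).2] at hz
  have hετ : 0 ≤ ε * τ := by positivity
  have hετ' : 0 ≤ ε * τ' := by positivity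
  have hz' : ∃ s : ℝ, ε * τ ≤ s ∧ s ≤ 1 ∧ z = q κ + s • (q κ' - q κ) := by
    obtain ⟨t, t0, t1, rfl⟩ := g2_seg.1 hz
    refine ⟨ε * τ + t * (1 - ε * τ' - ε * τ), ?_, ?_, ?_⟩
    · nlinarith
    · nlinarith
    · ext <;> simp <;> ring
  obtain ⟨s, hs, hs1, rfl⟩ := hz'
  refine ⟨g2_seg.2 ⟨s, by linarith, hs1, rfl⟩, fun hk => ?_⟩
  obtain ⟨-, σ, s₀, hσ, hs₀, e1, e2, e3⟩ := g2_hub_par (g := g) hC hG h hk
  have e4 := (e ε).1.symm.trans (e3 ε)
  have e5 : (ε * τ * σ - ε * s₀) • lin (A κ) (B κ) (ax a) = 0 := by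
    have : (ε * τ) • (q κ' - q κ) = (ε * (s₀ / σ)) • (q κ' - q κ) := by simpa using e4
    rw [e1, smul_smul, smul_smul] at this
    rw [sub_smul, this, sub_eq_zero]
    congr 1
    field_simp
  have hne : lin (A κ) (B κ) (ax a) ≠ 0 := by
    intro h0
    have hax : ax a = 0 := g2_inj _ _ (hC.det κ hk) (by rw [h0]; ext <;> simp [lin])
    unfold ax at hax
    split_ifs at hax <;> simp [Prod.ext_iff] at hax
  have e6 : ε * τ * σ = ε * s₀ := by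
    rcases smul_eq_zero.1 e5 with h | h
    · linarith
    · exact absurd h hne
  refine ⟨s * σ / ε - s₀, ?_, ?_⟩
  · have : ε * s₀ ≤ s * σ := by nlinarith
    rw [sub_nonneg, le_div_iff₀ hε0]
    linarith
  · rw [e1, e2, ← add_smul, g2_smul, smul_smul, smul_smul]
    congr 2
    field_simp
    ring

/-- the two kinds of edges -/
private theorem g2_kinds {a b : CV × ℕ} (h : FE Λ a b) :
    (∃ κ x y, Λ.isHub κ = true ∧ (x, y) ∈ gE ++ lE ∧ a = (κ, x) ∧ b = (κ, y)) ∨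
    ∃ κ κ' p p', CE Λ κ p κ' p' ∧ a = (κ, Λ.en κ p) ∧ b = (κ', Λ.en κ' p') := by
  cases h with
  | g κ x y h hxy => exact Or.inl ⟨κ, x, y, h, List.mem_append_left _ hxy, rfl, rfl⟩
  | l κ j h hj hu =>
    refine Or.inl ⟨κ, pt j, lf j, h, List.mem_append_right _ ?_, rfl, rfl⟩
    interval_cases j <;> simp [lE]
  | c κ κ' p p' h => exact Or.inr ⟨κ, κ', p, p', h, rfl, rfl⟩

private theorem g2_hub_val {κ : CV} (h : Λ.isHub κ = true) : Λ.Val κ := by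
  cases κ with
  | pos r c =>
    simp only [Lay.isHub, Bool.and_eq_true, decide_eq_true_eq, isHb, Bool.not_eq_true'] at h
    exact ⟨h.1, h.2.1, h.2.2.2⟩
  | hub i j =>
    simp only [Lay.isHub, Bool.and_eq_true, decide_eq_true_eq] at h
    exact h

private theorem g2_ax {a b : ℕ} (ha : a < 4) (hb : b < 4) (hab : a ≠ b) {s t : ℝ} (hs : 0 < s)
    (ht : 0 < t) : s • ax a ≠ t • ax b := by
  intro h
  interval_cases a <;> interval_cases b <;>
    first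
      | exact hab rfl
      | (simp [ax, Prod.ext_iff] at h; linarith)

/-- gadget edges -/
private theorem g2_gg (hC : Cor Λ q A B) (hP : GPl g) {κ μ : CV} {x y z w : ℕ}
    (hκ : Λ.isHub κ = true) (hμ : Λ.isHub μ = true) (h1 : (x, y) ∈ gE ++ lE)
    (h2 : (z, w) ∈ gE ++ lE) (n1 : (κ, x) ≠ (μ, z)) (n2 : (κ, x) ≠ (μ, w))
    (n3 : (κ, y) ≠ (μ, z)) (n4 : (κ, y) ≠ (μ, w)) : ∀ᶠ ε in 𝓝[>] (0 : ℝ),
      Disjoint (segment ℝ (place Λ q A B g ε (κ, x)) (place Λ q A B g ε (κ, y)))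
        (segment ℝ (place Λ q A B g ε (μ, z)) (place Λ q A B g ε (μ, w))) := by
  by_cases hkm : κ = μ
  · subst hkm
    filter_upwards [self_mem_nhdsWithin] with ε (hε : 0 < ε)
    rw [Set.disjoint_left]
    intro p hp1 hp2
    have hh : ∀ x y, p ∈ segment ℝ (place Λ q A B g ε (κ, x)) (place Λ q A B g ε (κ, y)) →
        ∃ v ∈ segment ℝ (g x) (g y), p = q κ + ε • lin (A κ) (B κ) v := by
      intro x y hp
      rw [g2_place_hub hκ, g2_place_hub hκ] at hp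
      obtain ⟨s, s0, s1, rfl⟩ := g2_seg.1 hp
      refine ⟨g x + s • (g y - g x), g2_seg.2 ⟨s, s0, s1, rfl⟩, ?_⟩
      simp only [lin]
      ext <;> simp <;> ring
    obtain ⟨v1, hv1, e1⟩ := hh x y hp1
    obtain ⟨v2, hv2, e2⟩ := hh z w hp2
    have e3 : v1 = v2 := by
      refine g2_inj _ _ (hC.det κ hκ) ?_
      have := e1.symm.trans e2
      have := add_left_cancel this
      exact smul_right_injective _ hε.ne' this
    subst e3
    refine Set.disjoint_left.1 (hP.cross (x, y) h1 (z, w) h2 ?_ ?_ ?_ ?_) hv1 hv2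
    · exact fun h => n1 (congrArg (Prod.mk κ) h)
    · exact fun h => n2 (congrArg (Prod.mk κ) h)
    · exact fun h => n3 (congrArg (Prod.mk κ) h)
    · exact fun h => n4 (congrArg (Prod.mk κ) h)
  · refine nhdsWithin_le_nhds (g2_open _ _ _ _ (g2_place_cont _) (g2_place_cont _)
      (g2_place_cont _) (g2_place_cont _) ?_)
    simp only [g2_place_zero, segment_same]
    rw [Set.disjoint_singleton]
    exact fun h => hkm (hC.inj κ μ (g2_hub_val hκ) (g2_hub_val hμ) h)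

/-- a gadget edge and a core edge with an end at the same vertex -/
private theorem g2_gc' (hC : Cor Λ q A B) (hG : GOk g) (hP : GPl g) {μ κ' : CV} {x y a a' : ℕ}
    (hμ : Λ.isHub μ = true) (h1 : (x, y) ∈ gE ++ lE) (h2 : CEs Λ μ a κ' a')
    (n1 : (μ, x) ≠ (μ, Λ.en μ a)) (n2 : (μ, y) ≠ (μ, Λ.en μ a)) : ∀ᶠ ε in 𝓝[>] (0 : ℝ),
      Disjoint (segment ℝ (place Λ q A B g ε (μ, x)) (place Λ q A B g ε (μ, y)))
        (segment ℝ (place Λ q A B g ε (μ, Λ.en μ a)) (place Λ q A B g ε (κ', Λ.en κ' a'))) := by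
  filter_upwards [g2_pts (g := g) hC hG h2, self_mem_nhdsWithin] with ε hp (hε : 0 < ε)
  rw [Set.disjoint_left]
  intro p hp1 hp2
  obtain ⟨s, hs, e2⟩ := (hp p hp2).2 hμ
  rw [g2_place_hub hμ, g2_place_hub hμ] at hp1
  obtain ⟨t, t0, t1, e1⟩ := g2_seg.1 hp1
  have e3 : g x + t • (g y - g x) = g (pt a) + s • ax a := by
    refine g2_inj _ _ (hC.det μ hμ) ?_
    refine smul_right_injective _ hε.ne' ?_
    refine add_left_cancel (a := q μ) ?_
    show q μ + ε • lin (A μ) (B μ) (g x + t • (g y - g x)) =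
      q μ + ε • lin (A μ) (B μ) (g (pt a) + s • ax a)
    rw [← e2, e1]
    simp only [lin]
    ext <;> simp <;> ring
  have h4 : a < 4 := (g2_hub_par (g := g) hC hG h2 hμ).1
  have hen : Λ.en μ a = pt a := by simp [Lay.en, hμ]
  refine hP.rayE a h4 (x, y) h1 ?_ ?_ s hs ?_
  · exact fun h => n1 (by rw [hen]; exact congrArg (Prod.mk μ) h)
  · exact fun h => n2 (by rw [hen]; exact congrArg (Prod.mk μ) h)
  · rw [← e3]
    exact g2_seg.2 ⟨t, t0, t1, rfl⟩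

/-- a gadget edge and a core edge -/
private theorem g2_gc (hC : Cor Λ q A B) (hG : GOk g) (hP : GPl g) {μ κ κ' : CV}
    {x y a a' : ℕ} (hμ : Λ.isHub μ = true) (h1 : (x, y) ∈ gE ++ lE) (h2 : CE Λ κ a κ' a')
    (n1 : (μ, x) ≠ (κ, Λ.en κ a)) (n2 : (μ, x) ≠ (κ', Λ.en κ' a'))
    (n3 : (μ, y) ≠ (κ, Λ.en κ a)) (n4 : (μ, y) ≠ (κ', Λ.en κ' a')) : ∀ᶠ ε in 𝓝[>] (0 : ℝ),
      Disjoint (segment ℝ (place Λ q A B g ε (μ, x)) (place Λ q A B g ε (μ, y)))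
        (segment ℝ (place Λ q A B g ε (κ, Λ.en κ a)) (place Λ q A B g ε (κ', Λ.en κ' a'))) := by
  by_cases e1 : μ = κ
  · subst e1
    exact g2_gc' hC hG hP hμ h1 (Or.inl h2) n1 n3
  by_cases e2 : μ = κ'
  · subst e2
    have := g2_gc' hC hG hP hμ h1 (Or.inr h2) n2 n4
    simpa only [segment_symm ℝ (place Λ q A B g _ (κ, _))] using this
  refine nhdsWithin_le_nhds (g2_open _ _ _ _ (g2_place_cont _) (g2_place_cont _)
      (g2_place_cont _) (g2_place_cont _) ?_)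
  simp only [g2_place_zero, segment_same]
  rw [Set.disjoint_singleton_left]
  exact hC.seg κ a κ' a' μ h2 (g2_hub_val hμ) e1 e2

/-- core edges with a common vertex -/
private theorem g2_cc' (hC : Cor Λ q A B) (hG : GOk g) {κ κ' μ' : CV} {a a' b b' : ℕ}
    (h1 : CEs Λ κ a κ' a') (h2 : CEs Λ κ b μ' b') (n : (κ, Λ.en κ a) ≠ (κ, Λ.en κ b)) :
    ∀ᶠ ε in 𝓝[>] (0 : ℝ),
      Disjoint (segment ℝ (place Λ q A B g ε (κ, Λ.en κ a)) (place Λ q A B g ε (κ', Λ.en κ' a')))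
        (segment ℝ (place Λ q A B g ε (κ, Λ.en κ b)) (place Λ q A B g ε (μ', Λ.en μ' b'))) := by
  have hk : Λ.isHub κ = true := by
    by_contra hk
    exact n (by simp [Lay.en, hk])
  have hab : a ≠ b := fun h => n (by rw [h])
  filter_upwards [g2_pts (g := g) hC hG h1, g2_pts (g := g) hC hG h2, self_mem_nhdsWithin]
    with ε hp1 hp2 (hε : 0 < ε)
  rw [Set.disjoint_left]
  intro p hq1 hq2
  obtain ⟨s, hs, e1⟩ := (hp1 p hq1).2 hk
  obtain ⟨t, ht, e2⟩ := (hp2 p hq2).2 hk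
  obtain ⟨ha4, -, s₀, -, hs₀, -, ea, -⟩ := g2_hub_par (g := g) hC hG h1 hk
  obtain ⟨hb4, -, t₀, -, ht₀, -, eb, -⟩ := g2_hub_par (g := g) hC hG h2 hk
  have e3 : g (pt a) + s • ax a = g (pt b) + t • ax b := by
    refine g2_inj _ _ (hC.det κ hk) ?_
    refine smul_right_injective _ hε.ne' ?_
    refine add_left_cancel (a := q κ) ?_
    show q κ + ε • lin (A κ) (B κ) (g (pt a) + s • ax a) =
      q κ + ε • lin (A κ) (B κ) (g (pt b) + t • ax b)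
    rw [← e1, ← e2]
  rw [ea, eb, ← add_smul, ← add_smul] at e3
  exact g2_ax ha4 hb4 hab (by positivity) (by positivity) e3

/-- core edges -/
private theorem g2_cc (hC : Cor Λ q A B) (hX : CCross Λ q) (hG : GOk g) {κ κ' μ μ' : CV}
    {a a' b b' : ℕ} (h1 : CE Λ κ a κ' a') (h2 : CE Λ μ b μ' b')
    (n1 : (κ, Λ.en κ a) ≠ (μ, Λ.en μ b)) (n2 : (κ, Λ.en κ a) ≠ (μ', Λ.en μ' b'))
    (n3 : (κ', Λ.en κ' a') ≠ (μ, Λ.en μ b)) (n4 : (κ', Λ.en κ' a') ≠ (μ', Λ.en μ' b')) :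
    ∀ᶠ ε in 𝓝[>] (0 : ℝ),
      Disjoint (segment ℝ (place Λ q A B g ε (κ, Λ.en κ a)) (place Λ q A B g ε (κ', Λ.en κ' a')))
        (segment ℝ (place Λ q A B g ε (μ, Λ.en μ b)) (place Λ q A B g ε (μ', Λ.en μ' b'))) := by
  by_cases c1 : κ = μ
  · subst c1
    exact g2_cc' hC hG (Or.inl h1) (Or.inl h2) n1
  by_cases c2 : κ = μ'
  · subst c2
    have := g2_cc' (g := g) hC hG (Or.inl h1) (Or.inr h2) n2
    simpa only [segment_symm ℝ (place Λ q A B g _ (μ, _))] using this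
  by_cases c3 : κ' = μ
  · subst c3
    have := g2_cc' (g := g) hC hG (Or.inr h1) (Or.inl h2) n3
    simpa only [segment_symm ℝ (place Λ q A B g _ (κ, _))] using this
  by_cases c4 : κ' = μ'
  · subst c4
    have := g2_cc' (g := g) hC hG (Or.inr h1) (Or.inr h2) n4
    simpa only [segment_symm ℝ (place Λ q A B g _ (κ, _)),
      segment_symm ℝ (place Λ q A B g _ (μ, _))] using this
  filter_upwards [g2_pts (g := g) hC hG (Or.inl h1), g2_pts (g := g) hC hG (Or.inl h2)]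
    with ε hp1 hp2
  exact (hX κ a κ' a' μ b μ' b' h1 h2 c1 c2 c3 c4).mono (fun z hz => (hp1 z hz).1)
    fun z hz => (hp2 z hz).1

/-- any two edges -/
private theorem g2_any (hC : Cor Λ q A B) (hX : CCross Λ q) (hG : GOk g) (hP : GPl g)
    {a b c d : CV × ℕ} (h1 : FE Λ a b) (h2 : FE Λ c d) (n1 : a ≠ c) (n2 : a ≠ d) (n3 : b ≠ c)
    (n4 : b ≠ d) : ∀ᶠ ε in 𝓝[>] (0 : ℝ),
      Disjoint (segment ℝ (place Λ q A B g ε a) (place Λ q A B g ε b))
        (segment ℝ (place Λ q A B g ε c) (place Λ q A B g ε d)) := by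
  rcases g2_kinds h1 with ⟨κ, x, y, hκ, hxy, rfl, rfl⟩ | ⟨κ, κ', p, p', h, rfl, rfl⟩
  · rcases g2_kinds h2 with ⟨μ, z, w, hμ, hzw, rfl, rfl⟩ | ⟨μ, μ', r, r', h', rfl, rfl⟩
    · exact g2_gg hC hP hκ hμ hxy hzw n1 n2 n3 n4
    · exact g2_gc hC hG hP hκ hxy h' n1 n2 n3 n4
  · rcases g2_kinds h2 with ⟨μ, z, w, hμ, hzw, rfl, rfl⟩ | ⟨μ, μ', r, r', h', rfl, rfl⟩
    · filter_upwards [g2_gc (q := q) (A := A) (B := B) hC hG hP hμ hzw h n1.symm n3.symm n2.symm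
        n4.symm] with ε hε
      exact hε.symm
    · exact g2_cc hC hX hG h h' n1 n2 n3 n4

private theorem g2_gE : ∀ e ∈ gE ++ lE, e.1 < 200 ∧ e.2 < 200 := by decide +kernel

/-- a finite set containing all the ends of edges -/
private def vset (Λ : Lay) : Set CV :=
  (fun p : ℕ × ℕ => CV.pos p.1 p.2) '' (Iio (6 * Λ.nb + 2) ×ˢ Iio (6 * Λ.ng + 2)) ∪
    (fun p : ℕ × ℕ => CV.hub p.1 p.2) '' (Iio Λ.nb ×ˢ Iio Λ.ng)

private theorem g2_vfin : (vset Λ).Finite :=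
  (((finite_Iio _).prod (finite_Iio _)).image _).union
    (((finite_Iio _).prod (finite_Iio _)).image _)

private theorem g2_vpos {r c : ℕ} (hr : r < 6 * Λ.nb + 2) (hc : c < 6 * Λ.ng + 2) :
    CV.pos r c ∈ vset Λ := Or.inl ⟨(r, c), ⟨hr, hc⟩, rfl⟩

private theorem g2_vhub {i j : ℕ} (hi : i < Λ.nb) (hj : j < Λ.ng) :
    CV.hub i j ∈ vset Λ := Or.inr ⟨(i, j), ⟨hi, hj⟩, rfl⟩

private theorem g2_small (t : ℕ) : hr0 t ≤ 5 ∧ hrC t ≤ 5 ∧ hr1 t ≤ 5 ∧ hc0 t ≤ 5 ∧ hcB t ≤ 5 ∧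
    hc1 t ≤ 5 := by
  unfold hr0 hrC hr1 hc0 hcB hc1
  refine ⟨?_, ?_, ?_, ?_, ?_, ?_⟩ <;> split_ifs <;> omega

private theorem g2_ce {κ κ' : CV} {a a' : ℕ} (h : CE Λ κ a κ' a') :
    (κ ∈ vset Λ ∧ a < 5) ∧ κ' ∈ vset Λ ∧ a' < 5 := by
  cases h with
  | h r c hr hc ha => exact ⟨⟨g2_vpos (by omega) (by omega), by omega⟩,
      g2_vpos (by omega) (by omega), by omega⟩
  | v r c hr hc ha => exact ⟨⟨g2_vpos (by omega) (by omega), by omega⟩,
      g2_vpos (by omega) (by omega), by omega⟩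
  | d0 i j hi hj ht =>
    obtain ⟨s1, s2, s3, s4, s5, s6⟩ := g2_small (Λ.T i j)
    exact ⟨⟨g2_vhub hi hj, by omega⟩, g2_vpos (by omega) (by omega), by omega⟩
  | d1 i j hi hj ht =>
    obtain ⟨s1, s2, s3, s4, s5, s6⟩ := g2_small (Λ.T i j)
    exact ⟨⟨g2_vhub hi hj, by omega⟩, g2_vpos (by omega) (by omega), by omega⟩
  | d2 i j hi hj ht =>
    obtain ⟨s1, s2, s3, s4, s5, s6⟩ := g2_small (Λ.T i j)
    exact ⟨⟨g2_vhub hi hj, by omega⟩, g2_vpos (by omega) (by omega), by omega⟩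
  | d3 i j hi hj ht =>
    obtain ⟨s1, s2, s3, s4, s5, s6⟩ := g2_small (Λ.T i j)
    exact ⟨⟨g2_vhub hi hj, by omega⟩, g2_vpos (by omega) (by omega), by omega⟩

private theorem g2_hubv {κ : CV} (h : Λ.isHub κ = true) : κ ∈ vset Λ := by
  have := g2_hub_val h
  cases κ with
  | pos r c => exact g2_vpos (by have := this.1; omega) (by have := this.2.1; omega)
  | hub i j => exact g2_vhub this.1 this.2.1

private theorem g2_en {κ : CV} {a : ℕ} (ha : a < 5) : Λ.en κ a < 200 := by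
  unfold Lay.en pt bs
  split_ifs <;> omega

private theorem g2_fin : {e : (CV × ℕ) × (CV × ℕ) | FE Λ e.1 e.2}.Finite := by
  refine (((g2_vfin (Λ := Λ)).prod (finite_Iio 200)).prod
    ((g2_vfin (Λ := Λ)).prod (finite_Iio 200))).subset ?_
  rintro ⟨a, b⟩ (h : FE Λ a b)
  rcases g2_kinds h with ⟨κ, x, y, hκ, hxy, rfl, rfl⟩ | ⟨κ, κ', p, p', hc, rfl, rfl⟩
  · have := g2_gE _ hxy
    exact ⟨⟨g2_hubv hκ, this.1⟩, ⟨g2_hubv hκ, this.2⟩⟩
  · obtain ⟨⟨h1, h2⟩, h3, h4⟩ := g2_ce hc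
    exact ⟨⟨h1, g2_en h2⟩, ⟨h3, g2_en h4⟩⟩

theorem glue2_ok : St_glue2 := by
  intro Λ q A B g _ hC hX hG hP
  have key : ∀ᶠ ε in 𝓝[>] (0 : ℝ), ∀ e ∈ {e : (CV × ℕ) × (CV × ℕ) | FE Λ e.1 e.2},
      ∀ e' ∈ {e : (CV × ℕ) × (CV × ℕ) | FE Λ e.1 e.2},
      e.1 ≠ e'.1 → e.1 ≠ e'.2 → e.2 ≠ e'.1 → e.2 ≠ e'.2 →
      Disjoint (segment ℝ (place Λ q A B g ε e.1) (place Λ q A B g ε e.2))
        (segment ℝ (place Λ q A B g ε e'.1) (place Λ q A B g ε e'.2)) := by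
    rw [eventually_all_finite g2_fin]
    intro e he
    rw [eventually_all_finite g2_fin]
    intro e' he'
    by_cases hn : e.1 ≠ e'.1 ∧ e.1 ≠ e'.2 ∧ e.2 ≠ e'.1 ∧ e.2 ≠ e'.2
    · filter_upwards [g2_any hC hX hG hP he he' hn.1 hn.2.1 hn.2.2.1 hn.2.2.2] with ε hε
      exact fun _ _ _ _ => hε
    · exact Eventually.of_forall fun ε h1 h2 h3 h4 => absurd ⟨h1, h2, h3, h4⟩ hn
  obtain ⟨u, hu, hsub⟩ := mem_nhdsGT_iff_exists_Ioo_subset.1 key
  refine ⟨u, hu, fun ε hε hεu a b c d hab hcd n1 n2 n3 n4 => ?_⟩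
  have H := hsub ⟨hε, hεu⟩
  rcases hab with hab | hab
  · rcases hcd with hcd | hcd
    · exact H (a, b) hab (c, d) hcd n1 n2 n3 n4
    · have := H (a, b) hab (d, c) hcd n2 n1 n4 n3
      rwa [segment_symm ℝ (place Λ q A B g ε (d, c).1)] at this
  · rcases hcd with hcd | hcd
    · have := H (b, a) hab (c, d) hcd n3 n4 n1 n2
      rwa [segment_symm ℝ (place Λ q A B g ε (b, a).1)] at this
    · have := H (b, a) hab (d, c) hcd n4 n3 n2 n1
      rwa [segment_symm ℝ (place Λ q A B g ε (d, c).1),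
        segment_symm ℝ (place Λ q A B g ε (b, a).1)] at this

end Pool.Agent.H670R3
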