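import Pool.Agent.H670R3.Stm

/-!
Task G3: angles after gluing small copies of the gadget.
-/

set_option autoImplicit false

namespace Pool.Agent.H670R3

open Pool.Agent.NPC Pool.Agent.H670R2 Pool.Agent.H670R2.Sl

namespace G3

/-! ### angles -/

theorem ang_symm {a b : ℝ × ℝ} (h : Ang a b) : Ang b a := by
  have e : dt b a = dt a b := by simp only [dt]; ring
  rcases h with h | h
  · left; rw [e]; exact h
  · right; rw [e]; linarith

theorem ang_smul {a b : ℝ × ℝ} (h : Ang a b) {s t : ℝ} (hs : 0 < s) (ht : 0 < t) :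
    Ang (s • a) (t • b) := by
  have e1 : dt (s • a) (t • b) = (s * t) * dt a b := by
    simp only [dt, Prod.smul_fst, Prod.smul_snd, smul_eq_mul]; ring
  have e2 : dt (s • a) (s • a) = s ^ 2 * dt a a := by
    simp only [dt, Prod.smul_fst, Prod.smul_snd, smul_eq_mul]; ring
  have e3 : dt (t • b) (t • b) = t ^ 2 * dt b b := by
    simp only [dt, Prod.smul_fst, Prod.smul_snd, smul_eq_mul]; ring
  have hst : 0 < s * t := mul_pos hs ht
  rcases h with h | h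
  · left
    rw [e1]
    exact mul_nonpos_of_nonneg_of_nonpos hst.le h
  · right
    rw [e1, e2, e3]
    have h2 : 0 < (s * t) ^ 2 := by positivity
    have h3 := mul_le_mul_of_nonneg_left h h2.le
    nlinarith

theorem dt_lin (A u v : ℝ × ℝ) : dt (lin A (√3 • J A) u) (lin A (√3 • J A) v) =
    dt A A * dt (st3 u) (st3 v) := by
  simp only [dt, lin, J, st3, Prod.smul_fst, Prod.smul_snd, Prod.fst_add, Prod.snd_add,
    smul_eq_mul]
  ring

theorem dt_self_nonneg (A : ℝ × ℝ) : 0 ≤ dt A A := by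
  simp only [dt]
  nlinarith [mul_self_nonneg A.1, mul_self_nonneg A.2]

theorem ang_lin {A B u v : ℝ × ℝ} (hB : B = √3 • J A) (h : Ang (st3 u) (st3 v)) :
    Ang (lin A B u) (lin A B v) := by
  subst hB
  have hA := dt_self_nonneg A
  rcases h with h | h
  · left
    rw [dt_lin]
    exact mul_nonpos_of_nonneg_of_nonpos hA h
  · right
    rw [dt_lin, dt_lin, dt_lin]
    have h2 : 0 ≤ dt A A ^ 2 := by positivity
    have h3 := mul_le_mul_of_nonneg_left h h2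
    nlinarith

theorem lin_sub (A B u v : ℝ × ℝ) : lin A B u - lin A B v = lin A B (u - v) := by
  apply Prod.ext
  · simp only [lin, Prod.fst_sub, Prod.snd_sub, Prod.fst_add, Prod.smul_fst, smul_eq_mul]
    ring
  · simp only [lin, Prod.fst_sub, Prod.snd_sub, Prod.snd_add, Prod.smul_snd, smul_eq_mul]
    ring

theorem lin_smul (A B u : ℝ × ℝ) (s : ℝ) : lin A B (s • u) = s • lin A B u := by
  simp only [lin, Prod.smul_fst, Prod.smul_snd, smul_eq_mul, smul_add, smul_smul]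

/-! ### facts on the core graph -/

variable {Λ : Lay} {q A B : CV → ℝ × ℝ} {g : ℕ → ℝ × ℝ}

/-- symmetric core edges -/
def CEs (Λ : Lay) (κ : CV) (i : ℕ) (κ' : CV) (i' : ℕ) : Prop := CE Λ κ i κ' i' ∨ CE Λ κ' i' κ i

theorem CEs.symm {κ κ' : CV} {i i' : ℕ} (h : CEs Λ κ i κ' i') : CEs Λ κ' i' κ i := Or.symm h

theorem CEs.adj {κ κ' : CV} {i i' : ℕ} (h : CEs Λ κ i κ' i') : CAdj Λ κ i κ' := ⟨i', h⟩

theorem ce_ne {κ κ' : CV} {i i' : ℕ} (h : CE Λ κ i κ' i') : κ ≠ κ' := by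
  cases h <;> simp

theorem CEs.ne {κ κ' : CV} {i i' : ℕ} (h : CEs Λ κ i κ' i') : κ ≠ κ' := by
  rcases h with h | h
  · exact ce_ne h
  · exact (ce_ne h).symm

theorem hole_bounds (t : ℕ) : hr0 t < 6 ∧ hrC t < 6 ∧ hr1 t < 6 ∧ hc0 t < 6 ∧ hcB t < 6 ∧
    hc1 t < 6 := by
  unfold hr0 hrC hr1 hc0 hcB hc1
  refine ⟨?_, ?_, ?_, ?_, ?_, ?_⟩ <;> split_ifs <;> norm_num

theorem ty_block (i j ρ γ : ℕ) (hρ : ρ < 6) (hγ : γ < 6) :
    Λ.ty (6 * i + ρ) (6 * j + γ) = Λ.T i j := by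
  unfold Lay.ty
  have h1 : (6 * i + ρ) / 6 = i := by omega
  have h2 : (6 * j + γ) / 6 = j := by omega
  rw [h1, h2]

theorem ce_val {κ κ' : CV} {i i' : ℕ} (h : CE Λ κ i κ' i') : Λ.Val κ ∧ Λ.Val κ' := by
  cases h with
  | h r c hr hc ha =>
    simp only [hAbs, decide_eq_false_iff_not, not_and] at ha
    refine ⟨⟨hr, hc.le, ?_⟩, ⟨hr, hc, ?_⟩⟩
    · simp only [isIn, decide_eq_false_iff_not, not_and]
      intro h1 h2 h3 h4 h5
      exact ha h1 h2 h3 h4.le h5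
    · simp only [isIn, decide_eq_false_iff_not, not_and]
      intro h1 h2 h3 h4 h5
      by_cases h6 : (c + 1) % 6 = 0
      · omega
      · have h7 : (c + 1) / 6 = c / 6 := by omega
        have h8 : Λ.ty r (c + 1) = Λ.ty r c := by unfold Lay.ty; rw [h7]
        rw [h8] at h1 h2 h3 h4 h5
        exact ha h1 h2 h3 (by omega) (by omega)
  | v r c hr hc ha =>
    simp only [vAbs, decide_eq_false_iff_not, not_and] at ha
    refine ⟨⟨hr.le, hc, ?_⟩, ⟨hr, hc, ?_⟩⟩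
    · simp only [isIn, decide_eq_false_iff_not, not_and]
      intro h1 h2 h3 h4 h5
      exact ha h1 h4 h5 h2.le h3
    · simp only [isIn, decide_eq_false_iff_not, not_and]
      intro h1 h2 h3 h4 h5
      by_cases h6 : (r + 1) % 6 = 0
      · omega
      · have h7 : (r + 1) / 6 = r / 6 := by omega
        have h8 : Λ.ty (r + 1) c = Λ.ty r c := by unfold Lay.ty; rw [h7]
        rw [h8] at h1 h2 h3 h4 h5
        exact ha h1 h4 h5 (by omega) (by omega)
  | d0 i j hi hj ht =>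
    obtain ⟨b1, b2, b3, b4, b5, b6⟩ := hole_bounds (Λ.T i j)
    refine ⟨⟨hi, hj, ht⟩, ⟨by omega, by omega, ?_⟩⟩
    rw [ty_block i j _ _ b2 b6]
    simp only [isIn, decide_eq_false_iff_not, not_and]
    omega
  | d1 i j hi hj ht =>
    obtain ⟨b1, b2, b3, b4, b5, b6⟩ := hole_bounds (Λ.T i j)
    refine ⟨⟨hi, hj, ht⟩, ⟨by omega, by omega, ?_⟩⟩
    rw [ty_block i j _ _ b3 b4]
    simp only [isIn, decide_eq_false_iff_not, not_and]
    omega
  | d2 i j hi hj ht =>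
    obtain ⟨b1, b2, b3, b4, b5, b6⟩ := hole_bounds (Λ.T i j)
    refine ⟨⟨hi, hj, ht⟩, ⟨by omega, by omega, ?_⟩⟩
    rw [ty_block i j _ _ b1 b4]
    simp only [isIn, decide_eq_false_iff_not, not_and]
    omega
  | d3 i j hi hj ht =>
    obtain ⟨b1, b2, b3, b4, b5, b6⟩ := hole_bounds (Λ.T i j)
    refine ⟨⟨hi, hj, ht⟩, ⟨by omega, by omega, ?_⟩⟩
    rw [ty_block i j _ _ b1 b5]
    simp only [isIn, decide_eq_false_iff_not, not_and]
    omega

theorem CEs.val {κ κ' : CV} {i i' : ℕ} (h : CEs Λ κ i κ' i') : Λ.Val κ ∧ Λ.Val κ' := by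
  rcases h with h | h
  · exact ce_val h
  · exact (ce_val h).symm

/-- the core has finitely many edges -/
theorem ce_finite (Λ : Lay) :
    {e : CV × ℕ × CV × ℕ | CE Λ e.1 e.2.1 e.2.2.1 e.2.2.2}.Finite := by
  classical
  have hb : ∀ n m : ℕ, (((Finset.range n) ×ˢ (Finset.range m) : Finset (ℕ × ℕ)) :
      Set (ℕ × ℕ)).Finite := fun n m => Finset.finite_toSet _
  have hbig := (((((((hb (6 * Λ.nb + 1) (6 * Λ.ng + 1)).image
    (fun p => ((CV.pos p.1 p.2, 0, CV.pos p.1 (p.2 + 1), 2) : CV × ℕ × CV × ℕ))).union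
    ((hb (6 * Λ.nb + 1) (6 * Λ.ng + 1)).image
    (fun p => ((CV.pos p.1 p.2, 1, CV.pos (p.1 + 1) p.2, 3) : CV × ℕ × CV × ℕ)))).union
    ((hb Λ.nb Λ.ng).image (fun p => ((CV.hub p.1 p.2, 0,
      CV.pos (6 * p.1 + hrC (Λ.T p.1 p.2)) (6 * p.2 + hc1 (Λ.T p.1 p.2)), 4) :
        CV × ℕ × CV × ℕ)))).union
    ((hb Λ.nb Λ.ng).image (fun p => ((CV.hub p.1 p.2, 1,
      CV.pos (6 * p.1 + hr1 (Λ.T p.1 p.2)) (6 * p.2 + hc0 (Λ.T p.1 p.2)), 4) :
        CV × ℕ × CV × ℕ)))).union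
    ((hb Λ.nb Λ.ng).image (fun p => ((CV.hub p.1 p.2, 2,
      CV.pos (6 * p.1 + hr0 (Λ.T p.1 p.2)) (6 * p.2 + hc0 (Λ.T p.1 p.2)), 4) :
        CV × ℕ × CV × ℕ)))).union
    ((hb Λ.nb Λ.ng).image (fun p => ((CV.hub p.1 p.2, 3,
      CV.pos (6 * p.1 + hr0 (Λ.T p.1 p.2)) (6 * p.2 + hcB (Λ.T p.1 p.2)), 4) :
        CV × ℕ × CV × ℕ))))
  refine hbig.subset ?_
  rintro ⟨κ, i, κ', i'⟩ he
  simp only [Set.mem_ofPred_eq] at he
  simp only [Set.mem_union, Set.mem_image, Finset.coe_product, Finset.coe_range, Set.mem_prod,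
    Set.mem_Iio]
  cases he with
  | h r c hr hc ha =>
    exact Or.inl (Or.inl (Or.inl (Or.inl (Or.inl ⟨(r, c), ⟨by simp; omega, by simp; omega⟩, rfl⟩))))
  | v r c hr hc ha =>
    exact Or.inl (Or.inl (Or.inl (Or.inl (Or.inr ⟨(r, c), ⟨by simp; omega, by simp; omega⟩, rfl⟩))))
  | d0 i j hi hj ht =>
    exact Or.inl (Or.inl (Or.inl (Or.inr ⟨(i, j), ⟨hi, hj⟩, rfl⟩)))
  | d1 i j hi hj ht => exact Or.inl (Or.inl (Or.inr ⟨(i, j), ⟨hi, hj⟩, rfl⟩))
  | d2 i j hi hj ht => exact Or.inl (Or.inr ⟨(i, j), ⟨hi, hj⟩, rfl⟩)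
  | d3 i j hi hj ht => exact Or.inr ⟨(i, j), ⟨hi, hj⟩, rfl⟩

/-! ### vectors along core edges -/

/-- the end of a core edge is moved towards the other end -/
theorem half (hC : Cor Λ q A B) (hg : GOk g) {κ κ' : CV} {i : ℕ} (h : CAdj Λ κ i κ') :
    ∃ t : ℝ, 0 ≤ t ∧ ∀ ε : ℝ, place Λ q A B g ε (κ, Λ.en κ i) = q κ + (ε * t) • (q κ' - q κ) := by
  by_cases hh : Λ.isHub κ = true
  · obtain ⟨hi, r, hr, hq⟩ := hC.dir κ i κ' hh h
    obtain ⟨s, hs, hgs⟩ := hg.port i hi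
    refine ⟨s / r, by positivity, fun ε => ?_⟩
    have h1 : Λ.en κ i = pt i := by unfold Lay.en; rw [if_pos hh]
    unfold place
    rw [if_pos hh]
    simp only
    rw [h1, hgs, lin_smul, hq, smul_smul, smul_smul]
    congr 2
    field_simp
  · refine ⟨0, le_rfl, fun ε => ?_⟩
    unfold place
    rw [if_neg hh]
    simp

theorem vec (hC : Cor Λ q A B) (hg : GOk g) {κ κ' : CV} {i i' : ℕ} (h : CEs Λ κ i κ' i') :
    ∃ t : ℝ, 0 ≤ t ∧ ∀ ε : ℝ, place Λ q A B g ε (κ', Λ.en κ' i') -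
      place Λ q A B g ε (κ, Λ.en κ i) = (1 - ε * t) • (q κ' - q κ) := by
  obtain ⟨t, ht, h1⟩ := half (q := q) (A := A) (B := B) (g := g) hC hg h.adj
  obtain ⟨t', ht', h2⟩ := half (q := q) (A := A) (B := B) (g := g) hC hg h.symm.adj
  refine ⟨t + t', by positivity, fun ε => ?_⟩
  rw [h1, h2]
  apply Prod.ext
  · simp only [Prod.fst_sub, Prod.fst_add, Prod.smul_fst, smul_eq_mul]
    ring
  · simp only [Prod.snd_sub, Prod.snd_add, Prod.smul_snd, smul_eq_mul]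
    ring

/-- for small `ε` the vector along a core edge is a positive multiple of the original one -/
theorem small (hC : Cor Λ q A B) (hg : GOk g) : ∃ ε₀ : ℝ, 0 < ε₀ ∧ ∀ ε, 0 < ε → ε < ε₀ →
    ∀ κ i κ' i', CEs Λ κ i κ' i' → ∃ s : ℝ, 0 < s ∧ place Λ q A B g ε (κ', Λ.en κ' i') -
      place Λ q A B g ε (κ, Λ.en κ i) = s • (q κ' - q κ) := by
  classical
  have hex : ∀ e : CV × ℕ × CV × ℕ, ∃ t : ℝ, CE Λ e.1 e.2.1 e.2.2.1 e.2.2.2 → 0 ≤ t ∧ ∀ ε : ℝ,
      place Λ q A B g ε (e.2.2.1, Λ.en e.2.2.1 e.2.2.2) -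
        place Λ q A B g ε (e.1, Λ.en e.1 e.2.1) = (1 - ε * t) • (q e.2.2.1 - q e.1) := by
    intro e
    by_cases he : CE Λ e.1 e.2.1 e.2.2.1 e.2.2.2
    · obtain ⟨t, ht⟩ := vec (q := q) (A := A) (B := B) (g := g) hC hg (Or.inl he)
      exact ⟨t, fun _ => ht⟩
    · exact ⟨0, fun h => absurd h he⟩
  choose t ht using hex
  obtain ⟨T, hT⟩ := ((ce_finite Λ).image t).bddAbove
  have hT' : ∀ e : CV × ℕ × CV × ℕ, CE Λ e.1 e.2.1 e.2.2.1 e.2.2.2 → t e ≤ |T| := by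
    intro e he
    exact (hT ⟨e, he, rfl⟩).trans (le_abs_self T)
  have hT0 : 0 ≤ |T| := abs_nonneg T
  refine ⟨1 / (|T| + 1), by positivity, fun ε hε hε1 => ?_⟩
  have key : ∀ κ i κ' i', CE Λ κ i κ' i' → ∃ s : ℝ, 0 < s ∧
      place Λ q A B g ε (κ', Λ.en κ' i') -
      place Λ q A B g ε (κ, Λ.en κ i) = s • (q κ' - q κ) := by
    intro κ i κ' i' h
    obtain ⟨h1, h2⟩ := ht (κ, i, κ', i') h
    refine ⟨1 - ε * t (κ, i, κ', i'), ?_, h2 ε⟩
    have h3 := hT' (κ, i, κ', i') h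
    rw [lt_div_iff₀ (by positivity)] at hε1
    have h4 : ε * t (κ, i, κ', i') ≤ ε * |T| := mul_le_mul_of_nonneg_left h3 hε.le
    nlinarith
  intro κ i κ' i' h
  rcases h with h | h
  · exact key κ i κ' i' h
  · obtain ⟨s, hs, h1⟩ := key κ' i' κ i h
    refine ⟨s, hs, ?_⟩
    have h2 : place Λ q A B g ε (κ', Λ.en κ' i') - place Λ q A B g ε (κ, Λ.en κ i) =
        -(place Λ q A B g ε (κ, Λ.en κ i) - place Λ q A B g ε (κ', Λ.en κ' i')) := by abel
    rw [h2, h1, ← smul_neg, neg_sub]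

/-! ### neighbours in the final graph -/

/-- the two kinds of neighbours -/
theorem nbr {a b : CV × ℕ} (h : Adj Λ a b) :
    (Λ.isHub a.1 = true ∧ b.1 = a.1 ∧ gN a.2 b.2 ∧
      ∀ j < 4, a.2 = pt j → b.2 = lf j → ∀ κ', ¬ CAdj Λ a.1 j κ') ∨
    ∃ i κ' i', CEs Λ a.1 i κ' i' ∧ a.2 = Λ.en a.1 i ∧ b = (κ', Λ.en κ' i') := by
  have hno : ∀ e ∈ gE, ∀ j < 4, e.1 ≠ lf j ∧ e.2 ≠ lf j := by decide +kernel
  rcases h with h | h
  · cases h with
    | g κ x y h hxy =>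
      left
      refine ⟨h, rfl, Or.inl (List.mem_append_left _ hxy), ?_⟩
      intro j hj _ h2
      exact absurd h2 (hno _ hxy j hj).2
    | l κ j h hj hu =>
      left
      refine ⟨h, rfl, Or.inl (List.mem_append_right _ ?_), ?_⟩
      · interval_cases j <;> simp [lE]
      · intro j' hj' h1 h2
        have : j = j' := by
          simp only [pt, bs] at h1
          omega
        subst this
        exact hu
    | c κ κ' i i' h =>
      right
      exact ⟨i, κ', i', Or.inl h, rfl, rfl⟩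
  · cases h with
    | g κ x y h hxy =>
      left
      refine ⟨h, rfl, Or.inr (List.mem_append_left _ hxy), ?_⟩
      intro j hj _ h2
      exact absurd h2 (hno _ hxy j hj).1
    | l κ j h hj hu =>
      left
      refine ⟨h, rfl, Or.inr (List.mem_append_right _ ?_), ?_⟩
      · interval_cases j <;> simp [lE]
      · intro j' hj' h1 h2
        simp only [pt, lf, bs] at h1 h2
        omega
    | c κ κ' i i' h =>
      right
      exact ⟨i', κ, i, Or.inr h, rfl, rfl⟩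

/-- the port number at the other end is determined -/
theorem port_unique (hC : Cor Λ q A B) {κ κ' : CV} {i1 i2 j1 j2 : ℕ} (h1 : CEs Λ κ i1 κ' j1)
    (h2 : CEs Λ κ i2 κ' j2) : Λ.en κ' j1 = Λ.en κ' j2 := by
  unfold Lay.en
  by_cases hh : Λ.isHub κ' = true
  · rw [if_pos hh, if_pos hh]
    obtain ⟨hj1, r, hr, hq1⟩ := hC.dir κ' j1 κ hh h1.symm.adj
    obtain ⟨hj2, r', hr', hq2⟩ := hC.dir κ' j2 κ hh h2.symm.adj
    have hdet := hC.det κ' hh
    have h3 : r • lin (A κ') (B κ') (ax j1) = r' • lin (A κ') (B κ') (ax j2) := by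
      rw [← hq1, hq2]
    rw [← lin_smul, ← lin_smul] at h3
    -- lin is injective
    have hinj : ∀ u v : ℝ × ℝ, lin (A κ') (B κ') u = lin (A κ') (B κ') v → u = v := by
      intro u v huv
      have e1 := congrArg Prod.fst huv
      have e2 := congrArg Prod.snd huv
      simp only [lin, Prod.fst_add, Prod.snd_add, Prod.smul_fst, Prod.smul_snd,
        smul_eq_mul] at e1 e2
      simp only [cr] at hdet
      have f1 : (u.1 - v.1) * ((A κ').1 * (B κ').2 - (A κ').2 * (B κ').1) = 0 := by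
        linear_combination (B κ').2 * e1 - (B κ').1 * e2
      have f2 : (u.2 - v.2) * ((A κ').1 * (B κ').2 - (A κ').2 * (B κ').1) = 0 := by
        linear_combination (A κ').1 * e2 - (A κ').2 * e1
      have g1 := (mul_eq_zero.mp f1).resolve_right hdet
      have g2 := (mul_eq_zero.mp f2).resolve_right hdet
      apply Prod.ext <;> linarith
    have h4 := hinj _ _ h3
    have e1 := congrArg Prod.fst h4
    have e2 := congrArg Prod.snd h4
    have : j1 = j2 := by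
      interval_cases j1 <;> interval_cases j2 <;> simp [ax] at e1 e2 ⊢ <;> linarith
    rw [this]
  · rw [if_neg hh, if_neg hh]

/-- at most one neighbour at a port of a hub -/
theorem nbr_unique (hC : Cor Λ q A B) {κ κ1 κ2 : CV} {i i1 i2 : ℕ} (hh : Λ.isHub κ = true)
    (h1 : CEs Λ κ i κ1 i1) (h2 : CEs Λ κ i κ2 i2) : κ1 = κ2 := by
  by_contra hne
  obtain ⟨_, r1, hr1, hq1⟩ := hC.dir κ i κ1 hh h1.adj
  obtain ⟨_, r2, hr2, hq2⟩ := hC.dir κ i κ2 hh h2.adj
  -- a point on the segment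
  have aux : ∀ (μ1 μ2 : CV) (m1 m2 : ℕ) (s1 s2 : ℝ), 0 < s1 → s1 ≤ s2 →
      CEs Λ κ i μ1 m1 → CEs Λ κ i μ2 m2 → μ1 ≠ μ2 →
      q μ1 - q κ = s1 • lin (A κ) (B κ) (ax i) → q μ2 - q κ = s2 • lin (A κ) (B κ) (ax i) →
      False := by
    intro μ1 μ2 m1 m2 s1 s2 hs1 hs12 c1 c2 hμ e1 e2
    have hs2 : 0 < s2 := lt_of_lt_of_le hs1 hs12
    have hseg : q μ1 ∈ segment ℝ (q κ) (q μ2) := by
      rw [segment_eq_image']
      refine ⟨s1 / s2, ⟨by positivity, (div_le_one hs2).mpr hs12⟩, ?_⟩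
      simp only
      rw [e2, smul_smul, div_mul_cancel₀ _ hs2.ne', ← e1]
      abel
    rcases c2 with c2 | c2
    · exact hC.seg κ i μ2 m2 μ1 c2 c1.val.2 c1.ne.symm hμ hseg
    · rw [segment_symm] at hseg
      exact hC.seg μ2 m2 κ i μ1 c2 c1.val.2 hμ c1.ne.symm hseg
  rcases le_total r1 r2 with h | h
  · exact aux κ1 κ2 i1 i2 r1 r2 hr1 h h1 h2 hne hq1 hq2
  · exact aux κ2 κ1 i2 i1 r2 r1 hr2 h h2 h1 (Ne.symm hne) hq2 hq1

/-- difference of two vertices of one copy -/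
theorem place_sub (ε : ℝ) {κ : CV} (hh : Λ.isHub κ = true) (x y : ℕ) :
    place Λ q A B g ε (κ, y) - place Λ q A B g ε (κ, x) =
      ε • lin (A κ) (B κ) (g y - g x) := by
  unfold place
  rw [if_pos hh, if_pos hh, ← lin_sub, smul_sub]
  abel

end G3

open G3 in
theorem glue3_ok : St_glue3 := by
  intro Λ q A B g _ hC hg hA hB hplain
  obtain ⟨ε₀, hε₀, hsm⟩ := small (q := q) (A := A) (B := B) (g := g) hC hg
  refine ⟨ε₀, hε₀, fun ε hε hε1 => ?_⟩
  -- mixed case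
  have mixed : ∀ (κ : CV) (x : ℕ) (b c : CV × ℕ), Λ.isHub κ = true → b.1 = κ → gN x b.2 →
      (∀ j < 4, x = pt j → b.2 = lf j → ∀ κ', ¬ CAdj Λ κ j κ') →
      (∃ i κ' i', CEs Λ κ i κ' i' ∧ x = Λ.en κ i ∧ c = (κ', Λ.en κ' i')) →
      Ang (place Λ q A B g ε b - place Λ q A B g ε (κ, x))
        (place Λ q A B g ε c - place Λ q A B g ε (κ, x)) := by
    rintro κ x ⟨κb, y⟩ c hh hb1 hb2 hb3 ⟨i, κ', i', h1, h2, rfl⟩
    simp only at hb1 hb2 hb3
    subst hb1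
    obtain ⟨s, hs, hv⟩ := hsm ε hε hε1 _ _ _ _ h1
    obtain ⟨hi, r, hr, hq⟩ := hC.dir _ i κ' hh h1.adj
    have hx : x = pt i := by rw [h2]; unfold Lay.en; rw [if_pos hh]
    rw [← h2] at hv
    rw [hv, hq, smul_smul, place_sub ε hh]
    apply ang_smul _ hε (mul_pos hs hr)
    apply ang_lin (hB κb)
    rw [hx]
    apply hA.port i hi
    · rw [← hx]; exact hb2
    · intro hy
      exact hb3 i hi hx hy κ' h1.adj
  rintro ⟨κ, x⟩ b c hab hac hbc
  rcases nbr hab with ⟨hb0, hb1, hb2, hb3⟩ | hb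
  · rcases nbr hac with ⟨hc0, hc1, hc2, hc3⟩ | hc
    · obtain ⟨κb, y⟩ := b
      obtain ⟨κc, y'⟩ := c
      simp only at hb0 hb1 hb2 hc1 hc2
      subst hb1
      subst hc1
      rw [place_sub ε hb0, place_sub ε hb0]
      apply ang_smul _ hε hε
      apply ang_lin (hB _)
      apply hA.ang x y y' hb2 hc2
      rintro rfl
      exact hbc rfl
    · exact mixed κ x b c hb0 hb1 hb2 hb3 hc
  · rcases nbr hac with ⟨hc0, hc1, hc2, hc3⟩ | hc
    · exact ang_symm (mixed κ x c b hc0 hc1 hc2 hc3 hb)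
    · obtain ⟨i1, κ1, j1, h1, hx1, rfl⟩ := hb
      obtain ⟨i2, κ2, j2, h2, hx2, rfl⟩ := hc
      simp only at h1 h2 hx1 hx2
      by_cases hκ : κ1 = κ2
      · subst hκ
        exfalso
        apply hbc
        rw [port_unique hC h1 h2]
      · by_cases hh : Λ.isHub κ = true
        · exfalso
          have hi1 := (hC.dir κ i1 κ1 hh h1.adj).1
          have hi2 := (hC.dir κ i2 κ2 hh h2.adj).1
          have hi : i1 = i2 := by
            rw [hx1] at hx2
            unfold Lay.en at hx2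
            rw [if_pos hh, if_pos hh] at hx2
            simp only [pt, bs] at hx2
            omega
          subst hi
          exact hκ (nbr_unique hC hh h1 h2)
        · obtain ⟨s1, hs1, hv1⟩ := hsm ε hε hε1 _ _ _ _ h1
          obtain ⟨s2, hs2, hv2⟩ := hsm ε hε hε1 _ _ _ _ h2
          rw [← hx1] at hv1
          rw [← hx2] at hv2
          rw [hv1, hv2]
          apply ang_smul _ hs1 hs2
          exact hplain κ i1 κ1 i2 κ2 (by simpa using hh) h1.adj h2.adj hκ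

end Pool.Agent.H670R3
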