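import Pool.Agent.H670R3.T_GA

/-!
The two drawings of the gadget are correct: assembly of the checks.
-/

namespace Pool.Agent.H670R3

theorem gA_nA : ∀ x < 157, rv (gA x) = rn (nA.getD x (0, 0)) := by
  have h : ∀ x < 157, ((gA x).1 + 1000 = ((nA.getD x (0, 0)).1 : ℤ)) ∧
      ((gA x).2 + 1000 = ((nA.getD x (0, 0)).2 : ℤ)) := by decide +kernel
  intro x hx
  obtain ⟨h1, h2⟩ := h x hx
  ext
  · simp only [rv, rn]
    have : ((gA x).1 : ℝ) + 1000 = ((nA.getD x (0, 0)).1 : ℝ) := by exact_mod_cast h1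
    linarith
  · simp only [rv, rn]
    have : ((gA x).2 : ℝ) + 1000 = ((nA.getD x (0, 0)).2 : ℝ) := by exact_mod_cast h2
    linarith

theorem gB_nB : ∀ x < 157, rv (gB x) = rn (nB.getD x (0, 0)) := by
  have h : ∀ x < 157, ((gB x).1 + 1000 = ((nB.getD x (0, 0)).1 : ℤ)) ∧
      ((gB x).2 + 1000 = ((nB.getD x (0, 0)).2 : ℤ)) := by decide +kernel
  intro x hx
  obtain ⟨h1, h2⟩ := h x hx
  ext
  · simp only [rv, rn]
    have : ((gB x).1 : ℝ) + 1000 = ((nB.getD x (0, 0)).1 : ℝ) := by exact_mod_cast h1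
    linarith
  · simp only [rv, rn]
    have : ((gB x).2 : ℝ) + 1000 = ((nB.getD x (0, 0)).2 : ℝ) := by exact_mod_cast h2
    linarith

theorem gE_lt : ∀ e ∈ gE ++ lE, e.1 < 157 ∧ e.2 < 157 := by decide +kernel

theorem lenA : nA.length = 157 := by decide +kernel

theorem lenB : nB.length = 157 := by decide +kernel

theorem rn_inj {a b : ℕ × ℕ} (h : rn a = rn b) : a = b := by
  have h1 := congrArg Prod.fst h
  have h2 := congrArg Prod.snd h
  simp only [rn] at h1 h2
  ext
  · have : (a.1 : ℝ) = b.1 := by linarith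
    exact_mod_cast this
  · have : (a.2 : ℝ) = b.2 := by linarith
    exact_mod_cast this

/-- from the checks to `GOk` -/
theorem gok_of {g : ℕ → ℤ × ℤ} {l : List (ℕ × ℕ)} (hl : l.length = 157)
    (hg : ∀ x < 157, rv (g x) = rn (l.getD x (0, 0))) (h0 : g 0 = (0, 0)) (s t : ℕ → ℤ)
    (hs : ∀ j < 4, 0 < s j ∧ g (pt j) = (s j * (axz j).1, s j * (axz j).2))
    (ht : ∀ j < 4, 0 < t j ∧ g (lf j) = (s j * (axz j).1 + t j * (axz j).1,
      s j * (axz j).2 + t j * (axz j).2)) (hn : l.Nodup) (ho : offAll l = true)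
    (hr : rayAll l = true) : GOk fun x => rv (g x) := by
  have hax : ∀ j < 4, ax j = rv (axz j) := by
    intro j hj
    interval_cases j <;> simp [ax, axz, rv]
  refine ⟨?_, ?_, ?_, ?_, ?_, ?_⟩
  · simp [h0, rv]
  · intro j hj
    obtain ⟨h1, h2⟩ := hs j hj
    refine ⟨s j, by exact_mod_cast h1, ?_⟩
    rw [h2, hax j hj]
    simp [rv]
  · intro j hj
    obtain ⟨h1, h2⟩ := ht j hj
    refine ⟨t j, by exact_mod_cast h1, ?_⟩
    rw [h2, (hs j hj).2, hax j hj]
    simp [rv]
  · intro x hx y hy h
    rw [hg x hx, hg y hy] at h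
    have h1 := rn_inj h
    rw [List.getD_eq_getElem _ _ (by rw [hl]; exact hx),
      List.getD_eq_getElem _ _ (by rw [hl]; exact hy)] at h1
    exact (List.Nodup.getElem_inj_iff hn).1 h1
  · intro e he w hw h1 h2
    obtain ⟨h3, h4⟩ := gE_lt e he
    rw [hg w hw, hg _ h3, hg _ h4]
    apply offN_sound
    simp only [offAll, List.all_eq_true] at ho
    have := ho e he (l.getD w (0, 0), w) (by
      rw [List.mem_zipIdx_iff_getElem?]
      simp only
      rw [List.getElem?_eq_getElem (by rw [hl]; exact hw),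
        List.getD_eq_getElem _ _ (by rw [hl]; exact hw)])
    simp only [Bool.or_eq_true] at this
    rcases this with (h | h) | h
    · exact absurd (Nat.eq_of_beq_eq_true h) h1
    · exact absurd (Nat.eq_of_beq_eq_true h) h2
    · exact h
  · intro j hj w hw h1 h2 s hs'
    have hp : pt j < 157 := by interval_cases j <;> simp [pt, bs]
    rw [hg w hw, hg _ hp]
    apply rayN_sound hj _ hs'
    simp only [rayAll, List.all_eq_true] at hr
    have := hr j (List.mem_range.2 hj) (l.getD w (0, 0), w) (by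
      rw [List.mem_zipIdx_iff_getElem?]
      simp only
      rw [List.getElem?_eq_getElem (by rw [hl]; exact hw),
        List.getD_eq_getElem _ _ (by rw [hl]; exact hw)])
    simp only [Bool.or_eq_true] at this
    rcases this with (h | h) | h
    · exact absurd (Nat.eq_of_beq_eq_true h) h1
    · exact absurd (Nat.eq_of_beq_eq_true h) h2
    · exact h

theorem dt_st3 (u v : ℝ × ℝ) : dt (st3 u) (st3 v) = u.1 * v.1 + 3 * (u.2 * v.2) := by
  simp only [dt, st3]
  have : √3 * √3 = (3 : ℝ) := Real.mul_self_sqrt (by norm_num)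
  linear_combination (u.2 * v.2) * this

theorem angZ_sound {u v : ℤ × ℤ} (h : angZ u v = true) : Ang (st3 (rv u)) (st3 (rv v)) := by
  rw [angZ, Bool.or_eq_true, decide_eq_true_eq, decide_eq_true_eq] at h
  simp only [dz] at h
  unfold Ang
  rw [dt_st3, dt_st3, dt_st3]
  simp only [rv]
  rcases h with h | h
  · left; exact_mod_cast h
  · right; exact_mod_cast h

theorem mem_nbs {x y : ℕ} (h : gN x y) : y ∈ nbs x := by
  rw [nbs, List.mem_flatMap]
  rcases h with h | h
  · exact ⟨_, h, by simp⟩
  · exact ⟨_, h, by simp⟩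

theorem gN_lt {x y : ℕ} (h : gN x y) : x < 157 ∧ y < 157 := by
  rcases h with h | h
  · exact gE_lt _ h
  · exact (gE_lt _ h).symm

theorem rv_sbz (u v : ℤ × ℤ) : rv (sbz u v) = rv u - rv v := by
  simp [rv, sbz]

theorem gan : GAn fun x => rv (gA x) := by
  constructor
  · intro x y y' h1 h2 hy
    rw [← rv_sbz, ← rv_sbz]
    apply angZ_sound
    have h := angA
    simp only [angAll, List.all_eq_true] at h
    have := h x (List.mem_range.2 (gN_lt h1).1) (y, sbz (gA y) (gA x))
      (List.mem_map.2 ⟨y, mem_nbs h1, rfl⟩) (y', sbz (gA y') (gA x))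
      (List.mem_map.2 ⟨y', mem_nbs h2, rfl⟩)
    simp only [Bool.or_eq_true] at this
    rcases this with h3 | h3
    · exact absurd (Nat.eq_of_beq_eq_true h3) hy
    · exact h3
  · intro j hj y h1 hy
    have hax : ax j = rv (axz j) := by
      interval_cases j <;> simp [ax, axz, rv]
    rw [← rv_sbz, hax]
    apply angZ_sound
    have h := angPA
    simp only [angP, List.all_eq_true] at h
    have := h j (List.mem_range.2 hj) y (mem_nbs h1)
    simp only [Bool.or_eq_true] at this
    rcases this with h3 | h3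
    · exact absurd (Nat.eq_of_beq_eq_true h3) hy
    · exact h3

theorem gpl : GPl fun x => rv (gB x) := by
  constructor
  · intro e he f hf h1 h2 h3 h4
    obtain ⟨e1, e2⟩ := gE_lt e he
    obtain ⟨f1, f2⟩ := gE_lt f hf
    rw [gB_nB _ e1, gB_nB _ e2, gB_nB _ f1, gB_nB _ f2]
    apply sepN_sound
    have h := sepB
    simp only [sepAll, List.all_eq_true] at h
    have := h e he f hf
    simp only [Bool.or_eq_true] at this
    rcases this with ((h | h) | (h | h)) | h
    · exact absurd (Nat.eq_of_beq_eq_true h) h1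
    · exact absurd (Nat.eq_of_beq_eq_true h) h2
    · exact absurd (Nat.eq_of_beq_eq_true h) h3
    · exact absurd (Nat.eq_of_beq_eq_true h) h4
    · exact h
  · intro j hj e he h1 h2 s hs
    obtain ⟨e1, e2⟩ := gE_lt e he
    have hp : pt j < 157 := by interval_cases j <;> simp [pt, bs]
    rw [gB_nB _ e1, gB_nB _ e2, gB_nB _ hp]
    apply rayE_sound hj _ hs
    have h := rayEB
    simp only [rayEAll, List.all_eq_true] at h
    have := h j (List.mem_range.2 hj) e he
    simp only [Bool.or_eq_true] at this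
    rcases this with (h | h) | h
    · exact absurd (Nat.eq_of_beq_eq_true h) h1
    · exact absurd (Nat.eq_of_beq_eq_true h) h2
    · exact h

/-- length of the vector to the port -/
def sOf (g : ℕ → ℤ × ℤ) (j : ℕ) : ℤ := (g (pt j)).1 * (axz j).1 + (g (pt j)).2 * (axz j).2

/-- length of the vector from the port to the leaf -/
def tOf (g : ℕ → ℤ × ℤ) (j : ℕ) : ℤ :=
  (g (lf j)).1 * (axz j).1 + (g (lf j)).2 * (axz j).2 - sOf g j

theorem gadget_ok : St_gadget where
  a := gok_of lenA gA_nA (by decide +kernel) (sOf gA) (tOf gA) (by decide +kernel)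
    (by decide +kernel) nodA offA rayA
  aa := gan
  b := gok_of lenB gB_nB (by decide +kernel) (sOf gB) (tOf gB) (by decide +kernel)
    (by decide +kernel) nodB offB rayB
  bb := gpl

end Pool.Agent.H670R3
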