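import Pool.Agent.H670R3.Stm

/-!
Task GR (helper418): geometry of the grid.
-/

namespace Pool.Agent.H670R3

open Pool.Agent.H670R2.Sl

namespace GRh

/-! ### vectors -/

theorem dt_comm (a b : ℝ × ℝ) : dt a b = dt b a := by simp only [dt]; ring
theorem dt_smul_left (s : ℝ) (a b : ℝ × ℝ) : dt (s • a) b = s * dt a b := by
  simp only [dt, Prod.smul_fst, Prod.smul_snd, smul_eq_mul]; ring
theorem dt_smul_right (s : ℝ) (a b : ℝ × ℝ) : dt a (s • b) = s * dt a b := by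
  simp only [dt, Prod.smul_fst, Prod.smul_snd, smul_eq_mul]; ring
theorem dt_neg_left (a b : ℝ × ℝ) : dt (-a) b = - dt a b := by
  simp only [dt, Prod.fst_neg, Prod.snd_neg]; ring
theorem dt_neg_right (a b : ℝ × ℝ) : dt a (-b) = - dt a b := by
  simp only [dt, Prod.fst_neg, Prod.snd_neg]; ring
theorem dt_add_left (a b c : ℝ × ℝ) : dt (a + b) c = dt a c + dt b c := by
  simp only [dt, Prod.fst_add, Prod.snd_add]; ring
theorem dt_sub_left (a b c : ℝ × ℝ) : dt (a - b) c = dt a c - dt b c := by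
  simp only [dt, Prod.fst_sub, Prod.snd_sub]; ring
theorem dt_sub_right (a b c : ℝ × ℝ) : dt a (b - c) = dt a b - dt a c := by
  simp only [dt, Prod.fst_sub, Prod.snd_sub]; ring
theorem dt_zero_left (b : ℝ × ℝ) : dt 0 b = 0 := by simp [dt]

theorem dt_pos {a : ℝ × ℝ} (h : a ≠ 0) : 0 < dt a a := by
  unfold dt
  by_contra hc
  apply h
  have h1 : a.1 = 0 := by nlinarith [mul_self_nonneg a.1, mul_self_nonneg a.2]
  have h2 : a.2 = 0 := by nlinarith [mul_self_nonneg a.1, mul_self_nonneg a.2]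
  exact Prod.ext h1 h2

theorem cr_dt (a b c : ℝ × ℝ) : cr a c * dt b b = dt a b * cr b c + cr a b * dt b c := by
  simp only [cr, dt]; ring

/-- both orthogonal to `b` -/
theorem par {a b c : ℝ × ℝ} (ha : a ≠ 0) (hb : b ≠ 0) (h1 : dt a b = 0) (h2 : dt c b = 0) :
    ∃ r : ℝ, c = r • a := by
  refine par_of_cr ha ?_
  have h := cr_dt a b c
  rw [h1, dt_comm b c, h2, zero_mul, mul_zero, add_zero] at h
  exact (mul_eq_zero.1 h).resolve_right (dt_pos hb).ne'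

/-- the condition at a corner -/
def RC (u v : ℝ × ℝ) : Prop := dt u v = 0 ∨ Pp u v

theorem rect {u1 u2 u3 u4 : ℝ × ℝ} (h : u1 + u2 + u3 + u4 = 0) (n1 : u1 ≠ 0) (n2 : u2 ≠ 0)
    (n3 : u3 ≠ 0) (c1 : RC u1 u2) (c2 : RC u2 u3) (c3 : RC u3 u4) :
    dt u1 u2 = 0 ∧ u3 = -u1 ∧ u4 = -u2 := by
  have p1 := dt_pos n1
  have p2 := dt_pos n2
  have p3 := dt_pos n3
  have hs : ∀ w, dt u1 w + dt u2 w + dt u3 w + dt u4 w = 0 := by
    intro w
    rw [← dt_add_left, ← dt_add_left, ← dt_add_left, h, dt_zero_left]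
  rcases c1 with c1 | ⟨s, hs1, e1⟩
  · rcases c2 with c2 | ⟨s', hs2, e2⟩
    · rcases c3 with c3 | ⟨s'', hs3, e3⟩
      · obtain ⟨l, hl⟩ := par n1 n2 c1 (by rw [dt_comm]; exact c2)
        obtain ⟨m, hm⟩ := par n2 n3 c2 (by rw [dt_comm]; exact c3)
        have a1 := hs u1
        have a2 := hs u2
        rw [hl, hm, dt_smul_left, dt_smul_left, dt_comm u2 u1, c1] at a1
        rw [hl, hm, dt_smul_left, dt_smul_left, c1] at a2
        have hl1 : l = -1 := by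
          have : (1 + l) * dt u1 u1 = 0 := by linarith
          have := (mul_eq_zero.1 this).resolve_right p1.ne'
          linarith
        have hm1 : m = -1 := by
          have : (1 + m) * dt u2 u2 = 0 := by linarith
          have := (mul_eq_zero.1 this).resolve_right p2.ne'
          linarith
        refine ⟨c1, ?_, ?_⟩
        · rw [hl, hl1, neg_one_smul]
        · rw [hm, hm1, neg_one_smul]
      · exfalso
        have a2 := hs u2
        rw [c1, dt_comm u3 u2, c2, e3, dt_smul_left, dt_comm u3 u2, c2] at a2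
        linarith
    · exfalso
      rcases c3 with c3 | ⟨s'', hs3, e3⟩
      · have a2 := hs u2
        have h4 : dt u4 u2 = 0 := by
          rw [e2, dt_smul_left] at c3
          rw [dt_comm]
          exact (mul_eq_zero.1 c3).resolve_left hs2.ne'
        rw [c1, h4, e2, dt_smul_left] at a2
        nlinarith
      · have a2 := hs u2
        rw [c1, e3, e2, dt_smul_left, dt_smul_left, dt_smul_left] at a2
        linarith [mul_pos hs2 p2, mul_pos hs3 (mul_pos hs2 p2)]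
  · exfalso
    rcases c2 with c2 | ⟨s', hs2, e2⟩
    · have h13 : dt u1 u3 = 0 := by
        rw [e1, dt_smul_left] at c2
        exact (mul_eq_zero.1 c2).resolve_left hs1.ne'
      have a3 := hs u3
      rcases c3 with c3 | ⟨s'', hs3, e3⟩
      · rw [h13, c2, dt_comm u4 u3, c3] at a3
        linarith
      · rw [h13, c2, e3, dt_smul_left] at a3
        nlinarith [mul_pos hs3 p3]
    · have a1 := hs u1
      have a3 := hs u3
      have h12 : dt u2 u1 = s * dt u1 u1 := by rw [e1, dt_smul_left]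
      have h31 : dt u3 u1 = s' * (s * dt u1 u1) := by rw [e2, dt_smul_left, h12]
      rcases c3 with c3 | ⟨s'', hs3, e3⟩
      · have h13 : dt u1 u3 = s' * (s * dt u1 u1) := by rw [dt_comm, h31]
        have h23 : dt u2 u3 = s * (s' * (s * dt u1 u1)) := by rw [e1, dt_smul_left, h13]
        rw [dt_comm u4 u3, c3, h13, h23] at a3
        have := mul_pos hs2 (mul_pos hs1 p1)
        have := mul_pos hs1 this
        linarith
      · have h41 : dt u4 u1 = s'' * (s' * (s * dt u1 u1)) := by rw [e3, dt_smul_left, h31]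
        rw [h12, h31, h41] at a1
        have g1 := mul_pos hs1 p1
        have g2 := mul_pos hs2 g1
        have g3 := mul_pos hs3 g2
        linarith

theorem J_iter (f : ℝ × ℝ) {m n : ℕ} (hm : m < 4) (hn : n < 4) (hmn : m ≠ n) :
    dt (J^[m] f) (J^[n] f) = 0 ∨ J^[n] f = -(J^[m] f) := by
  interval_cases m <;> interval_cases n <;>
    first
      | exact absurd rfl hmn
      | (left; simp only [Function.iterate_succ, Function.iterate_zero, Function.comp, id, J, dt]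
         ring; done)
      | (right; simp only [Function.iterate_succ, Function.iterate_zero, Function.comp, id, J]
         ext <;> simp)

theorem J_odd (f : ℝ × ℝ) {m n : ℕ} (hm : m < 4) (hn : n < 4) (hmn : (m + n) % 2 = 1) :
    dt (J^[m] f) (J^[n] f) = 0 := by
  interval_cases m <;> interval_cases n <;>
    first
      | omega
      | (simp only [Function.iterate_succ, Function.iterate_zero, Function.comp, id, J, dt]; ring)

theorem corner {Λ : Lay} {q : CV → ℝ × ℝ} (h : CDw Λ q) {κ κ1 κ2 : CV} {a b : ℕ}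
    (hk : Λ.isHub κ = true) (h1 : CAdj Λ κ a κ1) (h2 : CAdj Λ κ b κ2) (ha : a < 4) (hb : b < 4)
    (hab : a ≠ b) : RC (q κ - q κ1) (q κ2 - q κ) := by
  obtain ⟨f, σ, hf, hi, hl, hd⟩ := h.hub κ hk
  obtain ⟨s1, hs1, e1⟩ := hd a κ1 h1
  obtain ⟨s2, hs2, e2⟩ := hd b κ2 h2
  have hne : σ a ≠ σ b := fun h' => hab (hi a ha b hb h')
  have e1' : q κ - q κ1 = -(s1 • J^[σ a] f) := by rw [← e1, neg_sub]
  rw [e1', e2]
  rcases J_iter f (hl a ha) (hl b hb) hne with h3 | h3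
  · left
    rw [dt_neg_left, dt_smul_left, dt_smul_right, h3]
    ring
  · right
    refine ⟨s2 / s1, div_pos hs2 hs1, ?_⟩
    rw [h3, smul_neg, smul_neg, smul_smul, div_mul_cancel₀ _ hs1.ne']

/-- the next edge of a straight row -/
theorem fwd {e g A B : ℝ × ℝ} (he : e ≠ 0) (hg : g ≠ 0) (heg : dt e g = 0) (hA : Pp e (-A))
    (hB : dt B g = 0) (hB0 : B ≠ 0) (hn : ¬ Pp A B) : Pp e B := by
  obtain ⟨r, hr⟩ := par he hg heg hB
  obtain ⟨s, hs, hsA⟩ := hA
  rcases lt_trichotomy r 0 with h | h | h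
  · exfalso
    apply hn
    refine ⟨-r / s, div_pos (by linarith) hs, ?_⟩
    have : A = -(s • e) := by rw [← hsA, neg_neg]
    rw [this, hr, smul_neg, smul_smul, div_mul_cancel₀ _ hs.ne', neg_smul, neg_neg]
  · exfalso
    apply hB0
    rw [hr, h, zero_smul]
  · exact ⟨r, h, hr⟩

theorem Pp_neg {a b : ℝ × ℝ} : Pp (-a) (-b) ↔ Pp a b := by
  constructor
  · rintro ⟨s, hs, h⟩
    exact ⟨s, hs, by rwa [smul_neg, neg_inj] at h⟩
  · rintro ⟨s, hs, h⟩
    exact ⟨s, hs, by rw [h, smul_neg]⟩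

theorem bwd {e g A B : ℝ × ℝ} (he : e ≠ 0) (hg : g ≠ 0) (heg : dt e g = 0) (hB : Pp e B)
    (hA : dt A g = 0) (hA0 : A ≠ 0) (hn : ¬ Pp B A) : Pp e (-A) := by
  have h := fwd (e := -e) (g := g) (A := B) (B := A) (neg_ne_zero.2 he) hg
    (by rw [dt_neg_left, heg, neg_zero]) (Pp_neg.2 hB) hA hA0 hn
  rw [← Pp_neg, neg_neg]
  exact h

/-! ### the layout -/

theorem bnd (t : ℕ) : (1 ≤ hr0 t ∧ hr0 t < hrC t ∧ hrC t ≤ hr1 t ∧ hr1 t ≤ 5) ∧
    (1 ≤ hc0 t ∧ hc0 t < hcB t ∧ hcB t ≤ hc1 t ∧ hc1 t ≤ 5) ∧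
    (hr0 t % 2 = 1 ∧ hr1 t % 2 = 1 ∧ hrC t % 2 = 1) ∧
    (hc0 t % 2 = 1 ∧ hc1 t % 2 = 1 ∧ hcB t % 2 = 1) := by
  unfold hr0 hr1 hrC hc0 hc1 hcB
  split_ifs <;> omega

/-- the cell is present -/
def Pc (Λ : Lay) (r c : ℕ) : Prop := ¬ (Λ.ty r c ≠ 0 ∧ hr0 (Λ.ty r c) ≤ r % 6 ∧
  r % 6 < hr1 (Λ.ty r c) ∧ hc0 (Λ.ty r c) ≤ c % 6 ∧ c % 6 < hc1 (Λ.ty r c))

theorem hAbs_false {t ρ γ : ℕ} : hAbs t ρ γ = false ↔
    ¬ (t ≠ 0 ∧ hr0 t < ρ ∧ ρ < hr1 t ∧ hc0 t ≤ γ ∧ γ < hc1 t) := by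
  unfold hAbs
  exact decide_eq_false_iff_not

theorem vAbs_false {t ρ γ : ℕ} : vAbs t ρ γ = false ↔
    ¬ (t ≠ 0 ∧ hc0 t < γ ∧ γ < hc1 t ∧ hr0 t ≤ ρ ∧ ρ < hr1 t) := by
  unfold vAbs
  exact decide_eq_false_iff_not

theorem isIn_false {t ρ γ : ℕ} : isIn t ρ γ = false ↔
    ¬ (t ≠ 0 ∧ hr0 t < ρ ∧ ρ < hr1 t ∧ hc0 t < γ ∧ γ < hc1 t) := by
  unfold isIn
  exact decide_eq_false_iff_not

theorem isPl_odd {t ρ γ : ℕ} (h : ¬ (ρ % 2 = 1 ∧ γ % 2 = 1)) : isPl t ρ γ = false := by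
  unfold isPl
  rw [decide_eq_false_iff_not]
  obtain ⟨-, -, ⟨h1, h2, h3⟩, h4, h5, h6⟩ := bnd t
  rintro ⟨-, h7⟩
  omega

theorem ty_succ_r {Λ : Lay} {r c : ℕ} (h : r % 6 ≠ 5) : Λ.ty (r + 1) c = Λ.ty r c := by
  unfold Lay.ty
  rw [show (r + 1) / 6 = r / 6 by omega]

theorem ty_succ_c {Λ : Lay} {r c : ℕ} (h : c % 6 ≠ 5) : Λ.ty r (c + 1) = Λ.ty r c := by
  unfold Lay.ty
  rw [show (c + 1) / 6 = c / 6 by omega]

variable {Λ : Lay} {r c : ℕ}

theorem bot (h : Pc Λ r c) : hAbs (Λ.ty r c) (r % 6) (c % 6) = false := by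
  rw [hAbs_false]
  unfold Pc at h
  omega

theorem top (h : Pc Λ r c) : hAbs (Λ.ty (r + 1) c) ((r + 1) % 6) (c % 6) = false := by
  rw [hAbs_false]
  unfold Pc at h
  by_cases h5 : r % 6 = 5
  · have := (bnd (Λ.ty (r + 1) c)).1
    omega
  · rw [ty_succ_r h5]
    omega

theorem lft (h : Pc Λ r c) : vAbs (Λ.ty r c) (r % 6) (c % 6) = false := by
  rw [vAbs_false]
  unfold Pc at h
  omega

theorem rgt (h : Pc Λ r c) : vAbs (Λ.ty r (c + 1)) (r % 6) ((c + 1) % 6) = false := by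
  rw [vAbs_false]
  unfold Pc at h
  by_cases h5 : c % 6 = 5
  · have := (bnd (Λ.ty r (c + 1))).2.1
    omega
  · rw [ty_succ_c h5]
    omega

theorem hub_of {r' c' : ℕ} (hr : r' ≤ 6 * Λ.nb) (hc : c' ≤ 6 * Λ.ng)
    (ho : ¬ (r' % 2 = 1 ∧ c' % 2 = 1)) (hi : isIn (Λ.ty r' c') (r' % 6) (c' % 6) = false) :
    Λ.isHub (.pos r' c') = true := by
  unfold Lay.isHub
  simp only [Bool.and_eq_true, decide_eq_true_eq]
  refine ⟨hr, hc, ?_⟩
  unfold isHb
  rw [isPl_odd (by omega), hi]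
  rfl

theorem in00 (h : Pc Λ r c) : isIn (Λ.ty r c) (r % 6) (c % 6) = false := by
  rw [isIn_false]
  unfold Pc at h
  omega

theorem in10 (h : Pc Λ r c) : isIn (Λ.ty (r + 1) c) ((r + 1) % 6) (c % 6) = false := by
  rw [isIn_false]
  unfold Pc at h
  by_cases h5 : r % 6 = 5
  · have := (bnd (Λ.ty (r + 1) c)).1
    omega
  · rw [ty_succ_r h5]
    omega

theorem in01 (h : Pc Λ r c) : isIn (Λ.ty r (c + 1)) (r % 6) ((c + 1) % 6) = false := by
  rw [isIn_false]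
  unfold Pc at h
  by_cases h5 : c % 6 = 5
  · have := (bnd (Λ.ty r (c + 1))).2.1
    omega
  · rw [ty_succ_c h5]
    omega

theorem in11 (h : Pc Λ r c) : isIn (Λ.ty (r + 1) (c + 1)) ((r + 1) % 6) ((c + 1) % 6) = false := by
  rw [isIn_false]
  unfold Pc at h
  by_cases h5 : r % 6 = 5
  · have := (bnd (Λ.ty (r + 1) (c + 1))).1
    omega
  · rw [ty_succ_r h5]
    by_cases h6 : c % 6 = 5
    · have := (bnd (Λ.ty r (c + 1))).2.1
      omega
    · rw [ty_succ_c h6]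
      omega

/-! ### rectangles -/

theorem adjR (hr : r ≤ 6 * Λ.nb) (hc : c < 6 * Λ.ng)
    (ha : hAbs (Λ.ty r c) (r % 6) (c % 6) = false) : CAdj Λ (.pos r c) 0 (.pos r (c + 1)) :=
  ⟨2, Or.inl (CE.h r c hr hc ha)⟩

theorem adjL (hr : r ≤ 6 * Λ.nb) (hc : c < 6 * Λ.ng)
    (ha : hAbs (Λ.ty r c) (r % 6) (c % 6) = false) : CAdj Λ (.pos r (c + 1)) 2 (.pos r c) :=
  ⟨0, Or.inr (CE.h r c hr hc ha)⟩

theorem adjU (hr : r < 6 * Λ.nb) (hc : c ≤ 6 * Λ.ng)
    (ha : vAbs (Λ.ty r c) (r % 6) (c % 6) = false) : CAdj Λ (.pos r c) 1 (.pos (r + 1) c) :=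
  ⟨3, Or.inl (CE.v r c hr hc ha)⟩

theorem adjD (hr : r < 6 * Λ.nb) (hc : c ≤ 6 * Λ.ng)
    (ha : vAbs (Λ.ty r c) (r % 6) (c % 6) = false) : CAdj Λ (.pos (r + 1) c) 3 (.pos r c) :=
  ⟨1, Or.inr (CE.v r c hr hc ha)⟩

variable {q : CV → ℝ × ℝ}

/-- horizontal side -/
def HH (q : CV → ℝ × ℝ) (r c : ℕ) : ℝ × ℝ := q (.pos r (c + 1)) - q (.pos r c)

/-- vertical side -/
def WW (q : CV → ℝ × ℝ) (r c : ℕ) : ℝ × ℝ := q (.pos (r + 1) c) - q (.pos r c)

theorem cell (h : CDw Λ q) (hr : r < 6 * Λ.nb) (hc : c < 6 * Λ.ng) (hp : Pc Λ r c) :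
    HH q (r + 1) c = HH q r c ∧ WW q r (c + 1) = WW q r c ∧ dt (HH q r c) (WW q r c) = 0 ∧
    HH q r c ≠ 0 ∧ WW q r c ≠ 0 := by
  have eb := adjR (Λ := Λ) hr.le hc (bot hp)
  have eb' := adjL (Λ := Λ) hr.le hc (bot hp)
  have et := adjR (Λ := Λ) (r := r + 1) (by omega) hc (top hp)
  have et' := adjL (Λ := Λ) (r := r + 1) (by omega) hc (top hp)
  have el := adjU (Λ := Λ) hr hc.le (lft hp)
  have el' := adjD (Λ := Λ) hr hc.le (lft hp)
  have er := adjU (Λ := Λ) (c := c + 1) hr (by omega) (rgt hp)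
  have er' := adjD (Λ := Λ) (c := c + 1) hr (by omega) (rgt hp)
  set P0 := q (.pos r c) with hP0
  set P1 := q (.pos r (c + 1)) with hP1
  set P2 := q (.pos (r + 1) (c + 1)) with hP2
  set P3 := q (.pos (r + 1) c) with hP3
  have n1 : P1 - P0 ≠ 0 := sub_ne_zero.2 (h.ne _ _ _ eb)
  have n2 : P2 - P1 ≠ 0 := sub_ne_zero.2 (h.ne _ _ _ er)
  have n3 : P3 - P2 ≠ 0 := sub_ne_zero.2 (h.ne _ _ _ et')
  have n4 : P0 - P3 ≠ 0 := sub_ne_zero.2 (h.ne _ _ _ el')
  have k1 : ¬ (r % 2 = 1 ∧ (c + 1) % 2 = 1) → RC (P1 - P0) (P2 - P1) := fun ho =>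
    corner h (hub_of hr.le (by omega) ho (in01 hp)) eb' er (by omega) (by omega) (by omega)
  have k2 : ¬ ((r + 1) % 2 = 1 ∧ (c + 1) % 2 = 1) → RC (P2 - P1) (P3 - P2) := fun ho =>
    corner h (hub_of (by omega) (by omega) ho (in11 hp)) er' et' (by omega) (by omega) (by omega)
  have k3 : ¬ ((r + 1) % 2 = 1 ∧ c % 2 = 1) → RC (P3 - P2) (P0 - P3) := fun ho =>
    corner h (hub_of (by omega) hc.le ho (in10 hp)) et el' (by omega) (by omega) (by omega)
  have k0 : ¬ (r % 2 = 1 ∧ c % 2 = 1) → RC (P0 - P3) (P1 - P0) := fun ho =>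
    corner h (hub_of hr.le hc.le ho (in00 hp)) el eb (by omega) (by omega) (by omega)
  have key : dt (P1 - P0) (P2 - P1) = 0 ∧ P3 - P2 = -(P1 - P0) ∧ P0 - P3 = -(P2 - P1) := by
    rcases Nat.mod_two_eq_zero_or_one r with hr2 | hr2 <;>
      rcases Nat.mod_two_eq_zero_or_one c with hc2 | hc2
    · -- missing P2
      obtain ⟨a1, a2, a3⟩ := rect (by abel) n3 n4 n1 (k3 (by omega)) (k0 (by omega)) (k1 (by omega))
      refine ⟨?_, ?_, ?_⟩
      · rw [a2, a3, dt_neg_left, dt_neg_right, neg_neg]; exact a1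
      · rw [a2, neg_neg]
      · rw [a3, neg_neg]
    · -- missing P3
      obtain ⟨a1, a2, a3⟩ := rect (by abel) n4 n1 n2 (k0 (by omega)) (k1 (by omega)) (k2 (by omega))
      refine ⟨?_, ?_, ?_⟩
      · rw [a2, dt_neg_right, dt_comm, a1, neg_zero]
      · rw [a3]
      · rw [a2, neg_neg]
    · -- missing P1
      obtain ⟨a1, a2, a3⟩ := rect (by abel) n2 n3 n4 (k2 (by omega)) (k3 (by omega)) (k0 (by omega))
      refine ⟨?_, ?_, ?_⟩
      · rw [a3, dt_neg_left, dt_comm, a1, neg_zero]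
      · rw [a3, neg_neg]
      · rw [a2]
    · -- missing P0
      exact rect (by abel) n1 n2 n3 (k1 (by omega)) (k2 (by omega)) (k3 (by omega))
  obtain ⟨g1, g2, g3⟩ := key
  have t1 : HH q (r + 1) c = HH q r c := by
    show P2 - P3 = P1 - P0
    rw [← neg_sub P3 P2, g2, neg_neg]
  have t2 : WW q r (c + 1) = WW q r c := by
    show P2 - P1 = P3 - P0
    rw [← neg_sub P0 P3, g3, neg_neg]
  refine ⟨t1, t2, ?_, n1, ?_⟩
  · rw [← t2]; exact g1
  · rw [← t2]; exact n2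

/-! ### orientation of the cells -/

/-- the sides of the cell have the right directions -/
def OKc (q : CV → ℝ × ℝ) (e g : ℝ × ℝ) (r c : ℕ) : Prop := Pp e (HH q r c) ∧ Pp g (WW q r c)

section prop

variable {e g : ℝ × ℝ} (h : CDw Λ q) (he : e ≠ 0) (hg : g ≠ 0) (heg : dt e g = 0)
include h he hg heg

theorem orth_e {H W : ℝ × ℝ} (hW : Pp g W) (hd : dt H W = 0) : dt H g = 0 := by
  obtain ⟨s, hs, rfl⟩ := hW
  rw [dt_smul_right] at hd
  exact (mul_eq_zero.1 hd).resolve_left hs.ne'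

theorem orth_g {H W : ℝ × ℝ} (hH : Pp e H) (hd : dt H W = 0) : dt W e = 0 := by
  obtain ⟨s, hs, rfl⟩ := hH
  rw [dt_smul_left] at hd
  rw [dt_comm]
  exact (mul_eq_zero.1 hd).resolve_left hs.ne'

theorem right_iff (hr : r < 6 * Λ.nb) (hc : c + 1 < 6 * Λ.ng) (hp : Pc Λ r c)
    (hp' : Pc Λ r (c + 1)) : OKc q e g r c ↔ OKc q e g r (c + 1) := by
  obtain ⟨a1, a2, a3, a4, a5⟩ := cell h hr (by omega) hp
  obtain ⟨b1, b2, b3, b4, b5⟩ := cell h hr hc hp'
  have l1 := adjL (Λ := Λ) hr.le (by omega) (bot hp)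
  have l2 := adjR (Λ := Λ) hr.le hc (bot hp')
  have hne : CV.pos r c ≠ CV.pos r (c + 1 + 1) := by
    intro h'
    injection h' with h1 h2
    omega
  have d1 := h.dist _ _ _ _ _ l1 l2 hne
  have d2 := h.dist _ _ _ _ _ l2 l1 hne.symm
  have hA : q (.pos r c) - q (.pos r (c + 1)) = - HH q r c := by unfold HH; rw [neg_sub]
  have hB : q (.pos r (c + 1 + 1)) - q (.pos r (c + 1)) = HH q r (c + 1) := rfl
  rw [hA, hB] at d1 d2
  unfold OKc
  rw [a2]
  constructor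
  · rintro ⟨h1, h2⟩
    refine ⟨?_, h2⟩
    rw [a2] at b3
    exact fwd he hg heg (by rwa [neg_neg]) (orth_e h he hg heg h2 b3) b4 d1
  · rintro ⟨h1, h2⟩
    refine ⟨?_, h2⟩
    have := bwd he hg heg h1 (A := - HH q r c)
      (by rw [dt_neg_left, orth_e h he hg heg h2 a3, neg_zero]) (neg_ne_zero.2 a4) d2
    rwa [neg_neg] at this

theorem up_iff (hr : r + 1 < 6 * Λ.nb) (hc : c < 6 * Λ.ng) (hp : Pc Λ r c)
    (hp' : Pc Λ (r + 1) c) : OKc q e g r c ↔ OKc q e g (r + 1) c := by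
  obtain ⟨a1, a2, a3, a4, a5⟩ := cell h (by omega) hc hp
  obtain ⟨b1, b2, b3, b4, b5⟩ := cell h hr hc hp'
  have l1 := adjD (Λ := Λ) (by omega) hc.le (lft hp)
  have l2 := adjU (Λ := Λ) hr hc.le (lft hp')
  have hne : CV.pos r c ≠ CV.pos (r + 1 + 1) c := by
    intro h'
    injection h' with h1 h2
    omega
  have d1 := h.dist _ _ _ _ _ l1 l2 hne
  have d2 := h.dist _ _ _ _ _ l2 l1 hne.symm
  have hA : q (.pos r c) - q (.pos (r + 1) c) = - WW q r c := by unfold WW; rw [neg_sub]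
  have hB : q (.pos (r + 1 + 1) c) - q (.pos (r + 1) c) = WW q (r + 1) c := rfl
  rw [hA, hB] at d1 d2
  have hge : dt g e = 0 := by rw [dt_comm]; exact heg
  unfold OKc
  rw [a1]
  constructor
  · rintro ⟨h1, h2⟩
    refine ⟨h1, ?_⟩
    rw [a1] at b3
    exact fwd hg he hge (by rwa [neg_neg]) (orth_g h he hg heg h1 b3) b5 d1
  · rintro ⟨h1, h2⟩
    refine ⟨h1, ?_⟩
    have := bwd hg he hge h2 (A := - WW q r c)
      (by rw [dt_neg_left, orth_g h he hg heg h1 a3, neg_zero]) (neg_ne_zero.2 a5) d2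
    rwa [neg_neg] at this

theorem row_iff (hr : r < 6 * Λ.nb) (k : ℕ) (hc : c + k < 6 * Λ.ng)
    (hp : ∀ k' ≤ k, Pc Λ r (c + k')) : OKc q e g r c ↔ OKc q e g r (c + k) := by
  induction k with
  | zero => exact Iff.rfl
  | succ k ih =>
    rw [ih (by omega) fun k' hk' => hp k' (by omega)]
    exact right_iff h he hg heg hr (by omega) (hp k (by omega)) (hp (k + 1) le_rfl)

theorem col_iff (hc : c < 6 * Λ.ng) (k : ℕ) (hr : r + k < 6 * Λ.nb)
    (hp : ∀ k' ≤ k, Pc Λ (r + k') c) : OKc q e g r c ↔ OKc q e g (r + k) c := by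
  induction k with
  | zero => exact Iff.rfl
  | succ k ih =>
    rw [ih (by omega) fun k' hk' => hp k' (by omega)]
    exact up_iff h he hg heg (by omega) hc (hp k (by omega)) (hp (k + 1) le_rfl)

theorem allOK (h0 : OKc q e g 0 0) (hnb : 0 < Λ.nb) (hr : r < 6 * Λ.nb) (hc : c < 6 * Λ.ng)
    (hp : Pc Λ r c) : OKc q e g r c := by
  have row0 : ∀ c < 6 * Λ.ng, OKc q e g 0 c := by
    intro c hc
    have := (row_iff h he hg heg (r := 0) (c := 0) (by omega) c (by omega) ?_).1 h0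
    · rwa [Nat.zero_add] at this
    · intro k' hk'
      unfold Pc
      have := (bnd (Λ.ty 0 (0 + k'))).1
      omega
  have col : ∀ c < 6 * Λ.ng, c % 6 = 0 ∨ c % 6 = 5 → ∀ r < 6 * Λ.nb, OKc q e g r c := by
    intro c hc h5 r hr
    have := (col_iff h he hg heg (r := 0) (c := c) hc r (by omega) ?_).1 (row0 c hc)
    · rwa [Nat.zero_add] at this
    · intro k' hk'
      unfold Pc
      have := (bnd (Λ.ty (0 + k') c)).2.1
      omega
  by_cases hcase : Λ.ty r c = 0 ∨ r % 6 < hr0 (Λ.ty r c) ∨ hr1 (Λ.ty r c) ≤ r % 6 ∨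
      c % 6 < hc0 (Λ.ty r c)
  · have h1 := (row_iff h he hg heg (r := r) (c := c - c % 6) hr (c % 6) (by omega) ?_).1
      (col _ (by omega) (by omega) r hr)
    · rwa [show c - c % 6 + c % 6 = c by omega] at h1
    · intro k' hk'
      have hty : Λ.ty r (c - c % 6 + k') = Λ.ty r c := by
        unfold Lay.ty
        rw [show (c - c % 6 + k') / 6 = c / 6 by omega]
      unfold Pc
      rw [hty]
      omega
  · have hc1 : hc1 (Λ.ty r c) ≤ c % 6 := by
      unfold Pc at hp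
      omega
    have h1 := (row_iff h he hg heg (r := r) (c := c) hr (5 - c % 6) (by omega) ?_).2
      (col _ (by omega) (by omega) r hr)
    · exact h1
    · intro k' hk'
      have hty : Λ.ty r (c + k') = Λ.ty r c := by
        unfold Lay.ty
        rw [show (c + k') / 6 = c / 6 by omega]
      unfold Pc
      rw [hty]
      omega

theorem edge_h (h0 : OKc q e g 0 0) (hnb : 0 < Λ.nb) (hr : r ≤ 6 * Λ.nb) (hc : c < 6 * Λ.ng)
    (ha : hAbs (Λ.ty r c) (r % 6) (c % 6) = false) : Pp e (HH q r c) := by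
  by_cases hp : r < 6 * Λ.nb ∧ Pc Λ r c
  · exact (allOK h he hg heg h0 hnb hp.1 hc hp.2).1
  · obtain ⟨r', rfl⟩ : ∃ r', r = r' + 1 := by
      refine ⟨r - 1, ?_⟩
      by_contra hcon
      have hr0 : r = 0 := by omega
      subst hr0
      apply hp
      refine ⟨by omega, ?_⟩
      unfold Pc
      have := (bnd (Λ.ty 0 c)).1
      omega
    have hp' : Pc Λ r' c := by
      rw [hAbs_false] at ha
      have b1 := bnd (Λ.ty r' c)
      by_cases h5 : r' % 6 = 5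
      · unfold Pc
        omega
      · rw [ty_succ_r h5] at ha
        have hp2 : ¬ Pc Λ (r' + 1) c := by
          intro h'
          exact hp ⟨by omega, h'⟩
        unfold Pc at hp2 ⊢
        rw [ty_succ_r h5] at hp2
        omega
    rw [(cell h (by omega) hc hp').1]
    exact (allOK h he hg heg h0 hnb (by omega) hc hp').1

theorem edge_v (h0 : OKc q e g 0 0) (hnb : 0 < Λ.nb) (hng : 0 < Λ.ng) (hr : r < 6 * Λ.nb) (hc : c ≤ 6 * Λ.ng)
    (ha : vAbs (Λ.ty r c) (r % 6) (c % 6) = false) : Pp g (WW q r c) := by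
  by_cases hp : c < 6 * Λ.ng ∧ Pc Λ r c
  · exact (allOK h he hg heg h0 hnb hr hp.1 hp.2).2
  · obtain ⟨c', rfl⟩ : ∃ c', c = c' + 1 := by
      refine ⟨c - 1, ?_⟩
      by_contra hcon
      have hc0 : c = 0 := by omega
      subst hc0
      apply hp
      refine ⟨by omega, ?_⟩
      unfold Pc
      have := (bnd (Λ.ty r 0)).2.1
      omega
    have hp' : Pc Λ r c' := by
      rw [vAbs_false] at ha
      have b1 := bnd (Λ.ty r c')
      by_cases h5 : c' % 6 = 5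
      · unfold Pc
        omega
      · rw [ty_succ_c h5] at ha
        have hp2 : ¬ Pc Λ r (c' + 1) := by
          intro h'
          exact hp ⟨by omega, h'⟩
        unfold Pc at hp2 ⊢
        rw [ty_succ_c h5] at hp2
        omega
    rw [(cell h hr (by omega) hp').2.1]
    exact (allOK h he hg heg h0 hnb hr (by omega) hp').2

end prop

/-- steps along a complete piece of a row -/
theorem rowx {x y : ℕ → ℕ → ℝ} (H : ∀ r c, r ≤ 6 * Λ.nb → c < 6 * Λ.ng →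
      hAbs (Λ.ty r c) (r % 6) (c % 6) = false → y r (c + 1) = y r c ∧ x r c < x r (c + 1))
    (hr : r ≤ 6 * Λ.nb) (k : ℕ) (hc : c + k ≤ 6 * Λ.ng)
    (ha : ∀ k' < k, hAbs (Λ.ty r (c + k')) (r % 6) ((c + k') % 6) = false) :
    y r (c + k) = y r c ∧ (0 < k → x r c < x r (c + k)) := by
  induction k with
  | zero => exact ⟨rfl, fun h => absurd h (lt_irrefl _)⟩
  | succ k ih =>
    obtain ⟨h1, h2⟩ := ih (by omega) fun k' hk' => ha k' (by omega)
    obtain ⟨h3, h4⟩ := H r (c + k) hr (by omega) (ha k (by omega))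
    refine ⟨by rw [← add_assoc, h3, h1], fun _ => ?_⟩
    rcases Nat.eq_zero_or_pos k with rfl | hk
    · exact h4
    · exact (h2 hk).trans h4

theorem colx {x y : ℕ → ℕ → ℝ} (H : ∀ r c, r < 6 * Λ.nb → c ≤ 6 * Λ.ng →
      vAbs (Λ.ty r c) (r % 6) (c % 6) = false → x (r + 1) c = x r c ∧ y r c < y (r + 1) c)
    (hc : c ≤ 6 * Λ.ng) (k : ℕ) (hr : r + k ≤ 6 * Λ.nb)
    (ha : ∀ k' < k, vAbs (Λ.ty (r + k') c) ((r + k') % 6) (c % 6) = false) :
    x (r + k) c = x r c ∧ (0 < k → y r c < y (r + k) c) := by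
  induction k with
  | zero => exact ⟨rfl, fun h => absurd h (lt_irrefl _)⟩
  | succ k ih =>
    obtain ⟨h1, h2⟩ := ih (by omega) fun k' hk' => ha k' (by omega)
    obtain ⟨h3, h4⟩ := H (r + k) c (by omega) hc (ha k (by omega))
    refine ⟨by rw [← add_assoc, h3, h1], fun _ => ?_⟩
    rcases Nat.eq_zero_or_pos k with rfl | hk
    · exact h4
    · exact (h2 hk).trans h4

theorem par3 {a b c d : ℕ} (l0 : a < 4) (l1 : b < 4) (l2 : c < 4) (l3 : d < 4)
    (i01 : a ≠ b) (i02 : a ≠ c) (i03 : a ≠ d) (i12 : b ≠ c) (i13 : b ≠ d) (i23 : c ≠ d) :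
    ((c + a) % 2 = 1 ∧ (c + b) % 2 = 1 ∧ (d + a) % 2 = 1 ∧ (d + b) % 2 = 1) ∨
      ((c + a) % 2 = 1 ∧ (c + d) % 2 = 1 ∧ (b + a) % 2 = 1 ∧ (b + d) % 2 = 1) ∨
      ((c + b) % 2 = 1 ∧ (c + d) % 2 = 1 ∧ (a + b) % 2 = 1 ∧ (a + d) % 2 = 1) := by
  interval_cases a <;> interval_cases b <;> interval_cases c <;> interval_cases d <;> simp_all

end GRh

open GRh

theorem grid_ok : St_grid := by
  intro Λ q hΛ h
  have hnb := hΛ.nb
  have hng := hΛ.ng
  have hp0 : GRh.Pc Λ 0 0 := by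
    unfold GRh.Pc
    have := (bnd (Λ.ty 0 0)).1
    omega
  obtain ⟨-, -, a3, a4, a5⟩ := cell h (r := 0) (c := 0) (by omega) (by omega) hp0
  -- the second direction
  obtain ⟨e, he⟩ : ∃ e, e = HH q 0 0 := ⟨_, rfl⟩
  have he0 : e ≠ 0 := he ▸ a4
  have hJ0 : J e ≠ 0 := by
    intro h'
    apply he0
    have h1 := congrArg Prod.fst h'
    have h2 := congrArg Prod.snd h'
    simp only [J, Prod.fst_zero, Prod.snd_zero] at h1 h2
    exact Prod.ext h2 (neg_eq_zero.1 h1)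
  have hJe : dt (J e) e = 0 := by simp only [J, dt]; ring
  obtain ⟨μ, hμ⟩ := par hJ0 he0 hJe (c := WW q 0 0) (by rw [dt_comm, he]; exact a3)
  obtain ⟨g, hgJ, hgW⟩ : ∃ g, (g = J e ∨ g = -J e) ∧ Pp g (WW q 0 0) := by
    rcases lt_trichotomy μ 0 with h1 | h1 | h1
    · exact ⟨-J e, Or.inr rfl, -μ, by linarith, by rw [hμ, smul_neg, neg_smul, neg_neg]⟩
    · exfalso
      apply a5
      rw [hμ, h1, zero_smul]
    · exact ⟨J e, Or.inl rfl, μ, h1, hμ⟩
  have hg0 : g ≠ 0 := by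
    rcases hgJ with h1 | h1
    · rw [h1]; exact hJ0
    · rw [h1]; exact neg_ne_zero.2 hJ0
  have heg : dt e g = 0 := by
    rcases hgJ with h1 | h1
    · rw [h1, dt_comm]; exact hJe
    · rw [h1, dt_neg_right, dt_comm, hJe, neg_zero]
  have h0 : OKc q e g 0 0 := ⟨⟨1, one_pos, by rw [one_smul, he]⟩, hgW⟩
  -- expansion of the inner product
  have hexp : ∀ u v : ℝ × ℝ, dt u v * dt e e = dt u e * dt v e + dt u g * dt v g := by
    intro u v
    rcases hgJ with h1 | h1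
    · rw [h1]; simp only [dt, J]; ring
    · rw [h1]; simp only [dt, J, Prod.fst_neg, Prod.snd_neg]; ring
  have hee := dt_pos he0
  have hgg := dt_pos hg0
  set x : ℕ → ℕ → ℝ := fun r c => dt (q (.pos r c)) e with hx
  set y : ℕ → ℕ → ℝ := fun r c => dt (q (.pos r c)) g with hy
  have Hh : ∀ r c, r ≤ 6 * Λ.nb → c < 6 * Λ.ng → hAbs (Λ.ty r c) (r % 6) (c % 6) = false →
      y r (c + 1) = y r c ∧ x r c < x r (c + 1) := by
    intro r c hr hc ha
    obtain ⟨s, hs, hse⟩ := edge_h h he0 hg0 heg h0 hnb hr hc ha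
    have e1 : dt (HH q r c) g = 0 := by rw [hse, dt_smul_left, heg, mul_zero]
    have e2 : dt (HH q r c) e = s * dt e e := by rw [hse, dt_smul_left]
    unfold HH at e1 e2
    rw [dt_sub_left] at e1 e2
    have := mul_pos hs hee
    exact ⟨by simp only [hy]; linarith, by simp only [hx]; linarith⟩
  have Hv : ∀ r c, r < 6 * Λ.nb → c ≤ 6 * Λ.ng → vAbs (Λ.ty r c) (r % 6) (c % 6) = false →
      x (r + 1) c = x r c ∧ y r c < y (r + 1) c := by
    intro r c hr hc ha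
    obtain ⟨s, hs, hse⟩ := edge_v h he0 hg0 heg h0 hnb hng hr hc ha
    have e1 : dt (WW q r c) e = 0 := by rw [hse, dt_smul_left, dt_comm, heg, mul_zero]
    have e2 : dt (WW q r c) g = s * dt g g := by rw [hse, dt_smul_left]
    unfold WW at e1 e2
    rw [dt_sub_left] at e1 e2
    have := mul_pos hs hgg
    exact ⟨by simp only [hx]; linarith, by simp only [hy]; linarith⟩
  refine ⟨x, y, Hh, Hv, ?_⟩
  intro i j t hT ht
  have hi : i < Λ.nb := by
    by_contra hcon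
    exact ht (hT ▸ hΛ.out i j (Or.inl (by omega)))
  have hj : j < Λ.ng := by
    by_contra hcon
    exact ht (hT ▸ hΛ.out i j (Or.inr (by omega)))
  obtain ⟨⟨b1, b2, b3, b4⟩, ⟨c1, c2, c3, c4⟩, -, -⟩ := bnd t
  have hty : ∀ ρ γ, ρ < 6 → γ < 6 → Λ.ty (6 * i + ρ) (6 * j + γ) = t := by
    intro ρ γ hρ hγ
    unfold Lay.ty
    rw [show (6 * i + ρ) / 6 = i by omega, show (6 * j + γ) / 6 = j by omega, hT]
  -- row `r0`
  have row : ∀ k, k ≤ hc1 t - hc0 t →
      y (6 * i + hr0 t) (6 * j + hc0 t + k) = y (6 * i + hr0 t) (6 * j + hc0 t) ∧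
      (0 < k → x (6 * i + hr0 t) (6 * j + hc0 t) < x (6 * i + hr0 t) (6 * j + hc0 t + k)) := by
    intro k hk
    refine rowx Hh (by omega) k (by omega) ?_
    intro k' hk'
    rw [add_assoc, hty _ _ (by omega) (by omega), hAbs_false]
    omega
  -- columns
  have col : ∀ γ, γ < 6 → (γ = hc0 t ∨ γ = hc1 t) → ∀ k, k ≤ hr1 t - hr0 t →
      x (6 * i + hr0 t + k) (6 * j + γ) = x (6 * i + hr0 t) (6 * j + γ) ∧
      (0 < k → y (6 * i + hr0 t) (6 * j + γ) < y (6 * i + hr0 t + k) (6 * j + γ)) := by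
    intro γ hγ hγ2 k hk
    refine colx Hv (by omega) k (by omega) ?_
    intro k' hk'
    rw [add_assoc, hty _ _ (by omega) (by omega), vAbs_false]
    omega
  have rB := row (hcB t - hc0 t) (by omega)
  have rC := row (hc1 t - hc0 t) (by omega)
  rw [show 6 * j + hc0 t + (hcB t - hc0 t) = 6 * j + hcB t by omega] at rB
  rw [show 6 * j + hc0 t + (hc1 t - hc0 t) = 6 * j + hc1 t by omega] at rC
  have cD := col (hc0 t) (by omega) (Or.inl rfl) (hr1 t - hr0 t) le_rfl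
  have cC := col (hc1 t) (by omega) (Or.inr rfl) (hrC t - hr0 t) (by omega)
  rw [show 6 * i + hr0 t + (hr1 t - hr0 t) = 6 * i + hr1 t by omega] at cD
  rw [show 6 * i + hr0 t + (hrC t - hr0 t) = 6 * i + hrC t by omega] at cC
  obtain ⟨rB1, rB2⟩ := rB
  obtain ⟨rC1, rC2⟩ := rC
  obtain ⟨cD1, cD2⟩ := cD
  obtain ⟨cC1, cC2⟩ := cC
  have rB2 := rB2 (by omega)
  have rC2 := rC2 (by omega)
  have cD2 := cD2 (by omega)
  have cC2 := cC2 (by omega)
  -- the hub
  have hT0 : Λ.T i j ≠ 0 := by rw [hT]; exact ht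
  have hhub : Λ.isHub (.hub i j) = true := by
    unfold Lay.isHub
    simp only [Bool.and_eq_true, decide_eq_true_eq]
    exact ⟨hi, hj, hT0⟩
  obtain ⟨F, σ, hF, hinj, hlt, hdir⟩ := h.hub _ hhub
  have dC := hdir 0 _ ⟨4, Or.inl (CE.d0 (Λ := Λ) i j hi hj hT0)⟩
  have dD := hdir 1 _ ⟨4, Or.inl (CE.d1 (Λ := Λ) i j hi hj hT0)⟩
  have dA := hdir 2 _ ⟨4, Or.inl (CE.d2 (Λ := Λ) i j hi hj hT0)⟩
  have dB := hdir 3 _ ⟨4, Or.inl (CE.d3 (Λ := Λ) i j hi hj hT0)⟩
  rw [hT] at dC dD dA dB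
  obtain ⟨sC, hsC, eC⟩ := dC
  obtain ⟨sD, hsD, eD⟩ := dD
  obtain ⟨sA, hsA, eA⟩ := dA
  obtain ⟨sB, hsB, eB⟩ := dB
  set A := q (.pos (6 * i + hr0 t) (6 * j + hc0 t)) with hA
  set B := q (.pos (6 * i + hr0 t) (6 * j + hcB t)) with hB
  set C := q (.pos (6 * i + hrC t) (6 * j + hc1 t)) with hC
  set D := q (.pos (6 * i + hr1 t) (6 * j + hc0 t)) with hD
  set O := q (.hub i j) with hO
  have hA' : x (6 * i + hr0 t) (6 * j + hc0 t) = dt A e ∧
    y (6 * i + hr0 t) (6 * j + hc0 t) = dt A g := ⟨rfl, rfl⟩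
  have hB' : x (6 * i + hr0 t) (6 * j + hcB t) = dt B e ∧
    y (6 * i + hr0 t) (6 * j + hcB t) = dt B g := ⟨rfl, rfl⟩
  have hC' : x (6 * i + hrC t) (6 * j + hc1 t) = dt C e ∧
    y (6 * i + hrC t) (6 * j + hc1 t) = dt C g := ⟨rfl, rfl⟩
  have hD' : x (6 * i + hr1 t) (6 * j + hc0 t) = dt D e ∧
    y (6 * i + hr1 t) (6 * j + hc0 t) = dt D g := ⟨rfl, rfl⟩
  -- orthogonality from parities
  have orth : ∀ (m m' : ℕ) (s s' : ℝ), m < 4 → m' < 4 → (σ m + σ m') % 2 = 1 →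
      dt (s • J^[σ m] F) (s' • J^[σ m'] F) = 0 := by
    intro m m' s s' hm hm' hp
    rw [dt_smul_left, dt_smul_right, J_odd F (hlt m hm) (hlt m' hm') hp, mul_zero, mul_zero]
  have i01 : σ 0 ≠ σ 1 := fun h' => absurd (hinj 0 (by omega) 1 (by omega) h') (by omega)
  have i02 : σ 0 ≠ σ 2 := fun h' => absurd (hinj 0 (by omega) 2 (by omega) h') (by omega)
  have i03 : σ 0 ≠ σ 3 := fun h' => absurd (hinj 0 (by omega) 3 (by omega) h') (by omega)
  have i12 : σ 1 ≠ σ 2 := fun h' => absurd (hinj 1 (by omega) 2 (by omega) h') (by omega)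
  have i13 : σ 1 ≠ σ 3 := fun h' => absurd (hinj 1 (by omega) 3 (by omega) h') (by omega)
  have i23 : σ 2 ≠ σ 3 := fun h' => absurd (hinj 2 (by omega) 3 (by omega) h') (by omega)
  have l0 := hlt 0 (by omega)
  have l1 := hlt 1 (by omega)
  have l2 := hlt 2 (by omega)
  have l3 := hlt 3 (by omega)
  have cases3 : ((σ 2 + σ 0) % 2 = 1 ∧ (σ 2 + σ 1) % 2 = 1 ∧ (σ 3 + σ 0) % 2 = 1 ∧
        (σ 3 + σ 1) % 2 = 1) ∨
      ((σ 2 + σ 0) % 2 = 1 ∧ (σ 2 + σ 3) % 2 = 1 ∧ (σ 1 + σ 0) % 2 = 1 ∧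
        (σ 1 + σ 3) % 2 = 1) ∨
      ((σ 2 + σ 1) % 2 = 1 ∧ (σ 2 + σ 3) % 2 = 1 ∧ (σ 0 + σ 1) % 2 = 1 ∧
        (σ 0 + σ 3) % 2 = 1) := par3 l0 l1 l2 l3 i01 i02 i03 i12 i13 i23
  rw [hA'.1, hA'.2, hB'.1, hB'.2, hC'.1, hC'.2, hD'.1, hD'.2]
  rw [hA'.1, hB'.1] at rB2
  rw [hA'.2, hB'.2] at rB1
  rw [hA'.2] at rC1
  rw [hA'.1] at rC2
  rw [hA'.1, hD'.1] at cD1
  rw [hA'.2, hD'.2] at cD2
  rw [hC'.1] at cC1
  rw [hC'.2] at cC2
  rcases cases3 with ⟨g1, g2, g3, g4⟩ | ⟨g1, g2, g3, g4⟩ | ⟨g1, g2, g3, g4⟩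
  · exfalso
    have hz : dt (B - A) (C - D) = 0 := by
      rw [show B - A = (B - O) - (A - O) by abel, show C - D = (C - O) - (D - O) by abel,
        eA, eB, eC, eD, dt_sub_left, dt_sub_right, dt_sub_right,
        orth 3 0 _ _ (by omega) (by omega) g3, orth 3 1 _ _ (by omega) (by omega) g4,
        orth 2 0 _ _ (by omega) (by omega) g1, orth 2 1 _ _ (by omega) (by omega) g2]
      ring
    have h5 := hexp (B - A) (C - D)
    rw [hz, zero_mul, dt_sub_left, dt_sub_left, dt_sub_left, dt_sub_left] at h5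
    have h6 : dt B g - dt A g = 0 := by linarith
    rw [h6, zero_mul, add_zero] at h5
    have h7 : 0 < dt B e - dt A e := by linarith
    have h8 : 0 < dt C e - dt D e := by linarith
    have := mul_pos h7 h8
    linarith
  · exfalso
    have hz : dt (D - A) (C - B) = 0 := by
      rw [show D - A = (D - O) - (A - O) by abel, show C - B = (C - O) - (B - O) by abel,
        eA, eB, eC, eD, dt_sub_left, dt_sub_right, dt_sub_right,
        orth 1 0 _ _ (by omega) (by omega) g3, orth 1 3 _ _ (by omega) (by omega) g4,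
        orth 2 0 _ _ (by omega) (by omega) g1, orth 2 3 _ _ (by omega) (by omega) g2]
      ring
    have h5 := hexp (D - A) (C - B)
    rw [hz, zero_mul, dt_sub_left, dt_sub_left, dt_sub_left, dt_sub_left] at h5
    have h6 : dt D e - dt A e = 0 := by linarith
    rw [h6, zero_mul, zero_add] at h5
    have h7 : 0 < dt D g - dt A g := by linarith
    have h8 : 0 < dt C g - dt B g := by linarith
    have := mul_pos h7 h8
    linarith
  · have hz : dt (C - A) (D - B) = 0 := by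
      rw [show C - A = (C - O) - (A - O) by abel, show D - B = (D - O) - (B - O) by abel,
        eA, eB, eC, eD, dt_sub_left, dt_sub_right, dt_sub_right,
        orth 0 1 _ _ (by omega) (by omega) g3, orth 0 3 _ _ (by omega) (by omega) g4,
        orth 2 1 _ _ (by omega) (by omega) g1, orth 2 3 _ _ (by omega) (by omega) g2]
      ring
    have h5 := hexp (C - A) (D - B)
    rw [hz, zero_mul, dt_sub_left, dt_sub_left, dt_sub_left, dt_sub_left] at h5
    linear_combination h5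

end Pool.Agent.H670R3
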