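import Pool.Agent.H670R3.Stm

/-!
# Soundness of the gadget
-/

namespace Pool.Agent.H670R3

open Pool.Agent.NPC Pool.Agent.H670R2 Pool.Agent.H670R2.Sl

namespace GS

/-! ### Local structure of the gadget -/

/-- list of the neighbours -/
def nbl (x : ℕ) : List ℕ :=
  (gE ++ lE).filterMap fun e => if e.1 = x then some e.2 else if e.2 = x then some e.1 else none

theorem mem_nbl {x y : ℕ} : y ∈ nbl x ↔ gN x y := by
  unfold nbl gN
  rw [List.mem_filterMap]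
  constructor
  · rintro ⟨⟨a, b⟩, he, h⟩
    simp only at h
    split_ifs at h with h1 h2
    · simp only [Option.some.injEq] at h
      subst h1 h
      exact Or.inl he
    · simp only [Option.some.injEq] at h
      subst h2 h
      exact Or.inr he
  · rintro (h | h)
    · exact ⟨(x, y), h, by simp⟩
    · refine ⟨(y, x), h, ?_⟩
      by_cases h1 : y = x
      · subst h1; simp
      · simp [h1]

instance (x y : ℕ) : Decidable (gN x y) := by unfold gN; infer_instance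

theorem gN_symm {x y : ℕ} (h : gN x y) : gN y x := Or.symm h

/-- a vertex with twelve neighbours -/
def Full (x : ℕ) : Prop := (nbl x).length = 12 ∧ (nbl x).Nodup ∧ ∀ j < 4, x ≠ lf j

instance (x : ℕ) : Decidable (Full x) := by unfold Full; infer_instance

/-- the vertices of the gadget -/
def vV (j : ℕ) : ℕ := bs j
def vY (j : ℕ) : ℕ := bs j + 1
def vu (j s : ℕ) : ℕ := bs j + 10 + 14 * s
def vZ (j s : ℕ) : ℕ := bs j + 11 + 14 * s
def vR (j s : ℕ) : ℕ := bs j + 20 + 14 * s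

theorem full0 : Full 0 := by decide +kernel
theorem fullV : ∀ j < 4, Full (vV j) := by decide +kernel
theorem fullY : ∀ j < 4, Full (vY j) := by decide +kernel
theorem fullu : ∀ j < 4, ∀ s < 2, Full (vu j s) := by decide +kernel
theorem fullZ : ∀ j < 4, ∀ s < 2, Full (vZ j s) := by decide +kernel
theorem a1 : ∀ j < 4, gN 0 (vV j) := by decide +kernel
theorem a2 : ∀ j < 4, ∀ s < 2, gN 0 (vu j s) := by decide +kernel
theorem a3 : ∀ j < 4, ∀ s < 2, gN (vu j s) (vZ j s) := by decide +kernel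
theorem a4 : ∀ j < 4, ∀ s < 2, gN (vZ j s) (vV j) := by decide +kernel
theorem a5 : ∀ j < 4, gN (vV j) (vY j) := by decide +kernel
theorem a6 : ∀ j < 4, ∀ s < 2, gN (vZ j s) (vR j s) := by decide +kernel
theorem a7 : ∀ j < 4, ∀ s < 2, gN (vY j) (vR j s) := by decide +kernel
theorem a8 : ∀ j < 4, gN (vY j) (lf j) := by decide +kernel
theorem a9 : ∀ j < 4, ∀ i < 8, gN (vV j) (bs j + 2 + i) ∧ gN (vY j) (bs j + 2 + i) := by
  decide +kernel
theorem a10 : ∀ j < 4, ∀ s < 2, ∀ i < 8, gN (vu j s) (bs j + 12 + 14 * s + i) ∧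
    gN (vZ j s) (bs j + 12 + 14 * s + i) := by decide +kernel
theorem nlR : ∀ j < 4, ∀ s < 2, ∀ i < 4, vR j s ≠ lf i := by decide +kernel

/-- no edge of the gadget ends in a leaf of a port -/
theorem gE_lf : ∀ e ∈ gE, ∀ j < 4, e.1 ≠ lf j ∧ e.2 ≠ lf j := by decide +kernel

/-- a local drawing: the angles are at least thirty degrees, except at the leaves of the ports -/
structure Loc (Q : ℕ → ℝ × ℝ) : Prop where
  ne : ∀ x y, gN x y → Q x ≠ Q y
  ang : ∀ x y z, (∀ j < 4, x ≠ lf j) → gN x y → gN x z → y ≠ z → Ang (Q y - Q x) (Q z - Q x)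

/-- all neighbours of `x` are seen in the directions of `f` -/
def Gd (f : ℝ × ℝ) (Q : ℕ → ℝ × ℝ) (x : ℕ) : Prop := ∀ y, gN x y → ∃ z, Pp (fe f z) (Q y - Q x)

theorem frame_at (h2 : St_frame) {Q : ℕ → ℝ × ℝ} (hQ : Loc Q) {x : ℕ} (hx : Full x) :
    ∃ f, f ≠ 0 ∧ Gd f Q x := by
  obtain ⟨hlen, hnd, hlf⟩ := hx
  have hget : ∀ i : Fin 12, (i : ℕ) < (nbl x).length := fun i => by rw [hlen]; exact i.2
  have hmem : ∀ i : Fin 12, gN x ((nbl x)[(i : ℕ)]'(hget i)) := fun i =>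
    mem_nbl.1 (List.getElem_mem _)
  obtain ⟨f, hf, h⟩ := h2 (fun i => Q ((nbl x)[(i : ℕ)]'(hget i)) - Q x)
    (fun i h => hQ.ne _ _ (hmem i) (sub_eq_zero.1 h).symm)
    (fun i j hij => hQ.ang _ _ _ hlf (hmem i) (hmem j) (fun h => hij (by
      have := (List.Nodup.getElem_inj_iff hnd).1 h
      exact Fin.ext this)))
  refine ⟨f, hf, fun y hy => ?_⟩
  obtain ⟨i, hi, rfl⟩ := List.getElem_of_mem (mem_nbl.2 hy)
  rw [hlen] at hi
  exact h ⟨i, hi⟩

theorem J_J (v : ℝ × ℝ) : J (J v) = -v := by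
  unfold J
  ext <;> simp

theorem fe_six (h1 : St_fe) (f : ℝ × ℝ) (z : ZMod (2 * 6)) : fe f (z + 6) = - fe f z := by
  have e : z + 6 = z + 3 + 3 := by rw [add_assoc]; rfl
  rw [e, h1.three, h1.three, J_J]

theorem Pp_neg {a b : ℝ × ℝ} (h : Pp a b) : Pp (-a) (-b) := by
  obtain ⟨s, hs, rfl⟩ := h
  exact ⟨s, hs, by rw [smul_neg]⟩

theorem Pp_smul {a b : ℝ × ℝ} {t : ℝ} (ht : 0 < t) (h : Pp (t • a) b) : Pp a b := by
  obtain ⟨s, hs, rfl⟩ := h
  exact ⟨s * t, mul_pos hs ht, by rw [smul_smul]⟩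

/-- the frame propagates along edges between full vertices -/
theorem Gd_step (h1 : St_fe) (h2 : St_frame) {Q : ℕ → ℝ × ℝ} (hQ : Loc Q) {f : ℝ × ℝ} (hf : f ≠ 0)
    {x y : ℕ} (hx : Gd f Q x) (hxy : gN x y) (hy : Full y) : Gd f Q y := by
  obtain ⟨f', hf', h⟩ := frame_at h2 hQ hy
  obtain ⟨a, ha⟩ := hx y hxy
  obtain ⟨b, hb⟩ := h x (gN_symm hxy)
  have hb' : Pp (fe f' (b + 6)) (Q y - Q x) := by
    rw [fe_six h1]
    have := Pp_neg hb
    rwa [neg_sub] at this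
  obtain ⟨t, ht, hz⟩ := h1.same f f' hf hf' a (b + 6) _ ha hb'
  intro w hw
  obtain ⟨z, hz'⟩ := h w hw
  rw [hz] at hz'
  exact ⟨_, Pp_smul ht hz'⟩

/-! ### Directions -/

section

variable {Q : ℕ → ℝ × ℝ} {d : DS 6}

theorem dr_rev {x y : ℕ} {z : ZMod (2 * 6)} (h : Dr d Q x y z) : Dr d Q y x (z + 6) := by
  obtain ⟨r, hr, e⟩ := h
  refine ⟨r, hr, ?_⟩
  have h6 : d.e (z + 6) = - d.e z := d.per z
  rw [h6, smul_neg, ← e, neg_sub]

theorem dr_uniq {x y : ℕ} {z z' : ZMod (2 * 6)} (h : Dr d Q x y z) (h' : Dr d Q x y z') :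
    z = z' := by
  obtain ⟨r, hr, e⟩ := h
  obtain ⟨r', hr', e'⟩ := h'
  exact d.dir_unique (by norm_num) hr hr' (by rw [← e, ← e'])

theorem dr_inj (h1 : St_fe) (hQ : Loc Q) {x y y' : ℕ} {z : ZMod (2 * 6)}
    (hx : ∀ j < 4, x ≠ lf j) (hy : gN x y) (hy' : gN x y') (h : Dr d Q x y z)
    (h' : Dr d Q x y' z) : y = y' := by
  by_contra hne
  obtain ⟨r, hr, e⟩ := h
  obtain ⟨r', hr', e'⟩ := h'
  have hP : Pp (Q y - Q x) (Q y' - Q x) := by
    refine ⟨r' / r, by positivity, ?_⟩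
    rw [e, e', smul_smul]
    congr 1
    field_simp
  rcases h1.ang _ _ hP with h | h
  · exact h (hQ.ang x y y' hx hy hy' hne)
  · exact hQ.ne x y hy (sub_eq_zero.1 h).symm

/-- the good vertices -/
def Gx (d : DS 6) (Q : ℕ → ℝ × ℝ) (x : ℕ) : Prop :=
  (∀ j < 4, x ≠ lf j) ∧ ∀ y, gN x y → ∃ z, Dr d Q x y z

theorem book (h1 : St_fe) (h3 : St_book) (hQ : Loc Q) {a b o : ℕ} (ha : Gx d Q a)
    (hb : Gx d Q b) (hab : gN a b) (hoa : a < o + 2) (hob : b < o + 2)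
    (hC : ∀ i < 8, gN a (o + 2 + i) ∧ gN b (o + 2 + i)) {y : ZMod (2 * 6)}
    (hy : Dr d Q a b y) :
    (∀ w z, gN a w → (w < o + 2 ∨ o + 10 ≤ w) → w ≠ b → Dr d Q a w z →
      z = y + 5 ∨ z = y + 6 ∨ z = y + 7) ∧
    (∀ w z, gN b w → (w < o + 2 ∨ o + 10 ≤ w) → w ≠ a → Dr d Q b w z →
      z = y - 1 ∨ z = y ∨ z = y + 1) := by
  have hmem : ∀ c, c ∈ Finset.Icc (o + 2) (o + 9) → ∃ i < 8, c = o + 2 + i := by
    intro c hc
    rw [Finset.mem_Icc] at hc
    exact ⟨c - (o + 2), by omega, by omega⟩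
  have h := h3 ℕ d gN Q a b (Finset.Icc (o + 2) (o + 9)) y
    (by
      intro u hu w hw
      rcases hu with rfl | hu
      · exact ha.2 w hw
      · rw [Set.mem_singleton_iff] at hu
        subst hu
        exact hb.2 w hw)
    (by
      intro u hu v w z hv hw hz hz'
      rcases hu with rfl | hu
      · exact dr_inj h1 hQ ha.1 hv hw hz hz'
      · rw [Set.mem_singleton_iff] at hu
        subst hu
        exact dr_inj h1 hQ hb.1 hv hw hz hz')
    hab (gN_symm hab) hy (by rw [Finset.mem_Icc]; omega) (by rw [Finset.mem_Icc]; omega)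
    (by rw [Nat.card_Icc]; omega)
    (by
      intro c hc
      obtain ⟨i, hi, rfl⟩ := hmem c hc
      exact (hC i hi).1)
    (by
      intro c hc
      obtain ⟨i, hi, rfl⟩ := hmem c hc
      exact (hC i hi).2)
  refine ⟨fun w z hw hwC => h.1 w z hw (by rw [Finset.mem_Icc]; omega),
    fun w z hw hwC => h.2 w z hw (by rw [Finset.mem_Icc]; omega)⟩

theorem ear (h1 : St_fe) (h3 : St_book) (h4 : St_cell) (hQ : Loc Q)
    (hg : ∀ j < 4, Gx d Q (vV j) ∧ Gx d Q (vY j) ∧ ∀ s < 2, Gx d Q (vu j s) ∧ Gx d Q (vZ j s))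
    (hg0 : Gx d Q 0) {j s : ℕ} (hj : j < 4) (hs : s < 2) {x : ZMod (2 * 6)}
    (hx : Dr d Q 0 (vV j) x) : ∃ p r, Dr d Q 0 (vu j s) p ∧ Dr d Q (vZ j s) (vV j) r ∧
      ((p = x - 1 ∧ r = x + 1) ∨ (p = x + 1 ∧ r = x - 1)) := by
  obtain ⟨hV, hY, huZ⟩ := hg j hj
  obtain ⟨hu, hZ⟩ := huZ s hs
  obtain ⟨p, hp⟩ := hg0.2 _ (a2 j hj s hs)
  obtain ⟨q, hq⟩ := hu.2 _ (a3 j hj s hs)
  obtain ⟨r, hr⟩ := hZ.2 _ (a4 j hj s hs)
  have hb := book h1 h3 hQ (a := vu j s) (b := vZ j s) (o := vu j s) hu hZ (a3 j hj s hs)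
    (by omega) (by unfold vu vZ; omega) (by
      intro i hi
      have := a10 j hj s hs i hi
      have e : vu j s + 2 + i = bs j + 12 + 14 * s + i := by unfold vu; omega
      rw [e]
      exact this) hq
  have c1 := hb.1 0 (p + 6) (gN_symm (a2 j hj s hs)) (Or.inl (by omega))
    (by unfold vZ bs; omega) (dr_rev hp)
  have c2 := hb.2 (vV j) r (a4 j hj s hs) (Or.inl (by unfold vV vu; omega))
    (by unfold vV vu; omega) hr
  have c3 : p ≠ x := by
    rintro rfl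
    have := dr_inj h1 hQ hg0.1 (a2 j hj s hs) (a1 j hj) hp hx
    unfold vu vV at this
    omega
  have c4 : r ≠ x := by
    rintro rfl
    have := dr_inj h1 hQ hV.1 (gN_symm (a4 j hj s hs)) (gN_symm (a1 j hj)) (dr_rev hr) (dr_rev hx)
    unfold vZ at this
    omega
  have c1' : p = q - 1 ∨ p = q ∨ p = q + 1 := by
    clear c2 c3 c4 hr hq hp hb
    revert p q
    decide
  have h := h4 d (Q 0) (Q (vu j s)) (Q (vZ j s)) (Q (vV j)) p q r x hp hq hr hx c1' c2 c3 c4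
  obtain ⟨hxq, h⟩ := h
  subst hxq
  exact ⟨p, r, hp, hr, h⟩

theorem pointer (h1 : St_fe) (h3 : St_book) (h4 : St_cell) (hQ : Loc Q)
    (hg : ∀ j < 4, Gx d Q (vV j) ∧ Gx d Q (vY j) ∧ ∀ s < 2, Gx d Q (vu j s) ∧ Gx d Q (vZ j s))
    (hg0 : Gx d Q 0) {j : ℕ} (hj : j < 4) {x : ZMod (2 * 6)}
    (hx : Dr d Q 0 (vV j) x) : ∃ p0 p1, Dr d Q 0 (vu j 0) p0 ∧ Dr d Q 0 (vu j 1) p1 ∧
      ((p0 = x - 1 ∧ p1 = x + 1) ∨ (p0 = x + 1 ∧ p1 = x - 1)) ∧
      Dr d Q (vV j) (vY j) x ∧ Dr d Q (vY j) (lf j) x := by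
  obtain ⟨hV, hY, huZ⟩ := hg j hj
  obtain ⟨p0, r0, hp0, hr0, e0⟩ := ear h1 h3 h4 hQ hg hg0 hj (s := 0) (by norm_num) hx
  obtain ⟨p1, r1, hp1, hr1, e1⟩ := ear h1 h3 h4 hQ hg hg0 hj (s := 1) (by norm_num) hx
  have hne : p0 ≠ p1 := by
    rintro rfl
    have := dr_inj h1 hQ hg0.1 (a2 j hj 0 (by norm_num)) (a2 j hj 1 (by norm_num)) hp0 hp1
    unfold vu at this
    omega
  have hpp : (p0 = x - 1 ∧ p1 = x + 1) ∨ (p0 = x + 1 ∧ p1 = x - 1) := by
    rcases e0 with ⟨a, -⟩ | ⟨a, -⟩ <;> rcases e1 with ⟨b, -⟩ | ⟨b, -⟩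
    · exact absurd (a.trans b.symm) hne
    · exact Or.inl ⟨a, b⟩
    · exact Or.inr ⟨a, b⟩
    · exact absurd (a.trans b.symm) hne
  have hrr : (r0 = x + 1 ∧ r1 = x - 1) ∨ (r0 = x - 1 ∧ r1 = x + 1) := by
    rcases e0 with ⟨a, a'⟩ | ⟨a, a'⟩ <;> rcases e1 with ⟨b, b'⟩ | ⟨b, b'⟩
    · exact absurd (a.trans b.symm) hne
    · exact Or.inl ⟨a', b'⟩
    · exact Or.inr ⟨a', b'⟩
    · exact absurd (a.trans b.symm) hne
  obtain ⟨y, hy⟩ := hV.2 _ (a5 j hj)
  have hb := book h1 h3 hQ (a := vV j) (b := vY j) (o := vV j) hV hY (a5 j hj)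
    (by omega) (by unfold vV vY; omega) (fun i hi => a9 j hj i hi) hy
  have c0 := hb.1 0 (x + 6) (gN_symm (a1 j hj)) (Or.inl (by omega)) (by unfold vY bs; omega)
    (dr_rev hx)
  have c1 := hb.1 (vZ j 0) (r0 + 6) (gN_symm (a4 j hj 0 (by norm_num)))
    (Or.inr (by unfold vZ vV; omega)) (by unfold vZ vY; omega) (dr_rev hr0)
  have c2 := hb.1 (vZ j 1) (r1 + 6) (gN_symm (a4 j hj 1 (by norm_num)))
    (Or.inr (by unfold vZ vV; omega)) (by unfold vZ vY; omega) (dr_rev hr1)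
  have hyx : y = x := by
    have key : ∀ x y r0 r1 : ZMod (2 * 6), ((r0 = x + 1 ∧ r1 = x - 1) ∨ (r0 = x - 1 ∧ r1 = x + 1)) →
        (x + 6 = y + 5 ∨ x + 6 = y + 6 ∨ x + 6 = y + 7) →
        (r0 + 6 = y + 5 ∨ r0 + 6 = y + 6 ∨ r0 + 6 = y + 7) →
        (r1 + 6 = y + 5 ∨ r1 + 6 = y + 6 ∨ r1 + 6 = y + 7) → y = x := by
      have k1 : ∀ x y : ZMod (2 * 6), (x + 6 = y + 5 ∨ x + 6 = y + 6 ∨ x + 6 = y + 7) →
        (x + 1 + 6 = y + 5 ∨ x + 1 + 6 = y + 6 ∨ x + 1 + 6 = y + 7) →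
        (x - 1 + 6 = y + 5 ∨ x - 1 + 6 = y + 6 ∨ x - 1 + 6 = y + 7) → y = x := by
        decide
      rintro x y r0 r1 (⟨rfl, rfl⟩ | ⟨rfl, rfl⟩) b0 b1 b2
      · exact k1 x y b0 b1 b2
      · exact k1 x y b0 b2 b1
    exact key x y r0 r1 hrr c0 c1 c2
  subst hyx
  have cell2 : ∀ s < 2, ∀ r, Dr d Q (vZ j s) (vV j) r → (r = y - 1 ∨ r = y ∨ r = y + 1) →
      ∃ t, Dr d Q (vY j) (vR j s) t ∧ ((r = y - 1 ∧ t = y + 1) ∨ (r = y + 1 ∧ t = y - 1)) := by
    intro s hs r hr hry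
    obtain ⟨hu, hZ⟩ := huZ s hs
    obtain ⟨t, ht⟩ := hY.2 _ (a7 j hj s hs)
    obtain ⟨e, he⟩ := hZ.2 _ (a6 j hj s hs)
    have ht' := hb.2 (vR j s) t (a7 j hj s hs) (Or.inr (by unfold vR vV; omega))
      (by unfold vR vV; omega) ht
    have n1 : r ≠ e := by
      rintro rfl
      have := dr_inj h1 hQ hZ.1 (a4 j hj s hs) (a6 j hj s hs) hr he
      unfold vR vV at this
      omega
    have n2 : t ≠ e := by
      rintro rfl
      have := dr_inj h1 hQ (nlR j hj s hs) (gN_symm (a7 j hj s hs)) (gN_symm (a6 j hj s hs))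
        (dr_rev ht) (dr_rev he)
      unfold vY vZ at this
      omega
    have h := h4 d (Q (vZ j s)) (Q (vV j)) (Q (vY j)) (Q (vR j s)) r y t e hr hy ht he hry ht' n1 n2
    exact ⟨t, ht, h.2⟩
  have hr0' : r0 = y - 1 ∨ r0 = y ∨ r0 = y + 1 := by
    rcases hrr with ⟨h, -⟩ | ⟨h, -⟩
    · exact Or.inr (Or.inr h)
    · exact Or.inl h
  have hr1' : r1 = y - 1 ∨ r1 = y ∨ r1 = y + 1 := by
    rcases hrr with ⟨-, h⟩ | ⟨-, h⟩
    · exact Or.inl h
    · exact Or.inr (Or.inr h)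
  obtain ⟨t0, ht0, f0⟩ := cell2 0 (by norm_num) r0 hr0 hr0'
  obtain ⟨t1, ht1, f1⟩ := cell2 1 (by norm_num) r1 hr1 hr1'
  obtain ⟨m, hm⟩ := hY.2 _ (a8 j hj)
  have hm' := hb.2 (lf j) m (a8 j hj) (Or.inr (by unfold lf vV; omega)) (by unfold lf vV; omega) hm
  have m0 : m ≠ t0 := by
    rintro rfl
    have := dr_inj h1 hQ hY.1 (a8 j hj) (a7 j hj 0 (by norm_num)) hm ht0
    unfold lf vR at this
    omega
  have m1 : m ≠ t1 := by
    rintro rfl
    have := dr_inj h1 hQ hY.1 (a8 j hj) (a7 j hj 1 (by norm_num)) hm ht1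
    unfold lf vR at this
    omega
  have hmy : m = y := by
    have hr01 : r0 ≠ r1 := by
      rcases hrr with ⟨a, b⟩ | ⟨a, b⟩
      · rw [a, b]
        have : ∀ y : ZMod (2 * 6), y + 1 ≠ y - 1 := by decide
        exact this y
      · rw [a, b]
        have : ∀ y : ZMod (2 * 6), y - 1 ≠ y + 1 := by decide
        exact this y
    rcases hm' with h | h | h
    · exfalso
      rcases f0 with ⟨a, b⟩ | ⟨a, b⟩
      · rcases f1 with ⟨a', b'⟩ | ⟨a', b'⟩
        · exact hr01 (a.trans a'.symm)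
        · exact m1 (h.trans b'.symm)
      · exact m0 (h.trans b.symm)
    · exact h
    · exfalso
      rcases f0 with ⟨a, b⟩ | ⟨a, b⟩
      · exact m0 (h.trans b.symm)
      · rcases f1 with ⟨a', b'⟩ | ⟨a', b'⟩
        · exact m1 (h.trans b'.symm)
        · exact hr01 (a.trans a'.symm)
  subst hmy
  exact ⟨p0, p1, hp0, hp1, hpp, hy, hm⟩

end

theorem iter_J (h1 : St_fe) (f : ℝ × ℝ) (z : ZMod (2 * 6)) (m : ℕ) :
    J^[m] (fe f z) = fe f (z + ((3 * m : ℕ) : ZMod (2 * 6))) := by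
  induction m with
  | zero => simp
  | succ m ih =>
    rw [Function.iterate_succ_apply', ih, ← h1.three]
    congr 1
    push_cast
    ring

/-- far apart -/
def far (a b : ZMod (2 * 6)) : Prop :=
  a ≠ b ∧ a ≠ b + 1 ∧ a ≠ b - 1 ∧ a + 1 ≠ b - 1 ∧ a - 1 ≠ b + 1

instance (a b : ZMod (2 * 6)) : Decidable (far a b) := by unfold far; infer_instance

theorem cross : ∀ a b c : ZMod (2 * 6), far a 0 → far b 0 → far c 0 → far a b → far a c →
    far b c → (a = 3 ∨ a = 6 ∨ a = 9) ∧ (b = 3 ∨ b = 6 ∨ b = 9) ∧ (c = 3 ∨ c = 6 ∨ c = 9) := by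
  decide +kernel

theorem far_sub {a b c : ZMod (2 * 6)} (h : far a b) : far (a - c) (b - c) := by
  obtain ⟨k1, k2, k3, k4, k5⟩ := h
  refine ⟨fun h => k1 ?_, fun h => k2 ?_, fun h => k3 ?_, fun h => k4 ?_, fun h => k5 ?_⟩
  · exact sub_left_injective h
  · have : a - c = b + 1 - c := by rw [h]; ring
    exact sub_left_injective this
  · have : a - c = b - 1 - c := by rw [h]; ring
    exact sub_left_injective this
  · have : a + 1 - c = b - 1 - c := by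
      calc a + 1 - c = a - c + 1 := by ring
        _ = b - c - 1 := h
        _ = b - 1 - c := by ring
    exact sub_left_injective this
  · have : a - 1 - c = b + 1 - c := by
      calc a - 1 - c = a - c - 1 := by ring
        _ = b - c + 1 := h
        _ = b + 1 - c := by ring
    exact sub_left_injective this

theorem local_main (h1 : St_fe) (h2 : St_frame) (h3 : St_book) (h4 : St_cell)
    {Q : ℕ → ℝ × ℝ} (hQ : Loc Q) :
    ∃ (f : ℝ × ℝ) (σ : ℕ → ℕ), f ≠ 0 ∧ (∀ j < 4, σ j < 4) ∧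
      (∀ i < 4, ∀ j < 4, σ i = σ j → i = j) ∧ ∀ j < 4,
        Pp (J^[σ j] f) (Q (pt j) - Q 0) ∧ Pp (J^[σ j] f) (Q (lf j) - Q (pt j)) := by
  obtain ⟨f, hf, hG0⟩ := frame_at h2 hQ full0
  have hGV : ∀ j < 4, Gd f Q (vV j) := fun j hj => Gd_step h1 h2 hQ hf hG0 (a1 j hj) (fullV j hj)
  have hGY : ∀ j < 4, Gd f Q (vY j) := fun j hj =>
    Gd_step h1 h2 hQ hf (hGV j hj) (a5 j hj) (fullY j hj)
  have hGu : ∀ j < 4, ∀ s < 2, Gd f Q (vu j s) := fun j hj s hs =>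
    Gd_step h1 h2 hQ hf hG0 (a2 j hj s hs) (fullu j hj s hs)
  have hGZ : ∀ j < 4, ∀ s < 2, Gd f Q (vZ j s) := fun j hj s hs =>
    Gd_step h1 h2 hQ hf (hGu j hj s hs) (a3 j hj s hs) (fullZ j hj s hs)
  obtain ⟨d, hd⟩ := h1.ds f hf
  have conv : ∀ x, Full x → Gd f Q x → Gx d Q x := by
    intro x hx hG
    refine ⟨hx.2.2, fun y hy => ?_⟩
    obtain ⟨z, s, hs, e⟩ := hG y hy
    exact ⟨z, s, hs, by rw [hd]; exact e⟩
  have hg0 := conv 0 full0 hG0
  have hg : ∀ j < 4, Gx d Q (vV j) ∧ Gx d Q (vY j) ∧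
      ∀ s < 2, Gx d Q (vu j s) ∧ Gx d Q (vZ j s) := fun j hj =>
    ⟨conv _ (fullV j hj) (hGV j hj), conv _ (fullY j hj) (hGY j hj), fun s hs =>
      ⟨conv _ (fullu j hj s hs) (hGu j hj s hs), conv _ (fullZ j hj s hs) (hGZ j hj s hs)⟩⟩
  have hxe : ∀ j : ℕ, ∃ x, j < 4 → Dr d Q 0 (vV j) x := by
    intro j
    by_cases hj : j < 4
    · obtain ⟨x, hx⟩ := hg0.2 _ (a1 j hj)
      exact ⟨x, fun _ => hx⟩
    · exact ⟨0, fun h => absurd h hj⟩
  choose x hx using hxe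
  have hptr := fun j (hj : j < 4) => pointer h1 h3 h4 hQ hg hg0 hj (hx j hj)
  have hfar : ∀ i < 4, ∀ j < 4, i ≠ j → far (x i) (x j) := by
    intro i hi j hj hij
    obtain ⟨p0, p1, hp0, hp1, hpp, -, -⟩ := hptr i hi
    obtain ⟨q0, q1, hq0, hq1, hqq, -, -⟩ := hptr j hj
    have nVV : ∀ z, Dr d Q 0 (vV i) z → ∀ w, Dr d Q 0 (vV j) w → z ≠ w := by
      rintro z hz w hw rfl
      have := dr_inj h1 hQ hg0.1 (a1 i hi) (a1 j hj) hz hw
      unfold vV bs at this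
      omega
    have nVu : ∀ s < 2, ∀ z, Dr d Q 0 (vV i) z → ∀ w, Dr d Q 0 (vu j s) w → z ≠ w := by
      rintro s hs z hz w hw rfl
      have := dr_inj h1 hQ hg0.1 (a1 i hi) (a2 j hj s hs) hz hw
      unfold vV vu bs at this
      omega
    have nuu : ∀ s < 2, ∀ s' < 2, ∀ z, Dr d Q 0 (vu i s) z → ∀ w, Dr d Q 0 (vu j s') w → z ≠ w := by
      rintro s hs s' hs' z hz w hw rfl
      have := dr_inj h1 hQ hg0.1 (a2 i hi s hs) (a2 j hj s' hs') hz hw
      unfold vu bs at this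
      omega
    have z0 : (0 : ℕ) < 2 := by norm_num
    have z1 : (1 : ℕ) < 2 := by norm_num
    have k1 := nVV _ (hx i hi) _ (hx j hj)
    have k20 := nVu 0 z0 _ (hx i hi) _ hq0
    have k21 := nVu 1 z1 _ (hx i hi) _ hq1
    have k300 := nuu 0 z0 0 z0 _ hp0 _ hq0
    have k301 := nuu 0 z0 1 z1 _ hp0 _ hq1
    have k310 := nuu 1 z1 0 z0 _ hp1 _ hq0
    have k311 := nuu 1 z1 1 z1 _ hp1 _ hq1
    rcases hpp with ⟨rfl, rfl⟩ | ⟨rfl, rfl⟩ <;> rcases hqq with ⟨rfl, rfl⟩ | ⟨rfl, rfl⟩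
    · exact ⟨k1, k21, k20, k310, k301⟩
    · exact ⟨k1, k20, k21, k311, k300⟩
    · exact ⟨k1, k21, k20, k300, k311⟩
    · exact ⟨k1, k20, k21, k301, k310⟩
  have hc := cross (x 1 - x 0) (x 2 - x 0) (x 3 - x 0)
    (by have := far_sub (c := x 0) (hfar 1 (by norm_num) 0 (by norm_num) (by norm_num))
        rwa [sub_self] at this)
    (by have := far_sub (c := x 0) (hfar 2 (by norm_num) 0 (by norm_num) (by norm_num))
        rwa [sub_self] at this)
    (by have := far_sub (c := x 0) (hfar 3 (by norm_num) 0 (by norm_num) (by norm_num))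
        rwa [sub_self] at this)
    (far_sub (c := x 0) (hfar 1 (by norm_num) 2 (by norm_num) (by norm_num)))
    (far_sub (c := x 0) (hfar 1 (by norm_num) 3 (by norm_num) (by norm_num)))
    (far_sub (c := x 0) (hfar 2 (by norm_num) 3 (by norm_num) (by norm_num)))
  have hσ : ∀ j < 4, x j - x 0 = ((3 * ((x j - x 0).val / 3) : ℕ) : ZMod (2 * 6)) ∧
      (x j - x 0).val / 3 < 4 := by
    have key : ∀ a : ZMod (2 * 6), (a = 0 ∨ a = 3 ∨ a = 6 ∨ a = 9) →
        a = ((3 * (a.val / 3) : ℕ) : ZMod (2 * 6)) ∧ a.val / 3 < 4 := by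
      rintro a (rfl | rfl | rfl | rfl) <;> decide
    intro j hj
    apply key
    interval_cases j
    · left; exact sub_self _
    · right; exact hc.1
    · right; exact hc.2.1
    · right; exact hc.2.2
  have hJ : ∀ j < 4, J^[(x j - x 0).val / 3] (fe f (x 0)) = fe f (x j) := by
    intro j hj
    rw [iter_J h1, ← (hσ j hj).1]
    congr 1
    ring
  refine ⟨fe f (x 0), fun j => (x j - x 0).val / 3, h1.ne f hf _, fun j hj => (hσ j hj).2, ?_, ?_⟩
  · intro i hi j hj hij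
    by_contra hne
    have e1 := (hσ i hi).1
    have e2 := (hσ j hj).1
    simp only at hij
    rw [hij] at e1
    have : x i = x j := by
      have := e1.trans e2.symm
      exact sub_left_injective this
    exact (hfar i hi j hj hne).1 this
  · intro j hj
    simp only
    rw [hJ j hj]
    obtain ⟨-, -, -, -, -, hVY, hYL⟩ := hptr j hj
    obtain ⟨r1, hr1, e1⟩ := hx j hj
    obtain ⟨r2, hr2, e2⟩ := hVY
    obtain ⟨r3, hr3, e3⟩ := hYL
    rw [hd] at e1 e2 e3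
    have ept : pt j = vY j := rfl
    refine ⟨⟨r1 + r2, by positivity, ?_⟩, ⟨r3, hr3, ?_⟩⟩
    · rw [ept, add_smul, ← e1, ← e2]
      abel
    · rw [ept]
      exact e3

end GS

namespace GS

/-- the vertex of the final graph, with chosen outer neighbours of the ports -/
def node (κ : CV) (w : ℕ → CV × ℕ) (x : ℕ) : CV × ℕ :=
  if x = lf 0 then w 0 else if x = lf 1 then w 1 else if x = lf 2 then w 2
  else if x = lf 3 then w 3 else (κ, x)

theorem node_lf (κ : CV) (w : ℕ → CV × ℕ) {j : ℕ} (hj : j < 4) : node κ w (lf j) = w j := by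
  interval_cases j <;> simp [node, lf, bs]

theorem node_ne (κ : CV) (w : ℕ → CV × ℕ) {x : ℕ} (hx : ∀ j < 4, x ≠ lf j) :
    node κ w x = (κ, x) := by
  unfold node
  rw [if_neg (hx 0 (by norm_num)), if_neg (hx 1 (by norm_num)), if_neg (hx 2 (by norm_num)),
    if_neg (hx 3 (by norm_num))]

theorem pt_lf {i j : ℕ} : pt i ≠ lf j := by
  unfold pt lf bs
  omega

theorem mem_lE {x y : ℕ} (h : (x, y) ∈ lE) : ∃ j < 4, x = pt j ∧ y = lf j := by
  unfold lE at h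
  simp only [List.mem_cons, Prod.mk.injEq, List.not_mem_nil, or_false] at h
  rcases h with h | h | h | h
  · exact ⟨0, by norm_num, h⟩
  · exact ⟨1, by norm_num, h⟩
  · exact ⟨2, by norm_num, h⟩
  · exact ⟨3, by norm_num, h⟩

variable {Λ : Lay} {κ : CV}

theorem adj_node (hκ : Λ.isHub κ = true) {w : ℕ → CV × ℕ} (hw : ∀ j < 4, Out Λ κ j (w j))
    {x y : ℕ} (h : gN x y) : Adj Λ (node κ w x) (node κ w y) := by
  have key : ∀ x y, (x, y) ∈ gE ++ lE → Adj Λ (node κ w x) (node κ w y) := by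
    intro x y h
    rcases List.mem_append.1 h with h | h
    · rw [node_ne κ w (fun j hj => (gE_lf _ h j hj).1), node_ne κ w (fun j hj => (gE_lf _ h j hj).2)]
      exact Or.inl (FE.g κ x y hκ h)
    · obtain ⟨j, hj, rfl, rfl⟩ := mem_lE h
      rw [node_lf κ w hj, node_ne κ w (fun i _ => pt_lf)]
      exact (hw j hj).1
  rcases h with h | h
  · exact key x y h
  · exact Or.symm (key y x h)

theorem nb_lf {x i : ℕ} (hi : i < 4) (h : gN x (lf i)) : x = pt i := by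
  rcases h with h | h
  · rcases List.mem_append.1 h with h | h
    · exact absurd rfl (gE_lf _ h i hi).2
    · obtain ⟨j, hj, rfl, e⟩ := mem_lE h
      unfold lf bs at e
      unfold pt bs
      omega
  · rcases List.mem_append.1 h with h | h
    · exact absurd rfl (gE_lf _ h i hi).1
    · obtain ⟨j, hj, e, -⟩ := mem_lE h
      exact absurd e.symm pt_lf

theorem node_inj {w : ℕ → CV × ℕ} (hw : ∀ j < 4, Out Λ κ j (w j))
    {x y z : ℕ} (h : gN x y) (h' : gN x z) (hyz : y ≠ z) : node κ w y ≠ node κ w z := by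
  have key : ∀ i < 4, ∀ z, (∀ j < 4, z ≠ lf j) → w i ≠ (κ, z) := by
    intro i hi z hz e
    rcases (hw i hi).2 with h | h
    · rw [e] at h
      exact h rfl
    · rw [e] at h
      exact hz i hi h
  by_cases hy : ∃ i < 4, y = lf i
  · obtain ⟨i, hi, rfl⟩ := hy
    rw [node_lf κ w hi]
    by_cases hz : ∃ j < 4, z = lf j
    · obtain ⟨j, hj, rfl⟩ := hz
      exfalso
      have e1 := nb_lf hi h
      have e2 := nb_lf hj h'
      apply hyz
      rw [e1] at e2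
      unfold pt bs at e2
      unfold lf bs
      omega
    · push Not at hz
      rw [node_ne κ w hz]
      exact key i hi z hz
  · push Not at hy
    rw [node_ne κ w hy]
    by_cases hz : ∃ j < 4, z = lf j
    · obtain ⟨j, hj, rfl⟩ := hz
      rw [node_lf κ w hj]
      exact (key j hj y hy).symm
    · push Not at hz
      rw [node_ne κ w hz]
      intro e
      exact hyz (congrArg Prod.snd e)

theorem loc_of {P : CV × ℕ → ℝ × ℝ} (hD : Dw Λ P) (hκ : Λ.isHub κ = true) {w : ℕ → CV × ℕ}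
    (hw : ∀ j < 4, Out Λ κ j (w j)) : Loc (fun x => P (node κ w x)) where
  ne := fun x y h => hD.ne _ _ (adj_node hκ hw h)
  ang := fun x y z _ h h' hyz => hD.ang _ _ _ (adj_node hκ hw h) (adj_node hκ hw h')
    (node_inj hw h h' hyz)

theorem CE_ne {κ κ' : CV} {a b : ℕ} (h : CE Λ κ a κ' b) : κ ≠ κ' := by
  cases h <;> simp

theorem exists_out (hκ : Λ.isHub κ = true) {j : ℕ} (hj : j < 4) : ∃ b, Out Λ κ j b := by
  have hen : Λ.en κ j = pt j := by unfold Lay.en; rw [if_pos hκ]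
  by_cases h : ∃ κ', CAdj Λ κ j κ'
  · obtain ⟨κ', b, h | h⟩ := h
    · refine ⟨(κ', Λ.en κ' b), Or.inl ?_, Or.inl (CE_ne h).symm⟩
      have := FE.c κ κ' j b h
      rwa [hen] at this
    · refine ⟨(κ', Λ.en κ' b), Or.inr ?_, Or.inl (CE_ne h)⟩
      have := FE.c κ' κ b j h
      rwa [hen] at this
  · push Not at h
    exact ⟨(κ, lf j), Or.inl (FE.l κ j hκ hj h), Or.inr rfl⟩

theorem Pp_trans' {a a' v v' : ℝ × ℝ} (h : Pp a v) (h' : Pp a' v) (h'' : Pp a' v') :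
    Pp a v' := by
  obtain ⟨s, hs, e⟩ := h
  obtain ⟨s', hs', e'⟩ := h'
  obtain ⟨t, ht, e''⟩ := h''
  refine ⟨t * (s / s'), by positivity, ?_⟩
  have : a' = (s / s') • a := by
    rw [div_eq_inv_mul, mul_smul, ← e, e', smul_smul, inv_mul_cancel₀ hs'.ne', one_smul]
  rw [e'', this, smul_smul]

end GS

open GS in
theorem gsound_ok (h1 : St_fe) (h2 : St_frame) (h3 : St_book) (h4 : St_cell) : St_gsound := by
  intro Λ P hD κ hκ
  have hwe : ∀ j : ℕ, ∃ b, j < 4 → Out Λ κ j b := by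
    intro j
    by_cases hj : j < 4
    · obtain ⟨b, hb⟩ := exists_out hκ hj
      exact ⟨b, fun _ => hb⟩
    · exact ⟨(κ, 0), fun h => absurd h hj⟩
  choose w hw using hwe
  obtain ⟨f, σ, hf, hσ, hinj, h⟩ := local_main h1 h2 h3 h4 (loc_of hD hκ hw)
  have hpt : ∀ (w : ℕ → CV × ℕ) j, node κ w (pt j) = (κ, pt j) := fun w j =>
    node_ne κ w (fun i _ => pt_lf)
  have h0 : ∀ w : ℕ → CV × ℕ, node κ w 0 = (κ, 0) := fun w =>
    node_ne κ w (fun i _ => by unfold lf bs; omega)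
  refine ⟨f, σ, hf, hσ, hinj, fun j hj => ?_⟩
  have hj1 := (h j hj).1
  simp only [hpt, h0] at hj1
  refine ⟨hj1, fun b hb => ?_⟩
  have hw' : ∀ i < 4, Out Λ κ i (Function.update w j b i) := by
    intro i hi
    by_cases hij : i = j
    · subst hij
      rw [Function.update_self]
      exact hb
    · rw [Function.update_of_ne hij]
      exact hw i hi
  obtain ⟨f', σ', -, -, -, h'⟩ := local_main h1 h2 h3 h4 (loc_of hD hκ hw')
  obtain ⟨k1, k2⟩ := h' j hj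
  simp only [hpt, h0] at k1 k2
  rw [node_lf κ _ hj, Function.update_self] at k2
  exact Pp_trans' hj1 k1 k2

end Pool.Agent.H670R3
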