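import Pool.Agent.H670R3.Stm

/-!
# The numbering of the vertices
-/

namespace Pool.Agent.H670R3

open Pool.Agent.NPC Pool.Agent.H670R2 Pool.Agent.H670R2.Sl

theorem li_gE_lt : ∀ e ∈ gE, e.1 < 157 ∧ e.2 < 157 ∧ e.1 ≠ e.2 := by decide +kernel

theorem li_hr0 (t : ℕ) : hr0 t ≤ 5 := by unfold hr0; split <;> omega
theorem li_hrC (t : ℕ) : hrC t ≤ 5 := by unfold hrC; split <;> omega
theorem li_hr1 (t : ℕ) : hr1 t ≤ 5 := by unfold hr1; split <;> [skip; split] <;> omega
theorem li_hc0 (t : ℕ) : hc0 t ≤ 5 := by unfold hc0; split <;> omega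
theorem li_hcB (t : ℕ) : hcB t ≤ 5 := by unfold hcB; split <;> [skip; split] <;> omega
theorem li_hc1 (t : ℕ) : hc1 t ≤ 5 := by
  unfold hc1; split <;> [skip; split <;> [skip; split]] <;> omega

/-- core vertices in range -/
def liR (Λ : Lay) : CV → Prop
  | .pos r c => r ≤ 6 * Λ.nb ∧ c ≤ 6 * Λ.ng
  | .hub i j => i < Λ.nb ∧ j < Λ.ng

theorem liR_isHub {Λ : Lay} {κ : CV} (h : Λ.isHub κ = true) : liR Λ κ := by
  cases κ with
  | pos r c =>
      simp only [Lay.isHub, Bool.and_eq_true, decide_eq_true_eq] at h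
      exact ⟨h.1, h.2.1⟩
  | hub i j =>
      simp only [Lay.isHub, Bool.and_eq_true, decide_eq_true_eq] at h
      exact ⟨h.1, h.2.1⟩

theorem liR_CE {Λ : Lay} {κ κ' : CV} {a a' : ℕ} (h : CE Λ κ a κ' a') : liR Λ κ ∧ liR Λ κ' := by
  cases h with
  | h r c hr hc ha => exact ⟨⟨hr, hc.le⟩, ⟨hr, hc⟩⟩
  | v r c hr hc ha => exact ⟨⟨hr.le, hc⟩, ⟨hr, hc⟩⟩
  | d0 i j hi hj ht =>
      have := li_hrC (Λ.T i j)
      have := li_hc1 (Λ.T i j)
      exact ⟨⟨hi, hj⟩, ⟨by omega, by omega⟩⟩
  | d1 i j hi hj ht =>
      have := li_hr1 (Λ.T i j)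
      have := li_hc0 (Λ.T i j)
      exact ⟨⟨hi, hj⟩, ⟨by omega, by omega⟩⟩
  | d2 i j hi hj ht =>
      have := li_hr0 (Λ.T i j)
      have := li_hc0 (Λ.T i j)
      exact ⟨⟨hi, hj⟩, ⟨by omega, by omega⟩⟩
  | d3 i j hi hj ht =>
      have := li_hr0 (Λ.T i j)
      have := li_hcB (Λ.T i j)
      exact ⟨⟨hi, hj⟩, ⟨by omega, by omega⟩⟩

theorem li_CE_port {Λ : Lay} {κ κ' : CV} {a a' : ℕ} (h : CE Λ κ a κ' a') :
    a < 4 ∧ (a' < 4 ∨ (a' = 4 ∧ ∃ r c, κ' = .pos r c ∧ isPl (Λ.ty r c) (r % 6) (c % 6) = true)) := by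
  cases h with
  | h r c hr hc ha => exact ⟨by omega, Or.inl (by omega)⟩
  | v r c hr hc ha => exact ⟨by omega, Or.inl (by omega)⟩
  | d0 i j hi hj ht =>
      refine ⟨by omega, Or.inr ⟨rfl, _, _, rfl, ?_⟩⟩
      have h1 := li_hrC (Λ.T i j)
      have h2 := li_hc1 (Λ.T i j)
      have e1 : (6 * i + hrC (Λ.T i j)) / 6 = i := by omega
      have e2 : (6 * j + hc1 (Λ.T i j)) / 6 = j := by omega
      have e3 : (6 * i + hrC (Λ.T i j)) % 6 = hrC (Λ.T i j) := by omega
      have e4 : (6 * j + hc1 (Λ.T i j)) % 6 = hc1 (Λ.T i j) := by omega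
      simp only [Lay.ty, e1, e2, e3, e4, isPl, decide_eq_true_eq]
      exact ⟨ht, by simp⟩
  | d1 i j hi hj ht =>
      refine ⟨by omega, Or.inr ⟨rfl, _, _, rfl, ?_⟩⟩
      have h1 := li_hr1 (Λ.T i j)
      have h2 := li_hc0 (Λ.T i j)
      have e1 : (6 * i + hr1 (Λ.T i j)) / 6 = i := by omega
      have e2 : (6 * j + hc0 (Λ.T i j)) / 6 = j := by omega
      have e3 : (6 * i + hr1 (Λ.T i j)) % 6 = hr1 (Λ.T i j) := by omega
      have e4 : (6 * j + hc0 (Λ.T i j)) % 6 = hc0 (Λ.T i j) := by omega
      simp only [Lay.ty, e1, e2, e3, e4, isPl, decide_eq_true_eq]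
      exact ⟨ht, by simp⟩
  | d2 i j hi hj ht =>
      refine ⟨by omega, Or.inr ⟨rfl, _, _, rfl, ?_⟩⟩
      have h1 := li_hr0 (Λ.T i j)
      have h2 := li_hc0 (Λ.T i j)
      have e1 : (6 * i + hr0 (Λ.T i j)) / 6 = i := by omega
      have e2 : (6 * j + hc0 (Λ.T i j)) / 6 = j := by omega
      have e3 : (6 * i + hr0 (Λ.T i j)) % 6 = hr0 (Λ.T i j) := by omega
      have e4 : (6 * j + hc0 (Λ.T i j)) % 6 = hc0 (Λ.T i j) := by omega
      simp only [Lay.ty, e1, e2, e3, e4, isPl, decide_eq_true_eq]
      exact ⟨ht, by simp⟩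
  | d3 i j hi hj ht =>
      refine ⟨by omega, Or.inr ⟨rfl, _, _, rfl, ?_⟩⟩
      have h1 := li_hr0 (Λ.T i j)
      have h2 := li_hcB (Λ.T i j)
      have e1 : (6 * i + hr0 (Λ.T i j)) / 6 = i := by omega
      have e2 : (6 * j + hcB (Λ.T i j)) / 6 = j := by omega
      have e3 : (6 * i + hr0 (Λ.T i j)) % 6 = hr0 (Λ.T i j) := by omega
      have e4 : (6 * j + hcB (Λ.T i j)) % 6 = hcB (Λ.T i j) := by omega
      simp only [Lay.ty, e1, e2, e3, e4, isPl, decide_eq_true_eq]
      exact ⟨ht, by simp⟩

theorem li_en_lt {Λ : Lay} (κ : CV) {a : ℕ} (h : a < 4 ∨ Λ.isHub κ = false) :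
    Λ.en κ a < 157 := by
  unfold Lay.en
  split
  · rename_i hh
    rcases h with h | h
    · unfold pt bs; omega
    · rw [h] at hh; simp at hh
  · omega

theorem li_FE_R {Λ : Lay} {a b : CV × ℕ} (h : FE Λ a b) :
    (liR Λ a.1 ∧ a.2 < 157) ∧ (liR Λ b.1 ∧ b.2 < 157) := by
  cases h with
  | g κ x y h hxy =>
      have := li_gE_lt _ hxy
      exact ⟨⟨liR_isHub h, this.1⟩, ⟨liR_isHub h, this.2.1⟩⟩
  | l κ j h hj hu =>
      refine ⟨⟨liR_isHub h, ?_⟩, ⟨liR_isHub h, ?_⟩⟩
      · simp only [pt, bs]; omega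
      · simp only [lf, bs]; omega
  | c κ κ' a a' h =>
      obtain ⟨h1, h2⟩ := liR_CE h
      obtain ⟨h3, h4⟩ := li_CE_port h
      refine ⟨⟨h1, li_en_lt _ (Or.inl h3)⟩, ⟨h2, li_en_lt _ ?_⟩⟩
      rcases h4 with h4 | ⟨-, r, c, rfl, h4⟩
      · exact Or.inl h4
      · right
        simp [Lay.isHub, isHb, h4]

theorem li_live {Λ : Lay} {a : CV × ℕ} (h : Live Λ a) : liR Λ a.1 ∧ a.2 < 157 := by
  obtain ⟨b, h | h⟩ := h
  · exact (li_FE_R h).1
  · exact (li_FE_R h).2

theorem li_cv_lt {Λ : Lay} {κ : CV} (h : liR Λ κ) : Λ.cv κ < nCore Λ.nb Λ.ng := by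
  cases κ with
  | pos r c =>
      obtain ⟨h1, h2⟩ := h
      simp only [Lay.cv, cpos, nCore]
      have : (r + 1) * (6 * Λ.ng + 1) ≤ (6 * Λ.nb + 1) * (6 * Λ.ng + 1) :=
        Nat.mul_le_mul_right _ (by omega)
      rw [Nat.add_mul r 1, one_mul] at this
      omega
  | hub i j =>
      obtain ⟨h1, h2⟩ := h
      simp only [Lay.cv, chub, nCore]
      have : (i + 1) * Λ.ng ≤ Λ.nb * Λ.ng := Nat.mul_le_mul_right _ h1
      rw [Nat.add_mul i 1, one_mul] at this
      omega

theorem li_cv_inj {Λ : Lay} {κ κ' : CV} (h : liR Λ κ) (h' : liR Λ κ') (e : Λ.cv κ = Λ.cv κ') :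
    κ = κ' := by
  have key : ∀ r c, r ≤ 6 * Λ.nb → c ≤ 6 * Λ.ng →
      cpos Λ.ng r c < (6 * Λ.nb + 1) * (6 * Λ.ng + 1) := by
    intro r c h1 h2
    simp only [cpos]
    have : (r + 1) * (6 * Λ.ng + 1) ≤ (6 * Λ.nb + 1) * (6 * Λ.ng + 1) :=
        Nat.mul_le_mul_right _ (by omega)
    rw [Nat.add_mul r 1, one_mul] at this
    omega
  cases κ with
  | pos r c =>
      cases κ' with
      | pos r' c' =>
          simp only [Lay.cv, cpos] at e
          obtain ⟨rfl, rfl⟩ := grid_inj (K := 6 * Λ.ng + 1) (by have := h.2; omega)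
            (by have := h'.2; omega) e
          rfl
      | hub i' j' =>
          have := key r c h.1 h.2
          simp only [Lay.cv, chub] at e
          omega
  | hub i j =>
      cases κ' with
      | pos r' c' =>
          have := key r' c' h'.1 h'.2
          simp only [Lay.cv, chub] at e
          omega
      | hub i' j' =>
          simp only [Lay.cv, chub] at e
          obtain ⟨rfl, rfl⟩ := grid_inj (K := Λ.ng) (i := i) (i' := i') h.2 h'.2 (by omega)
          rfl

theorem li_used {Λ : Lay} {r c a : ℕ} (hr : r ≤ 6 * Λ.nb) (hc : c ≤ 6 * Λ.ng) (ha : a < 4) :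
    usedB Λ r c a = true ↔ ∃ κ', CAdj Λ (.pos r c) a κ' := by
  constructor
  · intro h
    unfold usedB at h
    split at h
    · rename_i h0
      subst h0
      simp only [Bool.and_eq_true, decide_eq_true_eq, Bool.not_eq_true'] at h
      exact ⟨_, _, Or.inl (CE.h r c hr h.1 h.2)⟩
    · split at h
      · rename_i h0
        subst h0
        simp only [Bool.and_eq_true, decide_eq_true_eq, Bool.not_eq_true'] at h
        exact ⟨_, _, Or.inl (CE.v r c h.1 hc h.2)⟩
      · split at h
        · rename_i h0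
          subst h0
          simp only [Bool.and_eq_true, decide_eq_true_eq, Bool.not_eq_true'] at h
          have := CE.h (Λ := Λ) r (c - 1) hr (by omega) h.2
          rw [Nat.sub_add_cancel (by omega)] at this
          exact ⟨_, _, Or.inr this⟩
        · have h3 : a = 3 := by omega
          subst h3
          simp only [Bool.and_eq_true, decide_eq_true_eq, Bool.not_eq_true'] at h
          have := CE.v (Λ := Λ) (r - 1) c (by omega) hc h.2
          rw [Nat.sub_add_cancel (by omega)] at this
          exact ⟨_, _, Or.inr this⟩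
  · rintro ⟨κ', b, h | h⟩
    · cases h with
      | h _ _ hr' hc' ha' => simp [usedB, hc', ha']
      | v _ _ hr' hc' ha' => simp [usedB, hr', ha']
    · cases h with
      | h _ c' hr' hc' ha' => simp [usedB, ha']
      | v r' _ hr' hc' ha' => simp [usedB, ha']
      | d0 => omega
      | d1 => omega
      | d2 => omega
      | d3 => omega

theorem li_ePt {Λ : Lay} (r c a : ℕ) : ePt Λ r c a = Λ.code (.pos r c, Λ.en (.pos r c) a) := rfl

theorem li_hub_en {Λ : Lay} {i j : ℕ} (hi : i < Λ.nb) (hj : j < Λ.ng) (ht : Λ.T i j ≠ 0) (a : ℕ) :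
    chub Λ.nb Λ.ng i j * 157 + pt a = Λ.code (.hub i j, Λ.en (.hub i j) a) := by
  have : Λ.isHub (.hub i j) = true := by simp [Lay.isHub, hi, hj, ht]
  simp only [Lay.code, Lay.en, this, if_true, Lay.cv]

theorem li_mem {Λ : Lay} (e : ℕ × ℕ) :
    e ∈ eList Λ ↔ ∃ a b, FE Λ a b ∧ e = (Λ.code a, Λ.code b) := by
  constructor
  · intro h
    simp only [eList, List.mem_append, List.mem_flatMap, List.mem_range] at h
    rcases h with ⟨r, hr, c, hc, h⟩ | ⟨i, hi, j, hj, h⟩
    · simp only [eGrid, List.mem_append] at h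
      rcases h with h | h | h
      · split at h
        · rename_i hh
          simp only [List.mem_append, List.mem_map, List.mem_flatMap, List.mem_range] at h
          rcases h with ⟨x, hx, rfl⟩ | ⟨a, ha, h⟩
          · exact ⟨(.pos r c, x.1), (.pos r c, x.2), FE.g _ _ _ hh hx, rfl⟩
          · split at h
            · simp at h
            · rename_i hu
              simp only [List.mem_singleton] at h
              refine ⟨(.pos r c, pt a), (.pos r c, lf a), FE.l _ _ hh ha ?_, h⟩
              intro κ' hκ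
              exact hu ((li_used (by omega) (by omega) ha).2 ⟨κ', hκ⟩)
        · simp at h
      · split at h
        · rename_i hu
          simp only [List.mem_singleton] at h
          simp only [usedB, if_true, Bool.and_eq_true, decide_eq_true_eq, Bool.not_eq_true'] at hu
          exact ⟨_, _, FE.c _ _ _ _ (CE.h r c (by omega) hu.1 hu.2), h⟩
        · simp at h
      · split at h
        · rename_i hu
          simp only [List.mem_singleton] at h
          simp only [usedB, one_ne_zero, if_false, if_true, Bool.and_eq_true, decide_eq_true_eq,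
            Bool.not_eq_true'] at hu
          exact ⟨_, _, FE.c _ _ _ _ (CE.v r c hu.1 (by omega) hu.2), h⟩
        · simp at h
    · unfold eHole at h
      split at h
      · rename_i ht
        simp only [List.mem_append, List.mem_map, List.mem_cons, List.not_mem_nil, or_false] at h
        have hh : Λ.isHub (.hub i j) = true := by simp [Lay.isHub, hi, hj, ht]
        rcases h with ⟨x, hx, rfl⟩ | h | h | h | h
        · exact ⟨(.hub i j, x.1), (.hub i j, x.2), FE.g _ _ _ hh hx, rfl⟩
        · exact ⟨_, _, FE.c _ _ _ _ (CE.d0 i j hi hj ht), by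
            rw [h, li_hub_en hi hj ht 0, li_ePt]⟩
        · exact ⟨_, _, FE.c _ _ _ _ (CE.d1 i j hi hj ht), by
            rw [h, li_hub_en hi hj ht 1, li_ePt]⟩
        · exact ⟨_, _, FE.c _ _ _ _ (CE.d2 i j hi hj ht), by
            rw [h, li_hub_en hi hj ht 2, li_ePt]⟩
        · exact ⟨_, _, FE.c _ _ _ _ (CE.d3 i j hi hj ht), by
            rw [h, li_hub_en hi hj ht 3, li_ePt]⟩
      · simp at h
  · rintro ⟨a, b, h, rfl⟩
    simp only [eList, List.mem_append, List.mem_flatMap, List.mem_range]
    cases h with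
    | g κ x y h hxy =>
        cases κ with
        | pos r c =>
            obtain ⟨h1, h2⟩ := liR_isHub h
            refine Or.inl ⟨r, by omega, c, by omega, ?_⟩
            simp only [eGrid, h, if_true, List.mem_append, List.mem_map]
            exact Or.inl (Or.inl ⟨(x, y), hxy, rfl⟩)
        | hub i j =>
            obtain ⟨h1, h2⟩ := liR_isHub h
            refine Or.inr ⟨i, h1, j, h2, ?_⟩
            have ht : Λ.T i j ≠ 0 := by
              simp only [Lay.isHub, Bool.and_eq_true, decide_eq_true_eq] at h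
              exact h.2.2
            simp only [eHole, ne_eq, ht, not_false_eq_true, if_true, List.mem_append, List.mem_map]
            exact Or.inl ⟨(x, y), hxy, rfl⟩
    | l κ j h hj hu =>
        cases κ with
        | pos r c =>
            obtain ⟨h1, h2⟩ := liR_isHub h
            refine Or.inl ⟨r, by omega, c, by omega, ?_⟩
            simp only [eGrid, h, if_true, List.mem_append, List.mem_map, List.mem_flatMap,
              List.mem_range]
            refine Or.inl (Or.inr ⟨j, hj, ?_⟩)
            have : ¬ usedB Λ r c j = true := by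
              intro h3
              obtain ⟨κ', h4⟩ := (li_used h1 h2 hj).1 h3
              exact hu κ' h4
            rw [if_neg this, List.mem_singleton]
            rfl
        | hub i k =>
            exfalso
            obtain ⟨h1, h2⟩ := liR_isHub h
            have ht : Λ.T i k ≠ 0 := by
              simp only [Lay.isHub, Bool.and_eq_true, decide_eq_true_eq] at h
              exact h.2.2
            interval_cases j
            · exact hu _ ⟨_, Or.inl (CE.d0 i k h1 h2 ht)⟩
            · exact hu _ ⟨_, Or.inl (CE.d1 i k h1 h2 ht)⟩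
            · exact hu _ ⟨_, Or.inl (CE.d2 i k h1 h2 ht)⟩
            · exact hu _ ⟨_, Or.inl (CE.d3 i k h1 h2 ht)⟩
    | c κ κ' a a' h =>
        cases h with
        | h r c hr hc ha =>
            refine Or.inl ⟨r, by omega, c, by omega, ?_⟩
            simp only [eGrid, List.mem_append]
            refine Or.inr (Or.inl ?_)
            have : usedB Λ r c 0 = true := by simp [usedB, hc, ha]
            rw [if_pos this, List.mem_singleton]
            rfl
        | v r c hr hc ha =>
            refine Or.inl ⟨r, by omega, c, by omega, ?_⟩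
            simp only [eGrid, List.mem_append]
            refine Or.inr (Or.inr ?_)
            have : usedB Λ r c 1 = true := by simp [usedB, hr, ha]
            rw [if_pos this, List.mem_singleton]
            rfl
        | d0 i j hi hj ht =>
            refine Or.inr ⟨i, hi, j, hj, ?_⟩
            simp only [eHole, ne_eq, ht, not_false_eq_true, if_true, List.mem_append, List.mem_cons,
              List.not_mem_nil, or_false]
            refine Or.inr (Or.inl ?_)
            rw [li_hub_en hi hj ht 0, li_ePt]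
        | d1 i j hi hj ht =>
            refine Or.inr ⟨i, hi, j, hj, ?_⟩
            simp only [eHole, ne_eq, ht, not_false_eq_true, if_true, List.mem_append, List.mem_cons,
              List.not_mem_nil, or_false]
            refine Or.inr (Or.inr (Or.inl ?_))
            rw [li_hub_en hi hj ht 1, li_ePt]
        | d2 i j hi hj ht =>
            refine Or.inr ⟨i, hi, j, hj, ?_⟩
            simp only [eHole, ne_eq, ht, not_false_eq_true, if_true, List.mem_append, List.mem_cons,
              List.not_mem_nil, or_false]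
            refine Or.inr (Or.inr (Or.inr (Or.inl ?_)))
            rw [li_hub_en hi hj ht 2, li_ePt]
        | d3 i j hi hj ht =>
            refine Or.inr ⟨i, hi, j, hj, ?_⟩
            simp only [eHole, ne_eq, ht, not_false_eq_true, if_true, List.mem_append, List.mem_cons,
              List.not_mem_nil, or_false]
            refine Or.inr (Or.inr (Or.inr (Or.inr ?_)))
            rw [li_hub_en hi hj ht 3, li_ePt]

theorem li_FE_ne {Λ : Lay} {a b : CV × ℕ} (h : FE Λ a b) : a ≠ b := by
  cases h with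
  | g κ x y h hxy =>
      intro he
      rw [Prod.mk.injEq] at he
      exact (li_gE_lt _ hxy).2.2 he.2
  | l κ j h hj hu =>
      intro he
      rw [Prod.mk.injEq] at he
      simp only [pt, lf, bs] at he
      omega
  | c κ κ' a a' h =>
      intro he
      rw [Prod.mk.injEq] at he
      obtain ⟨he, -⟩ := he
      cases h with
      | h r c hr hc ha => simp at he
      | v r c hr hc ha => simp at he
      | d0 => cases he
      | d1 => cases he
      | d2 => cases he
      | d3 => cases he

theorem list_ok : St_list where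
  mem := fun Λ _ e => li_mem e
  lt := by
    intro Λ _ a ha
    obtain ⟨h1, h2⟩ := li_live ha
    have := li_cv_lt h1
    simp only [Lay.code]
    omega
  inj := by
    intro Λ _ a b ha hb h
    obtain ⟨h1, h2⟩ := li_live ha
    obtain ⟨h3, h4⟩ := li_live hb
    simp only [Lay.code] at h
    have e1 : Λ.cv a.1 = Λ.cv b.1 := by omega
    have e2 : a.2 = b.2 := by omega
    exact Prod.ext (li_cv_inj h1 h3 e1) e2
  ne := by
    intro Λ _ a b h
    rcases h with h | h
    · exact li_FE_ne h
    · exact (li_FE_ne h).symm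

end Pool.Agent.H670R3
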