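import Pool.Agent.H670R3.Stm2
import Pool.Agent.H671R2.PolyAuto

/-!
# The graph is computable in polynomial time
-/

namespace Pool.Agent.H670R3

open Pool.Agent.NPC Pool.Agent.NPC.ER Pool.Agent.H670R2 Pool.Agent.H670R2.Sl

section

variable {α : Type} [TEnc α]

theorem p1_ty {I : α → Sy} {i j : α → ℕ} (hI : NPC.Poly I) (hi : NPC.Poly i)
    (hj : NPC.Poly j) : NPC.Poly (fun a => tyOf (I a) (i a) (j a)) := by
  unfold tyOf
  fun_prop

attribute [fun_prop] p1_ty

theorem p1_hr0 {t : α → ℕ} (ht : NPC.Poly t) : NPC.Poly (fun a => hr0 (t a)) := by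
  unfold hr0
  have h1 : NPC.Poly fun _ : α => 3 := NPC.Poly.const _
  have h2 : NPC.Poly fun _ : α => 1 := NPC.Poly.const _
  fun_prop

theorem p1_hrC {t : α → ℕ} (ht : NPC.Poly t) : NPC.Poly (fun a => hrC (t a)) := by
  unfold hrC
  fun_prop

theorem p1_hr1 {t : α → ℕ} (ht : NPC.Poly t) : NPC.Poly (fun a => hr1 (t a)) := by
  unfold hr1
  fun_prop

theorem p1_hc0 {t : α → ℕ} (ht : NPC.Poly t) : NPC.Poly (fun a => hc0 (t a)) := by
  unfold hc0
  fun_prop

theorem p1_hcB {t : α → ℕ} (ht : NPC.Poly t) : NPC.Poly (fun a => hcB (t a)) := by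
  unfold hcB
  fun_prop

theorem p1_hc1 {t : α → ℕ} (ht : NPC.Poly t) : NPC.Poly (fun a => hc1 (t a)) := by
  unfold hc1
  fun_prop

attribute [fun_prop] p1_hr0 p1_hrC p1_hr1 p1_hc0 p1_hcB p1_hc1

theorem p1_hAbs {t r c : α → ℕ} (ht : NPC.Poly t) (hr : NPC.Poly r) (hc : NPC.Poly c) :
    NPC.Poly (fun a => hAbs (t a) (r a) (c a)) := by
  unfold hAbs
  simp only [ne_eq]
  fun_prop

theorem p1_vAbs {t r c : α → ℕ} (ht : NPC.Poly t) (hr : NPC.Poly r) (hc : NPC.Poly c) :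
    NPC.Poly (fun a => vAbs (t a) (r a) (c a)) := by
  unfold vAbs
  simp only [ne_eq]
  fun_prop

theorem p1_isPl {t r c : α → ℕ} (ht : NPC.Poly t) (hr : NPC.Poly r) (hc : NPC.Poly c) :
    NPC.Poly (fun a => isPl (t a) (r a) (c a)) := by
  unfold isPl
  simp only [ne_eq]
  fun_prop

theorem p1_isIn {t r c : α → ℕ} (ht : NPC.Poly t) (hr : NPC.Poly r) (hc : NPC.Poly c) :
    NPC.Poly (fun a => isIn (t a) (r a) (c a)) := by
  unfold isIn
  simp only [ne_eq]
  fun_prop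

attribute [fun_prop] p1_hAbs p1_vAbs p1_isPl p1_isIn

theorem p1_isHb {t r c : α → ℕ} (ht : NPC.Poly t) (hr : NPC.Poly r) (hc : NPC.Poly c) :
    NPC.Poly (fun a => isHb (t a) (r a) (c a)) := by
  unfold isHb
  fun_prop

attribute [fun_prop] p1_isHb

theorem p1_Ty {I : α → Sy} {r c : α → ℕ} (hI : NPC.Poly I) (hr : NPC.Poly r)
    (hc : NPC.Poly c) : NPC.Poly (fun a => (lay (I a)).ty (r a) (c a)) := by
  unfold Lay.ty lay
  fun_prop

theorem p1_T {I : α → Sy} {r c : α → ℕ} (hI : NPC.Poly I) (hr : NPC.Poly r)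
    (hc : NPC.Poly c) : NPC.Poly (fun a => (lay (I a)).T (r a) (c a)) := by
  unfold lay
  fun_prop

theorem p1_nb {I : α → Sy} (hI : NPC.Poly I) : NPC.Poly (fun a => (lay (I a)).nb) := by
  unfold lay
  fun_prop

theorem p1_ng {I : α → Sy} (hI : NPC.Poly I) : NPC.Poly (fun a => (lay (I a)).ng) := by
  unfold lay
  fun_prop

attribute [fun_prop] p1_Ty p1_T p1_nb p1_ng

theorem p1_isHub {I : α → Sy} {r c : α → ℕ} (hI : NPC.Poly I) (hr : NPC.Poly r)
    (hc : NPC.Poly c) : NPC.Poly (fun a => (lay (I a)).isHub (.pos (r a) (c a))) := by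
  unfold Lay.isHub
  fun_prop

attribute [fun_prop] p1_isHub

theorem p1_usedB {I : α → Sy} {r c k : α → ℕ} (hI : NPC.Poly I) (hr : NPC.Poly r)
    (hc : NPC.Poly c) (hk : NPC.Poly k) :
    NPC.Poly (fun a => usedB (lay (I a)) (r a) (c a) (k a)) := by
  unfold usedB
  fun_prop

attribute [fun_prop] p1_usedB

theorem p1_cpos {g r c : α → ℕ} (hg : NPC.Poly g) (hr : NPC.Poly r)
    (hc : NPC.Poly c) : NPC.Poly (fun a => cpos (g a) (r a) (c a)) := by
  unfold cpos
  fun_prop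

theorem p1_chub {b g r c : α → ℕ} (hb : NPC.Poly b) (hg : NPC.Poly g) (hr : NPC.Poly r)
    (hc : NPC.Poly c) : NPC.Poly (fun a => chub (b a) (g a) (r a) (c a)) := by
  unfold chub
  fun_prop

theorem p1_pt {k : α → ℕ} (hk : NPC.Poly k) : NPC.Poly (fun a => pt (k a)) := by
  unfold pt bs
  fun_prop

theorem p1_lf {k : α → ℕ} (hk : NPC.Poly k) : NPC.Poly (fun a => lf (k a)) := by
  unfold lf bs
  fun_prop

attribute [fun_prop] p1_cpos p1_chub p1_pt p1_lf

theorem p1_ePt {I : α → Sy} {r c k : α → ℕ} (hI : NPC.Poly I) (hr : NPC.Poly r)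
    (hc : NPC.Poly c) (hk : NPC.Poly k) :
    NPC.Poly (fun a => ePt (lay (I a)) (r a) (c a) (k a)) := by
  unfold ePt
  fun_prop

attribute [fun_prop] p1_ePt

theorem p1_gE : NPC.Poly (fun _ : α => gE) := NPC.Poly.const _

theorem p1_r4 : NPC.Poly (fun _ : α => List.range 4) := NPC.Poly.const _

attribute [fun_prop] p1_gE p1_r4

attribute [local irreducible] gE usedB ePt cpos chub pt lf Lay.isHub lay tyOf hr0 hrC hr1 hc0
  hcB hc1

theorem p1_copy {x : α → ℕ} (hx : NPC.Poly x) :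
    NPC.Poly (fun a => gE.map (fun e => (x a * 157 + e.1, x a * 157 + e.2))) := by
  have h1 : NPC.Poly (fun p : α × (ℕ × ℕ) => x p.1) := hx.comp (NPC.Poly.fst NPC.Poly.id)
  have h2 : NPC.Poly (fun p : α × (ℕ × ℕ) => p.2.1) :=
    NPC.Poly.fst (NPC.Poly.snd NPC.Poly.id)
  have h3 : NPC.Poly (fun p : α × (ℕ × ℕ) => p.2.2) :=
    NPC.Poly.snd (NPC.Poly.snd NPC.Poly.id)
  have h4 : NPC.Poly (fun _ : α × (ℕ × ℕ) => 157) := NPC.Poly.const _
  exact NPC.Poly.map (F := fun a e => (x a * 157 + e.1, x a * 157 + e.2)) p1_gE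
    (NPC.Poly.pair (NPC.Poly.add (NPC.Poly.mul h1 h4) h2)
      (NPC.Poly.add (NPC.Poly.mul h1 h4) h3))

theorem p1_leaves {I : α → Sy} {r c x : α → ℕ} (hI : NPC.Poly I) (hr : NPC.Poly r)
    (hc : NPC.Poly c) (hx : NPC.Poly x) :
    NPC.Poly (fun a => (List.range 4).flatMap fun k =>
      if usedB (lay (I a)) (r a) (c a) k = true then [] else
        [(x a * 157 + pt k, x a * 157 + lf k)]) := by
  have hf : NPC.Poly (fun p : α × ℕ => p.1) := NPC.Poly.fst NPC.Poly.id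
  have hk : NPC.Poly (fun p : α × ℕ => p.2) := NPC.Poly.snd NPC.Poly.id
  have h4 : NPC.Poly (fun _ : α × ℕ => 157) := NPC.Poly.const _
  have h5 : NPC.Poly (fun _ : α × ℕ => ([] : List (ℕ × ℕ))) := NPC.Poly.const _
  have hx1 : NPC.Poly (fun p : α × ℕ => x p.1) := hx.comp hf
  have hu : NPC.Poly (fun p : α × ℕ => usedB (lay (I p.1)) (r p.1) (c p.1) p.2) :=
    p1_usedB (hI.comp hf) (hr.comp hf) (hc.comp hf) hk
  refine NPC.Poly.flatMap (F := fun a k =>
      if usedB (lay (I a)) (r a) (c a) k = true then [] else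
        [(x a * 157 + pt k, x a * 157 + lf k)]) p1_r4
    (NPC.Poly.ite (NPC.Poly.decide_bool hu) h5 (NPC.Poly.cons ?_ h5))
  exact NPC.Poly.pair (NPC.Poly.add (NPC.Poly.mul hx1 h4) (p1_pt hk))
    (NPC.Poly.add (NPC.Poly.mul hx1 h4) (p1_lf hk))

theorem p1_edge {b : α → Bool} {x y : α → ℕ} (hb : NPC.Poly b) (hx : NPC.Poly x)
    (hy : NPC.Poly y) :
    NPC.Poly (fun a => if b a = true then [(x a, y a)] else []) :=
  NPC.Poly.ite (NPC.Poly.decide_bool hb) (NPC.Poly.cons (NPC.Poly.pair hx hy) (NPC.Poly.const []))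
    (NPC.Poly.const [])

theorem p1_eGrid {I : α → Sy} {r c : α → ℕ} (hI : NPC.Poly I) (hr : NPC.Poly r)
    (hc : NPC.Poly c) : NPC.Poly (fun a => eGrid (lay (I a)) (r a) (c a)) := by
  have h0 : NPC.Poly (fun _ : α => 0) := NPC.Poly.const _
  have h1 : NPC.Poly (fun _ : α => 1) := NPC.Poly.const _
  have h2 : NPC.Poly (fun _ : α => 2) := NPC.Poly.const _
  have h3 : NPC.Poly (fun _ : α => 3) := NPC.Poly.const _
  have hr1 : NPC.Poly (fun a => r a + 1) := NPC.Poly.add hr h1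
  have hc1 : NPC.Poly (fun a => c a + 1) := NPC.Poly.add hc h1
  have hx : NPC.Poly (fun a => cpos (lay (I a)).ng (r a) (c a)) := p1_cpos (p1_ng hI) hr hc
  unfold eGrid
  exact NPC.Poly.append (NPC.Poly.ite (NPC.Poly.decide_bool (p1_isHub hI hr hc))
      (NPC.Poly.append (p1_copy hx) (p1_leaves hI hr hc hx)) (NPC.Poly.const []))
    (NPC.Poly.append (p1_edge (p1_usedB hI hr hc h0) (p1_ePt hI hr hc h0) (p1_ePt hI hr hc1 h2))
      (p1_edge (p1_usedB hI hr hc h1) (p1_ePt hI hr hc h1) (p1_ePt hI hr1 hc h3)))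

theorem p1_eHole {I : α → Sy} {r c : α → ℕ} (hI : NPC.Poly I) (hr : NPC.Poly r)
    (hc : NPC.Poly c) : NPC.Poly (fun a => eHole (lay (I a)) (r a) (c a)) := by
  have h0 : NPC.Poly (fun _ : α => 0) := NPC.Poly.const _
  have h1 : NPC.Poly (fun _ : α => 1) := NPC.Poly.const _
  have h2 : NPC.Poly (fun _ : α => 2) := NPC.Poly.const _
  have h3 : NPC.Poly (fun _ : α => 3) := NPC.Poly.const _
  have h4 : NPC.Poly (fun _ : α => 4) := NPC.Poly.const _
  have h6 : NPC.Poly (fun _ : α => 6) := NPC.Poly.const _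
  have h157 : NPC.Poly (fun _ : α => 157) := NPC.Poly.const _
  have hT : NPC.Poly (fun a => (lay (I a)).T (r a) (c a)) := p1_T hI hr hc
  have hr6 : NPC.Poly (fun a => 6 * r a) := NPC.Poly.mul h6 hr
  have hc6 : NPC.Poly (fun a => 6 * c a) := NPC.Poly.mul h6 hc
  have hx : NPC.Poly (fun a => chub (lay (I a)).nb (lay (I a)).ng (r a) (c a)) :=
    p1_chub (p1_nb hI) (p1_ng hI) hr hc
  have hp : ∀ {k : α → ℕ}, NPC.Poly k → NPC.Poly (fun a =>
      chub (lay (I a)).nb (lay (I a)).ng (r a) (c a) * 157 + pt (k a)) := fun hk =>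
    NPC.Poly.add (NPC.Poly.mul hx h157) (p1_pt hk)
  have hd : NPC.Poly (fun a => decide ((lay (I a)).T (r a) (c a) ≠ 0)) := by
    simp only [ne_eq]
    exact NPC.Poly.decide_not (NPC.Poly.decide_eq hT h0)
  unfold eHole
  refine NPC.Poly.ite hd (NPC.Poly.append (p1_copy hx) (NPC.Poly.cons ?_ (NPC.Poly.cons ?_
    (NPC.Poly.cons ?_ (NPC.Poly.cons ?_ (NPC.Poly.const [])))))) (NPC.Poly.const [])
  · exact NPC.Poly.pair (hp h0) (p1_ePt hI (NPC.Poly.add hr6 (p1_hrC hT))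
      (NPC.Poly.add hc6 (p1_hc1 hT)) h4)
  · exact NPC.Poly.pair (hp h1) (p1_ePt hI (NPC.Poly.add hr6 (p1_hr1 hT))
      (NPC.Poly.add hc6 (p1_hc0 hT)) h4)
  · exact NPC.Poly.pair (hp h2) (p1_ePt hI (NPC.Poly.add hr6 (p1_hr0 hT))
      (NPC.Poly.add hc6 (p1_hc0 hT)) h4)
  · exact NPC.Poly.pair (hp h3) (p1_ePt hI (NPC.Poly.add hr6 (p1_hr0 hT))
      (NPC.Poly.add hc6 (p1_hcB hT)) h4)

end

theorem poly1_ok : St_poly1 := by
  intro α inst I hI1 hI
  have hnb : UPoly fun a => (lay (I a)).nb := by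
    unfold lay
    exact hI1.add (UPoly.length (by fun_prop))
  have hng : UPoly fun a => (lay (I a)).ng := by
    unfold lay
    exact (((UPoly.const 3).mul (UPoly.length (by fun_prop))).add
      (UPoly.length (by fun_prop))).add (UPoly.length (by fun_prop))
  have hf : NPC.Poly (fun p : α × ℕ => p.1) := NPC.Poly.fst NPC.Poly.id
  have hff : NPC.Poly (fun p : (α × ℕ) × ℕ => p.1.1) := NPC.Poly.fst (NPC.Poly.fst NPC.Poly.id)
  have hfs : NPC.Poly (fun p : (α × ℕ) × ℕ => p.1.2) := NPC.Poly.snd (NPC.Poly.fst NPC.Poly.id)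
  have hs : NPC.Poly (fun p : (α × ℕ) × ℕ => p.2) := NPC.Poly.snd NPC.Poly.id
  have hR : UPoly fun a => 6 * (lay (I a)).nb + 1 := ((UPoly.const 6).mul hnb).add (UPoly.const 1)
  have hC : UPoly fun a => 6 * (lay (I a)).ng + 1 := ((UPoly.const 6).mul hng).add (UPoly.const 1)
  have h1 : NPC.Poly fun a => (List.range (6 * (lay (I a)).nb + 1)).flatMap fun r =>
      (List.range (6 * (lay (I a)).ng + 1)).flatMap fun c => eGrid (lay (I a)) r c := by
    refine NPC.Poly.flatMap (F := fun a r =>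
      (List.range (6 * (lay (I a)).ng + 1)).flatMap fun c => eGrid (lay (I a)) r c) hR.range ?_
    refine NPC.Poly.flatMap (F := fun (p : α × ℕ) c => eGrid (lay (I p.1)) p.2 c)
      (hC.range.comp hf) ?_
    exact p1_eGrid (hI.comp hff) hfs hs
  have h2 : NPC.Poly fun a => (List.range (lay (I a)).nb).flatMap fun i =>
      (List.range (lay (I a)).ng).flatMap fun j => eHole (lay (I a)) i j := by
    refine NPC.Poly.flatMap (F := fun a i =>
      (List.range (lay (I a)).ng).flatMap fun j => eHole (lay (I a)) i j) hnb.range ?_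
    refine NPC.Poly.flatMap (F := fun (p : α × ℕ) j => eHole (lay (I p.1)) p.2 j)
      (hng.range.comp hf) ?_
    exact p1_eHole (hI.comp hff) hfs hs
  have hN : UPoly fun a => nCore (lay (I a)).nb (lay (I a)).ng * 157 := by
    unfold nCore
    exact ((hR.mul hC).add (hnb.mul hng)).mul (UPoly.const 157)
  exact Pool.Agent.NPC.H670R2.poly_adjLists hN (NPC.Poly.append h1 h2)

end Pool.Agent.H670R3
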