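import Pool.Agent.H670R3.Stm

/-! Task SA (helper488): the layout of a system is a layout; from the coordinates of the grid to a solution. -/

set_option autoImplicit false

namespace Pool.Agent.H670R3

namespace SA

/-! ### The types -/

theorem ty_le (I : Sy) (i j : ℕ) : tyOf I i j ≤ 5 := by
  unfold tyOf
  split_ifs <;> omega

theorem ty_five {I : Sy} {i j : ℕ} (h : tyOf I i j = 5) : j < I.2.1.length ∧ i = I.1 + j := by
  unfold tyOf at h
  split_ifs at h <;> first | omega | (constructor <;> assumption)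

theorem ty_three {I : Sy} {i j : ℕ} (h : tyOf I i j = 3) :
    3 * I.2.1.length ≤ j ∧ j < 3 * I.2.1.length + I.2.2.1.length ∧
      i = (I.2.2.1.getD (j - 3 * I.2.1.length) (0, 0, 0)).2.2 := by
  unfold tyOf at h
  split_ifs at h <;> first | omega | (refine ⟨by omega, by omega, ?_⟩; assumption)

theorem getD_mem {α : Type} {l : List α} {k : ℕ} (h : k < l.length) (d : α) : l.getD k d ∈ l := by
  rw [List.getD_eq_getElem _ _ h]
  exact List.getElem_mem h

/-! ### The absent edges -/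

theorem hAbs_one (t γ : ℕ) : hAbs t 1 γ = false := by
  unfold hAbs
  rw [decide_eq_false_iff_not]
  rintro ⟨-, h, -⟩
  unfold hr0 at h
  split_ifs at h <;> omega

theorem hAbs_five {t : ℕ} (γ : ℕ) (ht : t ≤ 5) : hAbs t 5 γ = false := by
  unfold hAbs
  rw [decide_eq_false_iff_not]
  rintro ⟨-, -, h, -⟩
  unfold hr1 at h
  split_ifs at h <;> omega

theorem hAbs_three {t : ℕ} (γ : ℕ) (ht : t ≤ 5) (h5 : t ≠ 5) : hAbs t 3 γ = false := by
  unfold hAbs
  rw [decide_eq_false_iff_not]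
  rintro ⟨-, h, h', -⟩
  unfold hr0 at h
  unfold hr1 at h'
  split_ifs at h h' <;> omega

theorem hAbs_right (t ρ : ℕ) : hAbs t ρ 5 = false := by
  unfold hAbs
  rw [decide_eq_false_iff_not]
  rintro ⟨-, -, -, -, h⟩
  unfold hc1 at h
  split_ifs at h <;> omega

theorem vAbs_zero (t ρ : ℕ) : vAbs t ρ 0 = false := by
  unfold vAbs
  rw [decide_eq_false_iff_not]
  rintro ⟨-, h, -⟩
  omega

theorem vAbs_one (t ρ : ℕ) : vAbs t ρ 1 = false := by
  unfold vAbs
  rw [decide_eq_false_iff_not]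
  rintro ⟨-, h, -⟩
  unfold hc0 at h
  split_ifs at h <;> omega

theorem vAbs_five (t ρ : ℕ) : vAbs t ρ 5 = false := by
  unfold vAbs
  rw [decide_eq_false_iff_not]
  rintro ⟨-, -, h, -⟩
  unfold hc1 at h
  split_ifs at h <;> omega

theorem vAbs_three {t : ℕ} (ρ : ℕ) (h3 : t ≠ 3) (h5 : t ≠ 5) : vAbs t ρ 3 = false := by
  unfold vAbs
  rw [decide_eq_false_iff_not]
  rintro ⟨-, h, h', -⟩
  unfold hc0 at h
  unfold hc1 at h'
  split_ifs at h h' <;> omega

theorem vAbs_bot (t γ : ℕ) : vAbs t 0 γ = false := by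
  unfold vAbs
  rw [decide_eq_false_iff_not]
  rintro ⟨-, -, -, h, -⟩
  unfold hr0 at h
  split_ifs at h <;> omega

section Grid

variable {Λ : Lay} {x y : ℕ → ℕ → ℝ} (hG : Grd Λ x y)

include hG

theorem hE {i j ρ γ : ℕ} (hi : i < Λ.nb) (hj : j < Λ.ng) (hρ : ρ < 6) (hγ : γ < 6)
    (ha : hAbs (Λ.T i j) ρ γ = false) :
    y (6 * i + ρ) (6 * j + γ + 1) = y (6 * i + ρ) (6 * j + γ) ∧
      x (6 * i + ρ) (6 * j + γ) < x (6 * i + ρ) (6 * j + γ + 1) := by
  have h1 : (6 * i + ρ) / 6 = i := by omega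
  have h2 : (6 * i + ρ) % 6 = ρ := by omega
  have h3 : (6 * j + γ) / 6 = j := by omega
  have h4 : (6 * j + γ) % 6 = γ := by omega
  apply hG.h _ _ (by omega) (by omega)
  unfold Lay.ty
  rw [h1, h2, h3, h4]
  exact ha

theorem vE {i j ρ γ : ℕ} (hi : i < Λ.nb) (hj : j < Λ.ng) (hρ : ρ < 6) (hγ : γ < 6)
    (ha : vAbs (Λ.T i j) ρ γ = false) :
    x (6 * i + ρ + 1) (6 * j + γ) = x (6 * i + ρ) (6 * j + γ) ∧
      y (6 * i + ρ) (6 * j + γ) < y (6 * i + ρ + 1) (6 * j + γ) := by
  have h1 : (6 * i + ρ) / 6 = i := by omega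
  have h2 : (6 * i + ρ) % 6 = ρ := by omega
  have h3 : (6 * j + γ) / 6 = j := by omega
  have h4 : (6 * j + γ) % 6 = γ := by omega
  apply hG.v _ _ (by omega) (by omega)
  unfold Lay.ty
  rw [h1, h2, h3, h4]
  exact ha

/-- a row is straight -/
theorem row {i ρ : ℕ} (hi : i < Λ.nb) (hρ : ρ < 6) (c0 : ℕ)
    (ha : ∀ j γ, c0 ≤ 6 * j + γ → γ < 6 → hAbs (Λ.T i j) ρ γ = false) :
    ∀ c, c0 ≤ c → c ≤ 6 * Λ.ng → y (6 * i + ρ) c = y (6 * i + ρ) c0 := by
  intro c hc
  induction c, hc using Nat.le_induction with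
  | base => intro _; rfl
  | succ c hc ih =>
    intro hcn
    rw [← ih (by omega)]
    have h := (hE hG (i := i) (j := c / 6) (ρ := ρ) (γ := c % 6) hi (by omega) hρ (by omega)
      (ha _ _ (by omega) (by omega))).1
    have h6 : 6 * (c / 6) + c % 6 = c := by omega
    rw [h6] at h
    exact h

/-- a column is straight -/
theorem col {j γ : ℕ} (hj : j < Λ.ng) (hγ : γ < 6) (r1 : ℕ)
    (ha : ∀ i ρ, 6 * i + ρ < r1 → ρ < 6 → vAbs (Λ.T i j) ρ γ = false) :
    ∀ r, r ≤ r1 → r ≤ 6 * Λ.nb → x r (6 * j + γ) = x 0 (6 * j + γ) := by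
  intro r
  induction r with
  | zero => intro _ _; rfl
  | succ r ih =>
    intro h1 h2
    rw [← ih (by omega) (by omega)]
    have h := (vE hG (i := r / 6) (j := j) (ρ := r % 6) (γ := γ) (by omega) hj (by omega) hγ
      (ha _ _ (by omega) (by omega))).1
    have h6 : 6 * (r / 6) + r % 6 = r := by omega
    rw [h6] at h
    exact h

variable (hle : ∀ i j, Λ.T i j ≤ 5)

include hle in
theorem row1 {i : ℕ} (hi : i < Λ.nb) {c : ℕ} (hc : c ≤ 6 * Λ.ng) :
    y (6 * i + 1) c = y (6 * i + 1) 0 :=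
  row hG hi (by norm_num) 0 (fun _ _ _ _ => hAbs_one _ _) c (Nat.zero_le _) hc

include hle in
theorem row5 {i : ℕ} (hi : i < Λ.nb) {c : ℕ} (hc : c ≤ 6 * Λ.ng) :
    y (6 * i + 5) c = y (6 * i + 5) 0 :=
  row hG hi (by norm_num) 0 (fun _ _ _ _ => hAbs_five _ (hle _ _)) c (Nat.zero_le _) hc

theorem col1 {j : ℕ} (hj : j < Λ.ng) {r : ℕ} (hr : r ≤ 6 * Λ.nb) :
    x r (6 * j + 1) = x 0 (6 * j + 1) :=
  col hG hj (by norm_num) r (fun _ _ _ _ => vAbs_one _ _) r le_rfl hr

theorem col5 {j : ℕ} (hj : j < Λ.ng) {r : ℕ} (hr : r ≤ 6 * Λ.nb) :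
    x r (6 * j + 5) = x 0 (6 * j + 5) :=
  col hG hj (by norm_num) r (fun _ _ _ _ => vAbs_five _ _) r le_rfl hr

/-- the third column below the first block of type three or five -/
theorem col3 {j : ℕ} (hj : j < Λ.ng) (i0 : ℕ) (ha : ∀ i < i0, Λ.T i j ≠ 3 ∧ Λ.T i j ≠ 5) {r : ℕ}
    (hr : r ≤ 6 * i0 + 1) (hr' : r ≤ 6 * Λ.nb) : x r (6 * j + 3) = x 0 (6 * j + 3) := by
  apply col hG hj (by norm_num) (6 * i0 + 1) _ r hr hr'
  intro i ρ h1 h2
  by_cases hi : i < i0
  · exact vAbs_three _ (ha i hi).1 (ha i hi).2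
  · have : ρ = 0 := by omega
    rw [this]
    exact vAbs_bot _ _

/-- type one -/
theorem t1 {i j : ℕ} (hi : i < Λ.nb) (hj : j < Λ.ng) (ht : Λ.T i j = 1) :
    x (6 * i + 1) (6 * j + 3) - x (6 * i + 1) (6 * j + 1) =
      y (6 * i + 3) (6 * j + 1) - y (6 * i + 1) (6 * j + 1) ∧
    x (6 * i + 3) (6 * j + 3) = x (6 * i + 1) (6 * j + 3) := by
  have a1 := hE hG (i := i) (j := j) (ρ := 1) (γ := 1) hi hj (by norm_num) (by norm_num) (by rw [ht]; rfl)
  have a2 := hE hG (i := i) (j := j) (ρ := 1) (γ := 2) hi hj (by norm_num) (by norm_num) (by rw [ht]; rfl)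
  have b1 := hE hG (i := i) (j := j) (ρ := 3) (γ := 1) hi hj (by norm_num) (by norm_num) (by rw [ht]; rfl)
  have b2 := hE hG (i := i) (j := j) (ρ := 3) (γ := 2) hi hj (by norm_num) (by norm_num) (by rw [ht]; rfl)
  have c1 := vE hG (i := i) (j := j) (ρ := 1) (γ := 1) hi hj (by norm_num) (by norm_num) (by rw [ht]; rfl)
  have c2 := vE hG (i := i) (j := j) (ρ := 2) (γ := 1) hi hj (by norm_num) (by norm_num) (by rw [ht]; rfl)
  have d1 := vE hG (i := i) (j := j) (ρ := 1) (γ := 3) hi hj (by norm_num) (by norm_num) (by rw [ht]; rfl)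
  have d2 := vE hG (i := i) (j := j) (ρ := 2) (γ := 3) hi hj (by norm_num) (by norm_num) (by rw [ht]; rfl)
  have hd := hG.d i j 1 ht (by norm_num)
  have e1 : hrC 1 = 3 := rfl
  have e2 : hc1 1 = 3 := rfl
  have e3 : hr0 1 = 1 := rfl
  have e4 : hc0 1 = 1 := rfl
  have e5 : hcB 1 = 3 := rfl
  have e6 : hr1 1 = 3 := rfl
  rw [e1, e2, e3, e4, e5, e6] at hd
  simp only [add_assoc] at a1 a2 b1 b2 c1 c2 d1 d2
  norm_num at a1 a2 b1 b2 c1 c2 d1 d2
  rw [d2.1, d1.1, c2.1, c1.1, b2.1, b1.1, a2.1, a1.1] at hd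
  refine ⟨?_, by rw [d2.1, d1.1]⟩
  have hA : 0 < x (6 * i + 1) (6 * j + 3) - x (6 * i + 1) (6 * j + 1) := by linarith [a1.2, a2.2]
  have hB : 0 < y (6 * i + 3) (6 * j + 1) - y (6 * i + 1) (6 * j + 1) := by linarith [c1.2, c2.2]
  rw [← sq, ← sq] at hd
  exact (pow_left_inj₀ hA.le hB.le two_ne_zero).1 hd

/-- type two -/
theorem t2 {i j : ℕ} (hi : i < Λ.nb) (hj : j < Λ.ng) (ht : Λ.T i j = 2) :
    x (6 * i + 1) (6 * j + 5) - x (6 * i + 1) (6 * j + 3) =
      y (6 * i + 3) (6 * j + 3) - y (6 * i + 1) (6 * j + 3) := by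
  have a1 := hE hG (i := i) (j := j) (ρ := 1) (γ := 3) hi hj (by norm_num) (by norm_num) (by rw [ht]; rfl)
  have a2 := hE hG (i := i) (j := j) (ρ := 1) (γ := 4) hi hj (by norm_num) (by norm_num) (by rw [ht]; rfl)
  have b1 := hE hG (i := i) (j := j) (ρ := 3) (γ := 3) hi hj (by norm_num) (by norm_num) (by rw [ht]; rfl)
  have b2 := hE hG (i := i) (j := j) (ρ := 3) (γ := 4) hi hj (by norm_num) (by norm_num) (by rw [ht]; rfl)
  have c1 := vE hG (i := i) (j := j) (ρ := 1) (γ := 3) hi hj (by norm_num) (by norm_num) (by rw [ht]; rfl)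
  have c2 := vE hG (i := i) (j := j) (ρ := 2) (γ := 3) hi hj (by norm_num) (by norm_num) (by rw [ht]; rfl)
  have d1 := vE hG (i := i) (j := j) (ρ := 1) (γ := 5) hi hj (by norm_num) (by norm_num) (by rw [ht]; rfl)
  have d2 := vE hG (i := i) (j := j) (ρ := 2) (γ := 5) hi hj (by norm_num) (by norm_num) (by rw [ht]; rfl)
  have hd := hG.d i j 2 ht (by norm_num)
  have e1 : hrC 2 = 3 := rfl
  have e2 : hc1 2 = 5 := rfl
  have e3 : hr0 2 = 1 := rfl
  have e4 : hc0 2 = 3 := rfl
  have e5 : hcB 2 = 5 := rfl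
  have e6 : hr1 2 = 3 := rfl
  rw [e1, e2, e3, e4, e5, e6] at hd
  simp only [add_assoc] at a1 a2 b1 b2 c1 c2 d1 d2
  norm_num at a1 a2 b1 b2 c1 c2 d1 d2
  rw [d2.1, d1.1, c2.1, c1.1, b2.1, b1.1, a2.1, a1.1] at hd
  have hA : 0 < x (6 * i + 1) (6 * j + 5) - x (6 * i + 1) (6 * j + 3) := by linarith [a1.2, a2.2]
  have hB : 0 < y (6 * i + 3) (6 * j + 3) - y (6 * i + 1) (6 * j + 3) := by linarith [c1.2, c2.2]
  rw [← sq, ← sq] at hd
  exact (pow_left_inj₀ hA.le hB.le two_ne_zero).1 hd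

/-- type three -/
theorem t3 {i j : ℕ} (hi : i < Λ.nb) (hj : j < Λ.ng) (ht : Λ.T i j = 3) :
    x (6 * i + 1) (6 * j + 5) - x (6 * i + 1) (6 * j + 1) =
      y (6 * i + 3) (6 * j + 1) - y (6 * i + 1) (6 * j + 1) := by
  have a1 := hE hG (i := i) (j := j) (ρ := 1) (γ := 1) hi hj (by norm_num) (by norm_num) (by rw [ht]; rfl)
  have a2 := hE hG (i := i) (j := j) (ρ := 1) (γ := 2) hi hj (by norm_num) (by norm_num) (by rw [ht]; rfl)
  have a3 := hE hG (i := i) (j := j) (ρ := 1) (γ := 3) hi hj (by norm_num) (by norm_num) (by rw [ht]; rfl)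
  have a4 := hE hG (i := i) (j := j) (ρ := 1) (γ := 4) hi hj (by norm_num) (by norm_num) (by rw [ht]; rfl)
  have b1 := hE hG (i := i) (j := j) (ρ := 3) (γ := 1) hi hj (by norm_num) (by norm_num) (by rw [ht]; rfl)
  have b2 := hE hG (i := i) (j := j) (ρ := 3) (γ := 2) hi hj (by norm_num) (by norm_num) (by rw [ht]; rfl)
  have b3 := hE hG (i := i) (j := j) (ρ := 3) (γ := 3) hi hj (by norm_num) (by norm_num) (by rw [ht]; rfl)
  have b4 := hE hG (i := i) (j := j) (ρ := 3) (γ := 4) hi hj (by norm_num) (by norm_num) (by rw [ht]; rfl)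
  have c1 := vE hG (i := i) (j := j) (ρ := 1) (γ := 1) hi hj (by norm_num) (by norm_num) (by rw [ht]; rfl)
  have c2 := vE hG (i := i) (j := j) (ρ := 2) (γ := 1) hi hj (by norm_num) (by norm_num) (by rw [ht]; rfl)
  have d1 := vE hG (i := i) (j := j) (ρ := 1) (γ := 5) hi hj (by norm_num) (by norm_num) (by rw [ht]; rfl)
  have d2 := vE hG (i := i) (j := j) (ρ := 2) (γ := 5) hi hj (by norm_num) (by norm_num) (by rw [ht]; rfl)
  have hd := hG.d i j 3 ht (by norm_num)
  have e1 : hrC 3 = 3 := rfl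
  have e2 : hc1 3 = 5 := rfl
  have e3 : hr0 3 = 1 := rfl
  have e4 : hc0 3 = 1 := rfl
  have e5 : hcB 3 = 5 := rfl
  have e6 : hr1 3 = 3 := rfl
  rw [e1, e2, e3, e4, e5, e6] at hd
  simp only [add_assoc] at a1 a2 a3 a4 b1 b2 b3 b4 c1 c2 d1 d2
  norm_num at a1 a2 a3 a4 b1 b2 b3 b4 c1 c2 d1 d2
  rw [d2.1, d1.1, c2.1, c1.1, b4.1, b3.1, b2.1, b1.1, a4.1, a3.1, a2.1, a1.1] at hd
  have hA : 0 < x (6 * i + 1) (6 * j + 5) - x (6 * i + 1) (6 * j + 1) := by
    linarith [a1.2, a2.2, a3.2, a4.2]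
  have hB : 0 < y (6 * i + 3) (6 * j + 1) - y (6 * i + 1) (6 * j + 1) := by linarith [c1.2, c2.2]
  rw [← sq, ← sq] at hd
  exact (pow_left_inj₀ hA.le hB.le two_ne_zero).1 hd

/-- type four -/
theorem t4 {i j : ℕ} (hi : i < Λ.nb) (hj : j < Λ.ng) (ht : Λ.T i j = 4) :
    x (6 * i + 3) (6 * j + 3) - x (6 * i + 3) (6 * j + 1) =
      y (6 * i + 5) (6 * j + 1) - y (6 * i + 3) (6 * j + 1) := by
  have a1 := hE hG (i := i) (j := j) (ρ := 3) (γ := 1) hi hj (by norm_num) (by norm_num) (by rw [ht]; rfl)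
  have a2 := hE hG (i := i) (j := j) (ρ := 3) (γ := 2) hi hj (by norm_num) (by norm_num) (by rw [ht]; rfl)
  have b1 := hE hG (i := i) (j := j) (ρ := 5) (γ := 1) hi hj (by norm_num) (by norm_num) (by rw [ht]; rfl)
  have b2 := hE hG (i := i) (j := j) (ρ := 5) (γ := 2) hi hj (by norm_num) (by norm_num) (by rw [ht]; rfl)
  have c1 := vE hG (i := i) (j := j) (ρ := 3) (γ := 1) hi hj (by norm_num) (by norm_num) (by rw [ht]; rfl)
  have c2 := vE hG (i := i) (j := j) (ρ := 4) (γ := 1) hi hj (by norm_num) (by norm_num) (by rw [ht]; rfl)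
  have d1 := vE hG (i := i) (j := j) (ρ := 3) (γ := 3) hi hj (by norm_num) (by norm_num) (by rw [ht]; rfl)
  have d2 := vE hG (i := i) (j := j) (ρ := 4) (γ := 3) hi hj (by norm_num) (by norm_num) (by rw [ht]; rfl)
  have hd := hG.d i j 4 ht (by norm_num)
  have e1 : hrC 4 = 5 := rfl
  have e2 : hc1 4 = 3 := rfl
  have e3 : hr0 4 = 3 := rfl
  have e4 : hc0 4 = 1 := rfl
  have e5 : hcB 4 = 3 := rfl
  have e6 : hr1 4 = 5 := rfl
  rw [e1, e2, e3, e4, e5, e6] at hd
  simp only [add_assoc] at a1 a2 b1 b2 c1 c2 d1 d2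
  norm_num at a1 a2 b1 b2 c1 c2 d1 d2
  rw [d2.1, d1.1, c2.1, c1.1, b2.1, b1.1, a2.1, a1.1] at hd
  have hA : 0 < x (6 * i + 3) (6 * j + 3) - x (6 * i + 3) (6 * j + 1) := by linarith [a1.2, a2.2]
  have hB : 0 < y (6 * i + 5) (6 * j + 1) - y (6 * i + 3) (6 * j + 1) := by linarith [c1.2, c2.2]
  rw [← sq, ← sq] at hd
  exact (pow_left_inj₀ hA.le hB.le two_ne_zero).1 hd

/-- type five -/
theorem t5 {i j : ℕ} (hi : i < Λ.nb) (hj : j < Λ.ng) (ht : Λ.T i j = 5) :
    (x (6 * i + 3) (6 * j + 5) - x (6 * i + 1) (6 * j + 1)) *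
      (x (6 * i + 1) (6 * j + 3) - x (6 * i + 5) (6 * j + 1)) =
    (y (6 * i + 3) (6 * j + 5) - y (6 * i + 1) (6 * j + 1)) *
      (y (6 * i + 5) (6 * j + 1) - y (6 * i + 1) (6 * j + 3)) :=
  hG.d i j 5 ht (by norm_num)

end Grid

end SA

open SA

theorem layok_ok : St_layok := by
  intro I hI
  refine ⟨?_, ?_, fun i j => ty_le I i j, ?_⟩
  · show 0 < I.1 + I.2.1.length
    have := hI.pos
    omega
  · show 0 < 3 * I.2.1.length + I.2.2.1.length + I.2.2.2.length
    have := List.length_pos_of_ne_nil hI.ne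
    omega
  · intro i j h
    show tyOf I i j = 0
    rcases h with h | h
    · have hi : I.1 + I.2.1.length ≤ i := h
      have hM : ∀ k, k < I.2.1.length → (I.2.1.getD k (0, 0, 0, 0)).1 < I.1 ∧
          (I.2.1.getD k (0, 0, 0, 0)).2.1 < I.1 ∧ (I.2.1.getD k (0, 0, 0, 0)).2.2.1 < I.1 ∧
          (I.2.1.getD k (0, 0, 0, 0)).2.2.2 < I.1 := fun k hk => (hI.m _ (getD_mem hk _)).2
      have hS : ∀ k, k < I.2.2.1.length → (I.2.2.1.getD k (0, 0, 0)).1 < I.1 ∧
          (I.2.2.1.getD k (0, 0, 0)).2.1 < I.1 ∧ (I.2.2.1.getD k (0, 0, 0)).2.2 < I.1 := fun k hk => by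
        obtain ⟨-, h1, h2, h3⟩ := hI.s _ (getD_mem hk (0, 0, 0))
        exact ⟨by omega, by omega, h3⟩
      have hEE : ∀ k, k < I.2.2.2.length → (I.2.2.2.getD k (0, 0)).1 < I.1 ∧
          (I.2.2.2.getD k (0, 0)).2 < I.1 := fun k hk => (hI.e _ (getD_mem hk _)).2
      unfold tyOf
      split_ifs with h1 h2 h3 h4 h5 h6 h7 h8 h9 h10 h11 h12 h13 h14 h15 h16 h17 h18
      all_goals try rfl
      all_goals exfalso
      · have := hM j h1; omega
      · have := hM j h1; omega
      · omega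
      · have := hM ((j - I.2.1.length) / 2) (by omega); omega
      · omega
      · have := hM ((j - I.2.1.length) / 2) (by omega); omega
      · omega
      · have := hS (j - 3 * I.2.1.length) (by omega); omega
      · have := hS (j - 3 * I.2.1.length) (by omega); omega
      · have := hS (j - 3 * I.2.1.length) (by omega); omega
      · have := hEE (j - (3 * I.2.1.length + I.2.2.1.length)) (by omega); omega
      · have := hEE (j - (3 * I.2.1.length + I.2.2.1.length)) (by omega); omega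
    · have hj : 3 * I.2.1.length + I.2.2.1.length + I.2.2.2.length ≤ j := h
      unfold tyOf
      rw [if_neg (by omega), if_neg (by omega), if_neg (by omega), if_neg (by omega)]

theorem sat_ok : St_sat := by
  intro I hI x y hG
  have hLok := layok_ok I hI
  have hle := hLok.le
  have hnb : (lay I).nb = I.1 + I.2.1.length := rfl
  have hng : (lay I).ng = 3 * I.2.1.length + I.2.2.1.length + I.2.2.2.length := rfl
  have hT : ∀ i j, (lay I).T i j = tyOf I i j := fun _ _ => rfl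
  set v : ℕ → ℝ := fun i => y (6 * i + 3) 0 - y (6 * i + 1) 0 with hv
  -- row three of the bands of the variables
  have hrow3 : ∀ i, i < I.1 → ∀ c, c ≤ 6 * (lay I).ng → y (6 * i + 3) c = y (6 * i + 3) 0 := by
    intro i hi c hc
    refine row hG (by omega) (by norm_num) 0 (fun j γ _ _ => hAbs_three _ (hle _ _) ?_) c (Nat.zero_le _) hc
    rw [hT]
    intro h5
    have := (ty_five h5).2
    omega
  -- variables at a block of type one, two, three
  have hy1 : ∀ i, i < I.1 → ∀ j, j < (lay I).ng → ∀ γ ≤ 5,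
      y (6 * i + 3) (6 * j + γ) - y (6 * i + 1) (6 * j + γ) = v i := by
    intro i hi j hj γ hγ
    rw [hrow3 i hi _ (by omega), row1 hG hle (by omega) (by omega)]
  refine ⟨v, ?_, ?_, ?_, ?_⟩
  · intro i hi
    have c1 := vE hG (i := i) (j := 0) (ρ := 1) (γ := 0) (by omega) hLok.ng (by norm_num) (by norm_num)
      (vAbs_zero _ _)
    have c2 := vE hG (i := i) (j := 0) (ρ := 2) (γ := 0) (by omega) hLok.ng (by norm_num) (by norm_num)
      (vAbs_zero _ _)
    simp only [add_assoc] at c1 c2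
    norm_num at c1 c2
    show 0 < y (6 * i + 3) 0 - y (6 * i + 1) 0
    linarith [c1.2, c2.2]
  · -- multiplication
    intro cc hcc
    obtain ⟨k, hk, hkc⟩ := List.getElem_of_mem hcc
    have hgk : I.2.1.getD k (0, 0, 0, 0) = cc := by rw [List.getD_eq_getElem _ _ hk]; exact hkc
    obtain ⟨a, b, c, d⟩ := cc
    obtain ⟨hab, ha, hb, hc, hd⟩ := hI.m _ hcc
    simp only at hab ha hb hc hd ⊢
    -- types
    have T1 : (lay I).T a k = 1 := by
      rw [hT]; unfold tyOf
      rw [if_pos hk, hgk, if_pos rfl]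
    have T2 : (lay I).T b k = 2 := by
      rw [hT]; unfold tyOf
      rw [if_pos hk, hgk, if_neg (fun h => hab h.symm), if_pos rfl]
    have T5 : (lay I).T (I.1 + k) k = 5 := by
      rw [hT]; unfold tyOf
      rw [if_pos hk, hgk, if_neg (by show ¬ I.1 + k = a; omega), if_neg (by show ¬ I.1 + k = b; omega),
        if_pos rfl]
    have hj1 : (I.2.1.length + 2 * k - I.2.1.length) / 2 = k := by omega
    have hj1' : (I.2.1.length + 2 * k - I.2.1.length) % 2 = 0 := by omega
    have hj2 : (I.2.1.length + (2 * k + 1) - I.2.1.length) / 2 = k := by omega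
    have hj2' : ¬ (I.2.1.length + (2 * k + 1) - I.2.1.length) % 2 = 0 := by omega
    have T3 : (lay I).T c (I.2.1.length + 2 * k) = 1 := by
      rw [hT]; unfold tyOf
      rw [if_neg (by omega), if_pos (by omega), if_pos hj1', hj1, hgk, if_pos rfl]
    have T3' : (lay I).T (I.1 + k) (I.2.1.length + 2 * k) = 1 := by
      rw [hT]; unfold tyOf
      rw [if_neg (by omega), if_pos (by omega), if_pos hj1', hj1, hgk]
      rw [if_neg (by show ¬ I.1 + k = c; omega), if_pos rfl]
    have T4 : (lay I).T d (I.2.1.length + (2 * k + 1)) = 1 := by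
      rw [hT]; unfold tyOf
      rw [if_neg (by omega), if_pos (by omega), if_neg hj2', hj2, hgk, if_pos rfl]
    have T4' : (lay I).T (I.1 + k) (I.2.1.length + (2 * k + 1)) = 4 := by
      rw [hT]; unfold tyOf
      rw [if_neg (by omega), if_pos (by omega), if_neg hj2', hj2, hgk]
      rw [if_neg (by show ¬ I.1 + k = d; omega), if_pos rfl]
    set i := I.1 + k with hi
    set j1 := I.2.1.length + 2 * k with hj1d
    set j2 := I.2.1.length + (2 * k + 1) with hj2d
    have hinb : i < (lay I).nb := by omega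
    -- columns three
    have hcol : ∀ j, j < (lay I).ng → (∀ i' < i, (lay I).T i' j ≠ 3 ∧ (lay I).T i' j ≠ 5) →
        ∀ r, r ≤ 6 * i + 1 → x r (6 * j + 3) = x 0 (6 * j + 3) :=
      fun j hj h r hr => col3 hG hj i h hr (by omega)
    have hck := hcol k (by omega) (by
      intro i' hi'
      rw [hT]
      exact ⟨fun h => by have := (ty_three h).1; omega, fun h => by have := (ty_five h).2; omega⟩)
    have hcfull : ∀ j, j < (lay I).ng → I.2.1.length ≤ j → j < 3 * I.2.1.length → ∀ r, r ≤ 6 * (lay I).nb →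
        x r (6 * j + 3) = x 0 (6 * j + 3) := by
      intro j hj hj1 hj2 r hr
      apply col3 hG hj (lay I).nb _ (by omega) hr
      intro i' _
      rw [hT]
      exact ⟨fun h => by have := (ty_three h).1; omega, fun h => by have := (ty_five h).1; omega⟩
    have hcj1 := hcfull j1 (by omega) (by omega) (by omega)
    have hcj2 := hcfull j2 (by omega) (by omega) (by omega)
    -- row three of the band `i`
    have hr3 : ∀ c', 6 * (k + 1) ≤ c' → c' ≤ 6 * (lay I).ng →
        y (6 * i + 3) c' = y (6 * i + 3) (6 * (k + 1)) := by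
      intro c' h1 h2
      refine row hG hinb (by norm_num) (6 * (k + 1)) (fun j γ hjγ hγ => hAbs_three _ (hle _ _) ?_) c' h1 h2
      rw [hT]
      intro h5
      have := ty_five h5
      omega
    have hr35 : y (6 * i + 3) (6 * k + 5) = y (6 * i + 3) (6 * (k + 1)) := by
      have := hE hG (i := i) (j := k) (ρ := 3) (γ := 5) hinb (by omega) (by norm_num) (by norm_num)
        (hAbs_right _ _)
      have e : 6 * (k + 1) = 6 * k + 5 + 1 := by ring
      rw [e]
      exact this.1.symm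
    -- the equations
    have q1 := (t1 hG (i := a) (j := k) (by omega) (by omega) T1).1
    rw [hy1 a ha k (by omega) 1 (by norm_num), hck _ (by omega), col1 hG (by omega) (by omega)] at q1
    have q2 := t2 hG (i := b) (j := k) (by omega) (by omega) T2
    rw [hy1 b hb k (by omega) 3 (by norm_num), hck _ (by omega), col5 hG (by omega) (by omega)] at q2
    have q3 := (t1 hG (i := c) (j := j1) (by omega) (by omega) T3).1
    rw [hy1 c hc j1 (by omega) 1 (by norm_num), hcj1 _ (by omega), col1 hG (by omega) (by omega)] at q3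
    have q3' := (t1 hG (i := i) (j := j1) (by omega) (by omega) T3').1
    rw [hcj1 _ (by omega), col1 hG (by omega) (by omega), hr3 _ (by omega) (by omega),
      row1 hG hle hinb (by omega)] at q3'
    have q4 := (t1 hG (i := d) (j := j2) (by omega) (by omega) T4).1
    rw [hy1 d hd j2 (by omega) 1 (by norm_num), hcj2 _ (by omega), col1 hG (by omega) (by omega)] at q4
    have q4' := t4 hG (i := i) (j := j2) (by omega) (by omega) T4'
    rw [hcj2 _ (by omega), col1 hG (by omega) (by omega), hr3 _ (by omega) (by omega),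
      row5 hG hle hinb (by omega)] at q4'
    have q5 := t5 hG (i := i) (j := k) (by omega) (by omega) T5
    rw [col5 hG (by omega) (by omega), col1 hG (by omega) (by omega : 6 * i + 1 ≤ _),
      col1 hG (by omega) (by omega : 6 * i + 5 ≤ _), hck _ (by omega), hr35,
      row1 hG hle hinb (by omega : 6 * k + 1 ≤ _), row1 hG hle hinb (by omega : 6 * k + 3 ≤ _),
      row5 hG hle hinb (by omega)] at q5
    rw [← q1, ← q2, ← q3, ← q4, q3', q4']
    linear_combination q5
  · -- sums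
    intro cc hcc
    obtain ⟨k, hk, hkc⟩ := List.getElem_of_mem hcc
    have hgk : I.2.2.1.getD k (0, 0, 0) = cc := by rw [List.getD_eq_getElem _ _ hk]; exact hkc
    obtain ⟨a, b, c⟩ := cc
    obtain ⟨hab, hac, hbc, hc⟩ := hI.s _ hcc
    simp only at hab hac hbc hc ⊢
    have hj : 3 * I.2.1.length + k - 3 * I.2.1.length = k := by omega
    have T1 : (lay I).T a (3 * I.2.1.length + k) = 1 := by
      rw [hT]; unfold tyOf
      rw [if_neg (by omega), if_neg (by omega), if_pos (by omega), hj, hgk, if_pos rfl]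
    have T2 : (lay I).T b (3 * I.2.1.length + k) = 2 := by
      rw [hT]; unfold tyOf
      rw [if_neg (by omega), if_neg (by omega), if_pos (by omega), hj, hgk,
        if_neg (fun h => hab h.symm), if_pos rfl]
    have T3 : (lay I).T c (3 * I.2.1.length + k) = 3 := by
      rw [hT]; unfold tyOf
      rw [if_neg (by omega), if_neg (by omega), if_pos (by omega), hj, hgk,
        if_neg (by show ¬ c = a; omega), if_neg (by show ¬ c = b; omega), if_pos rfl]
    set j := 3 * I.2.1.length + k with hjd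
    have hjn : j < (lay I).ng := by omega
    have hck : ∀ r, r ≤ 6 * c + 1 → x r (6 * j + 3) = x 0 (6 * j + 3) := by
      intro r hr
      apply col3 hG hjn c _ hr (by omega)
      intro i' hi'
      rw [hT]
      refine ⟨fun h => ?_, fun h => by have := (ty_five h).1; omega⟩
      have h3 := (ty_three h).2.2
      rw [hj, hgk] at h3
      have : i' = c := h3
      omega
    have q1 := (t1 hG (i := a) (j := j) (by omega) hjn T1).1
    rw [hy1 a (by omega) j hjn 1 (by norm_num), hck _ (by omega), col1 hG hjn (by omega)] at q1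
    have q2 := t2 hG (i := b) (j := j) (by omega) hjn T2
    rw [hy1 b (by omega) j hjn 3 (by norm_num), hck _ (by omega), col5 hG hjn (by omega)] at q2
    have q3 := t3 hG (i := c) (j := j) (by omega) hjn T3
    rw [hy1 c (by omega) j hjn 1 (by norm_num), col5 hG hjn (by omega), col1 hG hjn (by omega)] at q3
    linarith
  · -- equalities
    intro cc hcc
    obtain ⟨k, hk, hkc⟩ := List.getElem_of_mem hcc
    have hgk : I.2.2.2.getD k (0, 0) = cc := by rw [List.getD_eq_getElem _ _ hk]; exact hkc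
    obtain ⟨a, b⟩ := cc
    obtain ⟨hab, ha, hb⟩ := hI.e _ hcc
    simp only at hab ha hb ⊢
    have hj : 3 * I.2.1.length + I.2.2.1.length + k - (3 * I.2.1.length + I.2.2.1.length) = k := by omega
    have T1 : (lay I).T a (3 * I.2.1.length + I.2.2.1.length + k) = 1 := by
      rw [hT]; unfold tyOf
      rw [if_neg (by omega), if_neg (by omega), if_neg (by omega), if_pos (by omega), hj, hgk, if_pos rfl]
    have T2 : (lay I).T b (3 * I.2.1.length + I.2.2.1.length + k) = 1 := by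
      rw [hT]; unfold tyOf
      rw [if_neg (by omega), if_neg (by omega), if_neg (by omega), if_pos (by omega), hj, hgk,
        if_neg (fun h => hab h.symm), if_pos rfl]
    set j := 3 * I.2.1.length + I.2.2.1.length + k with hjd
    have hjn : j < (lay I).ng := by omega
    have hck : ∀ r, r ≤ 6 * (lay I).nb → x r (6 * j + 3) = x 0 (6 * j + 3) := by
      intro r hr
      apply col3 hG hjn (lay I).nb _ (by omega) hr
      intro i' _
      rw [hT]
      exact ⟨fun h => by have := (ty_three h).2.1; omega, fun h => by have := (ty_five h).1; omega⟩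
    have q1 := (t1 hG (i := a) (j := j) (by omega) hjn T1).1
    rw [hy1 a (by omega) j hjn 1 (by norm_num), hck _ (by omega), col1 hG hjn (by omega)] at q1
    have q2 := (t1 hG (i := b) (j := j) (by omega) hjn T2).1
    rw [hy1 b (by omega) j hjn 1 (by norm_num), hck _ (by omega), col1 hG hjn (by omega)] at q2
    rw [← q1, ← q2]

end Pool.Agent.H670R3
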