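import Pool.Agent.H670R3.Stm

/-!
# From a solution to a product grid
-/

namespace Pool.Agent.H670R3

namespace XYaux

/-- steps of the coordinates -/
noncomputable def stp (p q : ℕ → ℝ) (k : ℕ) : ℝ :=
  if k % 6 = 0 ∨ k % 6 = 5 then 1 else if k % 6 = 1 ∨ k % 6 = 2 then p (k / 6) / 2
    else q (k / 6) / 2

/-- the coordinates -/
noncomputable def cum (p q : ℕ → ℝ) (n : ℕ) : ℝ := ∑ k ∈ Finset.range n, stp p q k

theorem stp_pos {p q : ℕ → ℝ} (hp : ∀ j, 0 < p j) (hq : ∀ j, 0 < q j) (k : ℕ) :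
    0 < stp p q k := by
  unfold stp
  have h1 := hp (k / 6)
  have h2 := hq (k / 6)
  split_ifs <;> linarith

theorem cum_mono {p q : ℕ → ℝ} (hp : ∀ j, 0 < p j) (hq : ∀ j, 0 < q j) :
    StrictMono (cum p q) := by
  apply strictMono_nat_of_lt_succ
  intro n
  unfold cum
  rw [Finset.sum_range_succ]
  linarith [stp_pos hp hq n]

theorem cum_succ (p q : ℕ → ℝ) (n : ℕ) : cum p q (n + 1) = cum p q n + stp p q n :=
  Finset.sum_range_succ _ _

theorem cum1 (p q : ℕ → ℝ) (j : ℕ) : cum p q (6 * j + 1) = cum p q (6 * j) + 1 := by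
  rw [cum_succ]
  have h : (6 * j) % 6 = 0 := by omega
  simp [stp, h]

theorem cum3 (p q : ℕ → ℝ) (j : ℕ) : cum p q (6 * j + 3) = cum p q (6 * j + 1) + p j := by
  have e : 6 * j + 3 = (6 * j + 1 + 1) + 1 := by ring
  rw [e, cum_succ, cum_succ]
  have h1 : (6 * j + 1) % 6 = 1 := by omega
  have h2 : (6 * j + 1 + 1) % 6 = 2 := by omega
  have h3 : (6 * j + 1) / 6 = j := by omega
  have h4 : (6 * j + 1 + 1) / 6 = j := by omega
  have e1 : stp p q (6 * j + 1) = p j / 2 := by simp [stp, h1, h3]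
  have e2 : stp p q (6 * j + 1 + 1) = p j / 2 := by simp [stp, h2, h4]
  rw [e1, e2]
  ring

theorem cum5 (p q : ℕ → ℝ) (j : ℕ) : cum p q (6 * j + 5) = cum p q (6 * j + 3) + q j := by
  have e : 6 * j + 5 = (6 * j + 3 + 1) + 1 := by ring
  rw [e, cum_succ, cum_succ]
  have h1 : (6 * j + 3) % 6 = 3 := by omega
  have h2 : (6 * j + 3 + 1) % 6 = 4 := by omega
  have h3 : (6 * j + 3) / 6 = j := by omega
  have h4 : (6 * j + 3 + 1) / 6 = j := by omega
  have e1 : stp p q (6 * j + 3) = q j / 2 := by simp [stp, h1, h3]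
  have e2 : stp p q (6 * j + 3 + 1) = q j / 2 := by simp [stp, h2, h4]
  rw [e1, e2]
  ring

/-- widths of the first half of the columns of a group -/
noncomputable def pj (I : Sy) (v : ℕ → ℝ) (j : ℕ) : ℝ :=
  if j < I.2.1.length then v (I.2.1.getD j (0, 0, 0, 0)).1
  else if j < 3 * I.2.1.length then
    (if (j - I.2.1.length) % 2 = 0 then v (I.2.1.getD ((j - I.2.1.length) / 2) (0, 0, 0, 0)).2.2.1
    else v (I.2.1.getD ((j - I.2.1.length) / 2) (0, 0, 0, 0)).2.2.2)
  else if j < 3 * I.2.1.length + I.2.2.1.length then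
    v (I.2.2.1.getD (j - 3 * I.2.1.length) (0, 0, 0)).1
  else v (I.2.2.2.getD (j - (3 * I.2.1.length + I.2.2.1.length)) (0, 0)).1

/-- widths of the second half -/
noncomputable def qj (I : Sy) (v : ℕ → ℝ) (j : ℕ) : ℝ :=
  if j < I.2.1.length then v (I.2.1.getD j (0, 0, 0, 0)).2.1
  else if j < 3 * I.2.1.length then 1
  else if j < 3 * I.2.1.length + I.2.2.1.length then
    v (I.2.2.1.getD (j - 3 * I.2.1.length) (0, 0, 0)).2.1
  else 1

/-- heights of the first half of the rows of a band -/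
noncomputable def wi (I : Sy) (v : ℕ → ℝ) (i : ℕ) : ℝ :=
  if i < I.1 then v i else v (I.2.1.getD (i - I.1) (0, 0, 0, 0)).2.2.1

/-- heights of the second half -/
noncomputable def wi' (I : Sy) (v : ℕ → ℝ) (i : ℕ) : ℝ :=
  if i < I.1 then 1 else v (I.2.1.getD (i - I.1) (0, 0, 0, 0)).2.2.2

theorem getD_mem {α : Type} (l : List α) (d : α) (n : ℕ) (h : n < l.length) : l.getD n d ∈ l := by
  rw [List.getD_eq_getElem _ _ h]
  exact List.getElem_mem h

/-- what a type of a block means -/
theorem key (I : Sy) (hI : I.Ok) (v : ℕ → ℝ) (hs : I.Sat v) (hg : I.Good v) (i j : ℕ) :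
    (tyOf I i j = 0) ∨ (tyOf I i j = 1 ∧ pj I v j = wi I v i) ∨
    (tyOf I i j = 2 ∧ qj I v j = wi I v i) ∨
    (tyOf I i j = 3 ∧ pj I v j + qj I v j = wi I v i) ∨
    (tyOf I i j = 4 ∧ pj I v j = wi' I v i) ∨
    (tyOf I i j = 5 ∧ (pj I v j + qj I v j) * pj I v j = wi I v i * (wi I v i + wi' I v i) ∧
      wi I v i ≤ pj I v j + qj I v j ∧ pj I v j + qj I v j ≤ 17 / 10 * wi I v i) := by
  by_cases c1 : j < I.2.1.length
  · have hm := getD_mem I.2.1 (0, 0, 0, 0) j c1
    have ok := hI.m _ hm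
    have st := hs.m _ hm
    have gd := hg _ hm
    have hp : pj I v j = v (I.2.1.getD j (0, 0, 0, 0)).1 := by simp only [pj, if_pos c1]
    have hq : qj I v j = v (I.2.1.getD j (0, 0, 0, 0)).2.1 := by simp only [qj, if_pos c1]
    have ht : tyOf I i j = (if i = (I.2.1.getD j (0, 0, 0, 0)).1 then 1
      else if i = (I.2.1.getD j (0, 0, 0, 0)).2.1 then 2
      else if i = I.1 + j then 5 else 0) := by simp only [tyOf, if_pos c1]
    rw [ht, hp, hq]
    by_cases a1 : i = (I.2.1.getD j (0, 0, 0, 0)).1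
    · rw [if_pos a1]
      right; left
      refine ⟨rfl, ?_⟩
      rw [wi, if_pos (by rw [a1]; exact ok.2.1), ← a1]
    rw [if_neg a1]
    by_cases a2 : i = (I.2.1.getD j (0, 0, 0, 0)).2.1
    · rw [if_pos a2]
      right; right; left
      refine ⟨rfl, ?_⟩
      rw [wi, if_pos (by rw [a2]; exact ok.2.2.1), ← a2]
    rw [if_neg a2]
    by_cases a3 : i = I.1 + j
    · rw [if_pos a3]
      right; right; right; right; right
      have hw : wi I v i = v (I.2.1.getD j (0, 0, 0, 0)).2.2.1 := by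
        rw [wi, if_neg (by omega)]
        have : i - I.1 = j := by omega
        rw [this]
      have hw' : wi' I v i = v (I.2.1.getD j (0, 0, 0, 0)).2.2.2 := by
        rw [wi', if_neg (by omega)]
        have : i - I.1 = j := by omega
        rw [this]
      rw [hw, hw']
      refine ⟨rfl, ?_, gd.1, gd.2⟩
      rw [← st]
      ring
    rw [if_neg a3]
    left
    rfl
  by_cases c2 : j < 3 * I.2.1.length
  · have hlt : (j - I.2.1.length) / 2 < I.2.1.length := by omega
    have hm := getD_mem I.2.1 (0, 0, 0, 0) _ hlt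
    have ok := hI.m _ hm
    by_cases e0 : (j - I.2.1.length) % 2 = 0
    · have hp : pj I v j = v (I.2.1.getD ((j - I.2.1.length) / 2) (0, 0, 0, 0)).2.2.1 := by
        simp only [pj, if_neg c1, if_pos c2, if_pos e0]
      have ht : tyOf I i j =
          (if i = (I.2.1.getD ((j - I.2.1.length) / 2) (0, 0, 0, 0)).2.2.1 then 1
          else if i = I.1 + (j - I.2.1.length) / 2 then 1 else 0) := by
        simp only [tyOf, if_neg c1, if_pos c2, if_pos e0]
      rw [ht, hp]
      by_cases a1 : i = (I.2.1.getD ((j - I.2.1.length) / 2) (0, 0, 0, 0)).2.2.1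
      · rw [if_pos a1]
        right; left
        refine ⟨rfl, ?_⟩
        rw [wi, if_pos (by rw [a1]; exact ok.2.2.2.1), ← a1]
      rw [if_neg a1]
      by_cases a2 : i = I.1 + (j - I.2.1.length) / 2
      · rw [if_pos a2]
        right; left
        refine ⟨rfl, ?_⟩
        rw [wi, if_neg (by omega)]
        have : i - I.1 = (j - I.2.1.length) / 2 := by omega
        rw [this]
      rw [if_neg a2]
      left
      rfl
    · have hp : pj I v j = v (I.2.1.getD ((j - I.2.1.length) / 2) (0, 0, 0, 0)).2.2.2 := by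
        simp only [pj, if_neg c1, if_pos c2, if_neg e0]
      have ht : tyOf I i j =
          (if i = (I.2.1.getD ((j - I.2.1.length) / 2) (0, 0, 0, 0)).2.2.2 then 1
          else if i = I.1 + (j - I.2.1.length) / 2 then 4 else 0) := by
        simp only [tyOf, if_neg c1, if_pos c2, if_neg e0]
      rw [ht, hp]
      by_cases a1 : i = (I.2.1.getD ((j - I.2.1.length) / 2) (0, 0, 0, 0)).2.2.2
      · rw [if_pos a1]
        right; left
        refine ⟨rfl, ?_⟩
        rw [wi, if_pos (by rw [a1]; exact ok.2.2.2.2), ← a1]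
      rw [if_neg a1]
      by_cases a2 : i = I.1 + (j - I.2.1.length) / 2
      · rw [if_pos a2]
        right; right; right; right; left
        refine ⟨rfl, ?_⟩
        rw [wi', if_neg (by omega)]
        have : i - I.1 = (j - I.2.1.length) / 2 := by omega
        rw [this]
      rw [if_neg a2]
      left
      rfl
  by_cases c3 : j < 3 * I.2.1.length + I.2.2.1.length
  · have hlt : j - 3 * I.2.1.length < I.2.2.1.length := by omega
    have hm := getD_mem I.2.2.1 (0, 0, 0) _ hlt
    have ok := hI.s _ hm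
    have st := hs.s _ hm
    have hp : pj I v j = v (I.2.2.1.getD (j - 3 * I.2.1.length) (0, 0, 0)).1 := by
      simp only [pj, if_neg c1, if_neg c2, if_pos c3]
    have hq : qj I v j = v (I.2.2.1.getD (j - 3 * I.2.1.length) (0, 0, 0)).2.1 := by
      simp only [qj, if_neg c1, if_neg c2, if_pos c3]
    have ht : tyOf I i j = (if i = (I.2.2.1.getD (j - 3 * I.2.1.length) (0, 0, 0)).1 then 1
        else if i = (I.2.2.1.getD (j - 3 * I.2.1.length) (0, 0, 0)).2.1 then 2
        else if i = (I.2.2.1.getD (j - 3 * I.2.1.length) (0, 0, 0)).2.2 then 3 else 0) := by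
      simp only [tyOf, if_neg c1, if_neg c2, if_pos c3]
    rw [ht, hp, hq]
    by_cases a1 : i = (I.2.2.1.getD (j - 3 * I.2.1.length) (0, 0, 0)).1
    · rw [if_pos a1]
      right; left
      refine ⟨rfl, ?_⟩
      rw [wi, if_pos (by rw [a1]; exact lt_trans ok.2.1 ok.2.2.2), ← a1]
    rw [if_neg a1]
    by_cases a2 : i = (I.2.2.1.getD (j - 3 * I.2.1.length) (0, 0, 0)).2.1
    · rw [if_pos a2]
      right; right; left
      refine ⟨rfl, ?_⟩
      rw [wi, if_pos (by rw [a2]; exact lt_trans ok.2.2.1 ok.2.2.2), ← a2]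
    rw [if_neg a2]
    by_cases a3 : i = (I.2.2.1.getD (j - 3 * I.2.1.length) (0, 0, 0)).2.2
    · rw [if_pos a3]
      right; right; right; left
      refine ⟨rfl, ?_⟩
      rw [wi, if_pos (by rw [a3]; exact ok.2.2.2), st, ← a3]
    rw [if_neg a3]
    left
    rfl
  by_cases c4 : j < 3 * I.2.1.length + I.2.2.1.length + I.2.2.2.length
  · have hlt : j - (3 * I.2.1.length + I.2.2.1.length) < I.2.2.2.length := by omega
    have hm := getD_mem I.2.2.2 (0, 0) _ hlt
    have ok := hI.e _ hm
    have st := hs.e _ hm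
    have hp : pj I v j = v (I.2.2.2.getD (j - (3 * I.2.1.length + I.2.2.1.length)) (0, 0)).1 := by
      simp only [pj, if_neg c1, if_neg c2, if_neg c3]
    have ht : tyOf I i j =
        (if i = (I.2.2.2.getD (j - (3 * I.2.1.length + I.2.2.1.length)) (0, 0)).1 then 1
        else if i = (I.2.2.2.getD (j - (3 * I.2.1.length + I.2.2.1.length)) (0, 0)).2 then 1
        else 0) := by
      simp only [tyOf, if_neg c1, if_neg c2, if_neg c3, if_pos c4]
    rw [ht, hp]
    by_cases a1 : i = (I.2.2.2.getD (j - (3 * I.2.1.length + I.2.2.1.length)) (0, 0)).1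
    · rw [if_pos a1]
      right; left
      refine ⟨rfl, ?_⟩
      rw [wi, if_pos (by rw [a1]; exact ok.2.1), ← a1]
    rw [if_neg a1]
    by_cases a2 : i = (I.2.2.2.getD (j - (3 * I.2.1.length + I.2.2.1.length)) (0, 0)).2
    · rw [if_pos a2]
      right; left
      refine ⟨rfl, ?_⟩
      rw [wi, if_pos (by rw [a2]; exact ok.2.2), st, ← a2]
    rw [if_neg a2]
    left
    rfl
  left
  simp only [tyOf, if_neg c1, if_neg c2, if_neg c3, if_neg c4]

theorem pj_pos (I : Sy) (v : ℕ → ℝ) (hv : ∀ i, 0 < v i) (j : ℕ) : 0 < pj I v j := by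
  unfold pj
  split_ifs <;> exact hv _

theorem qj_pos (I : Sy) (v : ℕ → ℝ) (hv : ∀ i, 0 < v i) (j : ℕ) : 0 < qj I v j := by
  unfold qj
  split_ifs <;> first | exact hv _ | exact one_pos

theorem wi_pos (I : Sy) (v : ℕ → ℝ) (hv : ∀ i, 0 < v i) (j : ℕ) : 0 < wi I v j := by
  unfold wi
  split_ifs <;> exact hv _

theorem wi'_pos (I : Sy) (v : ℕ → ℝ) (hv : ∀ i, 0 < v i) (j : ℕ) : 0 < wi' I v j := by
  unfold wi'
  split_ifs <;> first | exact hv _ | exact one_pos

end XYaux

open XYaux in
theorem xy_ok : St_xy := by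
  intro I hI v hv hs hg
  refine ⟨cum (pj I v) (qj I v), cum (wi I v) (wi' I v), ?_, ?_, ?_, ?_⟩
  · exact cum_mono (pj_pos I v hv) (qj_pos I v hv)
  · exact cum_mono (wi_pos I v hv) (wi'_pos I v hv)
  · intro i j t ht h0
    have hk := key I hI v hs hg i j
    change tyOf I i j = t at ht
    rw [ht] at hk
    rcases hk with h | ⟨h, e⟩ | ⟨h, e⟩ | ⟨h, e⟩ | ⟨h, e⟩ | ⟨h, e, _, _⟩
    · exact absurd h h0
    · subst h
      simp only [hc0, hc1, hcB, hr0, hr1, hrC]
      norm_num [cum3]
      rw [e]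
    · subst h
      simp only [hc0, hc1, hcB, hr0, hr1, hrC]
      norm_num [cum3, cum5]
      rw [e]
    · subst h
      simp only [hc0, hc1, hcB, hr0, hr1, hrC]
      norm_num [cum3, cum5]
      rw [← e]
      ring
    · subst h
      simp only [hc0, hc1, hcB, hr0, hr1, hrC]
      norm_num [cum3, cum5]
      rw [e]
    · subst h
      simp only [hc0, hc1, hcB, hr0, hr1, hrC]
      norm_num [cum3, cum5]
      linear_combination e
  · intro i j t ht h0
    have hk := key I hI v hs hg i j
    change tyOf I i j = t at ht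
    rw [ht] at hk
    have p1 := pj_pos I v hv j
    have p2 := qj_pos I v hv j
    have p3 := wi_pos I v hv i
    have p4 := wi'_pos I v hv i
    rcases hk with h | ⟨h, e⟩ | ⟨h, e⟩ | ⟨h, e⟩ | ⟨h, e⟩ | ⟨h, _, e1, e2⟩
    · exact absurd h h0
    · subst h
      simp only [hc0, hc1, hcB, hr0, hr1, hrC]
      norm_num [cum3]
      rw [e]
      constructor <;> nlinarith [sq_nonneg (wi I v i)]
    · subst h
      simp only [hc0, hc1, hcB, hr0, hr1, hrC]
      norm_num [cum3, cum5]
      rw [e]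
      constructor <;> nlinarith [sq_nonneg (wi I v i)]
    · subst h
      simp only [hc0, hc1, hcB, hr0, hr1, hrC]
      norm_num [cum3, cum5]
      rw [← e]
      constructor <;> nlinarith [sq_nonneg (pj I v j + qj I v j)]
    · subst h
      simp only [hc0, hc1, hcB, hr0, hr1, hrC]
      norm_num [cum3, cum5]
      rw [e]
      constructor <;> nlinarith [sq_nonneg (wi' I v i)]
    · subst h
      simp only [hc0, hc1, hcB, hr0, hr1, hrC]
      norm_num [cum3, cum5]
      have e3 : cum (pj I v) (qj I v) (6 * j + 1) + pj I v j + qj I v j -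
          cum (pj I v) (qj I v) (6 * j + 1) = pj I v j + qj I v j := by ring
      rw [e3]
      constructor <;> nlinarith

end Pool.Agent.H670R3
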