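import Pool.Agent.H670R3.Asm2
import Pool.Agent.H670R3.T_AR
import Pool.Agent.H670R3.T_BK
import Pool.Agent.H670R3.T_CA
import Pool.Agent.H670R3.T_CG
import Pool.Agent.H670R3.T_CO
import Pool.Agent.H670R3.T_CV
import Pool.Agent.H670R3.T_FE
import Pool.Agent.H670R3.T_G1
import Pool.Agent.H670R3.T_G2
import Pool.Agent.H670R3.T_G3
import Pool.Agent.H670R3.T_GB
import Pool.Agent.H670R3.T_GR
import Pool.Agent.H670R3.T_GS
import Pool.Agent.H670R3.T_LI
import Pool.Agent.H670R3.T_P1
import Pool.Agent.H670R3.T_P2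
import Pool.Agent.H670R3.T_SA
import Pool.Agent.H670R3.T_XY

/-!
All the steps.
-/

namespace Pool.Agent.H670R3

theorem all_steps : AllSteps where
  list := list_ok
  conv := conv_ok
  gsound := gsound_ok fe_ok frame_ok book_ok cell_ok
  core := co_ok
  grid := grid_ok
  layok := layok_ok
  sat := sat_ok
  xy := xy_ok
  corg := corg_ok
  cora := cora_ok
  gad := gadget_ok
  g1 := glue1_ok
  g2 := glue2_ok
  g3 := glue3_ok
  ar := arith_ok
  p1 := poly1_ok
  p2 := poly2_ok

end Pool.Agent.H670R3
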