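import Pool.Agent.H670R2.OrthDefs

/-!
# Straight-line drawings with large angular resolution: the decision problem

Graphs are given by adjacency lists (`IsGraph`, `graphOf` of `Pool.Agent.H670R2.OrthDefs`).
-/

namespace Pool.Agent.H670R3

open Pool.Agent.NPC Pool.Agent.H670R2

/-- The Euclidean plane. -/
abbrev Plane : Type := EuclideanSpace ℝ (Fin 2)

/-- A straight-line drawing of `G`: distinct vertices are drawn at distinct points, and the closed
segment that represents an edge passes through no vertex except the two ends of the edge.  Edges
may cross. -/
structure IsDrawing {V : Type} (G : SimpleGraph V) (p : V → Plane) : Prop where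
  inj : Function.Injective p
  edge : ∀ u v w : V, G.Adj u v → w ≠ u → w ≠ v → p w ∉ segment ℝ (p u) (p v)

/-- The angular resolution of a drawing: the smallest (infimum) of the angles formed at a common
vertex by two edges incident to it; it is `⊤` if no vertex has two incident edges. -/
noncomputable def angRes {V : Type} (G : SimpleGraph V) (p : V → Plane) : EReal :=
  ⨅ (v : V) (u : V) (w : V) (_ : G.Adj v u) (_ : G.Adj v w) (_ : u ≠ w),
    ((EuclideanGeometry.angle (p u) (p v) (p w) : ℝ) : EReal)

/-- `G` has a straight-line drawing (crossings allowed) of angular resolution at least `α`. -/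
def HasDrawing {V : Type} (α : ℝ) (G : SimpleGraph V) : Prop :=
  ∃ p : V → Plane, IsDrawing G p ∧ (α : EReal) ≤ angRes G p

/-- `G` is planar: it has a straight-line drawing in which edges without a common end are
disjoint.  (Two edges with a common end can only meet in that end, as no edge passes through a
vertex; by Fáry's theorem this is the same as having a drawing with arcs without crossings.) -/
def IsPlanar {V : Type} (G : SimpleGraph V) : Prop :=
  ∃ p : V → Plane, IsDrawing G p ∧ ∀ u v u' v' : V, G.Adj u v → G.Adj u' v' →
    u ≠ u' → u ≠ v' → v ≠ u' → v ≠ v' →
    Disjoint (segment ℝ (p u) (p v)) (segment ℝ (p u') (p v'))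

/-- The angular resolution problem restricted to planar graphs: the input is a planar graph `G`,
given by its adjacency lists, and a natural number `k ≥ 2`, the question is whether `G` has a
straight-line drawing, crossings allowed, whose angular resolution is at least `π / (2 k)`. -/
def PLANARAR : Set (List Bool) :=
  lang (fun x : List (List ℕ) × ℕ => ∃ h : IsGraph x.1, 2 ≤ x.2 ∧ IsPlanar (graphOf x.1 h) ∧
    HasDrawing (Real.pi / (2 * x.2)) (graphOf x.1 h))

end Pool.Agent.H670R3
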