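import Pool.Agent.H670R3.Coord
import Pool.Agent.H670R3.Prob
import Pool.Agent.H670R2.Graph
import Pool.Agent.H670R2.SlPos

/-!
# Statements of the steps
-/

namespace Pool.Agent.H670R3

open Pool.Agent.NPC Pool.Agent.H670R2 Pool.Agent.H670R2.Sl

/-! ### Frames -/

/-- Twelve nonzero vectors with pairwise angles of at least thirty degrees: their directions are the
twelve directions of a frame. -/
def St_frame : Prop := ∀ n : Fin 12 → ℝ × ℝ, (∀ i, n i ≠ 0) →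
  (∀ i j, i ≠ j → Ang (n i) (n j)) → ∃ f : ℝ × ℝ, f ≠ 0 ∧ ∀ i, ∃ z, Pp (fe f z) (n i)

/-- basic facts on frames -/
structure St_fe : Prop where
  ne : ∀ f, f ≠ 0 → ∀ z, fe f z ≠ 0
  /-- the twelve directions form a system of directions in counterclockwise order -/
  ds : ∀ f, f ≠ 0 → ∃ d : DS 6, ∀ z, d.e z = fe f z
  add : ∀ f a b, fe (fe f a) b = fe f (a + b)
  three : ∀ f z, fe f (z + 3) = J (fe f z)
  /-- two frames with a common direction are the same up to a rotation -/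
  same : ∀ f f', f ≠ 0 → f' ≠ 0 → ∀ a b v, Pp (fe f a) v → Pp (fe f' b) v →
    ∃ t : ℝ, 0 < t ∧ ∀ z, fe f' z = t • fe f (z + (a - b))
  ang : ∀ v w, Pp v w → ¬ Ang v w ∨ v = 0

/-- Two adjacent vertices `a`, `b` with eight common neighbours in a drawing with twelve
directions. -/
def St_book : Prop := ∀ (V : Type) (d : DS 6) (adj : V → V → Prop) (p : V → ℝ × ℝ)
  (a b : V) (C : Finset V) (y : ZMod (2 * 6)),
  (∀ u ∈ ({a, b} : Set V), ∀ w, adj u w → ∃ z, Dr d p u w z) →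
  (∀ u ∈ ({a, b} : Set V), ∀ v w z, adj u v → adj u w → Dr d p u v z → Dr d p u w z → v = w) →
  adj a b → adj b a → Dr d p a b y → a ∉ C → b ∉ C → C.card = 8 → (∀ c ∈ C, adj a c) →
  (∀ c ∈ C, adj b c) →
  (∀ w z, adj a w → w ∉ C → w ≠ b → Dr d p a w z → z = y + 5 ∨ z = y + 6 ∨ z = y + 7) ∧
  (∀ w z, adj b w → w ∉ C → w ≠ a → Dr d p b w z → z = y - 1 ∨ z = y ∨ z = y + 1)

/-- A closed quadrangle `P → v → Y → R` with turns by at most one step at `v` and `Y` is a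
trapezoid. -/
def St_cell : Prop := ∀ (d : DS 6) (P v Y R : ℝ × ℝ) (d0 d1 d2 x : ZMod (2 * 6)),
  Pp (d.e d0) (v - P) → Pp (d.e d1) (Y - v) → Pp (d.e d2) (R - Y) → Pp (d.e x) (R - P) →
  (d0 = d1 - 1 ∨ d0 = d1 ∨ d0 = d1 + 1) → (d2 = d1 - 1 ∨ d2 = d1 ∨ d2 = d1 + 1) →
  d0 ≠ x → d2 ≠ x → x = d1 ∧ ((d0 = d1 - 1 ∧ d2 = d1 + 1) ∨ (d0 = d1 + 1 ∧ d2 = d1 - 1))

/-! ### Soundness -/

/-- a drawing of the final graph: adjacent vertices are distinct points, and the angles are at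
least thirty degrees -/
structure Dw (Λ : Lay) (P : CV × ℕ → ℝ × ℝ) : Prop where
  ne : ∀ a b, Adj Λ a b → P a ≠ P b
  ang : ∀ a b c, Adj Λ a b → Adj Λ a c → b ≠ c → Ang (P b - P a) (P c - P a)

/-- `b` is the vertex outside at the port `j` of the hub `κ` -/
def Out (Λ : Lay) (κ : CV) (j : ℕ) (b : CV × ℕ) : Prop :=
  Adj Λ (κ, pt j) b ∧ (b.1 ≠ κ ∨ b.2 = lf j)

/-- a gadget forces a cross -/
def St_gsound : Prop := ∀ Λ P, Dw Λ P → ∀ κ, Λ.isHub κ = true →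
  ∃ (f : ℝ × ℝ) (σ : ℕ → ℕ), f ≠ 0 ∧ (∀ j < 4, σ j < 4) ∧
    (∀ i < 4, ∀ j < 4, σ i = σ j → i = j) ∧ ∀ j < 4,
      Pp (J^[σ j] f) (P (κ, pt j) - P (κ, 0)) ∧
      ∀ b, Out Λ κ j b → Pp (J^[σ j] f) (P b - P (κ, pt j))

/-- a drawing of the core graph -/
structure CDw (Λ : Lay) (q : CV → ℝ × ℝ) : Prop where
  hub : ∀ κ, Λ.isHub κ = true → ∃ (f : ℝ × ℝ) (σ : ℕ → ℕ), f ≠ 0 ∧
    (∀ i < 4, ∀ j < 4, σ i = σ j → i = j) ∧ (∀ j < 4, σ j < 4) ∧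
      ∀ a κ', CAdj Λ κ a κ' → Pp (J^[σ a] f) (q κ' - q κ)
  ne : ∀ κ a κ', CAdj Λ κ a κ' → q κ' ≠ q κ
  dist : ∀ κ a κ1 b κ2, CAdj Λ κ a κ1 → CAdj Λ κ b κ2 → κ1 ≠ κ2 →
    ¬ Pp (q κ1 - q κ) (q κ2 - q κ)

def St_core : Prop := St_gsound → ∀ Λ P, Λ.Ok → Dw Λ P → CDw Λ fun κ => P (κ, 0)

/-- coordinates of the grid points -/
structure Grd (Λ : Lay) (x y : ℕ → ℕ → ℝ) : Prop where
  h : ∀ r c, r ≤ 6 * Λ.nb → c < 6 * Λ.ng → hAbs (Λ.ty r c) (r % 6) (c % 6) = false →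
    y r (c + 1) = y r c ∧ x r c < x r (c + 1)
  v : ∀ r c, r < 6 * Λ.nb → c ≤ 6 * Λ.ng → vAbs (Λ.ty r c) (r % 6) (c % 6) = false →
    x (r + 1) c = x r c ∧ y r c < y (r + 1) c
  d : ∀ i j t, Λ.T i j = t → t ≠ 0 →
    (x (6 * i + hrC t) (6 * j + hc1 t) - x (6 * i + hr0 t) (6 * j + hc0 t)) *
      (x (6 * i + hr0 t) (6 * j + hcB t) - x (6 * i + hr1 t) (6 * j + hc0 t)) =
    (y (6 * i + hrC t) (6 * j + hc1 t) - y (6 * i + hr0 t) (6 * j + hc0 t)) *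
      (y (6 * i + hr1 t) (6 * j + hc0 t) - y (6 * i + hr0 t) (6 * j + hcB t))

def St_grid : Prop := ∀ Λ q, Λ.Ok → CDw Λ q → ∃ x y, Grd Λ x y

/-! ### Systems of constraints and their layouts -/

/-- A system of constraints: number of variables, constraints `v a * (v a + v b) = v c * (v c + v d)`,
constraints `v a + v b = v c`, constraints `v a = v b`. -/
abbrev Sy : Type := ℕ × List (ℕ × ℕ × ℕ × ℕ) × List (ℕ × ℕ × ℕ) × List (ℕ × ℕ)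

structure Sy.Ok (I : Sy) : Prop where
  m : ∀ c ∈ I.2.1, c.1 ≠ c.2.1 ∧ c.1 < I.1 ∧ c.2.1 < I.1 ∧ c.2.2.1 < I.1 ∧ c.2.2.2 < I.1
  s : ∀ c ∈ I.2.2.1, c.1 ≠ c.2.1 ∧ c.1 < c.2.2 ∧ c.2.1 < c.2.2 ∧ c.2.2 < I.1
  e : ∀ c ∈ I.2.2.2, c.1 ≠ c.2 ∧ c.1 < I.1 ∧ c.2 < I.1
  pos : 0 < I.1
  ne : I.2.2.2 ≠ []

structure Sy.Sat (I : Sy) (v : ℕ → ℝ) : Prop where
  pos : ∀ i < I.1, 0 < v i
  m : ∀ c ∈ I.2.1, v c.1 * (v c.1 + v c.2.1) = v c.2.2.1 * (v c.2.2.1 + v c.2.2.2)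
  s : ∀ c ∈ I.2.2.1, v c.1 + v c.2.1 = v c.2.2
  e : ∀ c ∈ I.2.2.2, v c.1 = v c.2

/-- the additional conditions that make the angles large -/
def Sy.Good (I : Sy) (v : ℕ → ℝ) : Prop := ∀ c ∈ I.2.1,
  v c.2.2.1 ≤ v c.1 + v c.2.1 ∧ v c.1 + v c.2.1 ≤ 17 / 10 * v c.2.2.1

/-- the types of the blocks -/
def tyOf (I : Sy) (i j : ℕ) : ℕ :=
  if j < I.2.1.length then
    (if i = (I.2.1.getD j (0, 0, 0, 0)).1 then 1
    else if i = (I.2.1.getD j (0, 0, 0, 0)).2.1 then 2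
    else if i = I.1 + j then 5 else 0)
  else if j < 3 * I.2.1.length then
    (if (j - I.2.1.length) % 2 = 0 then
      (if i = (I.2.1.getD ((j - I.2.1.length) / 2) (0, 0, 0, 0)).2.2.1 then 1
      else if i = I.1 + (j - I.2.1.length) / 2 then 1 else 0)
    else
      (if i = (I.2.1.getD ((j - I.2.1.length) / 2) (0, 0, 0, 0)).2.2.2 then 1
      else if i = I.1 + (j - I.2.1.length) / 2 then 4 else 0))
  else if j < 3 * I.2.1.length + I.2.2.1.length then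
    (if i = (I.2.2.1.getD (j - 3 * I.2.1.length) (0, 0, 0)).1 then 1
    else if i = (I.2.2.1.getD (j - 3 * I.2.1.length) (0, 0, 0)).2.1 then 2
    else if i = (I.2.2.1.getD (j - 3 * I.2.1.length) (0, 0, 0)).2.2 then 3 else 0)
  else if j < 3 * I.2.1.length + I.2.2.1.length + I.2.2.2.length then
    (if i = (I.2.2.2.getD (j - (3 * I.2.1.length + I.2.2.1.length)) (0, 0)).1 then 1
    else if i = (I.2.2.2.getD (j - (3 * I.2.1.length + I.2.2.1.length)) (0, 0)).2 then 1 else 0)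
  else 0

/-- the layout of a system -/
def lay (I : Sy) : Lay where
  nb := I.1 + I.2.1.length
  ng := 3 * I.2.1.length + I.2.2.1.length + I.2.2.2.length
  T := tyOf I

def St_layok : Prop := ∀ I : Sy, I.Ok → (lay I).Ok

/-- from coordinates to a solution -/
def St_sat : Prop := ∀ I : Sy, I.Ok → ∀ x y, Grd (lay I) x y → ∃ v, I.Sat v

/-- the relations of the holes, for a product grid -/
structure Rel (Λ : Lay) (X Y : ℕ → ℝ) : Prop where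
  mx : StrictMono X
  my : StrictMono Y
  eq : ∀ i j t, Λ.T i j = t → t ≠ 0 →
    (X (6 * j + hc1 t) - X (6 * j + hc0 t)) * (X (6 * j + hcB t) - X (6 * j + hc0 t)) =
    (Y (6 * i + hrC t) - Y (6 * i + hr0 t)) * (Y (6 * i + hr1 t) - Y (6 * i + hr0 t))
  ang : ∀ i j t, Λ.T i j = t → t ≠ 0 →
    (X (6 * j + hc1 t) - X (6 * j + hc0 t)) ^ 2 ≤ 3 * (Y (6 * i + hrC t) - Y (6 * i + hr0 t)) ^ 2 ∧
    (Y (6 * i + hrC t) - Y (6 * i + hr0 t)) ^ 2 ≤ 3 * (X (6 * j + hc1 t) - X (6 * j + hc0 t)) ^ 2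

/-- from a solution to a product grid -/
def St_xy : Prop := ∀ I : Sy, I.Ok → ∀ v : ℕ → ℝ, (∀ i, 0 < v i) → I.Sat v → I.Good v →
  ∃ X Y, Rel (lay I) X Y

/-! ### The core drawing -/

/-- the drawing of the core graph in a product grid -/
noncomputable def qc (Λ : Lay) (X Y : ℕ → ℝ) : CV → ℝ × ℝ
  | .pos r c => (X c, Y r)
  | .hub i j =>
      let t := Λ.T i j
      let a := X (6 * j + hc1 t) - X (6 * j + hc0 t)
      let b := X (6 * j + hcB t) - X (6 * j + hc0 t)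
      let c := Y (6 * i + hrC t) - Y (6 * i + hr0 t)
      let d := Y (6 * i + hr1 t) - Y (6 * i + hr0 t)
      (X (6 * j + hc0 t) + b * d / (a * d + b * c) * a,
        Y (6 * i + hr0 t) + b * d / (a * d + b * c) * c)

/-- a linear map -/
def lin (A B w : ℝ × ℝ) : ℝ × ℝ := w.1 • A + w.2 • B

/-- the axes -/
def ax (j : ℕ) : ℝ × ℝ :=
  if j = 0 then (1, 0) else if j = 1 then (0, 1) else if j = 2 then (-1, 0) else (0, -1)

/-- A good drawing of the core graph, with linear maps for the hubs. -/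
structure Cor (Λ : Lay) (q A B : CV → ℝ × ℝ) : Prop where
  inj : ∀ κ κ', Λ.Val κ → Λ.Val κ' → q κ = q κ' → κ = κ'
  seg : ∀ κ a κ' a' κ'', CE Λ κ a κ' a' → Λ.Val κ'' → κ'' ≠ κ → κ'' ≠ κ' →
    q κ'' ∉ segment ℝ (q κ) (q κ')
  det : ∀ κ, Λ.isHub κ = true → cr (A κ) (B κ) ≠ 0
  dir : ∀ κ a κ', Λ.isHub κ = true → CAdj Λ κ a κ' → a < 4 ∧
    Pp (lin (A κ) (B κ) (ax a)) (q κ' - q κ)

/-- edges without a common end are disjoint -/
def CCross (Λ : Lay) (q : CV → ℝ × ℝ) : Prop := ∀ κ a κ' a' μ b μ' b', CE Λ κ a κ' a' →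
  CE Λ μ b μ' b' → κ ≠ μ → κ ≠ μ' → κ' ≠ μ → κ' ≠ μ' →
  Disjoint (segment ℝ (q κ) (q κ')) (segment ℝ (q μ) (q μ'))

/-- the maps for the drawing without crossings -/
noncomputable def mA (Λ : Lay) (X Y : ℕ → ℝ) : CV → ℝ × ℝ
  | .pos _ _ => (1, 0)
  | .hub i j => (X (6 * j + hc1 (Λ.T i j)) - X (6 * j + hc0 (Λ.T i j)),
      Y (6 * i + hrC (Λ.T i j)) - Y (6 * i + hr0 (Λ.T i j)))

noncomputable def mB (Λ : Lay) (X Y : ℕ → ℝ) : CV → ℝ × ℝ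
  | .pos _ _ => (0, 1)
  | .hub i j => (-(X (6 * j + hcB (Λ.T i j)) - X (6 * j + hc0 (Λ.T i j))),
      Y (6 * i + hr1 (Λ.T i j)) - Y (6 * i + hr0 (Λ.T i j)))

/-- the core drawing is good and has no crossings -/
def St_corg : Prop := ∀ Λ X Y, Λ.Ok → StrictMono X → StrictMono Y →
  Cor Λ (qc Λ X Y) (mA Λ X Y) (mB Λ X Y) ∧ CCross Λ (qc Λ X Y)

/-- the second map for the drawing with large angles -/
noncomputable def mB' (Λ : Lay) (X Y : ℕ → ℝ) (κ : CV) : ℝ × ℝ := √3 • J (mA Λ X Y κ)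

/-- angles in the core drawing -/
def St_cora : Prop := St_corg → ∀ Λ X Y, Λ.Ok → Rel Λ X Y →
  Cor Λ (qc Λ X Y) (mA Λ X Y) (mB' Λ X Y) ∧
  ∀ κ a κ1 b κ2, Λ.isHub κ = false → CAdj Λ κ a κ1 → CAdj Λ κ b κ2 → κ1 ≠ κ2 →
    Ang (qc Λ X Y κ1 - qc Λ X Y κ) (qc Λ X Y κ2 - qc Λ X Y κ)

/-! ### Gadget drawings -/

/-- a drawing of the gadget -/
structure GOk (g : ℕ → ℝ × ℝ) : Prop where
  z : g 0 = 0
  port : ∀ j < 4, ∃ s : ℝ, 0 < s ∧ g (pt j) = s • ax j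
  leaf : ∀ j < 4, ∃ s : ℝ, 0 < s ∧ g (lf j) = g (pt j) + s • ax j
  inj : ∀ x < 157, ∀ y < 157, g x = g y → x = y
  seg : ∀ e ∈ gE ++ lE, ∀ w < 157, w ≠ e.1 → w ≠ e.2 → g w ∉ segment ℝ (g e.1) (g e.2)
  ray : ∀ j < 4, ∀ w < 157, w ≠ pt j → w ≠ lf j → ∀ s : ℝ, 0 ≤ s → g w ≠ g (pt j) + s • ax j

/-- a drawing of the gadget without crossings -/
structure GPl (g : ℕ → ℝ × ℝ) : Prop where
  cross : ∀ e ∈ gE ++ lE, ∀ e' ∈ gE ++ lE, e.1 ≠ e'.1 → e.1 ≠ e'.2 → e.2 ≠ e'.1 → e.2 ≠ e'.2 →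
    Disjoint (segment ℝ (g e.1) (g e.2)) (segment ℝ (g e'.1) (g e'.2))
  rayE : ∀ j < 4, ∀ e ∈ gE ++ lE, e.1 ≠ pt j → e.2 ≠ pt j → ∀ s : ℝ, 0 ≤ s →
    g (pt j) + s • ax j ∉ segment ℝ (g e.1) (g e.2)

/-- the metric `x ^ 2 + 3 y ^ 2` -/
noncomputable def st3 (v : ℝ × ℝ) : ℝ × ℝ := (v.1, √3 * v.2)

/-- adjacency in the gadget, with the leaves at the ports -/
def gN (x y : ℕ) : Prop := (x, y) ∈ gE ++ lE ∨ (y, x) ∈ gE ++ lE

/-- a drawing of the gadget with large angles -/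
structure GAn (g : ℕ → ℝ × ℝ) : Prop where
  ang : ∀ x y y', gN x y → gN x y' → y ≠ y' → Ang (st3 (g y - g x)) (st3 (g y' - g x))
  port : ∀ j < 4, ∀ y, gN (pt j) y → y ≠ lf j → Ang (st3 (g y - g (pt j))) (st3 (ax j))

/-- real coordinates -/
def rv (p : ℤ × ℤ) : ℝ × ℝ := ((p.1 : ℝ), (p.2 : ℝ))

structure St_gadget : Prop where
  a : GOk fun x => rv (gA x)
  aa : GAn fun x => rv (gA x)
  b : GOk fun x => rv (gB x)
  bb : GPl fun x => rv (gB x)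

/-! ### Gluing -/

/-- small copies of the gadget at the hubs of a core drawing -/
noncomputable def place (Λ : Lay) (q A B : CV → ℝ × ℝ) (g : ℕ → ℝ × ℝ) (ε : ℝ)
    (a : CV × ℕ) : ℝ × ℝ :=
  if Λ.isHub a.1 = true then q a.1 + ε • lin (A a.1) (B a.1) (g a.2) else q a.1

def St_glue1 : Prop := ∀ Λ q A B g, Λ.Ok → Cor Λ q A B → GOk g →
  ∃ ε₀ : ℝ, 0 < ε₀ ∧ ∀ ε, 0 < ε → ε < ε₀ →
    (∀ a b, Live Λ a → Live Λ b → place Λ q A B g ε a = place Λ q A B g ε b → a = b) ∧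
    (∀ a b c, Adj Λ a b → Live Λ c → c ≠ a → c ≠ b →
      place Λ q A B g ε c ∉ segment ℝ (place Λ q A B g ε a) (place Λ q A B g ε b))

def St_glue2 : Prop := ∀ Λ q A B g, Λ.Ok → Cor Λ q A B → CCross Λ q → GOk g → GPl g →
  ∃ ε₀ : ℝ, 0 < ε₀ ∧ ∀ ε, 0 < ε → ε < ε₀ → ∀ a b c d, Adj Λ a b → Adj Λ c d →
    a ≠ c → a ≠ d → b ≠ c → b ≠ d →
    Disjoint (segment ℝ (place Λ q A B g ε a) (place Λ q A B g ε b))
      (segment ℝ (place Λ q A B g ε c) (place Λ q A B g ε d))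

def St_glue3 : Prop := ∀ Λ q A B g, Λ.Ok → Cor Λ q A B → GOk g → GAn g →
  (∀ κ, B κ = √3 • J (A κ)) →
  (∀ κ a κ1 b κ2, Λ.isHub κ = false → CAdj Λ κ a κ1 → CAdj Λ κ b κ2 → κ1 ≠ κ2 →
    Ang (q κ1 - q κ) (q κ2 - q κ)) →
  ∃ ε₀ : ℝ, 0 < ε₀ ∧ ∀ ε, 0 < ε → ε < ε₀ → ∀ a b c, Adj Λ a b → Adj Λ a c → b ≠ c →
    Ang (place Λ q A B g ε b - place Λ q A B g ε a) (place Λ q A B g ε c - place Λ q A B g ε a)

/-! ### The graph -/

/-- the final graph, as adjacency lists -/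
def fgr (Λ : Lay) : List (List ℕ) := adjLists (nCore Λ.nb Λ.ng * 157) (eList Λ)

/-- the numbering of the vertices -/
structure St_list : Prop where
  mem : ∀ Λ : Lay, Λ.Ok → ∀ e, e ∈ eList Λ ↔ ∃ a b, FE Λ a b ∧ e = (Λ.code a, Λ.code b)
  lt : ∀ Λ : Lay, Λ.Ok → ∀ a, Live Λ a → Λ.code a < nCore Λ.nb Λ.ng * 157
  inj : ∀ Λ : Lay, Λ.Ok → ∀ a b, Live Λ a → Live Λ b → Λ.code a = Λ.code b → a = b
  ne : ∀ Λ : Lay, Λ.Ok → ∀ a b, Adj Λ a b → a ≠ b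

/-- drawings of graphs given by adjacency lists, in coordinates; the isolated vertices do not
matter -/
structure St_conv : Prop where
  dw : ∀ (L : List (List ℕ)) (h : IsGraph L), HasDrawing (Real.pi / (2 * (3 : ℕ))) (graphOf L h) →
    ∃ p : ℕ → ℝ × ℝ, (∀ u < L.length, ∀ v < L.length, p u = p v → u = v) ∧
      ∀ v < L.length, ∀ u ∈ L.getD v [], ∀ w ∈ L.getD v [], u ≠ w → Ang (p u - p v) (p w - p v)
  wd : ∀ (L : List (List ℕ)) (h : IsGraph L) (p : ℕ → ℝ × ℝ),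
    (∀ u < L.length, ∀ v < L.length, L.getD u [] ≠ [] → L.getD v [] ≠ [] → p u = p v → u = v) →
    (∀ u < L.length, ∀ v ∈ L.getD u [], ∀ w < L.length, L.getD w [] ≠ [] → w ≠ u → w ≠ v →
      p w ∉ segment ℝ (p u) (p v)) →
    (∀ v < L.length, ∀ u ∈ L.getD v [], ∀ w ∈ L.getD v [], u ≠ w →
      Ang (p u - p v) (p w - p v)) →
    HasDrawing (Real.pi / (2 * (3 : ℕ))) (graphOf L h)
  pl : ∀ (L : List (List ℕ)) (h : IsGraph L) (p : ℕ → ℝ × ℝ),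
    (∀ u < L.length, ∀ v < L.length, L.getD u [] ≠ [] → L.getD v [] ≠ [] → p u = p v → u = v) →
    (∀ u < L.length, ∀ v ∈ L.getD u [], ∀ w < L.length, L.getD w [] ≠ [] → w ≠ u → w ≠ v →
      p w ∉ segment ℝ (p u) (p v)) →
    (∀ u < L.length, ∀ v ∈ L.getD u [], ∀ u' < L.length, ∀ v' ∈ L.getD u' [], u ≠ u' → u ≠ v' →
      v ≠ u' → v ≠ v' → Disjoint (segment ℝ (p u) (p v)) (segment ℝ (p u') (p v'))) →
    IsPlanar (graphOf L h)

/-! ### Arithmetic -/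

/-- the number of variables of the system of positive constraints `cs` in `W` variables -/
def syN (W : ℕ) (cs : List Pc) : ℕ := W + 32 * cs.length + 2

/-- constraints of the first kind -/
def syM (B : ℕ) (c : Pc) : List (ℕ × ℕ × ℕ × ℕ) :=
  if c.1 = 0 then [] else
    [(B + 14, B + 18, B + 15, B), (B + 14, B + 21, B + 15, B + 7),
      (B + 14, B + 25, B + 22, B + 2), (B + 14, B + 28, B + 22, B + 9)]

/-- constraints of the second kind -/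
def syS (B : ℕ) (c : Pc) : List (ℕ × ℕ × ℕ) :=
  if c.1 = 0 then [(B, B + 1, B + 3)] else
    [(B, B + 4, B + 6), (B, B + 1, B + 7), (B + 2, B + 5, B + 8), (B + 2, B + 3, B + 9),
      (B + 6, B + 1, B + 10), (B + 8, B + 3, B + 11), (B + 10, B + 11, B + 12),
      (B + 12, B + 13, B + 14), (B + 14, B, B + 15), (B + 6, B, B + 17), (B + 17, B + 16, B + 18),
      (B + 6, B + 7, B + 19), (B + 19, B + 20, B + 21), (B + 14, B + 2, B + 22),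
      (B + 8, B + 2, B + 23), (B + 23, B + 24, B + 25), (B + 8, B + 9, B + 26),
      (B + 26, B + 27, B + 28), (B + 16, B + 29, B + 30), (B + 24, B + 29, B + 31)]

/-- constraints of the third kind -/
def syE (B : ℕ) (c : Pc) : List (ℕ × ℕ) :=
  if c.1 = 0 then [(c.2.1, B), (c.2.2.1, B + 1), (c.2.2.2, B + 3)] else
    [(c.2.1, B), (c.2.2.1, B + 1), (0, B + 2), (c.2.2.2, B + 3), (B, B + 4), (B + 2, B + 5),
      (B + 12, B + 13), (B + 30, B + 20), (B + 31, B + 27)]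

/-- the system for positive constraints -/
def syOf (W : ℕ) (cs : List Pc) : Sy :=
  (syN W cs, cs.zipIdx.flatMap fun c => syM (W + 32 * c.2) c.1,
    cs.zipIdx.flatMap fun c => syS (W + 32 * c.2) c.1,
    (W + 32 * cs.length, W + 32 * cs.length + 1) ::
      cs.zipIdx.flatMap fun c => syE (W + 32 * c.2) c.1)

structure St_arith : Prop where
  ok : ∀ W cs, 0 < W → (∀ c ∈ cs, c.below W) → (syOf W cs).Ok
  sat : ∀ W cs, 0 < W → (∀ c ∈ cs, c.below W) → ∀ x : ℕ → ℝ, (∀ i < W, 0 < x i) → x 0 = 1 →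
    (∀ c ∈ cs, c.holds x) → ∃ v : ℕ → ℝ, (∀ i, 0 < v i) ∧ (syOf W cs).Sat v ∧ (syOf W cs).Good v
  sol : ∀ W cs, 0 < W → (∀ c ∈ cs, c.below W) → ∀ v, (syOf W cs).Sat v →
    ∃ x : ℕ → ℝ, (∀ i < W, 0 < x i) ∧ x 0 = 1 ∧ ∀ c ∈ cs, c.holds x

end Pool.Agent.H670R3
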