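import Pool.Agent.H670R3.Stm

/-!
The two drawings of the gadget are correct.
-/

namespace Pool.Agent.H670R3

/-! ### Checks with natural numbers -/

/-- shifted coordinates -/
def nA : List (ℕ × ℕ) := gAl.map fun p => ((p.1 + 1000).toNat, (p.2 + 1000).toNat)

def nB : List (ℕ × ℕ) := gBl.map fun p => ((p.1 + 1000).toNat, (p.2 + 1000).toNat)

/-- a point from shifted coordinates -/
def rn (p : ℕ × ℕ) : ℝ × ℝ := ((p.1 : ℝ) - 1000, (p.2 : ℝ) - 1000)

/-- twice the area of the triangle `a b c` is `orP a b c - orM a b c` -/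
def orP (a b c : ℕ × ℕ) : ℕ := b.1 * c.2 + (b.2 * a.1 + a.2 * c.1)
def orM (a b c : ℕ × ℕ) : ℕ := b.2 * c.1 + (b.1 * a.2 + a.1 * c.2)

/-- bounding boxes -/
def boxB (a b w : ℕ × ℕ) : Bool :=
  ((Nat.blt w.1 a.1 && Nat.blt w.1 b.1) || (Nat.blt a.1 w.1 && Nat.blt b.1 w.1)) ||
  ((Nat.blt w.2 a.2 && Nat.blt w.2 b.2) || (Nat.blt a.2 w.2 && Nat.blt b.2 w.2))

/-- `w` is not on the segment from `a` to `b` -/
def offN (a b w : ℕ × ℕ) : Bool := !Nat.beq (orP a b w) (orM a b w) || boxB a b w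

/-- the points `c`, `d` are strictly on one side of the line through `a`, `b` -/
def sideB (a b c d : ℕ × ℕ) : Bool :=
  (Nat.blt (orP a b c) (orM a b c) && Nat.blt (orP a b d) (orM a b d)) ||
  (Nat.blt (orM a b c) (orP a b c) && Nat.blt (orM a b d) (orP a b d))

/-- both coordinates of `a`, `b` are smaller than those of `c`, `d`, or vice versa -/
def box4 (a b c d : ℕ × ℕ) : Bool :=
  ((Nat.blt a.1 c.1 && Nat.blt a.1 d.1) && (Nat.blt b.1 c.1 && Nat.blt b.1 d.1)) ||
  ((Nat.blt a.2 c.2 && Nat.blt a.2 d.2) && (Nat.blt b.2 c.2 && Nat.blt b.2 d.2))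

/-- the segments are disjoint -/
def sepN (a b c d : ℕ × ℕ) : Bool :=
  (sideB a b c d || sideB c d a b) || (box4 a b c d || box4 c d a b)

theorem seg_param {a b w : ℝ × ℝ} (h : w ∈ segment ℝ a b) : ∃ t : ℝ, 0 ≤ t ∧ t ≤ 1 ∧
    w.1 = a.1 + t * (b.1 - a.1) ∧ w.2 = a.2 + t * (b.2 - a.2) := by
  obtain ⟨s, t, hs, ht, hst, rfl⟩ := h
  refine ⟨t, ht, by linarith, ?_, ?_⟩
  · simp only [Prod.fst_add, Prod.smul_fst, smul_eq_mul]
    have : s = 1 - t := by linarith
    rw [this]; ring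
  · simp only [Prod.snd_add, Prod.smul_snd, smul_eq_mul]
    have : s = 1 - t := by linarith
    rw [this]; ring

theorem blt_real {m n : ℕ} (h : Nat.blt m n = true) : (m : ℝ) < n := by
  have : m < n := by simpa [Nat.blt_eq] using h
  exact_mod_cast this

theorem cvx {x y z t : ℝ} (t0 : 0 ≤ t) (t1 : t ≤ 1) (hx : x < z) (hy : y < z) :
    x + t * (y - x) < z := by
  rcases eq_or_lt_of_le t0 with h | h
  · rw [← h]; linarith
  · have h1 := mul_pos h (sub_pos.2 hy)
    have h2 := mul_nonneg (sub_nonneg.2 t1) (sub_pos.2 hx).le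
    linarith

theorem cvx' {x y z t : ℝ} (t0 : 0 ≤ t) (t1 : t ≤ 1) (hx : z < x) (hy : z < y) :
    z < x + t * (y - x) := by
  rcases eq_or_lt_of_le t0 with h | h
  · rw [← h]; linarith
  · have h1 := mul_pos h (sub_pos.2 hy)
    have h2 := mul_nonneg (sub_nonneg.2 t1) (sub_pos.2 hx).le
    linarith

theorem offN_sound {a b w : ℕ × ℕ} (h : offN a b w = true) :
    rn w ∉ segment ℝ (rn a) (rn b) := by
  intro hs
  obtain ⟨t, h0, h1, e1, e2⟩ := seg_param hs
  simp only [rn] at e1 e2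
  have f1 : (w.1 : ℝ) = a.1 + t * (b.1 - a.1) := by linarith
  have f2 : (w.2 : ℝ) = a.2 + t * (b.2 - a.2) := by linarith
  simp only [offN, boxB, Bool.or_eq_true, Bool.and_eq_true, Bool.not_eq_true'] at h
  rcases h with h | ((⟨h2, h3⟩ | ⟨h2, h3⟩) | (⟨h2, h3⟩ | ⟨h2, h3⟩))
  · apply Bool.eq_false_iff.1 h
    have : orP a b w = orM a b w := by
      have : ((orP a b w : ℕ) : ℝ) = (orM a b w : ℕ) := by
        simp only [orP, orM]
        push_cast
        rw [f1, f2]; ring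
      exact_mod_cast this
    rw [this]
    exact Nat.beq_refl _
  · have := cvx' h0 h1 (blt_real h2) (blt_real h3)
    linarith
  · have := cvx h0 h1 (blt_real h2) (blt_real h3)
    linarith
  · have := cvx' h0 h1 (blt_real h2) (blt_real h3)
    linarith
  · have := cvx h0 h1 (blt_real h2) (blt_real h3)
    linarith

theorem side_sound {a b c d : ℕ × ℕ} (h : sideB a b c d = true) {w : ℝ × ℝ}
    (h1 : w ∈ segment ℝ (rn a) (rn b)) (h2 : w ∈ segment ℝ (rn c) (rn d)) : False := by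
  obtain ⟨t, t0, t1, e1, e2⟩ := seg_param h1
  obtain ⟨s, s0, s1, g1, g2⟩ := seg_param h2
  simp only [rn] at e1 e2 g1 g2
  have key : (1 - s) * ((orP a b c : ℕ) - (orM a b c : ℕ) : ℝ) +
      s * ((orP a b d : ℕ) - (orM a b d : ℕ) : ℝ) = 0 := by
    have k1 : (c.1 : ℝ) = a.1 + t * (b.1 - a.1) - s * (d.1 - c.1) := by linarith
    have k2 : (c.2 : ℝ) = a.2 + t * (b.2 - a.2) - s * (d.2 - c.2) := by linarith
    simp only [orP, orM]
    push_cast
    have e : (1 - s) * ((b.1 * c.2 + (b.2 * a.1 + a.2 * c.1) : ℝ) -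
        (b.2 * c.1 + (b.1 * a.2 + a.1 * c.2))) +
        s * ((b.1 * d.2 + (b.2 * a.1 + a.2 * d.1) : ℝ) -
        (b.2 * d.1 + (b.1 * a.2 + a.1 * d.2))) =
        (b.1 - a.1) * (c.2 + s * (d.2 - c.2) - a.2) -
        (b.2 - a.2) * (c.1 + s * (d.1 - c.1) - a.1) := by ring
    rw [e]
    have m1 : (c.1 : ℝ) + s * (d.1 - c.1) - a.1 = t * (b.1 - a.1) := by linarith
    have m2 : (c.2 : ℝ) + s * (d.2 - c.2) - a.2 = t * (b.2 - a.2) := by linarith
    rw [m1, m2]; ring
  simp only [sideB, Bool.or_eq_true, Bool.and_eq_true] at h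
  rcases h with ⟨h3, h4⟩ | ⟨h3, h4⟩
  · have h5 := cvx s0 s1 (sub_neg.2 (blt_real h3)) (sub_neg.2 (blt_real h4))
    linarith
  · have h5 := cvx' s0 s1 (sub_pos.2 (blt_real h3)) (sub_pos.2 (blt_real h4))
    linarith

theorem box4_sound {a b c d : ℕ × ℕ} (h : box4 a b c d = true) {w : ℝ × ℝ}
    (h1 : w ∈ segment ℝ (rn a) (rn b)) (h2 : w ∈ segment ℝ (rn c) (rn d)) : False := by
  obtain ⟨t, t0, t1, e1, e2⟩ := seg_param h1
  obtain ⟨s, s0, s1, g1, g2⟩ := seg_param h2
  simp only [rn] at e1 e2 g1 g2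
  simp only [box4, Bool.or_eq_true, Bool.and_eq_true] at h
  rcases h with ⟨⟨h3, h4⟩, h5, h6⟩ | ⟨⟨h3, h4⟩, h5, h6⟩
  · have h3 := blt_real h3
    have h4 := blt_real h4
    have h5 := blt_real h5
    have h6 := blt_real h6
    have k1 := cvx t0 t1 h3 h5
    have k2 := cvx t0 t1 h4 h6
    have k3 := cvx' s0 s1 k1 k2
    linarith
  · have h3 := blt_real h3
    have h4 := blt_real h4
    have h5 := blt_real h5
    have h6 := blt_real h6
    have k1 := cvx t0 t1 h3 h5
    have k2 := cvx t0 t1 h4 h6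
    have k3 := cvx' s0 s1 k1 k2
    linarith

theorem sepN_sound {a b c d : ℕ × ℕ} (h : sepN a b c d = true) :
    Disjoint (segment ℝ (rn a) (rn b)) (segment ℝ (rn c) (rn d)) := by
  rw [Set.disjoint_left]
  intro w h1 h2
  simp only [sepN, Bool.or_eq_true] at h
  rcases h with (h | h) | (h | h)
  · exact side_sound h h1 h2
  · exact side_sound h h2 h1
  · exact box4_sound h h1 h2
  · exact box4_sound h h2 h1

/-- `w` is not on the ray from `a` in the direction `j` -/
def rayN (j : ℕ) (a w : ℕ × ℕ) : Bool :=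
  if j = 0 then !Nat.beq w.2 a.2 || Nat.blt w.1 a.1
  else if j = 1 then !Nat.beq w.1 a.1 || Nat.blt w.2 a.2
  else if j = 2 then !Nat.beq w.2 a.2 || Nat.blt a.1 w.1
  else !Nat.beq w.1 a.1 || Nat.blt a.2 w.2

/-- the segment from `c` to `d` does not meet the ray from `a` in the direction `j` -/
def rayE (j : ℕ) (a c d : ℕ × ℕ) : Bool :=
  if j = 0 then (Nat.blt a.2 c.2 && Nat.blt a.2 d.2) || ((Nat.blt c.2 a.2 && Nat.blt d.2 a.2) ||
    (Nat.blt c.1 a.1 && Nat.blt d.1 a.1))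
  else if j = 1 then (Nat.blt a.1 c.1 && Nat.blt a.1 d.1) || ((Nat.blt c.1 a.1 && Nat.blt d.1 a.1) ||
    (Nat.blt c.2 a.2 && Nat.blt d.2 a.2))
  else if j = 2 then (Nat.blt a.2 c.2 && Nat.blt a.2 d.2) || ((Nat.blt c.2 a.2 && Nat.blt d.2 a.2) ||
    (Nat.blt a.1 c.1 && Nat.blt a.1 d.1))
  else (Nat.blt a.1 c.1 && Nat.blt a.1 d.1) || ((Nat.blt c.1 a.1 && Nat.blt d.1 a.1) ||
    (Nat.blt a.2 c.2 && Nat.blt a.2 d.2))

theorem rayN_sound {j : ℕ} {a w : ℕ × ℕ} (hj : j < 4) (h : rayN j a w = true) {s : ℝ}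
    (hs : 0 ≤ s) : rn w ≠ rn a + s • ax j := by
  intro he
  have e1 := congrArg Prod.fst he
  have e2 := congrArg Prod.snd he
  have nb : ∀ {m n : ℕ}, Nat.beq m n = false → m ≠ n := by
    intro m n h h'
    rw [h', Nat.beq_refl] at h
    exact absurd h (by decide)
  have cst : ∀ {m n : ℕ}, m < n → (m : ℝ) < n := fun h => by exact_mod_cast h
  interval_cases j
  all_goals
    simp [rayN] at h
    simp [rn, ax] at e1 e2
    rcases h with h | h
    · first
        | exact nb h e1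
        | exact nb h e2
    · have := cst h
      linarith

theorem rayE_sound {j : ℕ} {a c d : ℕ × ℕ} (hj : j < 4) (h : rayE j a c d = true) {s : ℝ}
    (hs : 0 ≤ s) : rn a + s • ax j ∉ segment ℝ (rn c) (rn d) := by
  intro hm
  obtain ⟨t, t0, t1, e1, e2⟩ := seg_param hm
  have cst : ∀ {m n : ℕ}, m < n → (m : ℝ) < n := fun h => by exact_mod_cast h
  interval_cases j
  all_goals
    simp [rayE] at h
    simp [rn, ax] at e1 e2
    rcases h with ⟨h1, h2⟩ | ⟨h1, h2⟩ | ⟨h1, h2⟩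
    all_goals
      have k1 := cst h1
      have k2 := cst h2
      first
        | (have k3 := cvx t0 t1 k1 k2; linarith)
        | (have k3 := cvx' t0 t1 k1 k2; linarith)

/-- the conditions for incidences -/
def offAll (l : List (ℕ × ℕ)) : Bool :=
  (gE ++ lE).all fun e => l.zipIdx.all fun w => (Nat.beq w.2 e.1 || Nat.beq w.2 e.2) ||
    offN (l.getD e.1 (0, 0)) (l.getD e.2 (0, 0)) w.1

theorem offA : offAll nA = true := by decide +kernel

theorem offB : offAll nB = true := by decide +kernel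

/-- the conditions for crossings -/
def sepAll (l : List (ℕ × ℕ)) : Bool :=
  (gE ++ lE).all fun e => (gE ++ lE).all fun f =>
    ((Nat.beq e.1 f.1 || Nat.beq e.1 f.2) || (Nat.beq e.2 f.1 || Nat.beq e.2 f.2)) ||
    sepN (l.getD e.1 (0, 0)) (l.getD e.2 (0, 0)) (l.getD f.1 (0, 0)) (l.getD f.2 (0, 0))

theorem sepB : sepAll nB = true := by decide +kernel

/-- the conditions for rays -/
def rayAll (l : List (ℕ × ℕ)) : Bool :=
  (List.range 4).all fun j => l.zipIdx.all fun w => (Nat.beq w.2 (pt j) || Nat.beq w.2 (lf j)) ||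
    rayN j (l.getD (pt j) (0, 0)) w.1

theorem rayA : rayAll nA = true := by decide +kernel

theorem rayB : rayAll nB = true := by decide +kernel

def rayEAll (l : List (ℕ × ℕ)) : Bool :=
  (List.range 4).all fun j => (gE ++ lE).all fun e => (Nat.beq e.1 (pt j) || Nat.beq e.2 (pt j)) ||
    rayE j (l.getD (pt j) (0, 0)) (l.getD e.1 (0, 0)) (l.getD e.2 (0, 0))

theorem rayEB : rayEAll nB = true := by decide +kernel

theorem nodA : nA.Nodup := by decide +kernel

theorem nodB : nB.Nodup := by decide +kernel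

/-! ### Angles -/

/-- inner product in the metric `x ^ 2 + 3 y ^ 2` -/
def dz (u v : ℤ × ℤ) : ℤ := u.1 * v.1 + 3 * (u.2 * v.2)

def angZ (u v : ℤ × ℤ) : Bool := decide (dz u v ≤ 0) || decide (4 * dz u v ^ 2 ≤ 3 * (dz u u * dz v v))

/-- the neighbours -/
def nbs (x : ℕ) : List ℕ := (gE ++ lE).flatMap fun e =>
  (if Nat.beq e.1 x then [e.2] else []) ++ if Nat.beq e.2 x then [e.1] else []

def sbz (u v : ℤ × ℤ) : ℤ × ℤ := (u.1 - v.1, u.2 - v.2)

def angAll : Bool := (List.range 157).all fun x =>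
  let l := (nbs x).map fun y => (y, sbz (gA y) (gA x))
  l.all fun y => l.all fun z => Nat.beq y.1 z.1 || angZ y.2 z.2

theorem angA : angAll = true := by decide +kernel

def axz (j : ℕ) : ℤ × ℤ :=
  if j = 0 then (1, 0) else if j = 1 then (0, 1) else if j = 2 then (-1, 0) else (0, -1)

def angP : Bool := (List.range 4).all fun j => (nbs (pt j)).all fun y => Nat.beq y (lf j) ||
  angZ (sbz (gA y) (gA (pt j))) (axz j)

theorem angPA : angP = true := by decide +kernel

end Pool.Agent.H670R3
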