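import Pool.Agent.H670R3.Stm2
import Pool.Agent.H670R2.SlMem

/-!
# Membership in `∃ℝ`
-/

namespace Pool.Agent.H670R3

open Pool.Agent.NPC Pool.Agent.NPC.ER Pool.Agent.H670R2 Pool.Agent.H670R2.Sl

namespace ME

open Real

/-! ### Coordinates -/

/-- the plane in coordinates -/
noncomputable def eq2 : Plane ≃ₗ[ℝ] ℝ × ℝ :=
  (WithLp.linearEquiv 2 ℝ (Fin 2 → ℝ)).trans (LinearEquiv.finTwoArrow ℝ ℝ)

theorem eq2_apply (x : Plane) : eq2 x = (x 0, x 1) := rfl

theorem inner_eq (x y : Plane) : inner ℝ x y = dt (eq2 x) (eq2 y) := by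
  rw [PiLp.inner_apply, Fin.sum_univ_two, eq2_apply, eq2_apply]
  simp [dt]
  ring

theorem mem_seg_iff (x a b : Plane) : x ∈ segment ℝ a b ↔ eq2 x ∈ segment ℝ (eq2 a) (eq2 b) := by
  have h := image_segment ℝ (f := (eq2 : Plane →ₗ[ℝ] ℝ × ℝ).toAffineMap) a b
  have h' : (eq2 : Plane → ℝ × ℝ) '' segment ℝ a b = segment ℝ (eq2 a) (eq2 b) := h
  rw [← h']
  exact (eq2.injective.mem_set_image).symm

/-- the angle of `a` and `b` is at least the angle with cosine `c` -/
def AngC (c : ℝ) (a b : ℝ × ℝ) : Prop := dt a b ≤ 0 ∨ dt a b ^ 2 ≤ c ^ 2 * (dt a a * dt b b)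

theorem ang_iff {α : ℝ} (h0 : 0 ≤ α) (h1 : α ≤ π / 2) (x y : Plane) :
    α ≤ InnerProductGeometry.angle x y ↔ AngC (cos α) (eq2 x) (eq2 y) := by
  unfold AngC
  rw [← inner_eq, ← inner_eq, ← inner_eq, real_inner_self_eq_norm_sq, real_inner_self_eq_norm_sq]
  by_cases hx : x = 0
  · subst hx
    simp [h1]
  by_cases hy : y = 0
  · subst hy
    simp [h1]
  have hp : 0 < ‖x‖ * ‖y‖ := mul_pos (norm_pos_iff.2 hx) (norm_pos_iff.2 hy)
  have h2 := InnerProductGeometry.angle_nonneg x y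
  have h3 := InnerProductGeometry.angle_le_pi x y
  have h4 := strictAntiOn_cos.le_iff_ge (a := InnerProductGeometry.angle x y) (b := α)
    ⟨h2, h3⟩ ⟨h0, by linarith [pi_pos]⟩
  rw [← h4, InnerProductGeometry.cos_angle, div_le_iff₀ hp]
  have hc : 0 ≤ cos α := cos_nonneg_of_mem_Icc ⟨by linarith, h1⟩
  have hm : 0 ≤ cos α * (‖x‖ * ‖y‖) := mul_nonneg hc hp.le
  constructor
  · intro h
    by_cases hs : (inner ℝ x y : ℝ) ≤ 0
    · exact Or.inl hs
    · push Not at hs
      right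
      nlinarith
  · rintro (h | h)
    · linarith
    · by_contra hcon
      push Not at hcon
      nlinarith

/-- drawings in coordinates -/
structure Dr {V : Type} (G : SimpleGraph V) (p : V → ℝ × ℝ) : Prop where
  inj : Function.Injective p
  edge : ∀ u v w : V, G.Adj u v → w ≠ u → w ≠ v → p w ∉ segment ℝ (p u) (p v)

theorem dr_iff {V : Type} (G : SimpleGraph V) (p : V → Plane) :
    IsDrawing G p ↔ Dr G (fun v => eq2 (p v)) := by
  constructor
  · rintro ⟨h1, h2⟩
    refine ⟨fun u v h => h1 (eq2.injective h), fun u v w huv hu hv h => ?_⟩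
    exact h2 u v w huv hu hv ((mem_seg_iff _ _ _).2 h)
  · rintro ⟨h1, h2⟩
    refine ⟨fun u v h => h1 (congrArg eq2 h), fun u v w huv hu hv h => ?_⟩
    exact h2 u v w huv hu hv ((mem_seg_iff _ _ _).1 h)

theorem planar_iff {V : Type} (G : SimpleGraph V) : IsPlanar G ↔ ∃ p : V → ℝ × ℝ, Dr G p ∧
    ∀ u v u' v' : V, G.Adj u v → G.Adj u' v' → u ≠ u' → u ≠ v' → v ≠ u' → v ≠ v' →
    Disjoint (segment ℝ (p u) (p v)) (segment ℝ (p u') (p v')) := by
  constructor
  · rintro ⟨p, hp, h⟩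
    refine ⟨fun v => eq2 (p v), (dr_iff G p).1 hp, fun u v u' v' h1 h2 h3 h4 h5 h6 => ?_⟩
    rw [Set.disjoint_left]
    intro z hz1 hz2
    obtain ⟨z', rfl⟩ := eq2.surjective z
    exact Set.disjoint_left.1 (h u v u' v' h1 h2 h3 h4 h5 h6) ((mem_seg_iff _ _ _).2 hz1)
      ((mem_seg_iff _ _ _).2 hz2)
  · rintro ⟨p, hp, h⟩
    have e : ∀ v, eq2 (eq2.symm (p v)) = p v := fun v => eq2.apply_symm_apply _
    refine ⟨fun v => eq2.symm (p v), (dr_iff G _).2 (by simpa only [e] using hp),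
      fun u v u' v' h1 h2 h3 h4 h5 h6 => ?_⟩
    rw [Set.disjoint_left]
    intro z hz1 hz2
    have a1 := (mem_seg_iff _ _ _).1 hz1
    have a2 := (mem_seg_iff _ _ _).1 hz2
    rw [e, e] at a1 a2
    exact Set.disjoint_left.1 (h u v u' v' h1 h2 h3 h4 h5 h6) a1 a2

theorem le_angRes {V : Type} {α : ℝ} {G : SimpleGraph V} {p : V → Plane} :
    (α : EReal) ≤ angRes G p ↔ ∀ v u w, G.Adj v u → G.Adj v w → u ≠ w →
      α ≤ EuclideanGeometry.angle (p u) (p v) (p w) := by
  unfold angRes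
  simp only [le_iInf_iff, EReal.coe_le_coe_iff]

theorem has_iff {V : Type} {α : ℝ} (h0 : 0 ≤ α) (h1 : α ≤ π / 2) (G : SimpleGraph V) :
    HasDrawing α G ↔ ∃ p : V → ℝ × ℝ, Dr G p ∧
    ∀ v u w, G.Adj v u → G.Adj v w → u ≠ w → AngC (cos α) (p u - p v) (p w - p v) := by
  unfold HasDrawing
  simp only [le_angRes]
  constructor
  · rintro ⟨p, hp, h⟩
    refine ⟨fun v => eq2 (p v), (dr_iff G p).1 hp, fun v u w h2 h3 h4 => ?_⟩
    have h5 := h v u w h2 h3 h4
    unfold EuclideanGeometry.angle at h5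
    rw [ang_iff h0 h1] at h5
    simpa only [vsub_eq_sub, map_sub] using h5
  · rintro ⟨p, hp, h⟩
    have e : ∀ v, eq2 (eq2.symm (p v)) = p v := fun v => eq2.apply_symm_apply _
    refine ⟨fun v => eq2.symm (p v), (dr_iff G _).2 (by simpa only [e] using hp),
      fun v u w h2 h3 h4 => ?_⟩
    unfold EuclideanGeometry.angle
    rw [ang_iff h0 h1]
    simpa only [vsub_eq_sub, map_sub, e] using h v u w h2 h3 h4

/-! ### Crossing segments -/

theorem mem_segment_of {a b : ℝ × ℝ} {t : ℝ} (h0 : 0 ≤ t) (h1 : t ≤ 1) :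
    a + t • (b - a) ∈ segment ℝ a b :=
  ⟨1 - t, t, by linarith, h0, by ring, by rw [sub_smul, one_smul, smul_sub]; abel⟩

theorem exists_of_mem {a b c : ℝ × ℝ} (h : c ∈ segment ℝ a b) :
    ∃ t : ℝ, 0 ≤ t ∧ t ≤ 1 ∧ c = a + t • (b - a) := by
  obtain ⟨s, t, hs, ht, hst, rfl⟩ := h
  refine ⟨t, ht, by linarith, ?_⟩
  have : s = 1 - t := by linarith
  subst this
  rw [sub_smul, one_smul, smul_sub]; abel

theorem disj_iff {a b c d : ℝ × ℝ} (hab : a ≠ b) (hcd : c ≠ d)
    (hc : c ∉ segment ℝ a b) (hd : d ∉ segment ℝ a b) (ha : a ∉ segment ℝ c d)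
    (hb : b ∉ segment ℝ c d) :
    Disjoint (segment ℝ a b) (segment ℝ c d) ↔
      ¬ (cr (b - a) (c - a) * cr (b - a) (d - a) < 0 ∧
        cr (d - c) (a - c) * cr (d - c) (b - c) < 0) := by
  have hba : b - a ≠ 0 := sub_ne_zero.2 (Ne.symm hab)
  constructor
  · rintro h ⟨h1, h2⟩
    set o1 := cr (b - a) (c - a) with ho1
    set o2 := cr (b - a) (d - a) with ho2
    set o3 := cr (d - c) (a - c) with ho3
    set o4 := cr (d - c) (b - c) with ho4
    have n12 : o1 - o2 ≠ 0 := by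
      intro e
      have : o1 = o2 := by linarith
      rw [this] at h1
      nlinarith [mul_self_nonneg o2]
    have n34 : o3 - o4 ≠ 0 := by
      intro e
      have : o3 = o4 := by linarith
      rw [this] at h2
      nlinarith [mul_self_nonneg o4]
    -- parameters
    have key : ∀ {p q : ℝ}, p * q < 0 → 0 ≤ p / (p - q) ∧ p / (p - q) ≤ 1 := by
      intro p q hpq
      rcases lt_trichotomy p 0 with hp | hp | hp
      · have hq : 0 < q := by nlinarith
        have hs : p - q < 0 := by linarith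
        exact ⟨div_nonneg_of_nonpos hp.le hs.le, by rw [div_le_one_of_neg hs]; linarith⟩
      · subst hp; simp at hpq
      · have hq : q < 0 := by nlinarith
        have hs : 0 < p - q := by linarith
        exact ⟨div_nonneg hp.le hs.le, by rw [div_le_one hs]; linarith⟩
    set t := o1 / (o1 - o2) with ht
    obtain ⟨t0, t1⟩ := key h1
    have hz : cr (b - a) (c + t • (d - c) - a) = 0 := by
      have e : c + t • (d - c) - a = (1 - t) • (c - a) + t • (d - a) := by
        rw [sub_smul, one_smul, smul_sub, smul_sub, smul_sub]; abel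
      rw [e, cr_add_right, cr_smul_right, cr_smul_right, ← ho1, ← ho2, ht]
      field_simp
      ring
    obtain ⟨s, hs⟩ := par_of_cr hba hz
    have hz2 : c + t • (d - c) = a + s • (b - a) := by rw [← hs]; abel
    have hs2 : s = o3 / (o3 - o4) := by
      have h3 : cr (d - c) (a + s • (b - a) - c) = 0 := by
        rw [← hz2]
        have e : c + t • (d - c) - c = t • (d - c) := by abel
        rw [e, cr_smul_right, cr_self, mul_zero]
      have e : a + s • (b - a) - c = (1 - s) • (a - c) + s • (b - c) := by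
        rw [sub_smul, one_smul, smul_sub, smul_sub, smul_sub]; abel
      rw [e, cr_add_right, cr_smul_right, cr_smul_right, ← ho3, ← ho4] at h3
      rw [eq_div_iff n34]
      linarith
    obtain ⟨s0, s1⟩ := key h2
    rw [← hs2] at s0 s1
    refine Set.disjoint_left.1 h (mem_segment_of s0 s1) ?_
    rw [← hz2]
    exact mem_segment_of t0 t1
  · intro h
    rw [Set.disjoint_left]
    intro z hz1 hz2
    obtain ⟨s, s0, s1, hs⟩ := exists_of_mem hz1
    obtain ⟨t, t0, t1, ht⟩ := exists_of_mem hz2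
    have s0' : 0 < s := by
      rcases s0.lt_or_eq with h' | h'
      · exact h'
      · exfalso
        subst h'
        rw [zero_smul, add_zero] at hs
        exact ha (hs ▸ hz2)
    have s1' : s < 1 := by
      rcases s1.lt_or_eq with h' | h'
      · exact h'
      · exfalso
        subst h'
        rw [one_smul, add_sub_cancel] at hs
        exact hb (hs ▸ hz2)
    have t0' : 0 < t := by
      rcases t0.lt_or_eq with h' | h'
      · exact h'
      · exfalso
        subst h'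
        rw [zero_smul, add_zero] at ht
        exact hc (ht ▸ hz1)
    have t1' : t < 1 := by
      rcases t1.lt_or_eq with h' | h'
      · exact h'
      · exfalso
        subst h'
        rw [one_smul, add_sub_cancel] at ht
        exact hd (ht ▸ hz1)
    have hst : a + s • (b - a) = c + t • (d - c) := by rw [← hs, ← ht]
    by_cases hD : cr (b - a) (d - c) = 0
    · obtain ⟨r, hr⟩ := par_of_cr hba hD
      have hr0 : r ≠ 0 := by
        rintro rfl
        rw [zero_smul, sub_eq_zero] at hr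
        exact hcd hr.symm
      have ec : c = a + (s - t * r) • (b - a) := by
        have : c = a + s • (b - a) - t • (d - c) := by rw [hst]; abel
        rw [this, hr, smul_smul, sub_smul]; abel
      have ed : d = a + (s + (1 - t) * r) • (b - a) := by
        have : d = c + (d - c) := by abel
        rw [this, hr]
        nth_rw 1 [ec]
        rw [add_assoc, ← add_smul]
        congr 2
        ring
      have hc' : ¬ (0 ≤ s - t * r ∧ s - t * r ≤ 1) := by
        rintro ⟨h1, h2⟩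
        exact hc (ec ▸ mem_segment_of h1 h2)
      have hd' : ¬ (0 ≤ s + (1 - t) * r ∧ s + (1 - t) * r ≤ 1) := by
        rintro ⟨h1, h2⟩
        exact hd (ed ▸ mem_segment_of h1 h2)
      have ea : a = c + (t - s / r) • (d - c) := by
        rw [hr, smul_smul]
        nth_rw 1 [ec]
        rw [add_assoc, ← add_smul]
        have : s - t * r + (t - s / r) * r = 0 := by
          field_simp
          ring
        rw [this, zero_smul, add_zero]
      have ha' : ¬ (0 ≤ t - s / r ∧ t - s / r ≤ 1) := by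
        rintro ⟨h1, h2⟩
        exact ha (ea ▸ mem_segment_of h1 h2)
      apply ha'
      rcases lt_or_gt_of_ne hr0 with hr1 | hr1
      · have h1 : 0 ≤ s - t * r := by nlinarith
        have h2 : ¬ (s - t * r ≤ 1) := fun h2 => hc' ⟨h1, h2⟩
        push Not at h2
        have h3 : s + (1 - t) * r ≤ 1 := by nlinarith
        have h4 : ¬ (0 ≤ s + (1 - t) * r) := fun h4 => hd' ⟨h4, h3⟩
        push Not at h4
        have e : (s / r) * r = s := by field_simp
        constructor
        · nlinarith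
        · by_contra hcon
          push Not at hcon
          nlinarith
      · have h1 : s - t * r ≤ 1 := by nlinarith
        have h2 : ¬ (0 ≤ s - t * r) := fun h2 => hc' ⟨h2, h1⟩
        push Not at h2
        have e : (s / r) * r = s := by field_simp
        constructor
        · by_contra hcon
          push Not at hcon
          nlinarith
        · have : 0 ≤ s / r := div_nonneg s0 hr1.le
          linarith
    · refine h ⟨?_, ?_⟩
      · have e1 : cr (b - a) (c - a) = - t * cr (b - a) (d - c) := by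
          have : c - a = s • (b - a) - t • (d - c) := by
            have : c = a + s • (b - a) - t • (d - c) := by rw [hst]; abel
            nth_rw 1 [this]
            abel
          rw [this, cr_sub_right, cr_smul_right, cr_smul_right, cr_self]
          ring
        have e2 : cr (b - a) (d - a) = (1 - t) * cr (b - a) (d - c) := by
          have : d - a = (c - a) + (d - c) := by abel
          rw [this, cr_add_right, e1]
          ring
        rw [e1, e2]
        have h3 := mul_self_pos.2 hD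
        have h4 := mul_pos t0' (sub_pos.2 t1')
        nlinarith
      · have e0 : a - c = t • (d - c) - s • (b - a) := by
          have : a = c + t • (d - c) - s • (b - a) := by rw [← hst]; abel
          nth_rw 1 [this]
          abel
        have e1 : cr (d - c) (a - c) = s * cr (b - a) (d - c) := by
          rw [e0, cr_sub_right, cr_smul_right, cr_smul_right, cr_self, cr_comm (d - c)]
          ring
        have e2 : cr (d - c) (b - c) = - (1 - s) * cr (b - a) (d - c) := by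
          have : b - c = (a - c) + (b - a) := by abel
          rw [this, cr_add_right, e1, cr_comm (d - c)]
          ring
        rw [e1, e2]
        have h3 := mul_self_pos.2 hD
        have h4 := mul_pos s0' (sub_pos.2 s1')
        nlinarith

/-! ### Regular polygons -/

theorem chord (A B : ℝ) : ((cos B, sin B) - (cos A, sin A) : ℝ × ℝ) =
    (2 * sin ((B - A) / 2)) • ((-sin ((A + B) / 2), cos ((A + B) / 2)) : ℝ × ℝ) := by
  have h1 : cos B - cos A = 2 * sin ((B - A) / 2) * -sin ((A + B) / 2) := by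
    rw [cos_sub_cos, show (B + A) / 2 = (A + B) / 2 by ring]; ring
  have h2 : sin B - sin A = 2 * sin ((B - A) / 2) * cos ((A + B) / 2) := by
    rw [sin_sub_sin, show (B + A) / 2 = (A + B) / 2 by ring]
  exact Prod.ext h1 h2

theorem dt_smul (r s : ℝ) (a b : ℝ × ℝ) : dt (r • a) (s • b) = r * s * dt a b := by
  simp [dt]; ring

theorem dt_unit (A B : ℝ) : dt (-sin A, cos A) (-sin B, cos B) = cos (A - B) := by
  rw [cos_sub]; simp [dt]; ring

theorem cr_unit (A B : ℝ) : cr (-sin A, cos A) (-sin B, cos B) = sin (B - A) := by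
  rw [sin_sub]; simp [cr]; ring

/-- angles of the vertices -/
noncomputable def th (n v : ℕ) : ℝ := 2 * (π * v / n)

theorem range_abs {n u v : ℕ} (hu : u < n) (hv : v < n) (h : u ≠ v) :
    π / n ≤ |(th n u - th n v) / 2| ∧ |(th n u - th n v) / 2| ≤ π - π / n := by
  have hn : (0 : ℝ) < n := by
    have : 0 < n := by omega
    exact_mod_cast this
  have e : (th n u - th n v) / 2 = (π / n) * ((u : ℝ) - v) := by
    unfold th; field_simp
  rw [e, abs_mul, abs_of_pos (div_pos pi_pos hn)]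
  have h1 : (1 : ℝ) ≤ |(u : ℝ) - v| := by
    have : (1 : ℤ) ≤ |(u : ℤ) - v| := by
      apply Int.one_le_abs; omega
    have h2 : ((1 : ℤ) : ℝ) ≤ ((|(u : ℤ) - v| : ℤ) : ℝ) := by exact_mod_cast this
    simpa using h2
  have h2 : |(u : ℝ) - v| ≤ n - 1 := by
    have : |(u : ℤ) - v| ≤ n - 1 := by
      rw [abs_le]; omega
    have h3 : ((|(u : ℤ) - v| : ℤ) : ℝ) ≤ (((n : ℤ) - 1 : ℤ) : ℝ) := by exact_mod_cast this
    simpa using h3
  have hp : 0 < π / n := div_pos pi_pos hn
  constructor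
  · nlinarith
  · have : π - π / n = π / n * (n - 1) := by field_simp
    rw [this]
    exact mul_le_mul_of_nonneg_left h2 hp.le

theorem sin_ne {n u v : ℕ} (hu : u < n) (hv : v < n) (h : u ≠ v) :
    sin ((th n u - th n v) / 2) ≠ 0 := by
  obtain ⟨h1, h2⟩ := range_abs hu hv h
  have hn : (0 : ℝ) < n := by
    have : 0 < n := by omega
    exact_mod_cast this
  have hp : 0 < π / n := div_pos pi_pos hn
  have h3 : 0 < sin |(th n u - th n v) / 2| := sin_pos_of_pos_of_lt_pi (by linarith) (by linarith)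
  intro h0
  rcases abs_choice ((th n u - th n v) / 2) with h4 | h4
  · rw [h4, h0] at h3; exact lt_irrefl _ h3
  · rw [h4, sin_neg, h0, neg_zero] at h3; exact lt_irrefl _ h3

theorem cos_sq_le {n u v K : ℕ} (hu : u < n) (hv : v < n) (h : u ≠ v) (hK : n ≤ 2 * K) :
    cos ((th n u - th n v) / 2) ^ 2 ≤ cos (π / (2 * K)) ^ 2 := by
  obtain ⟨h1, h2⟩ := range_abs hu hv h
  have hn : (0 : ℝ) < n := by
    have : 0 < n := by omega
    exact_mod_cast this
  have hK0 : (0 : ℝ) < 2 * K := by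
    have : 0 < 2 * K := by omega
    exact_mod_cast this
  have hle : π / (2 * K) ≤ π / n := by
    apply div_le_div_of_nonneg_left pi_pos.le hn
    exact_mod_cast hK
  have hp : 0 < π / (2 * K) := div_pos pi_pos hK0
  rw [← cos_abs]
  apply sq_le_sq'
  · rw [← cos_pi_sub]
    exact strictAntiOn_cos.antitoneOn ⟨abs_nonneg _, by linarith⟩
      ⟨by linarith, by linarith⟩ (by linarith)
  · exact strictAntiOn_cos.antitoneOn ⟨hp.le, by linarith⟩
      ⟨abs_nonneg _, by linarith⟩ (by linarith)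

theorem circ {n K : ℕ} (hK : n ≤ 2 * K) (G : SimpleGraph (Fin n)) :
    ∃ p : Fin n → ℝ × ℝ, Dr G p ∧ ∀ v u w, G.Adj v u → G.Adj v w → u ≠ w →
      AngC (cos (π / (2 * K))) (p u - p v) (p w - p v) := by
  refine ⟨fun v => (cos (th n v), sin (th n v)), ⟨?_, ?_⟩, ?_⟩
  · intro u v huv
    by_contra hne
    have hne' : v.1 ≠ u.1 := fun e => hne (Fin.ext e.symm)
    have h1 := chord (th n u) (th n v)
    have h2 : ((cos (th n v), sin (th n v)) - (cos (th n u), sin (th n u)) : ℝ × ℝ) = 0 := by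
      simp only at huv
      rw [huv, sub_self]
    rw [h2] at h1
    have h3 := congrArg (fun z => dt z z) h1
    simp only [dt_smul, dt_unit, sub_self, cos_zero] at h3
    have h4 := sin_ne v.2 u.2 hne'
    have h5 := mul_self_pos.2 h4
    simp [dt] at h3
    exact h4 h3
  · intro u v w huv hwu hwv hmem
    obtain ⟨t, -, -, ht⟩ := exists_of_mem hmem
    have h1 : cr ((cos (th n v), sin (th n v)) - (cos (th n u), sin (th n u)))
        ((cos (th n w), sin (th n w)) - (cos (th n u), sin (th n u))) = 0 := by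
      rw [ht, add_sub_cancel_left, cr_smul_right, cr_self, mul_zero]
    rw [chord, chord, cr_smul_left, cr_smul_right, cr_unit] at h1
    have a1 : sin ((th n v - th n u) / 2) ≠ 0 := sin_ne v.2 u.2 (by
      intro e; exact huv.ne (Fin.ext e.symm))
    have a2 : sin ((th n w - th n u) / 2) ≠ 0 := sin_ne w.2 u.2 (by
      intro e; exact hwu (Fin.ext e))
    have a3 : sin ((th n u + th n w) / 2 - (th n u + th n v) / 2) ≠ 0 := by
      rw [show (th n u + th n w) / 2 - (th n u + th n v) / 2 = (th n w - th n v) / 2 by ring]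
      exact sin_ne w.2 v.2 (by intro e; exact hwv (Fin.ext e))
    have := mul_ne_zero (mul_ne_zero two_ne_zero a1) (mul_ne_zero (mul_ne_zero two_ne_zero a2) a3)
    exact this (by linarith)
  · intro v u w hvu hvw huw
    right
    rw [chord, chord, dt_smul, dt_smul, dt_smul, dt_unit, dt_unit, dt_unit, sub_self, sub_self,
      cos_zero]
    rw [show (th n v + th n u) / 2 - (th n v + th n w) / 2 = (th n u - th n w) / 2 by ring]
    have h := cos_sq_le u.2 w.2 (fun e => huw (Fin.ext e)) hK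
    have e1 : (2 * sin ((th n u - th n v) / 2) * (2 * sin ((th n w - th n v) / 2)) *
        cos ((th n u - th n w) / 2)) ^ 2 = cos ((th n u - th n w) / 2) ^ 2 *
        (2 * sin ((th n u - th n v) / 2) * (2 * sin ((th n w - th n v) / 2))) ^ 2 := by ring
    have e2 : cos (π / (2 * K)) ^ 2 * (2 * sin ((th n u - th n v) / 2) *
        (2 * sin ((th n u - th n v) / 2)) * 1 * (2 * sin ((th n w - th n v) / 2) *
        (2 * sin ((th n w - th n v) / 2)) * 1)) = cos (π / (2 * K)) ^ 2 *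
        (2 * sin ((th n u - th n v) / 2) * (2 * sin ((th n w - th n v) / 2))) ^ 2 := by ring
    rw [e1, e2]
    exact mul_le_mul_of_nonneg_right h (sq_nonneg _)

/-! ### Powers of a rotation -/

theorem chain {K : ℕ} (hK : 2 ≤ K) {P : ℕ → ℝ × ℝ} (h0 : P 0 = (1, 0)) (hK1 : P K = (0, 1))
    (hs : ∀ j < K, P (j + 1) = ((P j).1 * (P 1).1 - (P j).2 * (P 1).2,
      (P j).1 * (P 1).2 + (P j).2 * (P 1).1))
    (hp : ∀ j, 1 ≤ j → j < K → 0 < (P j).1 ∧ 0 < (P j).2) : (P 1).1 = cos (π / (2 * K)) := by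
  obtain ⟨h1, h2⟩ := hp 1 le_rfl (by omega)
  set z : ℂ := ⟨(P 1).1, (P 1).2⟩ with hz
  set r := ‖z‖ with hr
  set θ := Complex.arg z with hθ
  have e1 : (P 1).1 = r * cos θ := (Complex.norm_mul_cos_arg z).symm
  have e2 : (P 1).2 = r * sin θ := (Complex.norm_mul_sin_arg z).symm
  have hr0 : 0 ≤ r := norm_nonneg z
  have hr1 : 0 < r := by
    rcases hr0.lt_or_eq with h | h
    · exact h
    · rw [← h, zero_mul] at e1
      rw [e1] at h1
      exact absurd h1 (lt_irrefl _)
  have hθ1 : 0 ≤ θ := Complex.arg_nonneg_iff.2 h2.le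
  have hθ0 : 0 < θ := by
    rcases hθ1.lt_or_eq with h | h
    · exact h
    · rw [← h, sin_zero, mul_zero] at e2
      rw [e2] at h2
      exact absurd h2 (lt_irrefl _)
  have hθ2 : θ < π / 2 := by
    have h3 : |Complex.arg z| < π / 2 := Complex.abs_arg_lt_pi_div_two_iff.2 (Or.inl h1)
    exact (abs_lt.1 h3).2
  have hpow : ∀ j, j ≤ K → P j = (r ^ j * cos (j * θ), r ^ j * sin (j * θ)) := by
    intro j
    induction j with
    | zero => intro _; rw [h0]; simp
    | succ j ih =>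
        intro hj
        rw [hs j (by omega), ih (by omega), e1, e2]
        have : ((j + 1 : ℕ) : ℝ) * θ = j * θ + θ := by push_cast; ring
        rw [this, cos_add, sin_add, pow_succ]
        refine Prod.ext ?_ ?_ <;> simp only <;> ring
  have hlt : ∀ j, j < K → j * θ < π / 2 := by
    intro j
    induction j with
    | zero => intro _; simp [pi_pos]
    | succ j ih =>
        intro hj
        have h3 := ih (by omega)
        have h4 := (hp (j + 1) (by omega) hj).1
        rw [hpow (j + 1) hj.le] at h4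
        have h5 : 0 < cos (((j + 1 : ℕ) : ℝ) * θ) := pos_of_mul_pos_right h4 (pow_pos hr1 _).le
        have h6 : ((j + 1 : ℕ) : ℝ) * θ = j * θ + θ := by push_cast; ring
        by_contra hcon
        push Not at hcon
        have h7 : cos (((j + 1 : ℕ) : ℝ) * θ) ≤ 0 :=
          cos_nonpos_of_pi_div_two_le_of_le hcon (by rw [h6]; linarith)
        linarith
  have hKp := hpow K le_rfl
  rw [hK1] at hKp
  have c1 : 0 = r ^ K * cos (K * θ) := congrArg Prod.fst hKp
  have c2 : 1 = r ^ K * sin (K * θ) := congrArg Prod.snd hKp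
  have hcos : cos (K * θ) = 0 := by
    rcases mul_eq_zero.1 c1.symm with h | h
    · exact absurd h (pow_pos hr1 _).ne'
    · exact h
  have hK' : (K : ℝ) * θ = ((K - 1 : ℕ) : ℝ) * θ + θ := by
    have : ((K - 1 : ℕ) : ℝ) = K - 1 := by
      rw [Nat.cast_sub (by omega)]; simp
    rw [this]; ring
  have hlast := hlt (K - 1) (by omega)
  have hKθ : (K : ℝ) * θ = π / 2 := by
    apply injOn_cos ⟨by positivity, by rw [hK']; linarith⟩
      ⟨by positivity, by linarith [pi_pos]⟩
    rw [hcos, cos_pi_div_two]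
  have hr2 : r = 1 := by
    rw [hKθ, sin_pi_div_two, mul_one] at c2
    exact (pow_eq_one_iff_of_nonneg hr0 (by omega)).1 c2.symm
  have hK0 : (0 : ℝ) < K := by
    have : 0 < K := by omega
    exact_mod_cast this
  rw [e1, hr2, one_mul]
  congr 1
  rw [eq_div_iff (by positivity)]
  linarith

/-! ### The formula -/

open Pool.Agent.NPC.H670R2

/-- the list of directed edges -/
def eL (L : List (List ℕ)) : List (ℕ × ℕ) := L.zipIdx.flatMap fun p => p.1.map fun v => (p.2, v)

theorem mem_eL {L : List (List ℕ)} {u v : ℕ} : (u, v) ∈ eL L ↔ u < L.length ∧ v ∈ L.getD u [] := by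
  unfold eL
  simp only [List.mem_flatMap, List.mem_map, Prod.mk.injEq]
  constructor
  · rintro ⟨⟨l, i⟩, hp, w, hw, rfl, rfl⟩
    rw [List.mem_zipIdx_iff_getElem?] at hp
    obtain ⟨h1, h2⟩ := List.getElem?_eq_some_iff.1 hp
    refine ⟨h1, ?_⟩
    rw [List.getD_eq_getElem _ _ h1, h2]
    exact hw
  · rintro ⟨h1, h2⟩
    refine ⟨(L.getD u [], u), ?_, v, h2, rfl, rfl⟩
    rw [List.mem_zipIdx_iff_getElem?]
    simp [h1]

/-- inner product of two edges at `v` -/
def ipF (v u w : ℕ) : Tm := Tm.add (Tm.mul (dT 0 v u) (dT 0 v w)) (Tm.mul (dT 1 v u) (dT 1 v w))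

/-- the angle condition at `v` -/
def angF (c v u w : ℕ) : Fm :=
  Fm.or (Fm.le (ipF v u w) Tm.zero) (Fm.le (Tm.mul (ipF v u w) (ipF v u w))
    (Tm.mul (Tm.mul (Tm.var c) (Tm.var c)) (Tm.mul (ipF v u u) (ipF v w w))))

/-- orientation -/
def orT (a b c : ℕ) : Tm :=
  Tm.add (Tm.mul (dT 0 a b) (dT 1 a c)) (Tm.neg (Tm.mul (dT 1 a b) (dT 0 a c)))

/-- the segments do not cross -/
def crossF (a b c d : ℕ) : Fm :=
  Fm.not (Fm.and (Fm.lt (Tm.mul (orT a b c) (orT a b d)) Tm.zero)
    (Fm.lt (Tm.mul (orT c d a) (orT c d b)) Tm.zero))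

/-- one step of the chain -/
def stF (o j : ℕ) : Fm :=
  Fm.and (Fm.eq (Tm.var (2 * (o + j + 1))) (Tm.add (Tm.mul (Tm.var (2 * (o + j)))
      (Tm.var (2 * (o + 1)))) (Tm.neg (Tm.mul (Tm.var (2 * (o + j) + 1))
      (Tm.var (2 * (o + 1) + 1))))))
    (Fm.eq (Tm.var (2 * (o + j + 1) + 1)) (Tm.add (Tm.mul (Tm.var (2 * (o + j)))
      (Tm.var (2 * (o + 1) + 1))) (Tm.mul (Tm.var (2 * (o + j) + 1)) (Tm.var (2 * (o + 1))))))

/-- a point in the open first quadrant -/
def posF (v : ℕ) : Fm := Fm.and (Fm.lt Tm.zero (Tm.var (2 * v))) (Fm.lt Tm.zero (Tm.var (2 * v + 1)))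

theorem eval_ipF (x : ℕ → ℝ) (v u w : ℕ) : (ipF v u w).eval x =
    dt (ptOf x u - ptOf x v) (ptOf x w - ptOf x v) := by
  simp only [ipF, dT, Tm.eval, dt, ptOf, Prod.fst_sub, Prod.snd_sub, add_zero]
  ring

theorem eval_orT (x : ℕ → ℝ) (a b c : ℕ) : (orT a b c).eval x =
    cr (ptOf x b - ptOf x a) (ptOf x c - ptOf x a) := by
  simp only [orT, dT, Tm.eval, cr, ptOf, Prod.fst_sub, Prod.snd_sub, add_zero]
  ring

theorem holds_angF (x : ℕ → ℝ) (c v u w : ℕ) : (angF c v u w).Holds x ↔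
    AngC (x c) (ptOf x u - ptOf x v) (ptOf x w - ptOf x v) := by
  simp only [angF, Fm.Holds, Tm.eval, eval_ipF, AngC, sq]

theorem holds_crossF (x : ℕ → ℝ) (a b c d : ℕ) : (crossF a b c d).Holds x ↔
    ¬ (cr (ptOf x b - ptOf x a) (ptOf x c - ptOf x a) *
        cr (ptOf x b - ptOf x a) (ptOf x d - ptOf x a) < 0 ∧
      cr (ptOf x d - ptOf x c) (ptOf x a - ptOf x c) *
        cr (ptOf x d - ptOf x c) (ptOf x b - ptOf x c) < 0) := by
  simp only [crossF, Fm.Holds, Tm.eval, eval_orT]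

theorem holds_stF (x : ℕ → ℝ) (o j : ℕ) : (stF o j).Holds x ↔ ptOf x (o + j + 1) =
    ((ptOf x (o + j)).1 * (ptOf x (o + 1)).1 - (ptOf x (o + j)).2 * (ptOf x (o + 1)).2,
      (ptOf x (o + j)).1 * (ptOf x (o + 1)).2 + (ptOf x (o + j)).2 * (ptOf x (o + 1)).1) := by
  simp only [stF, Fm.Holds, Tm.eval, ptOf, Prod.mk.injEq, sub_eq_add_neg]

theorem holds_posF (x : ℕ → ℝ) (v : ℕ) : (posF v).Holds x ↔
    0 < (ptOf x v).1 ∧ 0 < (ptOf x v).2 := by
  simp only [posF, Fm.Holds, Tm.eval, ptOf]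

/-- conditions for a drawing with the points from number `o` -/
def cA (o : ℕ) (L : List (List ℕ)) : List Fm :=
  ((List.range L.length).flatMap fun u => (List.range L.length).map fun v =>
    if v = u then tt else neF (o + u) (o + v)) ++
  (eL L).flatMap fun e => (List.range L.length).map fun w => segF (o + e.1) (o + e.2) (o + w)

/-- conditions for planarity -/
def cX (L : List (List ℕ)) : List Fm :=
  (eL L).flatMap fun e => (eL L).map fun f =>
    if e.1 ≠ f.1 ∧ e.1 ≠ f.2 ∧ e.2 ≠ f.1 ∧ e.2 ≠ f.2 then crossF e.1 e.2 f.1 f.2 else tt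

/-- conditions for the angles -/
def cG (o c : ℕ) (L : List (List ℕ)) : List Fm :=
  (eL L).flatMap fun e => (eL L).map fun f =>
    if e.1 = f.1 ∧ e.2 ≠ f.2 then angF c (o + e.1) (o + e.2) (o + f.2) else tt

/-- conditions for the chain -/
def cC (o K : ℕ) : List Fm :=
  ([Fm.eq (Tm.var (2 * o)) Tm.one, Fm.eq (Tm.var (2 * o + 1)) Tm.zero,
    Fm.eq (Tm.var (2 * (o + K))) Tm.zero, Fm.eq (Tm.var (2 * (o + K) + 1)) Tm.one] ++
  (List.range K).map fun j => stF o j) ++ (List.range (K - 1)).map fun j => posF (o + j + 1)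

theorem holds_cA (x : ℕ → ℝ) (o : ℕ) (L : List (List ℕ)) : (∀ φ ∈ cA o L, φ.Holds x) ↔
    (∀ u < L.length, ∀ v < L.length, v ≠ u → ptOf x (o + u) ≠ ptOf x (o + v)) ∧
    (∀ u < L.length, ∀ v ∈ L.getD u [], ∀ w < L.length,
      (segF (o + u) (o + v) (o + w)).Holds x) := by
  unfold cA
  constructor
  · intro h
    constructor
    · intro u hu v hv huv
      have := h (if v = u then tt else neF (o + u) (o + v)) (List.mem_append.2 (Or.inl
        (List.mem_flatMap.2 ⟨u, List.mem_range.2 hu, List.mem_map.2 ⟨v, List.mem_range.2 hv,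
          rfl⟩⟩)))
      rw [if_neg huv] at this
      exact (holds_neF _ _ _).1 this
    · intro u hu v hv w hw
      exact h _ (List.mem_append.2 (Or.inr (List.mem_flatMap.2 ⟨(u, v), mem_eL.2 ⟨hu, hv⟩,
        List.mem_map.2 ⟨w, List.mem_range.2 hw, rfl⟩⟩)))
  · rintro ⟨h1, h2⟩ φ hφ
    rcases List.mem_append.1 hφ with h | h
    · obtain ⟨u, hu, h⟩ := List.mem_flatMap.1 h
      obtain ⟨v, hv, rfl⟩ := List.mem_map.1 h
      by_cases huv : v = u
      · rw [if_pos huv]; exact holds_tt x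
      · rw [if_neg huv]
        exact (holds_neF _ _ _).2 (h1 u (List.mem_range.1 hu) v (List.mem_range.1 hv) huv)
    · obtain ⟨⟨u, v⟩, he, h⟩ := List.mem_flatMap.1 h
      obtain ⟨w, hw, rfl⟩ := List.mem_map.1 h
      obtain ⟨hu, hv⟩ := mem_eL.1 he
      exact h2 u hu v hv w (List.mem_range.1 hw)

theorem holds_cX (x : ℕ → ℝ) (L : List (List ℕ)) : (∀ φ ∈ cX L, φ.Holds x) ↔
    ∀ u < L.length, ∀ v ∈ L.getD u [], ∀ u' < L.length, ∀ v' ∈ L.getD u' [],
      u ≠ u' → u ≠ v' → v ≠ u' → v ≠ v' → (crossF u v u' v').Holds x := by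
  unfold cX
  constructor
  · intro h u hu v hv u' hu' v' hv' h1 h2 h3 h4
    have := h (if (u, v).1 ≠ (u', v').1 ∧ (u, v).1 ≠ (u', v').2 ∧ (u, v).2 ≠ (u', v').1 ∧
      (u, v).2 ≠ (u', v').2 then crossF (u, v).1 (u, v).2 (u', v').1 (u', v').2 else tt)
      (List.mem_flatMap.2 ⟨(u, v), mem_eL.2 ⟨hu, hv⟩, List.mem_map.2 ⟨(u', v'),
        mem_eL.2 ⟨hu', hv'⟩, rfl⟩⟩)
    rw [if_pos ⟨h1, h2, h3, h4⟩] at this
    exact this
  · intro h φ hφ
    obtain ⟨⟨u, v⟩, he, hφ⟩ := List.mem_flatMap.1 hφ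
    obtain ⟨⟨u', v'⟩, hf, rfl⟩ := List.mem_map.1 hφ
    obtain ⟨hu, hv⟩ := mem_eL.1 he
    obtain ⟨hu', hv'⟩ := mem_eL.1 hf
    split_ifs with hc
    · exact h u hu v hv u' hu' v' hv' hc.1 hc.2.1 hc.2.2.1 hc.2.2.2
    · exact holds_tt x

theorem holds_cG (x : ℕ → ℝ) (o c : ℕ) (L : List (List ℕ)) : (∀ φ ∈ cG o c L, φ.Holds x) ↔
    ∀ v < L.length, ∀ u ∈ L.getD v [], ∀ w ∈ L.getD v [], u ≠ w →
      AngC (x c) (ptOf x (o + u) - ptOf x (o + v)) (ptOf x (o + w) - ptOf x (o + v)) := by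
  unfold cG
  constructor
  · intro h v hv u hu w hw huw
    have := h (if (v, u).1 = (v, w).1 ∧ (v, u).2 ≠ (v, w).2 then
      angF c (o + (v, u).1) (o + (v, u).2) (o + (v, w).2) else tt)
      (List.mem_flatMap.2 ⟨(v, u), mem_eL.2 ⟨hv, hu⟩, List.mem_map.2 ⟨(v, w),
        mem_eL.2 ⟨hv, hw⟩, rfl⟩⟩)
    rw [if_pos ⟨rfl, huw⟩] at this
    exact (holds_angF _ _ _ _ _).1 this
  · intro h φ hφ
    obtain ⟨⟨v, u⟩, he, hφ⟩ := List.mem_flatMap.1 hφ
    obtain ⟨⟨v', w⟩, hf, rfl⟩ := List.mem_map.1 hφ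
    obtain ⟨hv, hu⟩ := mem_eL.1 he
    obtain ⟨hv', hw⟩ := mem_eL.1 hf
    split_ifs with hc
    · obtain ⟨h1, h2⟩ := hc
      simp only at h1 h2
      subst h1
      exact (holds_angF _ _ _ _ _).2 (h v hv u hu w hw h2)
    · exact holds_tt x

theorem holds_cC (x : ℕ → ℝ) (o K : ℕ) : (∀ φ ∈ cC o K, φ.Holds x) ↔
    ptOf x o = (1, 0) ∧ ptOf x (o + K) = (0, 1) ∧ (∀ j < K, ptOf x (o + (j + 1)) =
    ((ptOf x (o + j)).1 * (ptOf x (o + 1)).1 - (ptOf x (o + j)).2 * (ptOf x (o + 1)).2,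
      (ptOf x (o + j)).1 * (ptOf x (o + 1)).2 + (ptOf x (o + j)).2 * (ptOf x (o + 1)).1)) ∧
    (∀ j, 1 ≤ j → j < K → 0 < (ptOf x (o + j)).1 ∧ 0 < (ptOf x (o + j)).2) := by
  unfold cC
  constructor
  · intro h
    refine ⟨?_, ?_, ?_, ?_⟩
    · have h1 := h (Fm.eq (Tm.var (2 * o)) Tm.one) (by simp)
      have h2 := h (Fm.eq (Tm.var (2 * o + 1)) Tm.zero) (by simp)
      exact Prod.ext h1 h2
    · have h1 := h (Fm.eq (Tm.var (2 * (o + K))) Tm.zero) (by simp)
      have h2 := h (Fm.eq (Tm.var (2 * (o + K) + 1)) Tm.one) (by simp)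
      exact Prod.ext h1 h2
    · intro j hj
      exact (holds_stF _ _ _).1 (h _ (List.mem_append.2 (Or.inl (List.mem_append.2 (Or.inr
        (List.mem_map.2 ⟨j, List.mem_range.2 hj, rfl⟩))))))
    · intro j h1 h2
      have h3 := h (posF (o + (j - 1) + 1)) (List.mem_append.2 (Or.inr
        (List.mem_map.2 ⟨j - 1, List.mem_range.2 (by omega), rfl⟩)))
      rw [show o + (j - 1) + 1 = o + j by omega] at h3
      exact (holds_posF _ _).1 h3
  · rintro ⟨h1, h2, h3, h4⟩ φ hφ
    rcases List.mem_append.1 hφ with h | h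
    · rcases List.mem_append.1 h with h | h
      · simp only [List.mem_cons, List.not_mem_nil, or_false] at h
        rcases h with rfl | rfl | rfl | rfl
        · exact congrArg Prod.fst h1
        · exact congrArg Prod.snd h1
        · exact congrArg Prod.fst h2
        · exact congrArg Prod.snd h2
      · obtain ⟨j, hj, rfl⟩ := List.mem_map.1 h
        exact (holds_stF _ _ _).2 (h3 j (List.mem_range.1 hj))
    · obtain ⟨j, hj, rfl⟩ := List.mem_map.1 h
      rw [List.mem_range] at hj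
      have := h4 (j + 1) (by omega) (by omega)
      exact (holds_posF _ _).2 this

/-- the length of the chain -/
def kk (x : List (List ℕ) × ℕ) : ℕ := min x.2 (x.1.length + 2)

/-- the number of the first point of the chain -/
def oo (x : List (List ℕ) × ℕ) : ℕ := x.1.length + x.1.length

/-- the list of all conditions -/
def cAll (x : List (List ℕ) × ℕ) : List Fm :=
  ((cA 0 x.1 ++ cX x.1) ++ (cA x.1.length x.1 ++ cG x.1.length (2 * (oo x + 1)) x.1)) ++
    cC (oo x) (kk x)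

/-- the formula -/
def form (x : List (List ℕ) × ℕ) : Fm :=
  if chk x.1 = true ∧ 2 ≤ x.2 then conj (cAll x) else ff

theorem holds_cAll (y : ℕ → ℝ) (x : List (List ℕ) × ℕ) : (conj (cAll x)).Holds y ↔
    ((∀ φ ∈ cA 0 x.1, φ.Holds y) ∧ (∀ φ ∈ cX x.1, φ.Holds y)) ∧
    ((∀ φ ∈ cA x.1.length x.1, φ.Holds y) ∧
      (∀ φ ∈ cG x.1.length (2 * (oo x + 1)) x.1, φ.Holds y)) ∧
    (∀ φ ∈ cC (oo x) (kk x), φ.Holds y) := by
  rw [holds_conj]
  unfold cAll
  simp only [List.mem_append]
  constructor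
  · intro h
    exact ⟨⟨fun φ hφ => h φ (Or.inl (Or.inl (Or.inl hφ))),
      fun φ hφ => h φ (Or.inl (Or.inl (Or.inr hφ)))⟩,
      ⟨fun φ hφ => h φ (Or.inl (Or.inr (Or.inl hφ))),
      fun φ hφ => h φ (Or.inl (Or.inr (Or.inr hφ)))⟩, fun φ hφ => h φ (Or.inr hφ)⟩
  · rintro ⟨⟨h1, h2⟩, ⟨h3, h4⟩, h5⟩ φ (((h | h) | (h | h)) | h)
    · exact h1 φ h
    · exact h2 φ h
    · exact h3 φ h
    · exact h4 φ h
    · exact h5 φ h

/-- a drawing in coordinates and the first conditions -/
theorem dr_of_cA {L : List (List ℕ)} (h : IsGraph L) {x : ℕ → ℝ} {o : ℕ}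
    (hx : ∀ φ ∈ cA o L, φ.Holds x) :
    Dr (graphOf L h) (fun v : Fin L.length => ptOf x (o + v.1)) := by
  obtain ⟨h1, h2⟩ := (holds_cA _ _ _).1 hx
  constructor
  · intro u v huv
    by_contra hne
    exact h1 u.1 u.2 v.1 v.2 (fun e => hne (Fin.ext e.symm)) huv
  · intro u v w huv hwu hwv hmem
    have hv' := h u.1 v.1 u.2 huv
    have hne := h1 u.1 u.2 v.1 v.2 hv'.2.1
    have h3 := (holds_segF _ _ _ _ hne).1 (h2 u.1 u.2 v.1 huv w.1 w.2)
    rw [← insert_endpoints_openSegment] at hmem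
    rcases hmem with hm | hm | hm
    · exact h1 w.1 w.2 u.1 u.2 (fun e => hwu (Fin.ext e.symm)) hm
    · exact h1 w.1 w.2 v.1 v.2 (fun e => hwv (Fin.ext e.symm)) hm
    · exact h3 hm

theorem cA_of_dr {L : List (List ℕ)} (h : IsGraph L) {x : ℕ → ℝ} {o : ℕ}
    {p : Fin L.length → ℝ × ℝ} (hp : Dr (graphOf L h) p)
    (hx : ∀ v : Fin L.length, ptOf x (o + v.1) = p v) : ∀ φ ∈ cA o L, φ.Holds x := by
  rw [holds_cA]
  have hne : ∀ u < L.length, ∀ v < L.length, v ≠ u → ptOf x (o + u) ≠ ptOf x (o + v) := by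
    intro u hu v hv huv he
    rw [hx ⟨u, hu⟩, hx ⟨v, hv⟩] at he
    have := hp.inj he
    simp only [Fin.mk.injEq] at this
    exact huv this.symm
  refine ⟨hne, fun u hu v hv w hw => ?_⟩
  have hv' := h u v hu hv
  have hn := hne u hu v hv'.1 hv'.2.1
  rw [holds_segF _ _ _ _ hn]
  intro hm
  by_cases h1 : w = u
  · subst h1
    exact hn ((left_mem_openSegment_iff).1 hm)
  by_cases h2 : w = v
  · subst h2
    exact hn ((right_mem_openSegment_iff).1 hm)
  rw [hx ⟨u, hu⟩, hx ⟨v, hv'.1⟩, hx ⟨w, hw⟩] at hm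
  exact hp.edge ⟨u, hu⟩ ⟨v, hv'.1⟩ ⟨w, hw⟩ hv (by simpa using h1) (by simpa using h2)
    (openSegment_subset_segment _ _ _ hm)

theorem form_correct (x : List (List ℕ) × ℕ) :
    (∃ h : IsGraph x.1, 2 ≤ x.2 ∧ IsPlanar (graphOf x.1 h) ∧
      HasDrawing (π / (2 * x.2)) (graphOf x.1 h)) ↔ ETR (form x) := by
  unfold form
  by_cases hc : chk x.1 = true ∧ 2 ≤ x.2
  swap
  · rw [if_neg hc]
    constructor
    · rintro ⟨h, h2, -⟩
      exact absurd ⟨(chk_iff x.1).2 h, h2⟩ hc
    · intro h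
      exact absurd h not_etr_ff
  rw [if_pos hc]
  obtain ⟨hc1, hk2⟩ := hc
  have hG := (chk_iff x.1).1 hc1
  have hK2 : 2 ≤ kk x := by unfold kk; omega
  have hK0 : (0 : ℝ) < kk x := by
    have : 0 < kk x := by omega
    exact_mod_cast this
  have hk0 : (0 : ℝ) < x.2 := by
    have : 0 < x.2 := by omega
    exact_mod_cast this
  have hK2' : (2 : ℝ) ≤ kk x := by exact_mod_cast hK2
  have hk2' : (2 : ℝ) ≤ x.2 := by exact_mod_cast hk2
  have hb : ∀ m : ℝ, 2 ≤ m → 0 ≤ π / (2 * m) ∧ π / (2 * m) ≤ π / 2 := by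
    intro m hm
    refine ⟨by positivity, ?_⟩
    apply div_le_div_of_nonneg_left pi_pos.le (by norm_num)
    linarith
  obtain ⟨a0, a1⟩ := hb _ hK2'
  obtain ⟨b0, b1⟩ := hb _ hk2'
  -- the threshold may be replaced
  have hthr : HasDrawing (π / (2 * x.2)) (graphOf x.1 hG) ↔
      HasDrawing (π / (2 * (kk x : ℕ))) (graphOf x.1 hG) := by
    by_cases hle : x.2 ≤ x.1.length + 2
    · have : kk x = x.2 := min_eq_left hle
      rw [this]
    · have e : kk x = x.1.length + 2 := min_eq_right (by omega)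
      constructor
      · intro _
        exact (has_iff a0 a1 _).2 (circ (by omega) _)
      · intro _
        exact (has_iff b0 b1 _).2 (circ (by omega) _)
  constructor
  · rintro ⟨h, -, h1, h2⟩
    obtain ⟨p, hp, hpx⟩ := (planar_iff _).1 h1
    obtain ⟨q, hq, hqx⟩ := (has_iff a0 a1 _).1 (hthr.1 h2)
    let pt : ℕ → ℝ × ℝ := fun v => if hv : v < x.1.length then p ⟨v, hv⟩ else
      if hv : v - x.1.length < x.1.length then q ⟨v - x.1.length, hv⟩ else
      (cos ((v - oo x : ℕ) * (π / (2 * kk x))), sin ((v - oo x : ℕ) * (π / (2 * kk x))))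
    let y : ℕ → ℝ := fun i => if i % 2 = 0 then (pt (i / 2)).1 else (pt (i / 2)).2
    have hy : ∀ v, ptOf y v = pt v := by
      intro v
      simp only [ptOf, y]
      rw [if_pos (by omega), if_neg (by omega), show 2 * v / 2 = v by omega,
        show (2 * v + 1) / 2 = v by omega]
    have hp1 : ∀ v : Fin x.1.length, ptOf y (0 + v.1) = p v := by
      intro v
      rw [hy, zero_add]
      simp only [pt]
      rw [dif_pos v.2]
    have hp2 : ∀ v : Fin x.1.length, ptOf y (x.1.length + v.1) = q v := by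
      intro v
      rw [hy]
      simp only [pt]
      rw [dif_neg (by omega)]
      simp only [Nat.add_sub_cancel_left]
      rw [dif_pos v.2]
    have hp3 : ∀ j : ℕ, ptOf y (oo x + j) = (cos (j * (π / (2 * kk x))),
        sin (j * (π / (2 * kk x)))) := by
      intro j
      rw [hy]
      simp only [pt]
      rw [dif_neg (by unfold oo; omega), dif_neg (by unfold oo; omega),
        Nat.add_sub_cancel_left]
    have hcy : y (2 * (oo x + 1)) = cos (π / (2 * kk x)) := by
      have h3 := congrArg Prod.fst (hp3 1)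
      simp only [Nat.cast_one, one_mul] at h3
      exact h3
    refine ⟨y, (holds_cAll _ _).2 ⟨⟨cA_of_dr h hp hp1, ?_⟩, ⟨cA_of_dr h hq hp2, ?_⟩, ?_⟩⟩
    · rw [holds_cX]
      intro u hu v hv u' hu' v' hv' h3 h4 h5 h6
      have g1 := h u v hu hv
      have g2 := h u' v' hu' hv'
      have e1 : ptOf y u = p ⟨u, hu⟩ := by have := hp1 ⟨u, hu⟩; simpa using this
      have e2 : ptOf y v = p ⟨v, g1.1⟩ := by have := hp1 ⟨v, g1.1⟩; simpa using this
      have e3 : ptOf y u' = p ⟨u', hu'⟩ := by have := hp1 ⟨u', hu'⟩; simpa using this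
      have e4 : ptOf y v' = p ⟨v', g2.1⟩ := by have := hp1 ⟨v', g2.1⟩; simpa using this
      rw [holds_crossF, e1, e2, e3, e4]
      refine (disj_iff ?_ ?_ ?_ ?_ ?_ ?_).1 (hpx ⟨u, hu⟩ ⟨v, g1.1⟩ ⟨u', hu'⟩ ⟨v', g2.1⟩ hv hv'
        (by simpa using h3) (by simpa using h4) (by simpa using h5) (by simpa using h6))
      · intro e; have := hp.inj e; simp only [Fin.mk.injEq] at this; exact g1.2.1 this.symm
      · intro e; have := hp.inj e; simp only [Fin.mk.injEq] at this; exact g2.2.1 this.symm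
      · exact hp.edge _ _ _ hv (by simpa using h3.symm) (by simpa using h5.symm)
      · exact hp.edge _ _ _ hv (by simpa using h4.symm) (by simpa using h6.symm)
      · exact hp.edge _ _ _ hv' (by simpa using h3) (by simpa using h4)
      · exact hp.edge _ _ _ hv' (by simpa using h5) (by simpa using h6)
    · rw [holds_cG]
      intro v hv u hu w hw huw
      have g1 := h v u hv hu
      have g2 := h v w hv hw
      have := hqx ⟨v, hv⟩ ⟨u, g1.1⟩ ⟨w, g2.1⟩ hu hw (by simpa using huw)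
      rw [hcy, hp2 ⟨v, hv⟩, hp2 ⟨u, g1.1⟩, hp2 ⟨w, g2.1⟩]
      exact this
    · rw [holds_cC]
      refine ⟨?_, ?_, ?_, ?_⟩
      · have := hp3 0
        simpa using this
      · rw [hp3]
        have : (kk x : ℝ) * (π / (2 * kk x)) = π / 2 := by field_simp
        rw [this, cos_pi_div_two, sin_pi_div_two]
      · intro j hj
        rw [hp3, hp3, hp3]
        have : ((j + 1 : ℕ) : ℝ) * (π / (2 * kk x)) = j * (π / (2 * kk x)) +
          (1 : ℕ) * (π / (2 * kk x)) := by push_cast; ring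
        rw [this, cos_add, sin_add]
        refine Prod.ext ?_ ?_ <;> simp only <;> ring
      · intro j h3 h4
        rw [hp3]
        have h3' : (1 : ℝ) ≤ j := by exact_mod_cast h3
        have h4' : (j : ℝ) < kk x := by exact_mod_cast h4
        have c1 : 0 < (j : ℝ) * (π / (2 * kk x)) := by positivity
        have c2 : (j : ℝ) * (π / (2 * kk x)) < π / 2 := by
          have : π / 2 = kk x * (π / (2 * kk x)) := by field_simp
          rw [this]
          exact mul_lt_mul_of_pos_right h4' (by positivity)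
        exact ⟨cos_pos_of_mem_Ioo ⟨by linarith, c2⟩, sin_pos_of_pos_of_lt_pi c1 (by linarith)⟩
  · rintro ⟨y, hy⟩
    obtain ⟨⟨h1, h2⟩, ⟨h3, h4⟩, h5⟩ := (holds_cAll _ _).1 hy
    refine ⟨hG, hk2, ?_, ?_⟩
    · have hd := dr_of_cA hG h1
      simp only [zero_add] at hd
      refine (planar_iff _).2 ⟨_, hd, ?_⟩
      intro u v u' v' g1 g2 g3 g4 g5 g6
      have gg1 := hG u.1 v.1 u.2 g1
      have gg2 := hG u'.1 v'.1 u'.2 g2
      refine (disj_iff ?_ ?_ ?_ ?_ ?_ ?_).2 ((holds_crossF _ _ _ _ _).1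
        ((holds_cX _ _).1 h2 u.1 u.2 v.1 g1 u'.1 u'.2 v'.1 g2 (fun e => g3 (Fin.ext e))
          (fun e => g4 (Fin.ext e)) (fun e => g5 (Fin.ext e)) (fun e => g6 (Fin.ext e))))
      · intro e; exact gg1.2.1 (congrArg Fin.val (hd.inj e)).symm
      · intro e; exact gg2.2.1 (congrArg Fin.val (hd.inj e)).symm
      · exact hd.edge _ _ _ g1 g3.symm g5.symm
      · exact hd.edge _ _ _ g1 g4.symm g6.symm
      · exact hd.edge _ _ _ g2 g3 g4
      · exact hd.edge _ _ _ g2 g5 g6
    · rw [hthr]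
      obtain ⟨c1, c2, c3, c4⟩ := (holds_cC _ _ _).1 h5
      have hch := chain hK2 (P := fun j => ptOf y (oo x + j)) c1 c2 c3 c4
      have hcy : y (2 * (oo x + 1)) = cos (π / (2 * kk x)) := hch
      rw [holds_cG, hcy] at h4
      refine (has_iff a0 a1 _).2 ⟨_, dr_of_cA hG h3, ?_⟩
      intro v u w g1 g2 g3
      exact h4 v.1 v.2 u.1 g1 w.1 g2 (fun e => g3 (Fin.ext e))

end ME

end Pool.Agent.H670R3

/-! ### Polynomial time -/

namespace Pool.Agent.NPC.H670R3ME

open Pool.Agent.NPC Pool.Agent.NPC.ER Pool.Agent.H670R2 Pool.Agent.NPC.H670R2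
open Pool.Agent.H670R3.ME

section

variable {α : Type} [TEnc α]

theorem poly_ipF {v u w : α → ℕ} (hv : Poly v) (hu : Poly u) (hw : Poly w) :
    Poly (fun a => ipF (v a) (u a) (w a)) :=
  poly_tadd (poly_tmul (poly_dT 0 hv hu) (poly_dT 0 hv hw))
    (poly_tmul (poly_dT 1 hv hu) (poly_dT 1 hv hw))

theorem poly_angF {c v u w : α → ℕ} (hc : Poly c) (hv : Poly v) (hu : Poly u) (hw : Poly w) :
    Poly (fun a => angF (c a) (v a) (u a) (w a)) :=
  poly_or (poly_le (poly_ipF hv hu hw) (Poly.const _)) (poly_le (poly_tmul (poly_ipF hv hu hw)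
    (poly_ipF hv hu hw)) (poly_tmul (poly_tmul (poly_tvar hc) (poly_tvar hc))
      (poly_tmul (poly_ipF hv hu hu) (poly_ipF hv hw hw))))

theorem poly_orT {a b c : α → ℕ} (ha : Poly a) (hb : Poly b) (hc : Poly c) :
    Poly (fun z => orT (a z) (b z) (c z)) :=
  poly_tadd (poly_tmul (poly_dT 0 ha hb) (poly_dT 1 ha hc))
    (poly_tneg (poly_tmul (poly_dT 1 ha hb) (poly_dT 0 ha hc)))

theorem poly_crossF {a b c d : α → ℕ} (ha : Poly a) (hb : Poly b) (hc : Poly c) (hd : Poly d) :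
    Poly (fun z => crossF (a z) (b z) (c z) (d z)) :=
  poly_not (poly_and (poly_lt (poly_tmul (poly_orT ha hb hc) (poly_orT ha hb hd)) (Poly.const _))
    (poly_lt (poly_tmul (poly_orT hc hd ha) (poly_orT hc hd hb)) (Poly.const _)))

theorem poly_v0 {v : α → ℕ} (hv : Poly v) : Poly (fun a => Tm.var (2 * v a)) :=
  poly_tvar (Poly.mul (Poly.const 2) hv)

theorem poly_v1 {v : α → ℕ} (hv : Poly v) : Poly (fun a => Tm.var (2 * v a + 1)) :=
  poly_tvar (Poly.add (Poly.mul (Poly.const 2) hv) (Poly.const 1))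

theorem poly_stF {o j : α → ℕ} (ho : Poly o) (hj : Poly j) :
    Poly (fun a => stF (o a) (j a)) := by
  have h1 : Poly (fun a => o a + j a) := Poly.add ho hj
  have h2 : Poly (fun a => o a + j a + 1) := Poly.add h1 (Poly.const 1)
  have h3 : Poly (fun a => o a + 1) := Poly.add ho (Poly.const 1)
  exact poly_and (poly_eq (poly_v0 h2) (poly_tadd (poly_tmul (poly_v0 h1) (poly_v0 h3))
    (poly_tneg (poly_tmul (poly_v1 h1) (poly_v1 h3))))) (poly_eq (poly_v1 h2)
    (poly_tadd (poly_tmul (poly_v0 h1) (poly_v1 h3)) (poly_tmul (poly_v1 h1) (poly_v0 h3))))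

theorem poly_posF {v : α → ℕ} (hv : Poly v) : Poly (fun a => posF (v a)) :=
  poly_and (poly_lt (Poly.const _) (poly_v0 hv)) (poly_lt (Poly.const _) (poly_v1 hv))

theorem poly_eL {L : α → List (List ℕ)} (hL : Poly L) : Poly (fun a => eL (L a)) := by
  refine Poly.flatMap (F := fun _ (p : List ℕ × ℕ) => p.1.map fun v => (p.2, v))
    (Poly.zipIdx hL) ?_
  exact Poly.map (l := fun q : α × (List ℕ × ℕ) => q.2.1) (F := fun q v => (q.2.2, v))
    (Poly.fst (Poly.snd Poly.id)) (Poly.pair (Poly.snd (Poly.snd (Poly.fst Poly.id)))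
      (Poly.snd Poly.id))

theorem poly_cA {o : α → ℕ} {L : α → List (List ℕ)} (ho : Poly o) (hL : Poly L) :
    Poly (fun a => cA (o a) (L a)) := by
  refine Poly.append ?_ ?_
  · refine Poly.flatMap (F := fun a u => (List.range (L a).length).map fun v =>
      if v = u then tt else neF (o a + u) (o a + v)) (Poly.range_length hL) ?_
    refine Poly.map (l := fun q : α × ℕ => List.range (L q.1).length)
      (F := fun q v => if v = q.2 then tt else neF (o q.1 + q.2) (o q.1 + v))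
      (Poly.range_length (hL.comp (Poly.fst Poly.id))) ?_
    have ho' : Poly (fun q : (α × ℕ) × ℕ => o q.1.1) := ho.comp (Poly.fst (Poly.fst Poly.id))
    exact Poly.ite (Poly.decide_eq (Poly.snd Poly.id) (Poly.snd (Poly.fst Poly.id)))
      (Poly.const _) (poly_neF (Poly.add ho' (Poly.snd (Poly.fst Poly.id)))
        (Poly.add ho' (Poly.snd Poly.id)))
  · refine Poly.flatMap (F := fun a (e : ℕ × ℕ) => (List.range (L a).length).map fun w =>
      segF (o a + e.1) (o a + e.2) (o a + w)) (poly_eL hL) ?_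
    refine Poly.map (l := fun q : α × (ℕ × ℕ) => List.range (L q.1).length)
      (F := fun q w => segF (o q.1 + q.2.1) (o q.1 + q.2.2) (o q.1 + w))
      (Poly.range_length (hL.comp (Poly.fst Poly.id))) ?_
    have ho' : Poly (fun q : (α × (ℕ × ℕ)) × ℕ => o q.1.1) :=
      ho.comp (Poly.fst (Poly.fst Poly.id))
    exact poly_segF (Poly.add ho' (Poly.fst (Poly.snd (Poly.fst Poly.id))))
      (Poly.add ho' (Poly.snd (Poly.snd (Poly.fst Poly.id)))) (Poly.add ho' (Poly.snd Poly.id))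

theorem poly_cX {L : α → List (List ℕ)} (hL : Poly L) : Poly (fun a => cX (L a)) := by
  refine Poly.flatMap (F := fun a (e : ℕ × ℕ) => (eL (L a)).map fun f =>
    if e.1 ≠ f.1 ∧ e.1 ≠ f.2 ∧ e.2 ≠ f.1 ∧ e.2 ≠ f.2 then crossF e.1 e.2 f.1 f.2 else tt)
    (poly_eL hL) ?_
  refine Poly.map (l := fun q : α × (ℕ × ℕ) => eL (L q.1)) (F := fun q (f : ℕ × ℕ) =>
    if q.2.1 ≠ f.1 ∧ q.2.1 ≠ f.2 ∧ q.2.2 ≠ f.1 ∧ q.2.2 ≠ f.2 then
      crossF q.2.1 q.2.2 f.1 f.2 else tt) (poly_eL (hL.comp (Poly.fst Poly.id))) ?_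
  have e1 : Poly (fun q : (α × (ℕ × ℕ)) × (ℕ × ℕ) => q.1.2.1) :=
    Poly.fst (Poly.snd (Poly.fst Poly.id))
  have e2 : Poly (fun q : (α × (ℕ × ℕ)) × (ℕ × ℕ) => q.1.2.2) :=
    Poly.snd (Poly.snd (Poly.fst Poly.id))
  have f1 : Poly (fun q : (α × (ℕ × ℕ)) × (ℕ × ℕ) => q.2.1) := Poly.fst (Poly.snd Poly.id)
  have f2 : Poly (fun q : (α × (ℕ × ℕ)) × (ℕ × ℕ) => q.2.2) := Poly.snd (Poly.snd Poly.id)
  exact Poly.ite (Poly.decide_and (Poly.decide_not (Poly.decide_eq e1 f1)) (Poly.decide_and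
    (Poly.decide_not (Poly.decide_eq e1 f2)) (Poly.decide_and
    (Poly.decide_not (Poly.decide_eq e2 f1)) (Poly.decide_not (Poly.decide_eq e2 f2)))))
    (poly_crossF e1 e2 f1 f2) (Poly.const _)

theorem poly_cG {o c : α → ℕ} {L : α → List (List ℕ)} (ho : Poly o) (hc : Poly c)
    (hL : Poly L) : Poly (fun a => cG (o a) (c a) (L a)) := by
  refine Poly.flatMap (F := fun a (e : ℕ × ℕ) => (eL (L a)).map fun f =>
    if e.1 = f.1 ∧ e.2 ≠ f.2 then angF (c a) (o a + e.1) (o a + e.2) (o a + f.2) else tt)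
    (poly_eL hL) ?_
  refine Poly.map (l := fun q : α × (ℕ × ℕ) => eL (L q.1)) (F := fun q (f : ℕ × ℕ) =>
    if q.2.1 = f.1 ∧ q.2.2 ≠ f.2 then
      angF (c q.1) (o q.1 + q.2.1) (o q.1 + q.2.2) (o q.1 + f.2) else tt)
    (poly_eL (hL.comp (Poly.fst Poly.id))) ?_
  have e1 : Poly (fun q : (α × (ℕ × ℕ)) × (ℕ × ℕ) => q.1.2.1) :=
    Poly.fst (Poly.snd (Poly.fst Poly.id))
  have e2 : Poly (fun q : (α × (ℕ × ℕ)) × (ℕ × ℕ) => q.1.2.2) :=
    Poly.snd (Poly.snd (Poly.fst Poly.id))
  have f1 : Poly (fun q : (α × (ℕ × ℕ)) × (ℕ × ℕ) => q.2.1) := Poly.fst (Poly.snd Poly.id)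
  have f2 : Poly (fun q : (α × (ℕ × ℕ)) × (ℕ × ℕ) => q.2.2) := Poly.snd (Poly.snd Poly.id)
  have ho' : Poly (fun q : (α × (ℕ × ℕ)) × (ℕ × ℕ) => o q.1.1) :=
    ho.comp (Poly.fst (Poly.fst Poly.id))
  have hc' : Poly (fun q : (α × (ℕ × ℕ)) × (ℕ × ℕ) => c q.1.1) :=
    hc.comp (Poly.fst (Poly.fst Poly.id))
  exact Poly.ite (Poly.decide_and (Poly.decide_eq e1 f1) (Poly.decide_not (Poly.decide_eq e2 f2)))
    (poly_angF hc' (Poly.add ho' e1) (Poly.add ho' e2) (Poly.add ho' f2)) (Poly.const _)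

theorem poly_cC {o K : α → ℕ} (ho : Poly o) (hK : UPoly K) (hK1 : UPoly (fun a => K a - 1))
    (hKp : Poly K) : Poly (fun a => cC (o a) (K a)) := by
  refine Poly.append (Poly.append ?_ ?_) ?_
  · exact Poly.cons (poly_eq (poly_v0 ho) (Poly.const _)) (Poly.cons
      (poly_eq (poly_v1 ho) (Poly.const _)) (Poly.cons
      (poly_eq (poly_v0 (Poly.add ho hKp)) (Poly.const _)) (Poly.cons
      (poly_eq (poly_v1 (Poly.add ho hKp)) (Poly.const _)) (Poly.const []))))
  · exact Poly.map (F := fun a j => stF (o a) j) hK.range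
      (poly_stF (ho.comp (Poly.fst Poly.id)) (Poly.snd Poly.id))
  · exact Poly.map (F := fun a j => posF (o a + j + 1)) hK1.range
      (poly_posF (Poly.add (Poly.add (ho.comp (Poly.fst Poly.id)) (Poly.snd Poly.id))
        (Poly.const 1)))

end

theorem poly_kk : Poly kk :=
  Poly.min (Poly.snd Poly.id) (Poly.add (Poly.length (Poly.fst Poly.id)) (Poly.const 2))

theorem upoly_len2 : UPoly (fun x : List (List ℕ) × ℕ => x.1.length + 2) :=
  UPoly.add (UPoly.length (Poly.fst Poly.id)) (UPoly.const 2)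

theorem upoly_kk : UPoly kk := UPoly.of_le poly_kk upoly_len2 fun _ => min_le_right _ _

theorem upoly_kk1 : UPoly (fun x => kk x - 1) :=
  UPoly.of_le (Poly.sub poly_kk (Poly.const 1)) upoly_len2 fun _ =>
    (Nat.sub_le _ _).trans (min_le_right _ _)

theorem poly_form : Poly form := by
  have hL : Poly (fun x : List (List ℕ) × ℕ => x.1) := Poly.fst Poly.id
  have hn : Poly (fun x : List (List ℕ) × ℕ => x.1.length) := Poly.length hL
  have ho : Poly oo := Poly.add hn hn
  refine Poly.ite (p := fun x : List (List ℕ) × ℕ => chk x.1 = true ∧ 2 ≤ x.2)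
    (Poly.decide_and (Poly.decide_bool (poly_chk.comp (Poly.fst Poly.id)))
      (Poly.decide_le (Poly.const 2) (Poly.snd Poly.id))) (poly_conj ?_) (Poly.const _)
  refine Poly.append (Poly.append (Poly.append (poly_cA (Poly.const 0) hL) (poly_cX hL))
    (Poly.append (poly_cA hn hL) (poly_cG hn (Poly.mul (Poly.const 2)
      (Poly.add ho (Poly.const 1))) hL))) (poly_cC ho upoly_kk upoly_kk1 poly_kk)

end Pool.Agent.NPC.H670R3ME

namespace Pool.Agent.H670R3

open Pool.Agent.NPC Pool.Agent.NPC.ER Pool.Agent.H670R2 Pool.Agent.H670R2.Sl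

/-- The problem belongs to `∃ℝ`. -/
theorem mem_ok : InER PLANARAR :=
  Pool.Agent.NPC.H670R2.InER.of_poly Pool.Agent.NPC.H670R3ME.poly_form ME.form_correct

end Pool.Agent.H670R3
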