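import Pool.Agent.H670R3.Stm2
import Pool.Agent.H671R2.PolyAuto

/-!
# The system is computable in polynomial time
-/

namespace Pool.Agent.H670R3

open Pool.Agent.NPC Pool.Agent.NPC.ER Pool.Agent.H670R2 Pool.Agent.H670R2.Sl

theorem p2_syM {α : Type} [TEnc α] {B : α → ℕ} {c : α → Pc} (hB : NPC.Poly B)
    (hc : NPC.Poly c) : NPC.Poly (fun a => syM (B a) (c a)) := by
  unfold syM
  fun_prop

theorem p2_syS {α : Type} [TEnc α] {B : α → ℕ} {c : α → Pc} (hB : NPC.Poly B)
    (hc : NPC.Poly c) : NPC.Poly (fun a => syS (B a) (c a)) := by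
  unfold syS
  fun_prop

theorem p2_syE {α : Type} [TEnc α] {B : α → ℕ} {c : α → Pc} (hB : NPC.Poly B)
    (hc : NPC.Poly c) : NPC.Poly (fun a => syE (B a) (c a)) := by
  unfold syE
  fun_prop

theorem poly2_ok : St_poly2 := by
  intro α inst W cs hW hcs
  have hl : UPoly fun a => (cs a).length := UPoly.length hcs
  have hN : UPoly fun a => syN (W a) (cs a) := by
    unfold syN
    exact (hW.add ((UPoly.const 32).mul hl)).add (UPoly.const 2)
  refine ⟨hN, ?_⟩
  have h0 := hN.toPoly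
  have hW' := hW.toPoly
  have hz : NPC.Poly fun a => (cs a).zipIdx := NPC.Poly.zipIdx hcs
  have hW1 : NPC.Poly (fun p : α × (Pc × ℕ) => W p.1) := hW'.comp (NPC.Poly.fst NPC.Poly.id)
  have hB : NPC.Poly (fun p : α × (Pc × ℕ) => W p.1 + 32 * p.2.2) := by fun_prop
  have hc : NPC.Poly (fun p : α × (Pc × ℕ) => p.2.1) := by fun_prop
  have h1 : NPC.Poly fun a => (cs a).zipIdx.flatMap fun c => syM (W a + 32 * c.2) c.1 :=
    NPC.Poly.flatMap (F := fun a c => syM (W a + 32 * c.2) c.1) hz (p2_syM hB hc)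
  have h2 : NPC.Poly fun a => (cs a).zipIdx.flatMap fun c => syS (W a + 32 * c.2) c.1 :=
    NPC.Poly.flatMap (F := fun a c => syS (W a + 32 * c.2) c.1) hz (p2_syS hB hc)
  have h3 : NPC.Poly fun a => (cs a).zipIdx.flatMap fun c => syE (W a + 32 * c.2) c.1 :=
    NPC.Poly.flatMap (F := fun a c => syE (W a + 32 * c.2) c.1) hz (p2_syE hB hc)
  have h4 : NPC.Poly fun a => (W a + 32 * (cs a).length, W a + 32 * (cs a).length + 1) := by
    fun_prop
  exact NPC.Poly.pair h0 (NPC.Poly.pair h1 (NPC.Poly.pair h2 (NPC.Poly.cons h4 h3)))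

end Pool.Agent.H670R3
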